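import Pool.Agent.Lib.MP_0775d3_lc.Bf.Defs

/-! Elementary calculus of `Act`, `pm`, `swp`. -/

set_option linter.unusedSectionVars false
set_option linter.unusedVariables false

namespace MP0775d3.Bf

open Matrix MP0775d3.Kron

variable {F : Type*} [Field F] {ι : Type*} [Fintype ι] [DecidableEq ι]

theorem act_mul {σ σ' : Equiv.Perm ι} {U U' : Finset ι} {A B : Matrix (ι → Bool) (ι → Bool) F}
    (hA : Act σ U A) (hB : Act σ' U' B) : Act (σ * σ') (U ∪ U'.image σ) (A * B) := by
  intro x y hxy i hi
  rw [Matrix.mul_apply] at hxy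
  obtain ⟨z, _, hz⟩ := Finset.exists_ne_zero_of_sum_ne_zero hxy
  rw [Finset.mem_union, not_or] at hi
  have h1 := hA x z (left_ne_zero_of_mul hz) i hi.1
  have h2 : σ.symm i ∉ U' := fun h =>
    hi.2 (Finset.mem_image.2 ⟨σ.symm i, h, σ.apply_symm_apply i⟩)
  rw [h1, hB z y (right_ne_zero_of_mul hz) _ h2]
  rfl

theorem Act.mono {σ : Equiv.Perm ι} {U V : Finset ι} {A : Matrix (ι → Bool) (ι → Bool) F}
    (hA : Act σ U A) (hU : U ⊆ V) : Act σ V A :=
  fun x y hxy i hi => hA x y hxy i fun h => hi (hU h)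

theorem act_one : Act 1 ∅ (1 : Matrix (ι → Bool) (ι → Bool) F) := by
  intro x y hxy i _
  by_cases h : x = y
  · rw [h]
    rfl
  · exact absurd (Matrix.one_apply_ne h) hxy

theorem act_diagonal (d : (ι → Bool) → F) : Act 1 ∅ (Matrix.diagonal d) := by
  intro x y hxy i _
  by_cases h : x = y
  · rw [h]
    rfl
  · exact absurd (Matrix.diagonal_apply_ne d h) hxy

theorem act_pm (σ : Equiv.Perm ι) : Act σ ∅ (pm σ : Matrix (ι → Bool) (ι → Bool) F) := by
  intro x y hxy i _
  by_cases h : ∀ i, x i = y (σ.symm i)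
  · exact h i
  · exact absurd (if_neg h) hxy

theorem Act.smul {σ : Equiv.Perm ι} {U : Finset ι} {A : Matrix (ι → Bool) (ι → Bool) F} (c : F)
    (hA : Act σ U A) : Act σ U (c • A) := by
  intro x y hxy i hi
  refine hA x y (fun h => hxy ?_) i hi
  rw [Matrix.smul_apply, h, smul_zero]

theorem Act.transpose_one {U : Finset ι} {A : Matrix (ι → Bool) (ι → Bool) F}
    (hA : Act 1 U A) : Act 1 U Aᵀ :=
  fun x y hxy i hi => (hA y x hxy i hi).symm

private theorem act_ncard (T : Finset ι) (f : ι → Bool) :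
    ({y | ∀ j, j ∉ T → y j = f j} : Set (ι → Bool)).ncard ≤ 2 ^ T.card := by
  have h1 : ({y | ∀ j, j ∉ T → y j = f j} : Set (ι → Bool)).ncard ≤
      (Set.univ : Set (T → Bool)).ncard := by
    refine Set.ncard_le_ncard_of_injOn (fun y (j : T) => y j) (fun _ _ => Set.mem_univ _) ?_
      Set.finite_univ
    intro y hy z hz hyz
    funext j
    by_cases hj : j ∈ T
    · exact congrFun hyz ⟨j, hj⟩
    · rw [hy j hj, hz j hj]
  refine h1.trans_eq ?_
  rw [Set.ncard_univ, Nat.card_eq_fintype_card, Fintype.card_fun, Fintype.card_bool,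
    Fintype.card_coe]

/-- Outside `U` the column index is determined by the row index and vice versa. -/
theorem Act.sparse {σ : Equiv.Perm ι} {U : Finset ι} {A : Matrix (ι → Bool) (ι → Bool) F}
    (hA : Act σ U A) : Sparse A (2 ^ U.card) := by
  constructor
  · intro x
    have h1 : ({y | A x y ≠ 0} : Set (ι → Bool)) ⊆
        {y | ∀ j, j ∉ U.image σ.symm → y j = x (σ j)} := by
      intro y hy j hj
      have h2 : σ j ∉ U := fun h => hj (Finset.mem_image.2 ⟨σ j, h, σ.symm_apply_apply j⟩)
      have h3 := hA x y hy (σ j) h2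
      rw [σ.symm_apply_apply] at h3
      exact h3.symm
    have h4 := (Set.ncard_le_ncard h1 (Set.toFinite _)).trans
      (act_ncard (U.image σ.symm) fun j => x (σ j))
    rw [Finset.card_image_of_injective _ σ.symm.injective] at h4
    exact_mod_cast h4
  · intro y
    have h1 : ({x | A x y ≠ 0} : Set (ι → Bool)) ⊆
        {x | ∀ j, j ∉ U → x j = y (σ.symm j)} := fun x hx j hj => hA x y hx j hj
    have h4 := (Set.ncard_le_ncard h1 (Set.toFinite _)).trans
      (act_ncard U fun j => y (σ.symm j))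
    exact_mod_cast h4

theorem swp_apply {τ : Equiv.Perm ι} (h : ∀ i, τ (τ i) = i) (T : Finset ι) (i : ι) :
    swp τ T i = part τ T i := by
  unfold swp
  rw [dif_pos h]
  rfl

theorem swp_symm {τ : Equiv.Perm ι} (h : ∀ i, τ (τ i) = i) (T : Finset ι) :
    (swp τ T).symm = swp τ T := by
  refine Equiv.ext fun i => ?_
  rw [Equiv.symm_apply_eq, swp_apply h, swp_apply h, part_part h]

/-- If almost all pairs are swapped, then `swp τ T` and `τ` differ at few slots. -/
theorem swp_ne_card {τ : Equiv.Perm ι} {P : Finset ι} (hP : Pairing τ P) {T : Finset ι}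
    (hT : T ⊆ P) :
    (Finset.univ.filter fun i => swp τ T i ≠ τ i).card ≤ 2 * (P.card - T.card) := by
  have hsub : (Finset.univ.filter fun i => swp τ T i ≠ τ i) ⊆ (P \ T) ∪ (P \ T).image τ := by
    intro i hi
    have h1 : swp τ T i ≠ τ i := (Finset.mem_filter.1 hi).2
    rw [swp_apply hP.inv] at h1
    unfold part at h1
    by_cases h2 : i ∈ T ∨ τ i ∈ T
    · rw [if_pos h2] at h1
      exact absurd rfl h1
    rw [if_neg h2] at h1
    rw [not_or] at h2
    rw [Finset.mem_union]
    by_cases h3 : i ∈ P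
    · exact Or.inl (Finset.mem_sdiff.2 ⟨h3, h2.1⟩)
    · right
      have h4 : τ i ∈ P := by
        by_contra h4
        exact h1 (hP.fix i h3 h4).symm
      exact Finset.mem_image.2 ⟨τ i, Finset.mem_sdiff.2 ⟨h4, h2.2⟩, hP.inv i⟩
  refine (Finset.card_le_card hsub).trans ((Finset.card_union_le _ _).trans ?_)
  rw [Finset.card_image_of_injective _ τ.injective, Finset.card_sdiff_of_subset hT]
  omega

theorem Pairing.two_mul_card_le {τ : Equiv.Perm ι} {P : Finset ι} (hP : Pairing τ P) :
    2 * P.card ≤ Fintype.card ι := by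
  have hd : Disjoint P (P.image τ) := by
    rw [Finset.disjoint_left]
    intro i hi hi'
    obtain ⟨j, hj, rfl⟩ := Finset.mem_image.1 hi'
    exact hP.disj j hj hi
  have h1 := Finset.card_union_of_disjoint hd
  rw [Finset.card_image_of_injective _ τ.injective] at h1
  have h2 := Finset.card_le_univ (P ∪ P.image τ)
  omega

private theorem act_sparse_add {S S' : Matrix (ι → Bool) (ι → Bool) F} {s s' : ℝ}
    (h : Sparse S s) (h' : Sparse S' s') : Sparse (S + S') (s + s') := by
  have key : ∀ (f g : (ι → Bool) → F), (({y | f y + g y ≠ 0} : Set (ι → Bool)).ncard : ℝ) ≤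
      (({y | f y ≠ 0} : Set (ι → Bool)).ncard : ℝ) +
        (({y | g y ≠ 0} : Set (ι → Bool)).ncard : ℝ) := by
    intro f g
    have h1 : ({y | f y + g y ≠ 0} : Set (ι → Bool)) ⊆ {y | f y ≠ 0} ∪ {y | g y ≠ 0} := by
      intro y hy
      by_contra hcon
      rw [Set.mem_union, not_or] at hcon
      have e1 : f y = 0 := not_not.1 hcon.1
      have e2 : g y = 0 := not_not.1 hcon.2
      exact hy (by rw [e1, e2, add_zero])
    have h2 := (Set.ncard_le_ncard h1 (Set.toFinite _)).trans (Set.ncard_union_le _ _)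
    exact_mod_cast h2
  exact ⟨fun x => (key (S x) (S' x)).trans (add_le_add (h.1 x) (h'.1 x)),
    fun y => (key (fun x => S x y) (fun x => S' x y)).trans (add_le_add (h.2 y) (h'.2 y))⟩

private theorem act_sparse_zero :
    Sparse (0 : Matrix (ι → Bool) (ι → Bool) F) 0 := by
  constructor <;> intro x <;> simp

theorem sparse_list_sum (l : List (Matrix (ι → Bool) (ι → Bool) F)) (s : ℝ)
    (h : ∀ B ∈ l, Sparse B s) : Sparse l.sum (l.length * s) := by
  induction l with
  | nil =>
    rw [List.sum_nil, List.length_nil, Nat.cast_zero, zero_mul]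
    exact act_sparse_zero
  | cons B l ih =>
    rw [List.sum_cons, List.length_cons]
    have h1 := act_sparse_add (h B (List.mem_cons_self ..))
      (ih fun C hC => h C (List.mem_cons_of_mem _ hC))
    refine h1.mono (le_of_eq ?_)
    push_cast
    ring

end MP0775d3.Bf
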