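import Pool.Agent.Lib.MP_0775d3_lc.Bf.Lay

/-! Values of digit strings. -/

set_option linter.unusedSectionVars false
set_option linter.unusedVariables false

namespace MP0775d3.Bf

variable {K B : ℕ}

/-- Value of the `s` lowest digits. -/
def lv (s : ℕ) (x : Fin K → Fin B) : ℕ :=
  ∑ a : Fin K, if a.val < s then (x a).val * B ^ a.val else 0

/-- Value of the `s` lowest digits in reversed order. -/
def rv (s : ℕ) (x : Fin K → Fin B) : ℕ :=
  ∑ a : Fin K, if a.val < s then (x a).val * B ^ (s - 1 - a.val) else 0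

/-- `x` and `y` have the same digits in the positions `≥ s`. -/
def Hi (s : ℕ) (x y : Fin K → Fin B) : Prop := ∀ i : Fin K, s ≤ i.val → x i = y i

instance (s : ℕ) (x y : Fin K → Fin B) : Decidable (Hi s x y) := by unfold Hi; infer_instance

theorem Hi.refl (s : ℕ) (x : Fin K → Fin B) : Hi s x x := fun _ _ => rfl
theorem Hi.symm {s : ℕ} {x y : Fin K → Fin B} (h : Hi s x y) : Hi s y x :=
  fun i hi => (h i hi).symm
theorem Hi.trans {s : ℕ} {x y z : Fin K → Fin B} (h : Hi s x y) (h' : Hi s y z) : Hi s x z :=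
  fun i hi => (h i hi).trans (h' i hi)
theorem Hi.mono {s s' : ℕ} {x y : Fin K → Fin B} (h : Hi s x y) (hs : s ≤ s') : Hi s' x y :=
  fun i hi => h i (hs.trans hi)
theorem hi_zero {x y : Fin K → Fin B} : Hi 0 x y ↔ x = y := by
  constructor
  · intro h
    funext i
    exact h i (Nat.zero_le _)
  · rintro rfl
    exact Hi.refl 0 x
theorem hi_top (x y : Fin K → Fin B) : Hi K x y :=
  fun i hi => absurd i.isLt (not_lt.2 hi)
/-- `Hi a` is `Hi (a + 1)` and equality of the digit `a`. -/
theorem hi_step (a : Fin K) (x y : Fin K → Fin B) :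
    Hi a.val x y ↔ Hi (a.val + 1) x y ∧ x a = y a := by
  constructor
  · intro h
    exact ⟨h.mono (Nat.le_succ _), h a le_rfl⟩
  · rintro ⟨h, h'⟩ i hi
    rcases Nat.eq_or_lt_of_le hi with h1 | h1
    · have h2 : i = a := Fin.ext h1.symm
      rw [h2]
      exact h'
    · exact h i h1

theorem lv_zero (x : Fin K → Fin B) : lv 0 x = 0 := by
  unfold lv
  exact Finset.sum_eq_zero fun a _ => if_neg (Nat.not_lt_zero _)
theorem lv_succ (a : Fin K) (x : Fin K → Fin B) :
    lv (a.val + 1) x = lv a.val x + (x a).val * B ^ a.val := by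
  unfold lv
  have h : ∀ i : Fin K, (if i.val < a.val + 1 then (x i).val * B ^ i.val else 0) =
      (if i.val < a.val then (x i).val * B ^ i.val else 0) +
        (if i = a then (x a).val * B ^ a.val else 0) := by
    intro i
    rcases lt_trichotomy i.val a.val with h1 | h1 | h1
    · have h2 : i ≠ a := fun h => by
        rw [h] at h1
        exact lt_irrefl _ h1
      rw [if_pos (by omega), if_pos h1, if_neg h2, add_zero]
    · have h2 : i = a := Fin.ext h1
      rw [h2, if_pos (by omega), if_neg (lt_irrefl _), if_pos rfl, zero_add]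
    · have h2 : i ≠ a := fun h => by
        rw [h] at h1
        exact lt_irrefl _ h1
      rw [if_neg (by omega), if_neg (by omega), if_neg h2]
  rw [Finset.sum_congr rfl fun i _ => h i, Finset.sum_add_distrib, Finset.sum_ite_eq']
  rw [if_pos (Finset.mem_univ _)]

private theorem val_dig {s : ℕ} (hs : s < K) (x : Fin K → Fin B) : (x ⟨s, hs⟩).val < B :=
  (x ⟨s, hs⟩).isLt

/-- The recursion of `rv`. -/
private theorem val_rv_succ (a : Fin K) (x : Fin K → Fin B) :
    rv (a.val + 1) x = rv a.val x * B + (x a).val := by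
  unfold rv
  have h : ∀ i : Fin K, (if i.val < a.val + 1 then (x i).val * B ^ (a.val + 1 - 1 - i.val) else 0) =
      (if i.val < a.val then (x i).val * B ^ (a.val - 1 - i.val) else 0) * B +
        (if i = a then (x a).val else 0) := by
    intro i
    rcases lt_trichotomy i.val a.val with h1 | h1 | h1
    · have h2 : i ≠ a := fun h => by
        rw [h] at h1
        exact lt_irrefl _ h1
      have h3 : a.val + 1 - 1 - i.val = (a.val - 1 - i.val) + 1 := by omega
      rw [if_pos (by omega), if_pos h1, if_neg h2, add_zero, h3, pow_succ, mul_assoc]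
    · have h2 : i = a := Fin.ext h1
      have h3 : a.val + 1 - 1 - a.val = 0 := by omega
      rw [h2, if_pos (by omega), if_neg (lt_irrefl _), if_pos rfl, zero_mul, zero_add, h3,
        pow_zero, mul_one]
    · have h2 : i ≠ a := fun h => by
        rw [h] at h1
        exact lt_irrefl _ h1
      rw [if_neg (by omega), if_neg (by omega), if_neg h2, zero_mul]
  rw [Finset.sum_congr rfl fun i _ => h i, Finset.sum_add_distrib, Finset.sum_ite_eq',
    ← Finset.sum_mul]
  rw [if_pos (Finset.mem_univ _)]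

private theorem val_rv_zero (x : Fin K → Fin B) : rv 0 x = 0 := by
  unfold rv
  exact Finset.sum_eq_zero fun a _ => if_neg (Nat.not_lt_zero _)
theorem lv_lt {s : ℕ} (hs : s ≤ K) (x : Fin K → Fin B) : lv s x < B ^ s := by
  induction s with
  | zero =>
    rw [lv_zero, pow_zero]
    exact one_pos
  | succ s ih =>
    have h1 := ih (by omega)
    have h2 := val_dig (by omega : s < K) x
    have h3 : lv (s + 1) x = lv s x + (x ⟨s, by omega⟩).val * B ^ s := lv_succ ⟨s, by omega⟩ x
    rw [h3]
    calc lv s x + (x ⟨s, by omega⟩).val * B ^ s < B ^ s + (x ⟨s, by omega⟩).val * B ^ s :=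
          Nat.add_lt_add_right h1 _
      _ = ((x ⟨s, by omega⟩).val + 1) * B ^ s := by ring
      _ ≤ B * B ^ s := Nat.mul_le_mul_right _ h2
      _ = B ^ (s + 1) := (pow_succ' B s).symm
theorem rv_lt {s : ℕ} (hs : s ≤ K) (x : Fin K → Fin B) : rv s x < B ^ s := by
  induction s with
  | zero =>
    rw [val_rv_zero, pow_zero]
    exact one_pos
  | succ s ih =>
    have h1 := ih (by omega)
    have h2 := val_dig (by omega : s < K) x
    have h3 : rv (s + 1) x = rv s x * B + (x ⟨s, by omega⟩).val := val_rv_succ ⟨s, by omega⟩ x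
    rw [h3]
    calc rv s x * B + (x ⟨s, by omega⟩).val < rv s x * B + B := Nat.add_lt_add_left h2 _
      _ = (rv s x + 1) * B := by ring
      _ ≤ B ^ s * B := Nat.mul_le_mul_right _ h1
      _ = B ^ (s + 1) := (pow_succ B s).symm
theorem lv_congr {s : ℕ} {x y : Fin K → Fin B} (h : ∀ i : Fin K, i.val < s → x i = y i) :
    lv s x = lv s y := by
  unfold lv
  refine Finset.sum_congr rfl fun i _ => ?_
  by_cases h1 : i.val < s
  · rw [if_pos h1, if_pos h1, h i h1]
  · rw [if_neg h1, if_neg h1]
theorem rv_congr {s : ℕ} {x y : Fin K → Fin B} (h : ∀ i : Fin K, i.val < s → x i = y i) :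
    rv s x = rv s y := by
  unfold rv
  refine Finset.sum_congr rfl fun i _ => ?_
  by_cases h1 : i.val < s
  · rw [if_pos h1, if_pos h1, h i h1]
  · rw [if_neg h1, if_neg h1]

private theorem val_inj {p q a b M : ℕ} (hp : p < M) (hq : q < M) (h : p + a * M = q + b * M) :
    p = q ∧ a = b := by
  have h1 : (p + a * M) / M = a := by
    rw [Nat.add_mul_div_right _ _ (by omega), Nat.div_eq_of_lt hp, zero_add]
  have h2 : (q + b * M) / M = b := by
    rw [Nat.add_mul_div_right _ _ (by omega), Nat.div_eq_of_lt hq, zero_add]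
  have h3 : a = b := by
    rw [← h1, ← h2, h]
  rw [h3] at h
  exact ⟨Nat.add_right_cancel h, h3⟩

private theorem val_lv_inj {s : ℕ} (hs : s ≤ K) {x y : Fin K → Fin B} (h : Hi s x y)
    (h' : lv s x = lv s y) : x = y := by
  induction s with
  | zero => exact hi_zero.1 h
  | succ s ih =>
    have h1 : lv (s + 1) x = lv s x + (x ⟨s, by omega⟩).val * B ^ s := lv_succ ⟨s, by omega⟩ x
    have h2 : lv (s + 1) y = lv s y + (y ⟨s, by omega⟩).val * B ^ s := lv_succ ⟨s, by omega⟩ y
    rw [h1, h2] at h'
    obtain ⟨h3, h4⟩ := val_inj (lv_lt (by omega) x) (lv_lt (by omega) y) h'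
    exact ih (by omega) ((hi_step ⟨s, by omega⟩ x y).2 ⟨h, Fin.ext h4⟩) h3
theorem lv_inj {s : ℕ} {x y : Fin K → Fin B} (h : Hi s x y) (h' : lv s x = lv s y) : x = y := by
  rcases Nat.le_total s K with hs | hs
  · exact val_lv_inj hs h h'
  · have key : ∀ z : Fin K → Fin B, lv s z = lv K z := by
      intro z
      unfold lv
      refine Finset.sum_congr rfl fun i _ => ?_
      rw [if_pos (lt_of_lt_of_le i.isLt hs), if_pos i.isLt]
    rw [key, key] at h'
    exact val_lv_inj le_rfl (hi_top x y) h'
theorem rv_inj {s : ℕ} (hs : s ≤ K) {x y : Fin K → Fin B} (h : Hi s x y)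
    (h' : rv s x = rv s y) : x = y := by
  induction s with
  | zero => exact hi_zero.1 h
  | succ s ih =>
    have h1 : rv (s + 1) x = rv s x * B + (x ⟨s, by omega⟩).val := val_rv_succ ⟨s, by omega⟩ x
    have h2 : rv (s + 1) y = rv s y * B + (y ⟨s, by omega⟩).val := val_rv_succ ⟨s, by omega⟩ y
    rw [h1, h2, add_comm, add_comm (rv s y * B)] at h'
    obtain ⟨h3, h4⟩ := val_inj (val_dig (by omega : s < K) x) (val_dig (by omega : s < K) y) h'
    exact ih (by omega) ((hi_step ⟨s, by omega⟩ x y).2 ⟨h, Fin.ext h3⟩) h4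

end MP0775d3.Bf
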