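import Pool.Agent.Lib.MP_0775d3_lc.Bf.LayDec
import Pool.Agent.Lib.MP_0775d3_lc.Bf.Val

/-! Constants for layered matrices with a large extra coordinate. As `exists_base` in `Sub.lean`,
but the whole matrix is decomposed and `2 ^ e` may be as large as `n ^ γ`. -/

set_option linter.unusedSectionVars false
set_option linter.unusedVariables false

namespace MP0775d3.Bf

open Matrix MP0775d3.Kron

theorem exists_base2 (δ : ℝ) (hδ : 0 < δ) (t s : ℕ → ℕ) : ∃ K : ℕ, 0 < K ∧ ∃ γ : ℝ,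
    0 < γ ∧ ∃ n₀ : ℕ, ∀ n : ℕ, n₀ ≤ n → ∃ b : ℕ, n ≤ (2 ^ b) ^ K ∧
      (((2 ^ b) ^ K : ℕ) : ℝ) ≤ 2 ^ K * n ∧ ∀ e : ℕ, (2 : ℝ) ^ e ≤ (n : ℝ) ^ γ →
      ∀ (E : Type) [Fintype E] [DecidableEq E], Fintype.card E = 2 ^ e →
      ∀ (F : Type) [Field F], (2 : F) ≠ 0 →
      ∀ A : Matrix (Dg K (2 ^ b) E) (Dg K (2 ^ b) E) F, Lay (t K) (s K) A →
        Dec A ((n : ℝ) ^ (1 - γ)) ((n : ℝ) ^ δ) := by
  obtain ⟨K, hK1, hKδ⟩ : ∃ K : ℕ, 0 < K ∧ 4 / δ ≤ K := by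
    obtain ⟨k, hk⟩ := exists_nat_ge (4 / δ)
    refine ⟨k + 1, Nat.succ_pos k, hk.trans ?_⟩
    exact_mod_cast Nat.le_succ k
  obtain ⟨γ₁, hγ₁, N₀, hlay⟩ := lay_dec (δ / 4) (by positivity) (t K) (s K) K hK1
  have hKr : (0 : ℝ) < K := by exact_mod_cast hK1
  obtain ⟨g, hg⟩ : ∃ g : ℝ, g = min γ₁ 1 := ⟨_, rfl⟩
  have hg0 : 0 < g := hg ▸ lt_min hγ₁ one_pos
  have hg1 : g ≤ 1 := hg ▸ min_le_right _ _
  have hgle : g ≤ γ₁ := hg ▸ min_le_left _ _
  obtain ⟨γ, hγ⟩ : ∃ γ : ℝ, γ = min (g / 4) (δ / (4 + δ)) := ⟨_, rfl⟩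
  have hγ0 : 0 < γ := hγ ▸ lt_min (by positivity) (by positivity)
  have hγ1 : γ ≤ g / 4 := hγ ▸ min_le_left _ _
  have hγ2 : (1 + δ / 4) * γ ≤ δ / 4 := by
    have h1 : γ ≤ δ / (4 + δ) := hγ ▸ min_le_right _ _
    rw [le_div_iff₀ (by positivity)] at h1
    linarith
  obtain ⟨T, hT⟩ := exists_nat_ge (max (max (N₀ : ℝ) (2 * K / g))
    (max (4 / δ * (1 + δ / 4 * K)) 1))
  have hT1 : (N₀ : ℝ) ≤ T := ((le_max_left _ _).trans (le_max_left _ _)).trans hT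
  have hT2 : 2 * K / g ≤ (T : ℝ) := ((le_max_right _ _).trans (le_max_left _ _)).trans hT
  have hT3 : 4 / δ * (1 + δ / 4 * K) ≤ (T : ℝ) :=
    ((le_max_left _ _).trans (le_max_right _ _)).trans hT
  have hT4 : (1 : ℝ) ≤ T := ((le_max_right _ _).trans (le_max_right _ _)).trans hT
  have hT5 : 1 ≤ T := by exact_mod_cast hT4
  refine ⟨K, hK1, γ, hγ0, 2 ^ T, fun n hn => ?_⟩
  have hex : ∃ b : ℕ, n ≤ (2 ^ b) ^ K := by
    refine ⟨n, (Nat.lt_two_pow_self).le.trans ?_⟩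
    exact Nat.le_self_pow hK1.ne' _
  classical
  obtain ⟨b, hb, hmin⟩ : ∃ b : ℕ, n ≤ (2 ^ b) ^ K ∧ ∀ c < b, ¬ n ≤ (2 ^ c) ^ K :=
    ⟨Nat.find hex, Nat.find_spec hex, fun c hc => Nat.find_min hex hc⟩
  have hn2 : 2 ≤ n := by
    calc 2 = 2 ^ 1 := rfl
      _ ≤ 2 ^ T := Nat.pow_le_pow_right (by norm_num) hT5
      _ ≤ n := hn
  have hb1 : 1 ≤ b := by
    by_contra hb0
    have : b = 0 := by omega
    subst this
    rw [pow_zero, one_pow] at hb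
    omega
  obtain ⟨c, rfl⟩ : ∃ c, b = c + 1 := ⟨b - 1, by omega⟩
  have hc := hmin c (Nat.lt_succ_self c)
  push Not at hc
  refine ⟨c + 1, hb, ?_, ?_⟩
  · have h1 : (2 ^ (c + 1)) ^ K = 2 ^ K * (2 ^ c) ^ K := by
      rw [pow_succ, mul_pow, mul_comm]
    have h2 : (2 ^ (c + 1)) ^ K ≤ 2 ^ K * n := by
      rw [h1]
      exact Nat.mul_le_mul_left _ hc.le
    exact_mod_cast h2
  have hn0 : (0 : ℝ) < n := by exact_mod_cast (by omega : 0 < n)
  set Lg : ℝ := Real.logb 2 n with hL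
  have h2L : (2 : ℝ) ^ Lg = n := Real.rpow_logb (by norm_num) (by norm_num) hn0
  have hTL : (T : ℝ) ≤ Lg := by
    rw [hL, Real.le_logb_iff_rpow_le (by norm_num) hn0, Real.rpow_natCast]
    exact_mod_cast hn
  have hup : Lg ≤ K * (c + 1 : ℕ) := by
    rw [hL, Real.logb_le_iff_le_rpow (by norm_num) hn0]
    have h1 : (2 : ℝ) ^ ((K : ℝ) * (c + 1 : ℕ)) = (((2 ^ (c + 1)) ^ K : ℕ) : ℝ) := by
      rw [← pow_mul, ← Nat.cast_mul, Real.rpow_natCast, mul_comm K]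
      push_cast
      rfl
    rw [h1]
    exact_mod_cast hb
  have hlow : (K : ℝ) * (c + 1 : ℕ) ≤ K + Lg := by
    have h1 : (K : ℝ) * c ≤ Lg := by
      rw [hL, Real.le_logb_iff_rpow_le (by norm_num) hn0]
      have h1 : (2 : ℝ) ^ ((K : ℝ) * c) = (((2 ^ c) ^ K : ℕ) : ℝ) := by
        rw [← pow_mul, ← Nat.cast_mul, Real.rpow_natCast, mul_comm K]
        push_cast
        rfl
      rw [h1]
      exact_mod_cast hc.le
    push_cast
    linarith
  intro e he E _ _ hE F _ h2 A hA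
  have heL : (e : ℝ) ≤ γ * Lg := by
    have h1 : (e : ℝ) ≤ Real.logb 2 ((n : ℝ) ^ γ) := by
      rw [Real.le_logb_iff_rpow_le (by norm_num) (Real.rpow_pos_of_pos hn0 γ), Real.rpow_natCast]
      exact he
    rwa [Real.logb_rpow_eq_mul_logb_of_pos hn0] at h1
  have hN : N₀ ≤ K * (c + 1) + e := by
    have h1 : (N₀ : ℝ) ≤ ((K * (c + 1) + e : ℕ) : ℝ) := by
      push_cast
      push_cast at hup
      have : (0 : ℝ) ≤ e := Nat.cast_nonneg e
      linarith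
    exact_mod_cast h1
  have key := hlay (c + 1) e hN E hE F h2 A hA
  have he0 : (0 : ℝ) ≤ e := Nat.cast_nonneg e
  have hL0 : 0 ≤ Lg := (by linarith : (0 : ℝ) ≤ T).trans hTL
  refine key.mono ?_ ?_
  · rw [← h2L, ← Real.rpow_mul (by norm_num)]
    refine Real.rpow_le_rpow_of_exponent_le (by norm_num) ?_
    rw [div_le_iff₀ hg0] at hT2
    push_cast at hup hlow ⊢
    have hx : 0 ≤ (K : ℝ) * (c + 1) + e := by positivity
    have h1 : (1 - γ₁) * ((K : ℝ) * (c + 1) + e) ≤ (1 - g) * ((K : ℝ) * (c + 1) + e) :=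
      mul_le_mul_of_nonneg_right (by linarith) hx
    have h3 : (1 - g) * ((K : ℝ) * (c + 1) + e) ≤ (1 - g) * (K + Lg + γ * Lg) :=
      mul_le_mul_of_nonneg_left (by linarith) (by linarith)
    have h4 : (T : ℝ) * g ≤ Lg * g := mul_le_mul_of_nonneg_right hTL hg0.le
    have h5 : 0 ≤ g * K := by positivity
    have h6 : 0 ≤ g * (γ * Lg) := by positivity
    have h7 : γ * Lg ≤ g / 4 * Lg := mul_le_mul_of_nonneg_right hγ1 hL0
    have h8 : (1 - g) * (K + Lg + γ * Lg) = K + Lg + γ * Lg - g * K - g * Lg - g * (γ * Lg) := by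
      ring
    have h9 : Lg * (1 - γ) = Lg - γ * Lg := by ring
    rw [h9]
    linarith
  · rw [← h2L, ← Real.rpow_mul (by norm_num)]
    refine Real.rpow_le_rpow_of_exponent_le (by norm_num) ?_
    push_cast at hup hlow ⊢
    have h1 : (c : ℝ) + 1 ≤ 1 + δ / 4 * Lg := by
      have h6 : (K : ℝ) * (c + 1) ≤ K * (1 + δ / 4 * Lg) := by
        have h7 : 1 ≤ K * (δ / 4) := by
          rw [div_le_iff₀ hδ] at hKδ
          linarith
        have h8 : Lg ≤ K * (δ / 4) * Lg := le_mul_of_one_le_left hL0 h7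
        calc (K : ℝ) * (c + 1) ≤ K + Lg := hlow
          _ ≤ K + K * (δ / 4) * Lg := by linarith
          _ = K * (1 + δ / 4 * Lg) := by ring
      exact le_of_mul_le_mul_left h6 hKr
    have h3 : δ / 4 * ((K : ℝ) * (c + 1) + e) ≤ δ / 4 * (K + Lg + e) :=
      mul_le_mul_of_nonneg_left (by linarith) (by positivity)
    have h9 : 1 + δ / 4 * K ≤ δ / 4 * Lg := by
      have h10 : 4 / δ * (1 + δ / 4 * K) ≤ Lg := hT3.trans hTL
      rw [div_mul_eq_mul_div, div_le_iff₀ hδ] at h10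
      linarith
    have h11 : (1 + δ / 4) * e ≤ δ / 4 * Lg := by
      calc (1 + δ / 4) * e ≤ (1 + δ / 4) * (γ * Lg) :=
            mul_le_mul_of_nonneg_left heL (by positivity)
        _ = (1 + δ / 4) * γ * Lg := by ring
        _ ≤ δ / 4 * Lg := mul_le_mul_of_nonneg_right hγ2 hL0
    have h12 : (1 + δ / 4) * e = e + δ / 4 * e := by ring
    have h13 : δ / 4 * (K + Lg + e) = δ / 4 * K + δ / 4 * Lg + δ / 4 * e := by ring
    linarith

end MP0775d3.Bf
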