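import Pool.Agent.Lib.MP_0775d3_lc.Bf.BenesA

/-! Every permutation of the bit strings is a product of permutations each of which changes only
the bits in one set `Z`, for a fixed sequence of sets `Z` covering the slots (Benes network). -/

set_option linter.unusedSectionVars false
set_option linter.unusedVariables false

namespace MP0775d3.Bf

variable {ι : Type*} [Fintype ι] [DecidableEq ι]

/-- PROOF. Induction on `L` (for `L = []` the permutation is `1`), `benes_step` with `Z` the head and `S` the
union of the tail; `List.Forall₂` for `Z :: (L ++ L.reverse) ++ [Z]`. -/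
theorem benes (L : List (Finset ι)) (π : Equiv.Perm (ι → Bool))
    (hπ : ∀ x i, (∀ U ∈ L, i ∉ U) → π x i = x i) :
    ∃ l : List (Equiv.Perm (ι → Bool)), l.prod = π ∧ List.Forall₂ Fixes (L ++ L.reverse) l := by
  classical
  induction L generalizing π with
  | nil =>
    refine ⟨[], ?_, List.Forall₂.nil⟩
    rw [List.prod_nil]
    refine Equiv.ext fun x => ?_
    funext i
    exact (hπ x i (fun U hU => absurd hU List.not_mem_nil)).symm
  | cons Z L ih =>
    obtain ⟨f, g, h, hfgh, hf, hg, hh⟩ := benes_step Z (Finset.univ.filter fun i => ∃ U ∈ L, i ∈ U) π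
      (by
        intro x i hi
        rw [Finset.mem_union, not_or] at hi
        refine hπ x i ?_
        intro U hU
        rcases List.mem_cons.1 hU with rfl | hU
        · exact hi.1
        · intro hiU
          exact hi.2 (Finset.mem_filter.2 ⟨Finset.mem_univ i, U, hU, hiU⟩))
    obtain ⟨l, hl, hl'⟩ := ih g (by
      intro x i hi
      refine hg x i ?_
      intro hmem
      obtain ⟨-, U, hU, hiU⟩ := Finset.mem_filter.1 hmem
      exact hi U hU hiU)
    refine ⟨f :: (l ++ [h]), ?_, ?_⟩
    · rw [List.prod_cons, List.prod_append, List.prod_singleton, hl, hfgh, mul_assoc]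
    · rw [List.reverse_cons, List.cons_append, ← List.append_assoc]
      exact List.Forall₂.cons hf
        (List.rel_append hl' (List.Forall₂.cons hh List.Forall₂.nil))

/-- `m` sets of at most `z` slots cover `m z` slots. PROOF. `e = Fintype.equivFin ι`,
`U k = {i | (e i).val / z = k}`, `k < m` (for `z = 0` there are no slots). -/
theorem cover (m z : ℕ) (h : Fintype.card ι ≤ m * z) :
    ∃ L : List (Finset ι), L.length = m ∧ (∀ U ∈ L, U.card ≤ z) ∧ ∀ i, ∃ U ∈ L, i ∈ U := by
  classical
  let e := Fintype.equivFin ι
  refine ⟨(List.range m).map fun k => Finset.univ.filter fun i => (e i).val / z = k, ?_, ?_, ?_⟩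
  · rw [List.length_map, List.length_range]
  · intro U hU
    obtain ⟨k, -, rfl⟩ := List.mem_map.1 hU
    rcases Nat.eq_zero_or_pos z with hz | hz
    · subst hz
      rw [mul_zero] at h
      refine (Finset.card_le_univ _).trans h
    · have h1 : ((Finset.univ.filter fun i => (e i).val / z = k).image
          fun i => (e i).val % z).card = (Finset.univ.filter fun i => (e i).val / z = k).card := by
        refine Finset.card_image_of_injOn ?_
        intro i hi j hj hij
        rw [Finset.mem_coe, Finset.mem_filter] at hi hj
        have h2 : (e i).val = (e j).val := by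
          rw [← Nat.div_add_mod (e i).val z, ← Nat.div_add_mod (e j).val z, hi.2, hj.2]
          exact congrArg (fun t => z * k + t) hij
        exact e.injective (Fin.ext h2)
      rw [← h1]
      have h3 : ((Finset.univ.filter fun i => (e i).val / z = k).image
          fun i => (e i).val % z) ⊆ Finset.range z := by
        intro t ht
        obtain ⟨i, -, rfl⟩ := Finset.mem_image.1 ht
        exact Finset.mem_range.2 (Nat.mod_lt _ hz)
      exact (Finset.card_le_card h3).trans (by rw [Finset.card_range])
  · intro i
    refine ⟨Finset.univ.filter fun j => (e j).val / z = (e i).val / z, ?_, ?_⟩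
    · refine List.mem_map.2 ⟨(e i).val / z, List.mem_range.2 ?_, rfl⟩
      refine Nat.div_lt_of_lt_mul ?_
      rw [mul_comm]
      exact lt_of_lt_of_le (e i).isLt h
    · exact Finset.mem_filter.2 ⟨Finset.mem_univ i, rfl⟩

end MP0775d3.Bf
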