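import Pool.Agent.Lib.MP_0775d3_lc.Bf.Clos

/-! Benes network: one step. -/

set_option linter.unusedSectionVars false
set_option linter.unusedVariables false

namespace MP0775d3.Bf

variable {ι : Type*} [Fintype ι] [DecidableEq ι]

/-- The permutation of the bit strings changes only the bits in `U`. -/
def Fixes (U : Finset ι) (π : Equiv.Perm (ι → Bool)) : Prop := ∀ x i, i ∉ U → π x i = x i

private def benesE (Z : Finset ι) :
    (ι → Bool) ≃ ({i // i ∉ Z} → Bool) × ({i // i ∈ Z} → Bool) where
  toFun x := (fun i => x i.1, fun i => x i.1)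
  invFun y := fun i => if h : i ∈ Z then y.2 ⟨i, h⟩ else y.1 ⟨i, h⟩
  left_inv x := by
    funext i
    by_cases h : i ∈ Z
    · simp [h]
    · simp [h]
  right_inv y := by
    refine Prod.ext (funext fun i => ?_) (funext fun i => ?_)
    · simp [i.2]
    · simp [i.2]

private theorem benesE_fst (Z : Finset ι) (y : ({i // i ∉ Z} → Bool) × ({i // i ∈ Z} → Bool))
    {i : ι} (h : i ∉ Z) : (benesE Z).symm y i = y.1 ⟨i, h⟩ := dif_neg h

private theorem benesE_snd (Z : Finset ι) (y : ({i // i ∉ Z} → Bool) × ({i // i ∈ Z} → Bool))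
    {i : ι} (h : i ∈ Z) : (benesE Z).symm y i = y.2 ⟨i, h⟩ := dif_pos h

/-- PROOF. `clos` for `α = ({i // i ∉ Z} → Bool)`, `β = ({i // i ∈ Z} → Bool)`
(`Equiv.piEquivPiSubtypeProd`): `f`, `h` change only bits in `Z`; `g` does not change bits in `Z`, and
by the last clause of `clos` and `hπ` it does not change the bits outside `Z ∪ S`. -/
theorem benes_step (Z S : Finset ι) (π : Equiv.Perm (ι → Bool)) (hπ : Fixes (Z ∪ S) π) :
    ∃ f g h : Equiv.Perm (ι → Bool), π = f * g * h ∧ Fixes Z f ∧ Fixes S g ∧ Fixes Z h := by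
  classical
  let e := benesE Z
  obtain ⟨f, g, h, h1, hf, hg, hh, hl⟩ := clos (e.symm.trans (π.trans e))
  have key : ∀ k : Equiv.Perm (({i // i ∉ Z} → Bool) × ({i // i ∈ Z} → Bool)),
      (∀ x, (k x).1 = x.1) → Fixes Z (e.trans (k.trans e.symm)) := by
    intro k hk x i hi
    change (benesE Z).symm (k (e x)) i = x i
    rw [benesE_fst Z _ hi, hk]
    rfl
  refine ⟨e.trans (f.trans e.symm), e.trans (g.trans e.symm), e.trans (h.trans e.symm), ?_,
    key f hf, ?_, key h hh⟩
  · ext x i
    have h2 := congrArg (fun k : Equiv.Perm _ => e.symm (k (e x)) i) h1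
    have h3 : e.symm ((e.symm.trans (π.trans e)) (e x)) i = π x i := by
      change e.symm (e (π (e.symm (e x)))) i = π x i
      rw [e.symm_apply_apply, e.symm_apply_apply]
    rw [h3] at h2
    rw [h2]
    change e.symm (f (g (h (e x)))) i =
      e.symm (f (e (e.symm (g (e (e.symm (h (e x)))))))) i
    rw [e.apply_symm_apply, e.apply_symm_apply]
  · intro x i hi
    change (benesE Z).symm (g (e x)) i = x i
    by_cases hZ : i ∈ Z
    · rw [benesE_snd Z _ hZ, hg]
      rfl
    · rw [benesE_fst Z _ hZ]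
      obtain ⟨b, hb⟩ := hl (e x)
      rw [hb]
      change (e (π (e.symm ((e x).1, b)))).1 ⟨i, hZ⟩ = x i
      change π ((benesE Z).symm ((e x).1, b)) i = x i
      rw [hπ _ i (by rw [Finset.mem_union]; tauto), benesE_fst Z _ hZ]
      rfl

end MP0775d3.Bf
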