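import Mathlib

/-! The numbers of slots. -/

set_option linter.unusedSectionVars false
set_option linter.unusedVariables false

namespace MP0775d3.Bf

/-- The least power of 2 which is at least `x`. -/
private theorem par_pow (x : ℕ) (hx : 2 ≤ x) : ∃ z : ℕ, x ≤ 2 ^ z ∧ 2 ^ z + 2 ≤ 2 * x := by
  classical
  have hex : ∃ z : ℕ, x ≤ 2 ^ z := ⟨x, Nat.lt_two_pow_self.le⟩
  refine ⟨Nat.find hex, Nat.find_spec hex, ?_⟩
  have h0 : Nat.find hex ≠ 0 := by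
    intro h
    have h1 := Nat.find_spec hex
    rw [h, pow_zero] at h1
    omega
  obtain ⟨k, hk⟩ := Nat.exists_eq_succ_of_ne_zero h0
  have h2 : ¬ x ≤ 2 ^ k := Nat.find_min hex (by omega)
  rw [hk, Nat.succ_eq_add_one, pow_succ]
  omega

/-- The parameters, `0 < d ≤ 1`, `n` large. PROOF. `s = ⌊n ^ d⌋₊`, `2 ^ z ∈ [2 s, 4 s]`,
`2 ^ w ∈ (2 n / s, 2 (2 n / s + 1)]`; `2 ^ (w + z) ≤ 4 s (4 n / s + 2) ≤ 24 n`; `2 ^ z ≥ n ^ d` (`2 s ≥ n ^ d`), so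
`m z ≥ 2 log₂ n ≥ log₂ (24 n) ≥ w + z` for `m = ⌈2 / d⌉₊`. -/
theorem parameters (d : ℝ) (hd : 0 < d) (hd1 : d ≤ 1) : ∃ n₀ : ℕ, ∀ n : ℕ, n₀ ≤ n →
    ∃ s w z : ℕ, 0 < s ∧ (n : ℝ) ^ d < s + 1 ∧ 2 * n / s < 2 ^ w ∧ 2 * s ≤ 2 ^ z ∧
      w + z ≤ ⌈2 / d⌉₊ * z ∧ n ≤ 2 ^ (w + z) ∧ (2 : ℝ) ^ (w + z) ≤ 24 * n ∧
      (2 : ℝ) ^ z ≤ 4 * (n : ℝ) ^ d := by
  refine ⟨24, fun n hn => ?_⟩
  have hn24 : (24 : ℝ) ≤ n := by exact_mod_cast hn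
  have hn1 : (1 : ℝ) ≤ n := by linarith
  have hn0 : (0 : ℝ) < n := by linarith
  obtain ⟨s, hs⟩ : ∃ s, s = ⌊(n : ℝ) ^ d⌋₊ := ⟨_, rfl⟩
  have hnd0 : 0 ≤ (n : ℝ) ^ d := Real.rpow_nonneg hn0.le d
  have hnd1 : 1 ≤ (n : ℝ) ^ d := Real.one_le_rpow hn1 hd.le
  have hs1 : 1 ≤ s := by
    rw [hs]
    exact Nat.le_floor (by exact_mod_cast hnd1)
  have hsle : (s : ℝ) ≤ (n : ℝ) ^ d := by
    rw [hs]
    exact Nat.floor_le hnd0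
  have hslt : (n : ℝ) ^ d < s + 1 := by
    rw [hs]
    exact Nat.lt_floor_add_one _
  have hndn : (n : ℝ) ^ d ≤ n := by
    calc (n : ℝ) ^ d ≤ (n : ℝ) ^ (1 : ℝ) := Real.rpow_le_rpow_of_exponent_le hn1 hd1
      _ = n := Real.rpow_one _
  have hsn : s ≤ n := by exact_mod_cast hsle.trans hndn
  obtain ⟨z, hz1, hz2⟩ := par_pow (2 * s) (by omega)
  obtain ⟨q, hq⟩ : ∃ q, q = 2 * n / s := ⟨_, rfl⟩
  have hq1 : 1 ≤ q := by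
    rw [hq]
    exact (Nat.one_le_div_iff hs1).2 (by omega)
  have hqs : q * s ≤ 2 * n := by
    rw [hq]
    exact Nat.div_mul_le_self _ _
  have hqs2 : 2 * n < (q + 1) * s := by
    have h1 := Nat.lt_mul_div_succ (2 * n) hs1
    rw [← hq, mul_comm s] at h1
    exact h1
  obtain ⟨w, hw1, hw2⟩ := par_pow (q + 1) (by omega)
  have hup : 2 ^ (w + z) ≤ 16 * n := by
    rw [pow_add]
    calc 2 ^ w * 2 ^ z ≤ (2 * q) * (4 * s) := Nat.mul_le_mul (by omega) (by omega)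
      _ = 8 * (q * s) := by ring
      _ ≤ 8 * (2 * n) := Nat.mul_le_mul_left _ hqs
      _ = 16 * n := by ring
  have hlow : n ≤ 2 ^ (w + z) := by
    rw [pow_add]
    calc n ≤ 2 * (2 * n) := by omega
      _ ≤ 2 * ((q + 1) * s) := Nat.mul_le_mul_left _ hqs2.le
      _ = (q + 1) * (2 * s) := by ring
      _ ≤ 2 ^ w * 2 ^ z := Nat.mul_le_mul hw1 hz1
  refine ⟨s, w, z, hs1, hslt, ?_, hz1, ?_, hlow, ?_, ?_⟩
  · rw [← hq]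
    omega
  · obtain ⟨m, hm⟩ : ∃ m, m = ⌈2 / d⌉₊ := ⟨_, rfl⟩
    rw [← hm]
    have hmd : 2 ≤ d * m := by
      have h1 : 2 / d ≤ m := by
        rw [hm]
        exact Nat.le_ceil _
      rw [div_le_iff₀ hd] at h1
      linarith
    have h2z : (n : ℝ) ^ d ≤ (2 : ℝ) ^ z := by
      have h1 : ((2 * s : ℕ) : ℝ) ≤ ((2 ^ z : ℕ) : ℝ) := by exact_mod_cast hz1
      push_cast at h1
      have h2 : (1 : ℝ) ≤ s := by exact_mod_cast hs1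
      linarith
    have hpow : (n : ℝ) ^ 2 ≤ (2 : ℝ) ^ (m * z) := by
      calc (n : ℝ) ^ 2 = (n : ℝ) ^ (2 : ℝ) := (Real.rpow_two _).symm
        _ ≤ (n : ℝ) ^ (d * m) := Real.rpow_le_rpow_of_exponent_le hn1 hmd
        _ = ((n : ℝ) ^ d) ^ m := by rw [Real.rpow_mul hn0.le, Real.rpow_natCast]
        _ ≤ ((2 : ℝ) ^ z) ^ m := pow_le_pow_left₀ hnd0 h2z m
        _ = (2 : ℝ) ^ (m * z) := by rw [← pow_mul, mul_comm]
    have hle : (2 : ℝ) ^ (w + z) ≤ (2 : ℝ) ^ (m * z) := by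
      have h1 : (2 : ℝ) ^ (w + z) ≤ 16 * n := by exact_mod_cast hup
      nlinarith
    exact (pow_le_pow_iff_right₀ (by norm_num : (1 : ℝ) < 2)).1 hle
  · have h1 : (2 : ℝ) ^ (w + z) ≤ 16 * n := by exact_mod_cast hup
    linarith
  · have h1 : ((2 ^ z : ℕ) : ℝ) ≤ ((4 * s : ℕ) : ℝ) := by exact_mod_cast (by omega : 2 ^ z ≤ 4 * s)
    push_cast at h1
    linarith

end MP0775d3.Bf
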