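import Pool.Agent.Lib.MP_0775d3_lc.Bf.Emb
import Pool.Agent.Lib.MP_0775d3_lc.Bf.Par

/-! Theorem (A): products of boundedly many block diagonal matrices (with arbitrary permutations of the rows and of
the columns in between) with blocks of size `≤ n ^ d` are not rigid. -/

set_option linter.unusedSectionVars false
set_option linter.unusedVariables false

namespace MP0775d3.Bf

open Matrix MP0775d3.Kron

private theorem block_mono {F : Type*} [Field F] {ι : Type*} [Fintype ι] [DecidableEq ι]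
    {n z T T' : ℕ} {M : Matrix (Fin n) (Fin n) F} (h : Corner ι z T M) (hT : T ≤ T') :
    Corner ι z T' M := by
  obtain ⟨φ, ψ, A, h1, h2, h3, h4⟩ := h
  exact ⟨φ, ψ, A, h1, h2, h3.mono le_rfl hT, h4⟩

private theorem block_one {F : Type*} [Field F] {n s : ℕ} (hs : 0 < s) :
    IsBlock (s : ℝ) (1 : Matrix (Fin n) (Fin n) F) := by
  have h1 : ∀ l : ℕ, (({i : Fin n | i.val = l} : Set (Fin n)).ncard : ℝ) ≤ s := by
    intro l
    have h2 : ({i : Fin n | i.val = l} : Set (Fin n)).ncard ≤ 1 :=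
      (Set.ncard_le_one (Set.toFinite _)).2 fun a ha b hb => Fin.ext (ha.trans hb.symm)
    exact_mod_cast h2.trans hs
  refine ⟨fun i => i.val, fun i => i.val, h1, h1, fun i j hij => ?_⟩
  by_cases h : i = j
  · rw [h]
  · exact absurd (Matrix.one_apply_ne h) hij

private theorem block_floor {F : Type*} [Field F] {n s : ℕ} {x : ℝ} (hx : x < s + 1)
    {M : Matrix (Fin n) (Fin n) F} (h : IsBlock x M) : IsBlock (s : ℝ) M := by
  obtain ⟨r, c, h1, h2, h3⟩ := h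
  have key : ∀ k : ℕ, (k : ℝ) ≤ x → (k : ℝ) ≤ s := by
    intro k hk
    have h4 : (k : ℝ) < ((s + 1 : ℕ) : ℝ) := by
      push_cast
      exact hk.trans_lt hx
    exact_mod_cast Nat.lt_succ_iff.1 (Nat.cast_lt.1 h4)
  exact ⟨r, c, fun l => key _ (h1 l), fun l => key _ (h2 l), h3⟩

/-- Products of `t` block matrices are corners. PROOF. Induction on `t`, `Corner.mul` (for `t = 0`: the matrix `1` is
`IsBlock 1`, so `corner_of_isBlock`). -/
theorem corner_list {F : Type*} [Field F] {n s w z m : ℕ} (hs : 0 < s) (hw : 2 * n / s < 2 ^ w)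
    (hz : 2 * s ≤ 2 ^ z) (hm : w + z ≤ m * z) (l : List (Matrix (Fin n) (Fin n) F))
    (h : ∀ M ∈ l, IsBlock (s : ℝ) M) :
    Corner (Fin w ⊕ Fin z) z ((l.length + 1) * (2 + 2 * m)) l.prod := by
  induction l with
  | nil =>
    rw [List.prod_nil, List.length_nil]
    refine block_mono (corner_of_isBlock hs hw hz (block_one hs)) ?_
    omega
  | cons A l ih =>
    rw [List.prod_cons, List.length_cons]
    have h1 := corner_of_isBlock hs hw hz (h A (List.mem_cons_self ..))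
    have h2 := ih fun B hB => h B (List.mem_cons_of_mem _ hB)
    have h3 : Fintype.card (Fin w ⊕ Fin z) ≤ m * z := by
      rw [Fintype.card_sum, Fintype.card_fin, Fintype.card_fin]
      exact hm
    refine block_mono (Corner.mul h3 h1 h2) (le_of_eq ?_)
    ring

/-- PROOF. `1 < d`: `R = 0`. `d ≤ 1`: `parameters`, `corner_list` (`IsBlock (n ^ d) M → IsBlock s M` as the class sizes are
natural numbers, `n ^ d < s + 1`), `box_merge` with `ε = e / 2`, `T = (t + 1) (2 + 2 ⌈2 / d⌉₊)`, `Corner.dec`;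
`2 ^ ((1 - γ) N) ≤ (24 n) ^ (1 - γ) ≤ n ^ (1 - γ / 2)` (or `g = min (γ / 2) (1 / 2)`),
`2 ^ (z + ε N) ≤ 4 n ^ d (24 n) ^ (e / 2) ≤ n ^ (d + e)` for large `n` (`2 ^ N ≥ n`, so `N` is large). -/
theorem block (d e : ℝ) (hd : 0 < d) (he : 0 < e) (t : ℕ) : ∃ g : ℝ, 0 < g ∧ ∃ n₀ : ℕ,
    ∀ n : ℕ, n₀ ≤ n → ∀ (F : Type) [Field F], (2 : F) ≠ 0 →
    ∀ M : Fin t → Matrix (Fin n) (Fin n) F, (∀ j, IsBlock ((n : ℝ) ^ d) (M j)) →
      Dec (List.ofFn M).prod ((n : ℝ) ^ (1 - g)) ((n : ℝ) ^ (d + e)) := by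
  by_cases hd1 : d ≤ 1
  swap
  · refine ⟨1, one_pos, 1, fun n hn F _ _ M _ => ?_⟩
    have hn1 : (1 : ℝ) ≤ n := by exact_mod_cast hn
    have hle : (n : ℝ) ≤ (n : ℝ) ^ (d + e) := by
      calc (n : ℝ) = (n : ℝ) ^ (1 : ℝ) := (Real.rpow_one _).symm
        _ ≤ (n : ℝ) ^ (d + e) := Real.rpow_le_rpow_of_exponent_le hn1 (by linarith)
    have hc : ∀ X : Set (Fin n), (X.ncard : ℝ) ≤ (n : ℝ) ^ (d + e) := by
      intro X
      refine le_trans ?_ hle
      have h1 := Set.ncard_le_card X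
      rw [Nat.card_eq_fintype_card, Fintype.card_fin] at h1
      exact_mod_cast h1
    have h2 : Sparse (List.ofFn M).prod ((n : ℝ) ^ (d + e)) := ⟨fun x => hc _, fun y => hc _⟩
    exact h2.dec.mono (Real.rpow_nonneg (by linarith) _) le_rfl
  obtain ⟨n₁, hpar⟩ := parameters d hd hd1
  set m : ℕ := ⌈2 / d⌉₊ with hm
  obtain ⟨γ₁, hγ₁, N₀, hbox⟩ := box_merge (e / 2) (by positivity) ((t + 1) * (2 + 2 * m))
  set γ : ℝ := min γ₁ 1 with hγ
  have hγ0 : 0 < γ := lt_min hγ₁ one_pos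
  have hγ1 : γ ≤ 1 := min_le_right _ _
  have hγle : γ ≤ γ₁ := min_le_left _ _
  obtain ⟨n₂, hn₂⟩ := exists_nat_ge ((24 : ℝ) ^ (2 / γ))
  obtain ⟨n₃, hn₃⟩ := exists_nat_ge ((4 * (24 : ℝ) ^ (e / 2)) ^ (2 / e))
  obtain ⟨P, hP⟩ : ∃ P : ℕ, P = 2 ^ N₀ := ⟨_, rfl⟩
  refine ⟨γ / 2, by positivity, n₁ + P + n₂ + n₃ + 1, fun n hn F _ h2 M hM => ?_⟩
  obtain ⟨s, w, z, hs, hds, hw, hz, hwz, hnN, hN24, hz4⟩ := hpar n (by omega)
  have hn1 : (1 : ℝ) ≤ n := by exact_mod_cast (by omega : 1 ≤ n)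
  have hn0 : (0 : ℝ) < n := by linarith
  have hN0 : N₀ ≤ w + z := by
    have h1 : 2 ^ N₀ ≤ 2 ^ (w + z) := le_trans (by rw [← hP]; omega) hnN
    exact (Nat.pow_le_pow_iff_right (by norm_num)).1 h1
  have hcard : Fintype.card (Fin w ⊕ Fin z) = w + z := by
    rw [Fintype.card_sum, Fintype.card_fin, Fintype.card_fin]
  have hcor : Corner (Fin w ⊕ Fin z) z ((t + 1) * (2 + 2 * m)) (List.ofFn M).prod := by
    have h1 := corner_list (F := F) hs hw hz hwz (List.ofFn M) (by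
      intro A hA
      obtain ⟨j, rfl⟩ := List.mem_ofFn.1 hA
      exact block_floor hds (hM j))
    rwa [List.length_ofFn] at h1
  have key := hcor.dec fun A hA => hbox (Fin w ⊕ Fin z) (by rw [hcard]; exact hN0) F h2 z A hA
  rw [hcard] at key
  have hN24' : (2 : ℝ) ^ ((w + z : ℕ) : ℝ) ≤ 24 * n := by
    rw [Real.rpow_natCast]
    exact hN24
  have h24n : (0 : ℝ) ≤ 24 * n := by positivity
  refine key.mono ?_ ?_
  · have h3 : (24 : ℝ) ≤ (n : ℝ) ^ (γ / 2) := by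
      have h4 : (24 : ℝ) ^ (2 / γ) ≤ n := hn₂.trans (by exact_mod_cast (by omega : n₂ ≤ n))
      have h5 := Real.rpow_le_rpow (by positivity) h4 (by positivity : (0 : ℝ) ≤ γ / 2)
      rw [← Real.rpow_mul (by norm_num)] at h5
      have h6 : 2 / γ * (γ / 2) = 1 := by field_simp
      rwa [h6, Real.rpow_one] at h5
    calc (2 : ℝ) ^ ((1 - γ₁) * ((w + z : ℕ) : ℝ))
        ≤ (2 : ℝ) ^ (((w + z : ℕ) : ℝ) * (1 - γ)) := by
          refine Real.rpow_le_rpow_of_exponent_le (by norm_num) ?_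
          rw [mul_comm]
          exact mul_le_mul_of_nonneg_left (by linarith) (Nat.cast_nonneg _)
      _ = ((2 : ℝ) ^ ((w + z : ℕ) : ℝ)) ^ (1 - γ) := Real.rpow_mul (by norm_num) _ _
      _ ≤ (24 * n) ^ (1 - γ) := Real.rpow_le_rpow (by positivity) hN24' (by linarith)
      _ = 24 ^ (1 - γ) * (n : ℝ) ^ (1 - γ) := Real.mul_rpow (by norm_num) hn0.le
      _ ≤ 24 * (n : ℝ) ^ (1 - γ) := by
          refine mul_le_mul_of_nonneg_right ?_ (Real.rpow_nonneg hn0.le _)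
          calc (24 : ℝ) ^ (1 - γ) ≤ 24 ^ (1 : ℝ) :=
              Real.rpow_le_rpow_of_exponent_le (by norm_num) (by linarith)
            _ = 24 := Real.rpow_one _
      _ ≤ (n : ℝ) ^ (γ / 2) * (n : ℝ) ^ (1 - γ) :=
          mul_le_mul_of_nonneg_right h3 (Real.rpow_nonneg hn0.le _)
      _ = (n : ℝ) ^ (1 - γ / 2) := by
          rw [← Real.rpow_add hn0]
          congr 1
          ring
  · have h3 : 4 * (24 : ℝ) ^ (e / 2) ≤ (n : ℝ) ^ (e / 2) := by
      have h4 : (4 * (24 : ℝ) ^ (e / 2)) ^ (2 / e) ≤ n :=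
        hn₃.trans (by exact_mod_cast (by omega : n₃ ≤ n))
      have h5 := Real.rpow_le_rpow (by positivity) h4 (by positivity : (0 : ℝ) ≤ e / 2)
      rw [← Real.rpow_mul (by positivity)] at h5
      have h6 : 2 / e * (e / 2) = 1 := by field_simp
      rwa [h6, Real.rpow_one] at h5
    have h7 : (0 : ℝ) ≤ (n : ℝ) ^ d := Real.rpow_nonneg hn0.le _
    have h8 : (0 : ℝ) ≤ (n : ℝ) ^ (e / 2) := Real.rpow_nonneg hn0.le _
    calc (2 : ℝ) ^ ((z : ℝ) + e / 2 * ((w + z : ℕ) : ℝ))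
        = (2 : ℝ) ^ (z : ℝ) * ((2 : ℝ) ^ ((w + z : ℕ) : ℝ)) ^ (e / 2) := by
          rw [Real.rpow_add (by norm_num), mul_comm (e / 2), Real.rpow_mul (by norm_num)]
      _ ≤ (4 * (n : ℝ) ^ d) * (24 * n) ^ (e / 2) := by
          refine mul_le_mul ?_ (Real.rpow_le_rpow (by positivity) hN24' (by positivity))
            (by positivity) (by positivity)
          rw [Real.rpow_natCast]
          exact hz4
      _ = (4 * (24 : ℝ) ^ (e / 2)) * ((n : ℝ) ^ d * (n : ℝ) ^ (e / 2)) := by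
          rw [Real.mul_rpow (by norm_num) hn0.le]
          ring
      _ ≤ (n : ℝ) ^ (e / 2) * ((n : ℝ) ^ d * (n : ℝ) ^ (e / 2)) :=
          mul_le_mul_of_nonneg_right h3 (mul_nonneg h7 h8)
      _ = (n : ℝ) ^ (d + e) := by
          rw [← Real.rpow_add hn0, ← Real.rpow_add hn0]
          congr 1
          ring

end MP0775d3.Bf
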