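import Pool.Agent.Lib.MP_0775d3_lc.Bf.Act

/-! Products of boundedly many matrices each of which acts on at most `z` slots. -/

set_option linter.unusedSectionVars false
set_option linter.unusedVariables false

namespace MP0775d3.Bf

open Matrix MP0775d3.Kron

variable {F : Type*} [Field F] {ι : Type*} [Fintype ι] [DecidableEq ι]

/-- `A` is a product of at most `T` matrices each of which acts on at most `z` slots, controlled by
the other slots. -/
def Box (z T : ℕ) (A : Matrix (ι → Bool) (ι → Bool) F) : Prop :=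
  ∃ l : List (Matrix (ι → Bool) (ι → Bool) F), l.length ≤ T ∧ l.prod = A ∧
    ∀ M ∈ l, ∃ Z : Finset ι, Z.card ≤ z ∧ Act 1 Z M

theorem box_one (z : ℕ) : Box z 0 (1 : Matrix (ι → Bool) (ι → Bool) F) := by
  exact ⟨[], le_rfl, List.prod_nil, fun M hM => absurd hM List.not_mem_nil⟩

theorem box_of_act {z : ℕ} {Z : Finset ι} {A : Matrix (ι → Bool) (ι → Bool) F} (hZ : Z.card ≤ z)
    (h : Act 1 Z A) : Box z 1 A := by
  refine ⟨[A], le_rfl, List.prod_singleton, fun M hM => ?_⟩
  rw [List.mem_singleton] at hM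
  subst hM
  exact ⟨Z, hZ, h⟩

theorem Box.mono {z T z' T' : ℕ} {A : Matrix (ι → Bool) (ι → Bool) F} (h : Box z T A)
    (hz : z ≤ z') (hT : T ≤ T') : Box z' T' A := by
  obtain ⟨l, h1, h2, h3⟩ := h
  refine ⟨l, h1.trans hT, h2, fun M hM => ?_⟩
  obtain ⟨Z, hZ, hA⟩ := h3 M hM
  exact ⟨Z, hZ.trans hz, hA⟩

theorem Box.mul {z T T' : ℕ} {A B : Matrix (ι → Bool) (ι → Bool) F} (hA : Box z T A)
    (hB : Box z T' B) : Box z (T + T') (A * B) := by
  obtain ⟨l, h1, h2, h3⟩ := hA
  obtain ⟨l', h1', h2', h3'⟩ := hB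
  refine ⟨l ++ l', ?_, ?_, fun M hM => ?_⟩
  · rw [List.length_append]
    exact add_le_add h1 h1'
  · rw [List.prod_append, h2, h2']
  · rcases List.mem_append.1 hM with h | h
    · exact h3 M h
    · exact h3' M h

theorem Box.transpose {z T : ℕ} {A : Matrix (ι → Bool) (ι → Bool) F} (h : Box z T A) :
    Box z T Aᵀ := by
  obtain ⟨l, h1, h2, h3⟩ := h
  refine ⟨(l.map Matrix.transpose).reverse, ?_, ?_, fun M hM => ?_⟩
  · rw [List.length_reverse, List.length_map]
    exact h1
  · rw [← Matrix.transpose_list_prod, h2]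
  · rw [List.mem_reverse, List.mem_map] at hM
    obtain ⟨N, hN, rfl⟩ := hM
    obtain ⟨Z, hZ, hA⟩ := h3 N hN
    exact ⟨Z, hZ, hA.transpose_one⟩

theorem box_diagonal (z : ℕ) (d : (ι → Bool) → F) : Box z 1 (Matrix.diagonal d) := by
  exact box_of_act (Z := ∅) (by rw [Finset.card_empty]; exact Nat.zero_le z) (act_diagonal d)

end MP0775d3.Bf
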