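import Pool.Agent.Lib.MP_0775d3_lc.Bf.BenesA
import Pool.Agent.Lib.MP_0775d3_lc.Bf.Act

/-! Permutations of the bit strings as matrices. -/

set_option linter.unusedSectionVars false
set_option linter.unusedVariables false

namespace MP0775d3.Bf

variable {ι : Type*} [Fintype ι] [DecidableEq ι]

/-- The permutation of the bit strings as a matrix. -/
def pmx (F : Type*) [Field F] (π : Equiv.Perm (ι → Bool)) : Matrix (ι → Bool) (ι → Bool) F :=
  fun x y => if x = π y then 1 else 0

theorem pmx_one (F : Type*) [Field F] : pmx F (1 : Equiv.Perm (ι → Bool)) = 1 := by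
  ext x y
  rw [Matrix.one_apply]
  rfl

theorem pmx_mul (F : Type*) [Field F] (π ρ : Equiv.Perm (ι → Bool)) :
    pmx F (π * ρ) = pmx F π * pmx F ρ := by
  ext x y
  rw [Matrix.mul_apply, Finset.sum_eq_single (ρ y)]
  · have h1 : pmx F ρ (ρ y) y = 1 := if_pos rfl
    rw [h1, mul_one]
    rfl
  · intro z _ hz
    simp only [pmx]
    rw [if_neg hz, mul_zero]
  · intro h
    exact absurd (Finset.mem_univ _) h

theorem act_pmx (F : Type*) [Field F] {U : Finset ι} {π : Equiv.Perm (ι → Bool)}
    (h : Fixes U π) : Act 1 U (pmx F π) := by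
  intro x y hxy i hi
  have hx : x = π y := by
    by_contra hc
    apply hxy
    simp only [pmx]
    rw [if_neg hc]
  rw [hx]
  exact h y i hi

end MP0775d3.Bf
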