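import Pool.Agent.Lib.MP_0775d3_lc.Bf.Merge
import Pool.Agent.Lib.MP_0775d3_lc.Bf.Benes
import Pool.Agent.Lib.MP_0775d3_lc.Bf.Pmx
import Pool.Agent.Lib.MP_0775d3_lc.Bf.Box

/-! Permutations of the bit strings; the merging theorem for `Box`. -/

set_option linter.unusedSectionVars false
set_option linter.unusedVariables false

namespace MP0775d3.Bf

open Matrix MP0775d3.Kron

variable {F : Type*} [Field F] {ι : Type*} [Fintype ι] [DecidableEq ι]

private theorem boxB_forall {A B : Type*} {R : A → B → Prop} {L : List A} {l : List B}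
    (h : List.Forall₂ R L l) : ∀ b ∈ l, ∃ a ∈ L, R a b := by
  induction h with
  | nil =>
    intro b hb
    exact absurd hb List.not_mem_nil
  | cons h1 _ ih =>
    intro b hb
    rcases List.mem_cons.1 hb with rfl | hb
    · exact ⟨_, List.mem_cons_self, h1⟩
    · obtain ⟨a, ha, h2⟩ := ih b hb
      exact ⟨a, List.mem_cons_of_mem _ ha, h2⟩

private theorem boxB_prod (F : Type*) [Field F] (l : List (Equiv.Perm (ι → Bool))) :
    (l.map (pmx F)).prod = pmx F l.prod := by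
  induction l with
  | nil =>
    rw [List.map_nil, List.prod_nil, List.prod_nil, pmx_one]
  | cons a l ih =>
    rw [List.map_cons, List.prod_cons, List.prod_cons, pmx_mul, ih]

/-- Every permutation of the bit strings. PROOF. `cover`, `benes`, `pmx_mul`, `act_pmx`. -/
theorem box_pmx {m z : ℕ} (h : Fintype.card ι ≤ m * z) (π : Equiv.Perm (ι → Bool)) :
    Box z (2 * m) (pmx F π) := by
  obtain ⟨L, hL1, hL2, hL3⟩ := cover m z h
  obtain ⟨l, hl1, hl2⟩ := benes L π fun x i hi => by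
    obtain ⟨U, hU, hiU⟩ := hL3 i
    exact absurd hiU (hi U hU)
  refine ⟨l.map (pmx F), ?_, ?_, ?_⟩
  · rw [List.length_map, ← hl2.length_eq, List.length_append, List.length_reverse, hL1, two_mul]
  · rw [boxB_prod, hl1]
  · intro M hM
    obtain ⟨ρ, hρ, rfl⟩ := List.mem_map.1 hM
    obtain ⟨U, hU, hUρ⟩ := boxB_forall hl2 ρ hρ
    refine ⟨U, hL2 U ?_, act_pmx F hUρ⟩
    rcases List.mem_append.1 hU with h1 | h1
    · exact h1
    · exact List.mem_reverse.1 h1

/-- PROOF. Pad the list with the matrix `1` to length `T`, `merge`. -/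
theorem box_merge (ε : ℝ) (hε : 0 < ε) (T : ℕ) : ∃ γ : ℝ, 0 < γ ∧ ∃ N₀ : ℕ, ∀ (ι : Type)
    [Fintype ι] [DecidableEq ι], N₀ ≤ Fintype.card ι → ∀ (F : Type) [Field F], (2 : F) ≠ 0 →
    ∀ (z : ℕ) (A : Matrix (ι → Bool) (ι → Bool) F), Box z T A →
      Dec A ((2 : ℝ) ^ ((1 - γ) * Fintype.card ι)) ((2 : ℝ) ^ ((z : ℝ) + ε * Fintype.card ι)) := by
  obtain ⟨γ, hγ, N₀, h⟩ := merge ε hε T
  refine ⟨γ, hγ, N₀, ?_⟩
  intro ι _ _ hN F _ h2 z A hA
  obtain ⟨l, hl1, hl2, hl3⟩ := hA
  obtain ⟨l', hl'1, hl'2, hl'3⟩ : ∃ l' : List (Matrix (ι → Bool) (ι → Bool) F), l'.length = T ∧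
      l'.prod = A ∧ ∀ M ∈ l', ∃ Z : Finset ι, Z.card ≤ z ∧ Act 1 Z M := by
    refine ⟨l ++ List.replicate (T - l.length) 1, ?_, ?_, ?_⟩
    · rw [List.length_append, List.length_replicate]
      omega
    · rw [List.prod_append, List.prod_replicate, one_pow, mul_one, hl2]
    · intro M hM
      rcases List.mem_append.1 hM with h1 | h1
      · exact hl3 M h1
      · rw [List.eq_of_mem_replicate h1]
        exact ⟨∅, by rw [Finset.card_empty]; exact Nat.zero_le z, act_one⟩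
  have hZ : ∀ j : Fin T, ∃ Z : Finset ι, Z.card ≤ z ∧ Act 1 Z (l'.get (Fin.cast hl'1.symm j)) :=
    fun j => hl'3 _ (List.get_mem _ _)
  choose Z hZ1 hZ2 using hZ
  have key := h ι hN F h2 z Z (fun j => l'.get (Fin.cast hl'1.symm j)) hZ1 hZ2
  have e1 : List.ofFn (fun j : Fin T => l'.get (Fin.cast hl'1.symm j)) = l' := by
    subst hl'1
    exact List.ofFn_get l'
  rw [e1, hl'2] at key
  exact key

end MP0775d3.Bf
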