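import Pool.Agent.Lib.MP_0775d3_lc.Bf.Vand

/-! Cauchy matrices over `ℂ` with arbitrary nodes.

PROOF. With `p j = X - C (y j)`, `D = ∏ p j`, the product `Vandermonde x * Tree p` has the entries
`(∏_{j' ≠ j} p j').eval (x i) = D.eval (x i) / (x i - y j)`; multiply by `diagonal (1 / D (x i))`.
`vand_dec`, `tree_dec` with `δ / 2`. -/

set_option linter.unusedSectionVars false
set_option linter.unusedVariables false

namespace MP0775d3.Bf

open Matrix MP0775d3.Kron Polynomial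

private theorem cauchy_num (γ₁ γ₂ : ℝ) (h₁ : 0 < γ₁) (h₂ : 0 < γ₂) : ∃ γ : ℝ, 0 < γ ∧ ∃ n₀ : ℕ,
    ∀ n : ℕ, n₀ ≤ n → (n : ℝ) ^ (1 - γ₁) + (n : ℝ) ^ (1 - γ₂) ≤ (n : ℝ) ^ (1 - γ) := by
  have hμ : 0 < min γ₁ γ₂ := lt_min h₁ h₂
  refine ⟨min γ₁ γ₂ / 2, by linarith, ?_⟩
  have ht := (tendsto_rpow_atTop (show 0 < min γ₁ γ₂ / 2 by linarith)).comp tendsto_natCast_atTop_atTop
  obtain ⟨N, hN⟩ := Filter.eventually_atTop.mp (ht.eventually_ge_atTop 2)
  refine ⟨max N 1, fun n hn => ?_⟩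
  have hn1 : (1 : ℝ) ≤ n := by exact_mod_cast (le_max_right N 1).trans hn
  have hn0 : (0 : ℝ) < n := by linarith
  have h2 : (2 : ℝ) ≤ (n : ℝ) ^ (min γ₁ γ₂ / 2) := hN n ((le_max_left N 1).trans hn)
  have e1 : (n : ℝ) ^ (1 - γ₁) ≤ (n : ℝ) ^ (1 - min γ₁ γ₂) :=
    Real.rpow_le_rpow_of_exponent_le hn1 (by linarith [min_le_left γ₁ γ₂])
  have e2 : (n : ℝ) ^ (1 - γ₂) ≤ (n : ℝ) ^ (1 - min γ₁ γ₂) :=
    Real.rpow_le_rpow_of_exponent_le hn1 (by linarith [min_le_right γ₁ γ₂])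
  have e3 : (n : ℝ) ^ (1 - min γ₁ γ₂ / 2) = (n : ℝ) ^ (1 - min γ₁ γ₂) * (n : ℝ) ^ (min γ₁ γ₂ / 2) := by
    rw [← Real.rpow_add hn0]
    congr 1
    ring
  rw [e3]
  have e4 : 0 ≤ (n : ℝ) ^ (1 - min γ₁ γ₂) := Real.rpow_nonneg hn0.le _
  nlinarith

private theorem cauchy_diag (n : ℕ) (d : Fin n → ℂ) : IsMono (Matrix.diagonal d) := by
  constructor
  · intro a b c h1 h2
    rw [Matrix.diagonal_apply] at h1 h2
    have e1 : a = b := by
      by_contra h
      rw [if_neg h] at h1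
      exact h1 rfl
    have e2 : a = c := by
      by_contra h
      rw [if_neg h] at h2
      exact h2 rfl
    rw [← e1, e2]
  · intro a b c h1 h2
    rw [Matrix.diagonal_apply] at h1 h2
    have e1 : b = a := by
      by_contra h
      rw [if_neg h] at h1
      exact h1 rfl
    have e2 : c = a := by
      by_contra h
      rw [if_neg h] at h2
      exact h2 rfl
    rw [e1, e2]

theorem cauchy_dec (δ : ℝ) (hδ : 0 < δ) : ∃ γ : ℝ, 0 < γ ∧ ∃ n₀ : ℕ, ∀ n : ℕ, n₀ ≤ n →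
    ∀ x y : Fin n → ℂ, (∀ i j, x i ≠ y j) → Dec (Matrix.of fun i j : Fin n => 1 / (x i - y j))
      ((n : ℝ) ^ (1 - γ)) ((n : ℝ) ^ δ) := by
  obtain ⟨γ₁, hγ₁, n₁, h1⟩ := vand_dec (δ / 2) (by linarith)
  obtain ⟨γ₂, hγ₂, n₂, h2⟩ := tree_dec (δ / 2) (by linarith)
  obtain ⟨γ, hγ, n₃, h3⟩ := cauchy_num γ₁ γ₂ hγ₁ hγ₂
  refine ⟨γ, hγ, max (max n₁ n₂) (max n₃ 1), fun n hn x y hxy => ?_⟩
  have hn₁ : n₁ ≤ n := ((le_max_left _ _).trans (le_max_left _ _)).trans hn
  have hn₂ : n₂ ≤ n := ((le_max_right _ _).trans (le_max_left _ _)).trans hn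
  have hn₃ : n₃ ≤ n := ((le_max_left _ _).trans (le_max_right _ _)).trans hn
  have hn1 : 1 ≤ n := ((le_max_right _ _).trans (le_max_right _ _)).trans hn
  have hn0 : (0 : ℝ) < n := by exact_mod_cast hn1
  let p : Fin n → ℂ[X] := fun j => X - C (y j)
  have hp : ∀ j, (p j).natDegree ≤ 1 := fun j => by
    rw [natDegree_X_sub_C]
  have hV := h1 n hn₁ x
  have hT := h2 n hn₂ p hp
  have hD := (cauchy_diag n (fun i => 1 / (∏ j, p j).eval (x i))).dec
  have hs : 0 ≤ (n : ℝ) ^ (δ / 2) := Real.rpow_nonneg hn0.le _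
  have hAll := Dec.mul zero_le_one (mul_nonneg hs hs) hD (Dec.mul hs hs hV hT)
  have hmat : (Matrix.of fun i j : Fin n => 1 / (x i - y j)) =
      Matrix.diagonal (fun i => 1 / (∏ j, p j).eval (x i)) *
        ((Matrix.of fun i j : Fin n => x i ^ j.val) *
          (Matrix.of fun m j : Fin n => (∏ j' ∈ Finset.univ.erase j, p j').coeff m.val)) := by
    ext i j
    rw [Matrix.diagonal_mul, Matrix.mul_apply]
    simp only [Matrix.of_apply]
    have hdeg : (∏ j' ∈ Finset.univ.erase j, p j').natDegree < n := by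
      refine lt_of_le_of_lt (natDegree_prod_le _ _) ?_
      refine lt_of_le_of_lt (Finset.sum_le_card_nsmul _ _ 1 (fun j' _ => hp j')) ?_
      rw [Finset.card_erase_of_mem (Finset.mem_univ j), Finset.card_univ, Fintype.card_fin, smul_eq_mul]
      omega
    have hev : (∑ k : Fin n, x i ^ k.val * (∏ j' ∈ Finset.univ.erase j, p j').coeff k.val) =
        (∏ j' ∈ Finset.univ.erase j, p j').eval (x i) := by
      rw [eval_eq_sum_range' hdeg, ← Fin.sum_univ_eq_sum_range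
        (fun k => (∏ j' ∈ Finset.univ.erase j, p j').coeff k * x i ^ k)]
      exact Finset.sum_congr rfl fun k _ => mul_comm _ _
    rw [hev]
    have hprod : (∏ j, p j).eval (x i) = (x i - y j) * (∏ j' ∈ Finset.univ.erase j, p j').eval (x i) := by
      rw [← Finset.mul_prod_erase Finset.univ p (Finset.mem_univ j), eval_mul]
      simp [p]
    have hne : (∏ j' ∈ Finset.univ.erase j, p j').eval (x i) ≠ 0 := by
      rw [eval_prod]
      refine Finset.prod_ne_zero_iff.mpr fun j' _ => ?_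
      simp only [p, eval_sub, eval_X, eval_C]
      exact sub_ne_zero.mpr (hxy i j')
    have hne2 : x i - y j ≠ 0 := sub_ne_zero.mpr (hxy i j)
    rw [hprod]
    field_simp
  rw [hmat]
  refine hAll.mono ?_ ?_
  · rw [zero_add]
    exact h3 n hn₃
  · rw [one_mul, ← Real.rpow_add hn0]
    exact le_of_eq (by congr 1; ring)

end MP0775d3.Bf
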