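import Pool.Agent.Lib.MP_0775d3_lc.Bf.Cauchy

/-! Cauchy-like matrices over `ℂ` with arbitrary nodes.

PROOF. A matrix `G` of rank `ρ` is a sum of `ρ` matrices `g i * h j`, and
`A i j = G i j / (x i - y j)`, so with `1 / (x i - y j) = R + S` (`cauchy_dec`, `γ` replaced by
`γ / 2`), `A = ∑ diagonal g * R * diagonal h + ∑ diagonal g * S * diagonal h`; the second sum has its
support in the support of `S`. -/

set_option linter.unusedSectionVars false
set_option linter.unusedVariables false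

namespace MP0775d3.Bf

open Matrix MP0775d3.Kron Polynomial

/-- Rank factorization. -/
private theorem cauchyLike_fac {n : ℕ} (G : Matrix (Fin n) (Fin n) ℂ) :
    ∃ b c : Fin G.rank → Fin n → ℂ, ∀ i j, G i j = ∑ k, b k i * c k j := by
  let V : Submodule ℂ (Fin n → ℂ) := LinearMap.range G.mulVecLin
  let B : Module.Basis (Fin G.rank) ℂ V := Module.finBasisOfFinrankEq ℂ V rfl
  let v : Fin n → V := fun j => ⟨G.mulVecLin (Pi.single j 1), LinearMap.mem_range_self _ _⟩
  refine ⟨fun k i => (B k : Fin n → ℂ) i, fun k j => B.repr (v j) k, fun i j => ?_⟩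
  have h1 := congrArg (fun w : V => (w : Fin n → ℂ) i) (B.sum_repr (v j))
  simp only [Submodule.coe_sum, Submodule.coe_smul, Finset.sum_apply, Pi.smul_apply,
    smul_eq_mul] at h1
  have h2 : (v j : Fin n → ℂ) i = G i j := by
    show (G.mulVecLin (Pi.single j 1)) i = G i j
    rw [Matrix.mulVecLin_apply, Matrix.mulVec_single_one]
    rfl
  rw [h2] at h1
  rw [← h1]
  exact Finset.sum_congr rfl fun k _ => mul_comm _ _

private theorem cauchyLike_rank_sum {n : ℕ} {κ : Type} (s : Finset κ)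
    (M : κ → Matrix (Fin n) (Fin n) ℂ) : (∑ k ∈ s, M k).rank ≤ ∑ k ∈ s, (M k).rank := by
  classical
  induction s using Finset.induction_on with
  | empty => simp
  | insert k s hk ih =>
    rw [Finset.sum_insert hk, Finset.sum_insert hk]
    exact (rank_add_le _ _).trans (Nat.add_le_add_left ih _)

/-- The rank of an entrywise product. -/
private theorem cauchyLike_rank {n : ℕ} (G R : Matrix (Fin n) (Fin n) ℂ) :
    (Matrix.of fun i j : Fin n => G i j * R i j).rank ≤ G.rank * R.rank := by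
  obtain ⟨b, c, h⟩ := cauchyLike_fac G
  have e : (Matrix.of fun i j : Fin n => G i j * R i j) =
      ∑ k, Matrix.diagonal (b k) * R * Matrix.diagonal (c k) := by
    ext i j
    rw [Matrix.of_apply, Matrix.sum_apply, h i j, Finset.sum_mul]
    refine Finset.sum_congr rfl fun k _ => ?_
    rw [Matrix.mul_diagonal, Matrix.diagonal_mul]
    ring
  rw [e]
  refine (cauchyLike_rank_sum _ _).trans ?_
  have h1 : ∀ k ∈ (Finset.univ : Finset (Fin G.rank)),
      (Matrix.diagonal (b k) * R * Matrix.diagonal (c k)).rank ≤ R.rank := fun k _ =>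
    (Matrix.rank_mul_le_left _ _).trans (Matrix.rank_mul_le_right _ _)
  refine (Finset.sum_le_sum h1).trans ?_
  rw [Finset.sum_const, Finset.card_univ, Fintype.card_fin, smul_eq_mul]

theorem cauchyLike_dec (δ : ℝ) (hδ : 0 < δ) : ∃ γ : ℝ, 0 < γ ∧ ∃ n₀ : ℕ, ∀ n : ℕ, n₀ ≤ n →
    ∀ x y : Fin n → ℂ, (∀ i j, x i ≠ y j) → ∀ A : Matrix (Fin n) (Fin n) ℂ,
      ((Matrix.of fun i j : Fin n => (x i - y j) * A i j).rank : ℝ) ≤ (n : ℝ) ^ γ →
      Dec A ((n : ℝ) ^ (1 - γ)) ((n : ℝ) ^ δ) := by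
  obtain ⟨γ, hγ, n₀, h⟩ := cauchy_dec δ hδ
  refine ⟨γ / 2, half_pos hγ, max n₀ 1, fun n hn x y hxy A hA => ?_⟩
  have hn0 : n₀ ≤ n := (le_max_left _ _).trans hn
  have hn1 : 1 ≤ n := (le_max_right _ _).trans hn
  have hnR : (0 : ℝ) < n := by exact_mod_cast hn1
  obtain ⟨R, S, hRS, hR, hS⟩ := h n hn0 x y hxy
  obtain ⟨G, hG⟩ : ∃ G : Matrix (Fin n) (Fin n) ℂ,
      G = Matrix.of fun i j : Fin n => (x i - y j) * A i j := ⟨_, rfl⟩
  rw [← hG] at hA
  refine ⟨Matrix.of fun i j : Fin n => G i j * R i j,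
    Matrix.of fun i j : Fin n => G i j * S i j, ?_, ?_, ?_, ?_⟩
  · ext i j
    have h1 := congrFun (congrFun hRS i) j
    rw [Matrix.of_apply, Matrix.add_apply] at h1
    rw [Matrix.add_apply, Matrix.of_apply, Matrix.of_apply, ← mul_add, ← h1, hG, Matrix.of_apply]
    have h2 : x i - y j ≠ 0 := sub_ne_zero.2 (hxy i j)
    field_simp
  · have h1 : ((Matrix.of fun i j : Fin n => G i j * R i j).rank : ℝ) ≤
        (G.rank : ℝ) * R.rank := by exact_mod_cast cauchyLike_rank G R
    refine h1.trans ?_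
    have h2 : (n : ℝ) ^ (1 - γ / 2) = (n : ℝ) ^ (γ / 2) * (n : ℝ) ^ (1 - γ) := by
      rw [← Real.rpow_add hnR]
      congr 1
      ring
    rw [h2]
    exact mul_le_mul hA hR (Nat.cast_nonneg _) (Real.rpow_nonneg hnR.le _)
  · intro i
    refine le_trans ?_ (hS.1 i)
    have h1 : ({j | (Matrix.of fun i j : Fin n => G i j * S i j) i j ≠ 0} : Set (Fin n)) ⊆
        {j | S i j ≠ 0} := fun j hj => right_ne_zero_of_mul hj
    exact_mod_cast Set.ncard_le_ncard h1 (Set.toFinite _)
  · intro j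
    refine le_trans ?_ (hS.2 j)
    have h1 : ({i | (Matrix.of fun i j : Fin n => G i j * S i j) i j ≠ 0} : Set (Fin n)) ⊆
        {i | S i j ≠ 0} := fun i hi => right_ne_zero_of_mul hi
    exact_mod_cast Set.ncard_le_ncard h1 (Set.toFinite _)

end MP0775d3.Bf
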