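import Pool.Agent.Lib.MP_0775d3_lc.Bf.Fft

/-! A matrix which is circulant in the `s` lowest digits, with an arbitrary dependence on the digit
`s` of rows and columns, on the coordinates in `E`, and on the common higher digits, is a product of
`2 s + 1` matrices each acting on one digit.

PROOF. With `P = B ^ s`, `Ĉ x y e e' χ = ∑_{v < P} C x y e e' v * ee (- χ v / P)` and
`Λ (w, e) (w', e') = (1 / P) * Ĉ w w' e e' (rv s w)` if `w a = w' a` for all `a < s` (and `0`
otherwise; `hz` gives that it acts on the digit `s` only, resp. on `E` only if `s = K`) the matrix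
is `(dft 1 s)ᵀ * Λ * dft (-1) s`: the sum over the frequencies is `sum_rv` and `sum_ee`. -/

set_option linter.unusedSectionVars false
set_option linter.unusedVariables false

namespace MP0775d3.Bf

open Matrix MP0775d3.Kron

variable {K B : ℕ} {E : Type*} [Fintype E] [DecidableEq E]

/-- Fourier inversion on `Z / P`. -/
private theorem circ_inv {P : ℕ} (hP : 0 < P) (c : ℕ → ℂ) (u : ℤ) :
    ∑ χ ∈ Finset.range P, (1 / (P : ℂ)) * (∑ v ∈ Finset.range P, c v * ee (-((χ : ℝ) * v / P))) *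
      ee ((χ : ℝ) * u / P) = c (u % (P : ℤ)).toNat := by
  have hPC : (P : ℂ) ≠ 0 := by exact_mod_cast hP.ne'
  have hPZ : (0 : ℤ) < P := by exact_mod_cast hP
  have h1 : ∀ χ ∈ Finset.range P,
      (1 / (P : ℂ)) * (∑ v ∈ Finset.range P, c v * ee (-((χ : ℝ) * v / P))) *
        ee ((χ : ℝ) * u / P) =
      ∑ v ∈ Finset.range P, (1 / (P : ℂ)) * c v * ee ((χ : ℝ) * ((u - v : ℤ) : ℝ) / P) := by
    intro χ _
    rw [Finset.mul_sum, Finset.sum_mul]
    refine Finset.sum_congr rfl fun v _ => ?_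
    have h2 : ee ((χ : ℝ) * ((u - v : ℤ) : ℝ) / P) =
        ee (-((χ : ℝ) * v / P)) * ee ((χ : ℝ) * u / P) := by
      rw [← ee_add]
      congr 1
      push_cast
      ring
    rw [h2]
    ring
  rw [Finset.sum_congr rfl h1, Finset.sum_comm]
  have h3 : ∀ v ∈ Finset.range P,
      ∑ χ ∈ Finset.range P, (1 / (P : ℂ)) * c v * ee ((χ : ℝ) * ((u - v : ℤ) : ℝ) / P) =
        (1 / (P : ℂ)) * c v * (if (P : ℤ) ∣ u - v then (P : ℂ) else 0) := by
    intro v _
    rw [← Finset.mul_sum, sum_ee P hP (u - v)]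
  rw [Finset.sum_congr rfl h3]
  have hm0 : 0 ≤ u % (P : ℤ) := Int.emod_nonneg u hPZ.ne'
  have hm1 : u % (P : ℤ) < P := Int.emod_lt_of_pos u hPZ
  have hcast : (((u % (P : ℤ)).toNat : ℕ) : ℤ) = u % (P : ℤ) := Int.toNat_of_nonneg hm0
  have hdvd : (P : ℤ) ∣ u - (((u % (P : ℤ)).toNat : ℕ) : ℤ) := by
    rw [hcast]
    exact Int.dvd_self_sub_emod
  rw [Finset.sum_eq_single (u % (P : ℤ)).toNat]
  · rw [if_pos hdvd]
    field_simp
  · intro v hv hne
    rw [if_neg, mul_zero]
    intro hd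
    apply hne
    have h4 : (v : ℤ) < P := by exact_mod_cast Finset.mem_range.1 hv
    have h5 : u % (P : ℤ) = v := by
      obtain ⟨k, hk⟩ := hd
      have h6 : u = v + P * k := by linarith
      rw [h6, Int.add_mul_emod_self_left, Int.emod_eq_of_lt (Int.natCast_nonneg v) h4]
    rw [h5, Int.toNat_natCast]
  · intro h
    exfalso
    apply h
    rw [Finset.mem_range]
    omega

/-- The digits of `w` below `s`, the digits of `y` above. -/
private def circMix (s : ℕ) (w y : Fin K → Fin B) : Fin K → Fin B :=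
  fun i => if i.val < s then w i else y i

private theorem circMix_low (s : ℕ) (w y : Fin K → Fin B) (i : Fin K) (hi : i.val < s) :
    w i = circMix s w y i := (if_pos hi).symm

private theorem circMix_hi (s : ℕ) (w y : Fin K → Fin B) : Hi s (circMix s w y) y :=
  fun i hi => if_neg (not_lt.2 hi)

/-- The Fourier transform in the last variable. -/
private noncomputable def circHat (s : ℕ)
    (C : (Fin K → Fin B) → (Fin K → Fin B) → E → E → ℕ → ℂ) (x y : Fin K → Fin B) (e e' : E)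
    (χ : ℕ) : ℂ :=
  ∑ v ∈ Finset.range (B ^ s), C x y e e' v * ee (-((χ : ℝ) * v / ((B ^ s : ℕ) : ℝ)))

open Classical in
/-- The middle factor. -/
private noncomputable def circL (s : ℕ)
    (C : (Fin K → Fin B) → (Fin K → Fin B) → E → E → ℕ → ℂ) : Matrix (Dg K B E) (Dg K B E) ℂ :=
  fun r r' => if ∀ i : Fin K, i.val < s → r.1 i = r'.1 i then
    (1 / ((B ^ s : ℕ) : ℂ)) * circHat s C r.1 r'.1 r.2 r'.2 (rv s r.1) else 0

private theorem circL_lay (hK : 0 < K) {s : ℕ} (hs : s ≤ K)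
    (C : (Fin K → Fin B) → (Fin K → Fin B) → E → E → ℕ → ℂ)
    (hz : ∀ x y e e' v, C x y e e' v ≠ 0 → Hi (s + 1) x y) :
    Lay 1 1 (circL s C : Matrix (Dg K B E) (Dg K B E) ℂ) := by
  have key : ∀ r r' : Dg K B E, circL s C r r' ≠ 0 →
      (∀ i : Fin K, i.val < s → r.1 i = r'.1 i) ∧ Hi (s + 1) r.1 r'.1 := by
    intro r r' h
    unfold circL at h
    by_cases h1 : ∀ i : Fin K, i.val < s → r.1 i = r'.1 i
    · refine ⟨h1, ?_⟩
      rw [if_pos h1] at h
      have h2 := right_ne_zero_of_mul h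
      unfold circHat at h2
      obtain ⟨v, _, hv⟩ := Finset.exists_ne_zero_of_sum_ne_zero h2
      exact hz _ _ _ _ v (left_ne_zero_of_mul hv)
    · rw [if_neg h1] at h
      exact absurd rfl h
  rcases Nat.lt_or_ge s K with hsK | hsK
  · refine ActD.lay (a := ⟨s, hsK⟩) fun r r' h i hi => ?_
    obtain ⟨h1, h2⟩ := key r r' h
    have h3 : i.val ≠ s := fun h4 => hi (Fin.ext h4)
    rcases Nat.lt_or_ge i.val s with h4 | h4
    · exact h1 i h4
    · exact h2 i (by omega)
  · refine ActD.lay (a := ⟨0, hK⟩) fun r r' h i _ => ?_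
    exact (key r r' h).1 i (lt_of_lt_of_le i.isLt hsK)

private theorem circ_step1 {s : ℕ}
    (C : (Fin K → Fin B) → (Fin K → Fin B) → E → E → ℕ → ℂ)
    (hC : ∀ x x' y y' e e' v, Hi s x x' → Hi s y y' → C x y e e' v = C x' y' e e' v)
    (r q : Dg K B E) :
    (circL s C * dft (-1) s : Matrix (Dg K B E) (Dg K B E) ℂ) r q =
      (1 / ((B ^ s : ℕ) : ℂ)) * circHat s C r.1 q.1 r.2 q.2 (rv s r.1) *
        ee (-((rv s r.1 : ℝ) * lv s q.1 / (B : ℝ) ^ s)) := by
  rw [Matrix.mul_apply]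
  rw [Finset.sum_eq_single (circMix s r.1 q.1, q.2)]
  · unfold circL dft
    dsimp only
    rw [if_pos (circMix_low s r.1 q.1), if_pos ⟨circMix_hi s r.1 q.1, rfl⟩]
    have h1 : rv s (circMix s r.1 q.1) = rv s r.1 :=
      rv_congr fun i hi => (circMix_low s r.1 q.1 i hi).symm
    have h2 : circHat s C r.1 (circMix s r.1 q.1) r.2 q.2 (rv s r.1) =
        circHat s C r.1 q.1 r.2 q.2 (rv s r.1) := by
      unfold circHat
      refine Finset.sum_congr rfl fun v _ => ?_
      rw [hC _ _ _ _ _ _ v (Hi.refl s r.1) (circMix_hi s r.1 q.1)]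
    rw [h1, h2]
    congr 2
    push_cast
    ring
  · intro r' _ hne
    by_contra hcon
    apply hne
    have h1 := left_ne_zero_of_mul hcon
    have h2 := right_ne_zero_of_mul hcon
    unfold circL at h1
    unfold dft at h2
    have h3 : ∀ i : Fin K, i.val < s → r.1 i = r'.1 i := by
      by_contra h4
      rw [if_neg h4] at h1
      exact h1 rfl
    have h4 : Hi s r'.1 q.1 ∧ r'.2 = q.2 := by
      by_contra h4
      rw [if_neg h4] at h2
      exact h2 rfl
    refine Prod.ext ?_ h4.2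
    funext i
    show r'.1 i = circMix s r.1 q.1 i
    unfold circMix
    by_cases hi : i.val < s
    · rw [if_pos hi]
      exact (h3 i hi).symm
    · rw [if_neg hi]
      exact h4.1 i (not_lt.1 hi)
  · intro h
    exact absurd (Finset.mem_univ _) h

theorem circ_lay (hK : 0 < K) (hB : 0 < B) {s : ℕ} (hs : s ≤ K)
    (C : (Fin K → Fin B) → (Fin K → Fin B) → E → E → ℕ → ℂ)
    (hC : ∀ x x' y y' e e' v, Hi s x x' → Hi s y y' → C x y e e' v = C x' y' e e' v)
    (hz : ∀ x y e e' v, C x y e e' v ≠ 0 → Hi (s + 1) x y) :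
    Lay (2 * s + 1) 1 (fun x y => C x.1 y.1 x.2 y.2
      (((lv s x.1 : ℤ) - lv s y.1) % (B : ℤ) ^ s).toNat : Matrix (Dg K B E) (Dg K B E) ℂ) := by
  have hP : 0 < B ^ s := pow_pos hB s
  have heq : (fun x y => C x.1 y.1 x.2 y.2
      (((lv s x.1 : ℤ) - lv s y.1) % (B : ℤ) ^ s).toNat : Matrix (Dg K B E) (Dg K B E) ℂ) =
      ((dft 1 s)ᵀ * (circL s C * dft (-1) s) : Matrix (Dg K B E) (Dg K B E) ℂ) := by
    refine Matrix.ext fun p q => ?_
    show C p.1 q.1 p.2 q.2 (((lv s p.1 : ℤ) - lv s q.1) % (B : ℤ) ^ s).toNat =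
      ((dft 1 s)ᵀ * (circL s C * dft (-1) s) : Matrix (Dg K B E) (Dg K B E) ℂ) p q
    rw [Matrix.mul_apply]
    have h1 : ∀ r : Dg K B E, ((dft 1 s)ᵀ : Matrix (Dg K B E) (Dg K B E) ℂ) p r *
        (circL s C * dft (-1) s : Matrix (Dg K B E) (Dg K B E) ℂ) r q =
        if r.2 = p.2 then (if Hi s r.1 p.1 then
          (1 / ((B ^ s : ℕ) : ℂ)) * circHat s C p.1 q.1 p.2 q.2 (rv s r.1) *
            ee ((rv s r.1 : ℝ) * (((lv s p.1 : ℤ) - lv s q.1 : ℤ) : ℝ) / ((B ^ s : ℕ) : ℝ))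
          else 0) else 0 := by
      intro r
      rw [circ_step1 C hC, Matrix.transpose_apply]
      unfold dft
      by_cases h2 : r.2 = p.2
      · rw [if_pos h2]
        by_cases h3 : Hi s r.1 p.1
        · rw [if_pos ⟨h3, h2⟩, if_pos h3]
          have h4 : circHat s C r.1 q.1 r.2 q.2 (rv s r.1) =
              circHat s C p.1 q.1 p.2 q.2 (rv s r.1) := by
            unfold circHat
            refine Finset.sum_congr rfl fun v _ => ?_
            rw [hC _ _ _ _ _ _ v h3 (Hi.refl s q.1), h2]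
          have h5 : ee ((rv s r.1 : ℝ) * (((lv s p.1 : ℤ) - lv s q.1 : ℤ) : ℝ) /
              ((B ^ s : ℕ) : ℝ)) = ee (((1 : ℤ) : ℝ) * ((rv s r.1 : ℝ) * lv s p.1 / (B : ℝ) ^ s)) *
              ee (-((rv s r.1 : ℝ) * lv s q.1 / (B : ℝ) ^ s)) := by
            rw [← ee_add]
            congr 1
            push_cast
            ring
          rw [h4, h5]
          ring
        · rw [if_neg (fun h => h3 h.1), if_neg h3, zero_mul]
      · rw [if_neg (fun h => h2 h.2), if_neg h2, zero_mul]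
    rw [Finset.sum_congr rfl fun r _ => h1 r, Fintype.sum_prod_type]
    have h2 : ∀ x : Fin K → Fin B, ∑ e : E, (if (x, e).2 = p.2 then (if Hi s (x, e).1 p.1 then
          (1 / ((B ^ s : ℕ) : ℂ)) * circHat s C p.1 q.1 p.2 q.2 (rv s (x, e).1) *
            ee ((rv s (x, e).1 : ℝ) * (((lv s p.1 : ℤ) - lv s q.1 : ℤ) : ℝ) / ((B ^ s : ℕ) : ℝ))
          else 0) else 0) = if Hi s x p.1 then
          (1 / ((B ^ s : ℕ) : ℂ)) * circHat s C p.1 q.1 p.2 q.2 (rv s x) *
            ee ((rv s x : ℝ) * (((lv s p.1 : ℤ) - lv s q.1 : ℤ) : ℝ) / ((B ^ s : ℕ) : ℝ))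
          else 0 := by
      intro x
      dsimp only
      rw [Finset.sum_ite_eq' Finset.univ p.2, if_pos (Finset.mem_univ _)]
    rw [Finset.sum_congr rfl fun x _ => h2 x, ← Finset.sum_filter,
      sum_rv hs p.1 (fun χ => (1 / ((B ^ s : ℕ) : ℂ)) * circHat s C p.1 q.1 p.2 q.2 χ *
        ee ((χ : ℝ) * (((lv s p.1 : ℤ) - lv s q.1 : ℤ) : ℝ) / ((B ^ s : ℕ) : ℝ)))]
    unfold circHat
    rw [circ_inv hP (C p.1 q.1 p.2 q.2) ((lv s p.1 : ℤ) - lv s q.1)]
    push_cast
    rfl
  rw [heq]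
  have h1 := (dft_lay (E := E) hB 1 hs).transpose.mul
    ((circL_lay hK hs C hz).mul (dft_lay (E := E) hB (-1) hs))
  exact h1.mono (by omega) (by norm_num)

end MP0775d3.Bf
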