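import Pool.Agent.Lib.MP_0775d3_lc.Bf.ClosB

/-! Every permutation of a grid `α × β` is a product of three permutations: inside the fibres
`{a} × β`, inside the fibres `α × {c}`, inside the fibres `{a} × β` (Clos network). -/

set_option linter.unusedSectionVars false
set_option linter.unusedVariables false

namespace MP0775d3.Bf

variable {α β : Type*} [Fintype α] [Fintype β] [DecidableEq α] [DecidableEq β]

private theorem clos_card (a : α) :
    ((Finset.univ : Finset (α × β)).filter fun x => x.1 = a).card = Fintype.card β := by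
  have h : (Finset.univ : Finset (α × β)).filter (fun x => x.1 = a) =
      Finset.univ.map ⟨fun b : β => (a, b), fun b c h => (Prod.ext_iff.1 h).2⟩ := by
    ext x
    simp only [Finset.mem_filter, Finset.mem_univ, true_and, Finset.mem_map,
      Function.Embedding.coeFn_mk]
    constructor
    · rintro rfl
      exact ⟨x.2, rfl⟩
    · rintro ⟨b, rfl⟩
      rfl
  rw [h, Finset.card_map, Finset.card_univ]

private theorem clos_card' (π : Equiv.Perm (α × β)) (a : α) :
    ((Finset.univ : Finset (α × β)).filter fun x => (π x).1 = a).card = Fintype.card β := by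
  rw [← clos_card (β := β) a]
  refine Finset.card_bij (fun x _ => π x) ?_ ?_ ?_
  · intro x hx
    rw [Finset.mem_filter] at hx ⊢
    exact ⟨Finset.mem_univ _, hx.2⟩
  · intro x _ y _ hxy
    exact π.injective hxy
  · intro y hy
    rw [Finset.mem_filter] at hy
    exact ⟨π.symm y, Finset.mem_filter.2 ⟨Finset.mem_univ _, by rw [π.apply_symm_apply]; exact hy.2⟩,
      π.apply_symm_apply y⟩

/-- PROOF. `clos_colour` with `D = univ`, `k = Fintype.card β`, colours in `β`.
`h (a, b) = (a, col (a, b))`, `f⁻¹ (a', b') = (a', col (π⁻¹ (a', b')))` (injective, so bijective),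
`g = f⁻¹ * π * h⁻¹`: if `col (a, b) = c` and `π (a, b) = (a', b')` then `g (a, c) = (a', c)`. -/
theorem clos (π : Equiv.Perm (α × β)) : ∃ f g h : Equiv.Perm (α × β), π = f * g * h ∧
    (∀ x, (f x).1 = x.1) ∧ (∀ x, (g x).2 = x.2) ∧ (∀ x, (h x).1 = x.1) ∧
    ∀ x, ∃ b, (g x).1 = (π (x.1, b)).1 := by
  classical
  obtain ⟨col, hl, e1, e2⟩ := clos_colour π (Fintype.card β) Finset.univ
    (fun a => clos_card a) (fun a => clos_card' π a)
  let c : α × β → β := fun x => (Fintype.equivFin β).symm ⟨col x, hl x (Finset.mem_univ x)⟩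
  have hc : ∀ x y, c x = c y → col x = col y := by
    intro x y hxy
    have h1 := (Fintype.equivFin β).symm.injective hxy
    exact congrArg Fin.val h1
  have hh : Function.Injective fun x : α × β => (x.1, c x) := by
    intro x y hxy
    obtain ⟨h1, h2⟩ := Prod.ext_iff.1 hxy
    exact e1 x (Finset.mem_univ _) y (Finset.mem_univ _) h1 (hc x y h2)
  have hf : Function.Injective fun y : α × β => (y.1, c (π.symm y)) := by
    intro x y hxy
    obtain ⟨h1, h2⟩ := Prod.ext_iff.1 hxy
    have h3 := e2 (π.symm x) (Finset.mem_univ _) (π.symm y) (Finset.mem_univ _)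
      (by rw [π.apply_symm_apply, π.apply_symm_apply]; exact h1) (hc _ _ h2)
    exact π.symm.injective h3
  let h : Equiv.Perm (α × β) := Equiv.ofBijective _ (Finite.injective_iff_bijective.1 hh)
  let f' : Equiv.Perm (α × β) := Equiv.ofBijective _ (Finite.injective_iff_bijective.1 hf)
  have hh1 : ∀ x, h x = (x.1, c x) := fun x => rfl
  have hf1 : ∀ x, f' x = (x.1, c (π.symm x)) := fun x => rfl
  refine ⟨f'⁻¹, f' * π * h⁻¹, h, by group, ?_, ?_, fun x => rfl, ?_⟩
  · intro x
    have h1 : (f' (f'⁻¹ x)).1 = (f'⁻¹ x).1 := rfl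
    have h2 : f' (f'⁻¹ x) = x := f'.apply_symm_apply x
    rw [← h1, h2]
  · intro x
    obtain ⟨y, rfl⟩ := h.surjective x
    have h2 : h⁻¹ (h y) = y := h.symm_apply_apply y
    rw [Equiv.Perm.mul_apply, Equiv.Perm.mul_apply, h2, hf1, hh1, π.symm_apply_apply]
  · intro x
    obtain ⟨y, rfl⟩ := h.surjective x
    refine ⟨y.2, ?_⟩
    have h2 : h⁻¹ (h y) = y := h.symm_apply_apply y
    rw [Equiv.Perm.mul_apply, Equiv.Perm.mul_apply, h2]
    rfl

end MP0775d3.Bf
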