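import Mathlib

/-! Clos network, part A: a perfect matching (Hall's theorem). -/

set_option linter.unusedSectionVars false
set_option linter.unusedVariables false

namespace MP0775d3.Bf

variable {α β : Type*} [Fintype α] [Fintype β] [DecidableEq α] [DecidableEq β]

private theorem closA_count (D : Finset (α × β)) (k : ℕ) (f : α × β → α)
    (h : ∀ a, (D.filter fun x => f x = a).card = k) (s : Finset α) :
    (D.filter fun x => f x ∈ s).card = k * s.card := by
  have h1 : Set.MapsTo f (D.filter fun x => f x ∈ s : Finset (α × β)) (s : Set α) := by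
    intro x hx
    exact (Finset.mem_filter.1 (Finset.mem_coe.1 hx)).2
  rw [Finset.card_eq_sum_card_fiberwise h1]
  have h2 : ∀ a ∈ s, ((D.filter fun x => f x ∈ s).filter fun x => f x = a).card = k := by
    intro a ha
    rw [← h a, Finset.filter_filter]
    congr 1
    ext x
    simp only [Finset.mem_filter]
    constructor
    · rintro ⟨h3, -, h4⟩
      exact ⟨h3, h4⟩
    · rintro ⟨h3, h4⟩
      exact ⟨h3, by rw [h4]; exact ha, h4⟩
  rw [Finset.sum_congr rfl h2, Finset.sum_const, smul_eq_mul, mul_comm]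

/-- Hall: a `k`-regular set of edges, `k ≥ 1`, contains a perfect matching.
PROOF. `Finset.all_card_le_biUnion_card_iff_exists_injective` for
`t a = (D.filter fun x => x.1 = a).image fun x => (π x).1`. Condition: for `s ⊆ α`,
`k |s| = #{x ∈ D : x.1 ∈ s} ≤ #{x ∈ D : (π x).1 ∈ s.biUnion t} = k |s.biUnion t|`. -/
theorem clos_matching (π : Equiv.Perm (α × β)) (D : Finset (α × β)) (k : ℕ) (hk : 0 < k)
    (h₁ : ∀ a, (D.filter fun x => x.1 = a).card = k)
    (h₂ : ∀ a, (D.filter fun x => (π x).1 = a).card = k) :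
    ∃ m : α → α × β, (∀ a, m a ∈ D) ∧ (∀ a, (m a).1 = a) ∧
      Function.Injective fun a => (π (m a)).1 := by
  classical
  let t : α → Finset α := fun a => (D.filter fun x => x.1 = a).image fun x => (π x).1
  have hall : ∀ s : Finset α, s.card ≤ (s.biUnion t).card := by
    intro s
    have h3 := closA_count D k (fun x => x.1) h₁ s
    have h4 := closA_count D k (fun x => (π x).1) h₂ (s.biUnion t)
    have h5 : (D.filter fun x => x.1 ∈ s) ⊆ D.filter fun x => (π x).1 ∈ s.biUnion t := by
      intro x hx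
      rw [Finset.mem_filter] at hx ⊢
      refine ⟨hx.1, Finset.mem_biUnion.2 ⟨x.1, hx.2, ?_⟩⟩
      exact Finset.mem_image.2 ⟨x, Finset.mem_filter.2 ⟨hx.1, rfl⟩, rfl⟩
    have h6 := Finset.card_le_card h5
    rw [h3, h4] at h6
    exact Nat.le_of_mul_le_mul_left h6 hk
  obtain ⟨f, hf, hf2⟩ := (Finset.all_card_le_biUnion_card_iff_exists_injective t).1 hall
  have h7 : ∀ a, ∃ x ∈ D, x.1 = a ∧ (π x).1 = f a := by
    intro a
    obtain ⟨x, hx, hx2⟩ := Finset.mem_image.1 (hf2 a)
    obtain ⟨h8, h9⟩ := Finset.mem_filter.1 hx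
    exact ⟨x, h8, h9, hx2⟩
  choose m hm1 hm2 hm3 using h7
  refine ⟨m, hm1, hm2, fun a b hab => hf ?_⟩
  dsimp only at hab
  rw [← hm3 a, ← hm3 b, hab]

end MP0775d3.Bf
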