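import Pool.Agent.Lib.MP_0775d3_lc.Bf.ClosA

/-! Clos network, part B: edge colouring of a regular bipartite multigraph. -/

set_option linter.unusedSectionVars false
set_option linter.unusedVariables false

namespace MP0775d3.Bf

variable {α β : Type*} [Fintype α] [Fintype β] [DecidableEq α] [DecidableEq β]

/-- The edges of a `k`-regular set are coloured with `k` colours such that the edges with the same
left end have different colours, and the edges with the same right end have different colours.
PROOF. Induction on `k`: remove the matching (injective maps `α → α` are bijective), colour `k` on it. -/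
theorem clos_colour (π : Equiv.Perm (α × β)) (k : ℕ) : ∀ D : Finset (α × β),
    (∀ a, (D.filter fun x => x.1 = a).card = k) →
    (∀ a, (D.filter fun x => (π x).1 = a).card = k) →
    ∃ col : α × β → ℕ, (∀ x ∈ D, col x < k) ∧
      (∀ x ∈ D, ∀ y ∈ D, x.1 = y.1 → col x = col y → x = y) ∧
      (∀ x ∈ D, ∀ y ∈ D, (π x).1 = (π y).1 → col x = col y → x = y) := by
  classical
  induction k with
  | zero =>
    intro D h₁ h₂
    have hD : ∀ x, x ∉ D := by
      intro x hx
      have h := Finset.card_eq_zero.1 (h₁ x.1)
      have h3 : x ∈ D.filter fun y => y.1 = x.1 := Finset.mem_filter.2 ⟨hx, rfl⟩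
      rw [h] at h3
      exact absurd h3 (Finset.notMem_empty x)
    exact ⟨fun _ => 0, fun x hx => absurd hx (hD x), fun x hx => absurd hx (hD x),
      fun x hx => absurd hx (hD x)⟩
  | succ k ih =>
    intro D h₁ h₂
    obtain ⟨m, hm1, hm2, hm3⟩ := clos_matching π D (k + 1) (Nat.succ_pos k) h₁ h₂
    have hinj : Function.Injective m := fun a b hab => by rw [← hm2 a, ← hm2 b, hab]
    have hsurj : Function.Surjective fun a => (π (m a)).1 :=
      Finite.surjective_of_injective hm3
    let D' : Finset (α × β) := D.filter fun x => x ≠ m x.1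
    have hmem : ∀ x, x ∈ D' ↔ x ∈ D ∧ x ≠ m x.1 := fun x => Finset.mem_filter
    have hc1 : ∀ a, (D'.filter fun x => x.1 = a).card = k := by
      intro a
      have h3 : D'.filter (fun x => x.1 = a) = (D.filter fun x => x.1 = a).erase (m a) := by
        ext x
        rw [Finset.mem_filter, hmem, Finset.mem_erase, Finset.mem_filter]
        constructor
        · rintro ⟨⟨h4, h5⟩, rfl⟩
          exact ⟨h5, h4, rfl⟩
        · rintro ⟨h4, h5, rfl⟩
          exact ⟨⟨h5, h4⟩, rfl⟩
      rw [h3, Finset.card_erase_of_mem (Finset.mem_filter.2 ⟨hm1 a, hm2 a⟩), h₁ a]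
      rfl
    have hc2 : ∀ a, (D'.filter fun x => (π x).1 = a).card = k := by
      intro a
      obtain ⟨c, hc⟩ := hsurj a
      dsimp only at hc
      have h3 : D'.filter (fun x => (π x).1 = a) =
          (D.filter fun x => (π x).1 = a).erase (m c) := by
        ext x
        rw [Finset.mem_filter, hmem, Finset.mem_erase, Finset.mem_filter]
        constructor
        · rintro ⟨⟨h4, h5⟩, h6⟩
          refine ⟨?_, h4, h6⟩
          rintro rfl
          exact h5 (by rw [hm2])
        · rintro ⟨h4, h5, h6⟩
          refine ⟨⟨h5, fun h7 => h4 ?_⟩, h6⟩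
          have h8 : (π (m x.1)).1 = (π (m c)).1 := by rw [← h7, h6, hc]
          rw [← hm3 h8]
          exact h7
      rw [h3, Finset.card_erase_of_mem (Finset.mem_filter.2 ⟨hm1 c, hc⟩), h₂ a]
      rfl
    obtain ⟨col, hl, e1, e2⟩ := ih D' hc1 hc2
    refine ⟨fun x => if x = m x.1 then k else col x, ?_, ?_, ?_⟩
    · intro x hx
      dsimp only
      split_ifs with h
      · exact Nat.lt_succ_self k
      · exact (hl x ((hmem x).2 ⟨hx, h⟩)).trans (Nat.lt_succ_self k)
    · intro x hx y hy hxy hcol
      dsimp only at hcol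
      split_ifs at hcol with h h' h'
      · rw [h, h', hxy]
      · exact absurd hcol (hl y ((hmem y).2 ⟨hy, h'⟩)).ne'
      · exact absurd hcol (hl x ((hmem x).2 ⟨hx, h⟩)).ne
      · exact e1 x ((hmem x).2 ⟨hx, h⟩) y ((hmem y).2 ⟨hy, h'⟩) hxy hcol
    · intro x hx y hy hxy hcol
      dsimp only at hcol
      split_ifs at hcol with h h' h'
      · have h8 : (π (m x.1)).1 = (π (m y.1)).1 := by rw [← h, ← h', hxy]
        rw [h, h', hm3 h8]
      · exact absurd hcol (hl y ((hmem y).2 ⟨hy, h'⟩)).ne'
      · exact absurd hcol (hl x ((hmem x).2 ⟨hx, h⟩)).ne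
      · exact e2 x ((hmem x).2 ⟨hx, h⟩) y ((hmem y).2 ⟨hy, h'⟩) hxy hcol

end MP0775d3.Bf
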