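import Pool.Agent.Lib.MP_0775d3_lc.Bf.Defs

/-! The coefficients in the resolution of the identity.

PROOF. Put `T = P \ V`, `|V| < L`. Then `(-1)^|T ∩ B| = (-1)^|B| * (-1)^|V ∩ B|`. So we need `y_V`,
`|V| < L`, with `∑ y_V (-1)^|V ∩ B| = (-1)^|B|` for `w ≤ |B| < w + L`. The functions
`B ↦ ∑_{|V| ≤ i} y_V (-1)^|V ∩ B|` contain `B ↦ C(|B|, i)` (it is the sum over the `i`-subsets `V`
of `P` of `∏_{g ∈ V} (1 - (-1)^[g ∈ B]) / 2`), hence also `B ↦ ∑_j C(|B|, j) a_j` for `j ≤ i`, hence
`B ↦ C(|B| - w, i)` for `|B| ≥ w` (Vandermonde: `C(m - w, i) = ∑_j C(m, j) C(-w, i - j)`,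
`Ring.choose` or the polynomial `∑_j (-1)^(i-j) C(w + i - j - 1, i - j) C(m, j)`). Finally for
`0 ≤ m < L`: `∑_{i<L} (-2)^i C(m, i) = (1 - 2)^m = (-1)^m`. -/

set_option linter.unusedSectionVars false
set_option linter.unusedVariables false

namespace MP0775d3.Bf

open Matrix MP0775d3.Kron

variable {F : Type*} [Field F] {ι : Type*} [Fintype ι] [DecidableEq ι]

/-- `Φ` is a combination of the characters of the sets of size `≤ k`, on the sets of size `≥ w`. -/
private def CoeffAch (P : Finset ι) (k w : ℕ) (Φ : Finset ι → F) : Prop :=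
  ∃ y : Finset ι → F, (∀ V, y V ≠ 0 → V ⊆ P ∧ V.card ≤ k) ∧
    ∀ B, B ⊆ P → w ≤ B.card → ∑ V ∈ P.powerset, y V * (-1) ^ (V ∩ B).card = Φ B

private theorem coeff_congr {P : Finset ι} {k w : ℕ} {Φ Ψ : Finset ι → F}
    (h : ∀ B, B ⊆ P → w ≤ B.card → Φ B = Ψ B) (hΦ : CoeffAch P k w Φ) : CoeffAch P k w Ψ := by
  obtain ⟨y, h1, h2⟩ := hΦ
  exact ⟨y, h1, fun B hB hw => (h2 B hB hw).trans (h B hB hw)⟩

private theorem coeff_mono {P : Finset ι} {k w w' : ℕ} (hw : w ≤ w') {Φ : Finset ι → F}
    (hΦ : CoeffAch P k w Φ) : CoeffAch P k w' Φ := by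
  obtain ⟨y, h1, h2⟩ := hΦ
  exact ⟨y, h1, fun B hB hw' => h2 B hB (hw.trans hw')⟩

private theorem coeff_smul {P : Finset ι} {k w : ℕ} {Φ : Finset ι → F} (c : F)
    (hΦ : CoeffAch P k w Φ) : CoeffAch P k w (fun B => c * Φ B) := by
  obtain ⟨y, h1, h2⟩ := hΦ
  refine ⟨fun V => c * y V, fun V hV => h1 V (right_ne_zero_of_mul hV), fun B hB hw => ?_⟩
  beta_reduce
  rw [← h2 B hB hw, Finset.mul_sum]
  exact Finset.sum_congr rfl fun V _ => mul_assoc _ _ _

private theorem coeff_add {P : Finset ι} {k w : ℕ} {Φ Ψ : Finset ι → F}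
    (hΦ : CoeffAch P k w Φ) (hΨ : CoeffAch P k w Ψ) : CoeffAch P k w (fun B => Φ B + Ψ B) := by
  obtain ⟨y, h1, h2⟩ := hΦ
  obtain ⟨y', h1', h2'⟩ := hΨ
  refine ⟨fun V => y V + y' V, fun V hV => ?_, fun B hB hw => ?_⟩
  · by_cases h : y V = 0
    · exact h1' V fun h' => hV (by beta_reduce; rw [h, h', add_zero])
    · exact h1 V h
  · beta_reduce
    rw [← h2 B hB hw, ← h2' B hB hw, ← Finset.sum_add_distrib]
    exact Finset.sum_congr rfl fun V _ => add_mul _ _ _

private theorem coeff_sub {P : Finset ι} {k w : ℕ} {Φ Ψ : Finset ι → F}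
    (hΦ : CoeffAch P k w Φ) (hΨ : CoeffAch P k w Ψ) : CoeffAch P k w (fun B => Φ B - Ψ B) := by
  refine coeff_congr (fun B _ _ => ?_) (coeff_add hΦ (coeff_smul (-1) hΨ))
  ring

private theorem coeff_sum {κ : Type*} [DecidableEq κ] {P : Finset ι} {k w : ℕ} (s : Finset κ)
    (Φ : κ → Finset ι → F)
    (h : ∀ a ∈ s, CoeffAch P k w (Φ a)) : CoeffAch P k w (fun B => ∑ a ∈ s, Φ a B) := by
  induction s using Finset.induction_on with
  | empty =>
    refine ⟨fun _ => 0, fun V hV => absurd rfl hV, fun B _ _ => ?_⟩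
    simp
  | insert a s ha ih =>
    refine coeff_congr (fun B _ _ => (Finset.sum_insert ha).symm) (coeff_add
      (h a (Finset.mem_insert_self a s)) (ih fun b hb => h b (Finset.mem_insert_of_mem hb)))

/-- the indicator of `V₀ ⊆ B` -/
private theorem coeff_ind (h2 : (2 : F) ≠ 0) {P V₀ : Finset ι} (hV : V₀ ⊆ P) {k : ℕ}
    (hk : V₀.card ≤ k) : CoeffAch P k 0 (fun B => if V₀ ⊆ B then (1 : F) else 0) := by
  refine ⟨fun V => if V ⊆ V₀ then (-(1 / 2 : F)) ^ V.card * (1 / 2 : F) ^ (V₀ \ V).card else 0,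
    fun V hne => ?_, fun B hB _ => ?_⟩
  · by_cases h : V ⊆ V₀
    · exact ⟨h.trans hV, (Finset.card_le_card h).trans hk⟩
    · simp only [h, if_false] at hne
      exact absurd rfl hne
  · have h3 : ∑ V ∈ P.powerset, (if V ⊆ V₀ then (-(1 / 2 : F)) ^ V.card *
        (1 / 2 : F) ^ (V₀ \ V).card else 0) * (-1) ^ (V ∩ B).card =
        ∑ V ∈ V₀.powerset, ((-(1 / 2 : F)) ^ V.card * (1 / 2 : F) ^ (V₀ \ V).card) *
          (-1) ^ (V ∩ B).card := by
      symm
      refine (Finset.sum_congr rfl fun V hV' => ?_).trans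
        (Finset.sum_subset (Finset.powerset_mono.2 hV) fun V _ hV' => ?_)
      · rw [if_pos (Finset.mem_powerset.1 hV')]
      · rw [if_neg (fun h => hV' (Finset.mem_powerset.2 h)), zero_mul]
    rw [h3]
    have h4 : ∏ g ∈ V₀, (-(1 / 2 : F) * (if g ∈ B then -1 else 1) + 1 / 2) =
        if V₀ ⊆ B then (1 : F) else 0 := by
      by_cases h : V₀ ⊆ B
      · rw [if_pos h]
        refine Finset.prod_eq_one fun g hg => ?_
        rw [if_pos (h hg)]
        field_simp
        ring
      · rw [if_neg h]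
        obtain ⟨g, hg, hgB⟩ := Finset.not_subset.1 h
        refine Finset.prod_eq_zero hg ?_
        rw [if_neg hgB]
        ring
    beta_reduce
    rw [← h4, Finset.prod_add]
    refine Finset.sum_congr rfl fun V hV' => ?_
    rw [Finset.prod_mul_distrib, Finset.prod_const, Finset.prod_const, Finset.prod_ite,
      Finset.prod_const, Finset.prod_const_one, mul_one, Finset.filter_mem_eq_inter]
    ring

/-- the binomial coefficients of the size -/
private theorem coeff_choose (h2 : (2 : F) ≠ 0) (P : Finset ι) {k i : ℕ} (hi : i ≤ k) :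
    CoeffAch P k 0 (fun B => ((B.card.choose i : ℕ) : F)) := by
  refine coeff_congr (fun B hB _ => ?_) (coeff_sum (P.powersetCard i)
    (fun V₀ B => if V₀ ⊆ B then (1 : F) else 0) fun V₀ hV₀ => ?_)
  · rw [← Finset.card_powersetCard, ← Finset.sum_filter, Finset.sum_const, nsmul_eq_mul, mul_one]
    congr 2
    ext V
    rw [Finset.mem_filter, Finset.mem_powersetCard, Finset.mem_powersetCard]
    exact ⟨fun h => ⟨h.2, h.1.2⟩, fun h => ⟨⟨h.1.trans hB, h.2⟩, h.1⟩⟩
  · obtain ⟨h3, h4⟩ := Finset.mem_powersetCard.1 hV₀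
    exact coeff_ind h2 h3 (by omega)

private theorem coeff_shift (h2 : (2 : F) ≠ 0) (P : Finset ι) (k w : ℕ) : ∀ i, i ≤ k →
    CoeffAch P k w (fun B => (((B.card - w).choose i : ℕ) : F)) := by
  induction w with
  | zero => exact fun i hi => coeff_choose h2 P hi
  | succ w ih =>
    intro i
    induction i with
    | zero =>
      intro hi
      refine coeff_congr (fun B _ _ => ?_) (coeff_mono (Nat.le_succ w) (ih 0 hi))
      simp
    | succ i ih' =>
      intro hi
      refine coeff_congr (fun B _ hw => ?_) (coeff_sub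
        (coeff_mono (Nat.le_succ w) (ih (i + 1) hi)) (ih' (by omega)))
      have h3 : B.card - w = (B.card - (w + 1)) + 1 := by omega
      rw [h3, Nat.choose_succ_succ]
      push_cast
      ring

theorem exists_coeff (h2 : (2 : F) ≠ 0) (P : Finset ι) (w L : ℕ) :
    ∃ c : Finset ι → F, (∀ T, c T ≠ 0 → T ⊆ P ∧ P.card < T.card + L) ∧
      ∀ B, B ⊆ P → w ≤ B.card → B.card < w + L →
        ∑ T ∈ P.powerset, c T * (-1) ^ (T ∩ B).card = 1 := by
  rcases Nat.eq_zero_or_pos L with rfl | hL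
  · exact ⟨fun _ => 0, fun T hT => absurd rfl hT, fun B _ h3 h4 => by omega⟩
  obtain ⟨y, hy, hyB⟩ := coeff_sum (P := P) (k := L - 1) (w := w) (Finset.range L)
    (fun i B => (-2 : F) ^ i * (((B.card - w).choose i : ℕ) : F))
    (fun i hi => coeff_smul _ (coeff_shift h2 P (L - 1) w i (by
      rw [Finset.mem_range] at hi
      omega)))
  refine ⟨fun T => if T ⊆ P then (-1) ^ w * y (P \ T) else 0, fun T hT => ?_,
    fun B hB hw hwL => ?_⟩
  · by_cases h : T ⊆ P
    · simp only [h, if_true] at hT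
      obtain ⟨h3, h4⟩ := hy _ (right_ne_zero_of_mul hT)
      refine ⟨h, ?_⟩
      rw [Finset.card_sdiff_of_subset h] at h4
      omega
    · simp only [h, if_false] at hT
      exact absurd rfl hT
  · have h3 := hyB B hB hw
    have h4 : ∑ i ∈ Finset.range L, (-2 : F) ^ i * (((B.card - w).choose i : ℕ) : F) =
        (-1) ^ (B.card - w) := by
      have h5 : (-1 : F) ^ (B.card - w) = ((-2) + 1) ^ (B.card - w) := by
        congr 1
        ring
      rw [h5, add_pow]
      symm
      refine (Finset.sum_congr rfl fun i _ => ?_).trans (Finset.sum_subset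
        (Finset.range_subset_range.2 (show B.card - w + 1 ≤ L by omega)) fun i _ hi => ?_)
      · rw [one_pow, mul_one]
      · rw [Finset.mem_range, not_lt] at hi
        rw [Nat.choose_eq_zero_of_lt (by omega), Nat.cast_zero, mul_zero]
    beta_reduce at h3
    rw [h4] at h3
    have h5 : ∑ T ∈ P.powerset, (if T ⊆ P then (-1) ^ w * y (P \ T) else 0) *
        (-1) ^ (T ∩ B).card =
        (-1) ^ w * (-1) ^ B.card * ∑ V ∈ P.powerset, y V * (-1) ^ (V ∩ B).card := by
      rw [Finset.mul_sum]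
      refine Finset.sum_bij' (fun T _ => P \ T) (fun V _ => P \ V) (fun T _ => ?_) (fun V _ => ?_)
        (fun T hT => ?_) (fun V hV => ?_) (fun T hT => ?_)
      · exact Finset.mem_powerset.2 Finset.sdiff_subset
      · exact Finset.mem_powerset.2 Finset.sdiff_subset
      · exact Finset.sdiff_sdiff_eq_self (Finset.mem_powerset.1 hT)
      · exact Finset.sdiff_sdiff_eq_self (Finset.mem_powerset.1 hV)
      · have hT' := Finset.mem_powerset.1 hT
        rw [if_pos hT']
        have h6 : B.card = (T ∩ B).card + ((P \ T) ∩ B).card := by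
          rw [← Finset.card_union_of_disjoint]
          · congr 1
            rw [← Finset.union_inter_distrib_right, Finset.union_sdiff_of_subset hT']
            exact (Finset.inter_eq_right.2 hB).symm
          · rw [Finset.disjoint_left]
            intro g hg hg'
            exact (Finset.mem_sdiff.1 (Finset.mem_inter.1 hg').1).2 (Finset.mem_inter.1 hg).1
        rw [h6, pow_add]
        have h7 : ((-1 : F) ^ ((P \ T) ∩ B).card) * (-1) ^ ((P \ T) ∩ B).card = 1 := by
          rw [← mul_pow]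
          simp
        linear_combination (-((-1) ^ w * y (P \ T) * (-1) ^ (T ∩ B).card)) * h7
    rw [h5, h3]
    have h8 : B.card = (B.card - w) + w := by omega
    rw [h8, Nat.add_sub_cancel, pow_add]
    have h9 : ((-1 : F) ^ w) * (-1) ^ w = 1 := by
      rw [← mul_pow]
      simp
    have h10 : ((-1 : F) ^ (B.card - w)) * (-1) ^ (B.card - w) = 1 := by
      rw [← mul_pow]
      simp
    linear_combination ((-1 : F) ^ (B.card - w) * (-1) ^ (B.card - w)) * h9 + h10

end MP0775d3.Bf
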