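import Pool.Agent.Lib.MP_0775d3_lc.Bf.Act

/-! Chernoff bound for the number of pairs in the antisymmetric state.

PROOF. With `K = P.card`, `N = card ι`: `∑_b z ^ |neg b| = 2 ^ (N - 2 K) * (3 + z) ^ K`
(each pair has 4 labels, one of them is counted). For `|s| ≤ 1`, `z = exp s`:
`(3/4) exp (-s/4) + (1/4) exp (3 s/4) ≤ exp (s^2)`, because `exp u ≤ u + exp (u^2)`. So by Markov
each tail has at most `2^N exp (K s^2 - s η N) ≤ 2^N exp (N s^2 / 2 - s η N)` elements, `s = ± η`. -/

set_option linter.unusedSectionVars false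
set_option linter.unusedVariables false

namespace MP0775d3.Bf

open Matrix MP0775d3.Kron

variable {ι : Type*} [Fintype ι] [DecidableEq ι]

private theorem count_avg (g : ι) (G : (ι → Bool) → ℝ) :
    ∑ b : ι → Bool, (G (Function.update b g true) + G (Function.update b g false)) =
      2 * ∑ b : ι → Bool, G b := by
  have hinv : Function.Involutive fun b : ι → Bool => Function.update b g (! b g) := by
    intro b
    funext i
    by_cases hi : i = g
    · subst hi
      simp
    · simp [hi]
  have h1 : ∀ b : ι → Bool, G (Function.update b g true) + G (Function.update b g false) =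
      G b + G (hinv.toPerm _ b) := by
    intro b
    have e : hinv.toPerm _ b = Function.update b g (! b g) := rfl
    rw [e]
    have e2 : Function.update b g (b g) = b := Function.update_eq_self g b
    cases hb : b g
    · rw [hb] at e2
      rw [e2, Bool.not_false, add_comm]
    · rw [hb] at e2
      rw [e2, Bool.not_true]
  rw [Finset.sum_congr rfl fun b _ => h1 b, Finset.sum_add_distrib,
    Equiv.sum_comp (hinv.toPerm _) G]
  ring

private theorem count_step (z : ℝ) {g g' : ι} (hg : g ≠ g') (F : (ι → Bool) → ℝ)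
    (h1 : ∀ b u, F (Function.update b g u) = F b) (h2 : ∀ b u, F (Function.update b g' u) = F b) :
    4 * ∑ b : ι → Bool, (if b g = true ∧ b g' = false then z else 1) * F b =
      (3 + z) * ∑ b : ι → Bool, F b := by
  obtain ⟨H, hH⟩ : ∃ H : (ι → Bool) → ℝ,
      H = fun b => (if b g = true ∧ b g' = false then z else 1) * F b := ⟨_, rfl⟩
  have e0 : ∑ b : ι → Bool, (if b g = true ∧ b g' = false then z else 1) * F b = ∑ b, H b := by
    rw [hH]
  have e1 := count_avg g H
  have e2 := count_avg g' fun b => H (Function.update b g true) + H (Function.update b g false)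
  have e3 : ∀ b : ι → Bool,
      (H (Function.update (Function.update b g' true) g true) +
        H (Function.update (Function.update b g' true) g false)) +
      (H (Function.update (Function.update b g' false) g true) +
        H (Function.update (Function.update b g' false) g false)) = (3 + z) * F b := by
    intro b
    rw [hH]
    simp only [h1, h2, Function.update_self, Function.update_of_ne hg.symm]
    simp
    ring
  rw [Finset.sum_congr rfl fun b _ => e3 b, ← Finset.mul_sum, e1] at e2
  rw [e0, e2]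
  ring

private theorem count_two {τ : Equiv.Perm ι} {P : Finset ι} (hinv : ∀ i, τ (τ i) = i)
    (hd : ∀ i ∈ P, τ i ∉ P) : 2 * P.card ≤ Fintype.card ι := by
  have h1 : Disjoint P (P.image τ) := by
    rw [Finset.disjoint_left]
    intro i hi hi'
    obtain ⟨j, hj, rfl⟩ := Finset.mem_image.1 hi'
    exact hd j hj hi
  have h2 := Finset.card_le_univ (P ∪ P.image τ)
  rw [Finset.card_union_of_disjoint h1, Finset.card_image_of_injective _ τ.injective] at h2
  omega

private theorem count_prod {τ : Equiv.Perm ι} (hinv : ∀ i, τ (τ i) = i) (z : ℝ) (P : Finset ι)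
    (hd : ∀ i ∈ P, τ i ∉ P) :
    4 ^ P.card * ∑ b : ι → Bool, ∏ g ∈ P, (if b g = true ∧ b (τ g) = false then z else 1) =
      2 ^ Fintype.card ι * (3 + z) ^ P.card := by
  induction P using Finset.induction_on with
  | empty => simp
  | insert g P hgP ih =>
    have hd' : ∀ i ∈ P, τ i ∉ P := fun i hi hc =>
      hd i (Finset.mem_insert_of_mem hi) (Finset.mem_insert_of_mem hc)
    have ih' := ih hd'
    have hgg : g ≠ τ g := fun hc =>
      hd g (Finset.mem_insert_self g P) (hc ▸ Finset.mem_insert_self g P)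
    have hτg : τ g ∉ P := fun hc => hd g (Finset.mem_insert_self g P) (Finset.mem_insert_of_mem hc)
    -- the slots of the other pairs are different from `g`, `τ g`
    have hne : ∀ i ∈ P, i ≠ g ∧ i ≠ τ g ∧ τ i ≠ g ∧ τ i ≠ τ g := by
      intro i hi
      refine ⟨fun hc => hgP (hc ▸ hi), fun hc => hτg (hc ▸ hi), fun hc => ?_, fun hc => ?_⟩
      · apply hτg
        rw [← hc, hinv]
        exact hi
      · exact hgP (τ.injective hc ▸ hi)
    have hstep := count_step z hgg
      (fun b => ∏ i ∈ P, (if b i = true ∧ b (τ i) = false then z else 1))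
      (fun b u => Finset.prod_congr rfl fun i hi => by
        obtain ⟨h1, h2, h3, h4⟩ := hne i hi
        rw [Function.update_of_ne h1, Function.update_of_ne h3])
      (fun b u => Finset.prod_congr rfl fun i hi => by
        obtain ⟨h1, h2, h3, h4⟩ := hne i hi
        rw [Function.update_of_ne h2, Function.update_of_ne h4])
    rw [Finset.card_insert_of_notMem hgP]
    have e : ∀ b : ι → Bool, ∏ i ∈ insert g P, (if b i = true ∧ b (τ i) = false then z else 1) =
        (if b g = true ∧ b (τ g) = false then z else 1) *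
          ∏ i ∈ P, (if b i = true ∧ b (τ i) = false then z else 1) := fun b =>
      Finset.prod_insert hgP
    rw [Finset.sum_congr rfl fun b _ => e b, pow_succ, mul_assoc, hstep, mul_left_comm, ih', pow_succ]
    ring

theorem sum_pow_neg {τ : Equiv.Perm ι} {P : Finset ι} (hP : Pairing τ P) (z : ℝ) :
    ∑ b : ι → Bool, z ^ (neg τ P b).card = 2 ^ (Fintype.card ι - 2 * P.card) * (3 + z) ^ P.card := by
  have h1 := count_prod hP.inv z P hP.disj
  have h2 := count_two hP.inv hP.disj
  have h3 : ∀ b : ι → Bool, z ^ (neg τ P b).card =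
      ∏ g ∈ P, (if b g = true ∧ b (τ g) = false then z else 1) := by
    intro b
    unfold neg
    rw [← Finset.prod_filter, Finset.prod_const]
  rw [Finset.sum_congr rfl fun b _ => h3 b]
  have h4 : (2 : ℝ) ^ Fintype.card ι = 4 ^ P.card * 2 ^ (Fintype.card ι - 2 * P.card) := by
    rw [show (4 : ℝ) = 2 ^ 2 by norm_num, ← pow_mul, ← pow_add, Nat.add_sub_cancel' h2]
  rw [h4, mul_assoc] at h1
  exact mul_left_cancel₀ (by positivity) h1

private theorem count_exp {u : ℝ} (hu : |u| ≤ 1) : Real.exp u ≤ u + Real.exp (u ^ 2) := by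
  have h1 := Real.abs_exp_sub_one_sub_id_le hu
  have h2 := Real.add_one_le_exp (u ^ 2)
  have h3 := (abs_le.1 h1).2
  linarith

private theorem count_mgf {τ : Equiv.Perm ι} {P : Finset ι} (hP : Pairing τ P) {s : ℝ}
    (hs : |s| ≤ 1) :
    ∑ b : ι → Bool, Real.exp (s * ((neg τ P b).card - P.card / 4)) ≤
      2 ^ Fintype.card ι * Real.exp (P.card * s ^ 2) := by
  have h1 := sum_pow_neg hP (Real.exp s)
  have h2 := count_two hP.inv hP.disj
  have e1 : ∀ b : ι → Bool, Real.exp (s * ((neg τ P b).card - P.card / 4)) =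
      Real.exp (-(s / 4)) ^ P.card * Real.exp s ^ (neg τ P b).card := by
    intro b
    rw [← Real.exp_nat_mul, ← Real.exp_nat_mul, ← Real.exp_add]
    congr 1
    ring
  rw [Finset.sum_congr rfl fun b _ => e1 b, ← Finset.mul_sum, h1]
  have h3 : (3 + Real.exp s) * Real.exp (-(s / 4)) ≤ 4 * Real.exp (s ^ 2) := by
    have a1 : |-(s / 4)| ≤ 1 := by
      rw [abs_neg, abs_div]
      have : |(4 : ℝ)| = 4 := by norm_num
      rw [this]
      linarith
    have a2 : |3 * s / 4| ≤ 1 := by
      rw [abs_div, abs_mul]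
      have : |(4 : ℝ)| = 4 := by norm_num
      have h3 : |(3 : ℝ)| = 3 := by norm_num
      rw [this, h3]
      linarith
    have b1 := count_exp a1
    have b2 := count_exp a2
    have b3 : Real.exp ((-(s / 4)) ^ 2) ≤ Real.exp (s ^ 2) := by
      apply Real.exp_le_exp.2
      nlinarith [sq_nonneg s]
    have b4 : Real.exp ((3 * s / 4) ^ 2) ≤ Real.exp (s ^ 2) := by
      apply Real.exp_le_exp.2
      nlinarith [sq_nonneg s]
    have e : (3 + Real.exp s) * Real.exp (-(s / 4)) =
        3 * Real.exp (-(s / 4)) + Real.exp (3 * s / 4) := by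
      rw [add_mul, ← Real.exp_add]
      congr 2
      ring
    rw [e]
    linarith
  have h4 : (2 : ℝ) ^ Fintype.card ι = 4 ^ P.card * 2 ^ (Fintype.card ι - 2 * P.card) := by
    rw [show (4 : ℝ) = 2 ^ 2 by norm_num, ← pow_mul, ← pow_add, Nat.add_sub_cancel' h2]
  have h5 : Real.exp (P.card * s ^ 2) = Real.exp (s ^ 2) ^ P.card := (Real.exp_nat_mul _ _)
  rw [h4, h5]
  have h6 : ((3 + Real.exp s) * Real.exp (-(s / 4))) ^ P.card ≤ (4 * Real.exp (s ^ 2)) ^ P.card :=
    pow_le_pow_left₀ (by positivity) h3 _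
  rw [mul_pow, mul_pow] at h6
  have h7 : (0 : ℝ) ≤ 2 ^ (Fintype.card ι - 2 * P.card) := by positivity
  calc Real.exp (-(s / 4)) ^ P.card *
        (2 ^ (Fintype.card ι - 2 * P.card) * (3 + Real.exp s) ^ P.card)
      = 2 ^ (Fintype.card ι - 2 * P.card) *
        ((3 + Real.exp s) ^ P.card * Real.exp (-(s / 4)) ^ P.card) := by ring
    _ ≤ 2 ^ (Fintype.card ι - 2 * P.card) * (4 ^ P.card * Real.exp (s ^ 2) ^ P.card) :=
        mul_le_mul_of_nonneg_left h6 h7
    _ = _ := by ring

theorem count_le {τ : Equiv.Perm ι} {P : Finset ι} (hP : Pairing τ P) (η : ℝ) (hη : 0 < η)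
    (hη1 : η ≤ 1) :
    ((({b | ¬ ((P.card : ℝ) / 4 - η * Fintype.card ι ≤ (neg τ P b).card ∧
        ((neg τ P b).card : ℝ) ≤ P.card / 4 + η * Fintype.card ι)} :
          Set (ι → Bool)).ncard : ℕ) : ℝ) ≤
      2 * 2 ^ Fintype.card ι * Real.exp (-(η ^ 2 * Fintype.card ι / 16)) := by
  classical
  obtain ⟨N, hN⟩ : ∃ N : ℝ, N = (Fintype.card ι : ℝ) := ⟨_, rfl⟩
  obtain ⟨K, hK⟩ : ∃ K : ℝ, K = (P.card : ℝ) := ⟨_, rfl⟩
  have hN0 : 0 ≤ N := by rw [hN]; positivity
  have hKN : 2 * K ≤ N := by
    rw [hN, hK]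
    exact_mod_cast count_two hP.inv hP.disj
  have m1 := count_mgf hP (s := η) (by rw [abs_of_pos hη]; exact hη1)
  have m2 := count_mgf hP (s := -η) (by rw [abs_neg, abs_of_pos hη]; exact hη1)
  rw [← hK] at m1 m2 ⊢
  rw [← hN]
  have hset : ({b | ¬ (K / 4 - η * N ≤ (neg τ P b).card ∧
        ((neg τ P b).card : ℝ) ≤ K / 4 + η * N)} : Set (ι → Bool)) =
      ((Finset.univ.filter fun b : ι → Bool => ¬ (K / 4 - η * N ≤ (neg τ P b).card ∧
        ((neg τ P b).card : ℝ) ≤ K / 4 + η * N) : Finset (ι → Bool)) : Set (ι → Bool)) := by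
    ext b
    simp
  rw [hset, Set.ncard_coe_finset, Finset.card_filter]
  push_cast
  have hpt : ∀ b : ι → Bool, (if ¬ (K / 4 - η * N ≤ (neg τ P b).card ∧
        ((neg τ P b).card : ℝ) ≤ K / 4 + η * N) then (1 : ℝ) else 0) ≤
      Real.exp (-(η ^ 2 * N)) * Real.exp (η * ((neg τ P b).card - K / 4)) +
        Real.exp (-(η ^ 2 * N)) * Real.exp (-η * ((neg τ P b).card - K / 4)) := by
    intro b
    have p1 := Real.exp_pos (-(η ^ 2 * N))
    have p2 := Real.exp_pos (η * ((neg τ P b).card - K / 4))
    have p3 := Real.exp_pos (-η * ((neg τ P b).card - K / 4))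
    split_ifs with hb
    · positivity
    · rw [not_and_or, not_le, not_le] at hb
      rw [← Real.exp_add, ← Real.exp_add]
      have q1 := Real.exp_pos (-(η ^ 2 * N) + η * ((neg τ P b).card - K / 4))
      have q2 := Real.exp_pos (-(η ^ 2 * N) + -η * ((neg τ P b).card - K / 4))
      rcases hb with hb | hb
      · have h1 : (1 : ℝ) ≤ Real.exp (-(η ^ 2 * N) + -η * ((neg τ P b).card - K / 4)) := by
          apply Real.one_le_exp
          nlinarith
        linarith
      · have h1 : (1 : ℝ) ≤ Real.exp (-(η ^ 2 * N) + η * ((neg τ P b).card - K / 4)) := by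
          apply Real.one_le_exp
          nlinarith
        linarith
  refine (Finset.sum_le_sum fun b _ => hpt b).trans ?_
  rw [Finset.sum_add_distrib, ← Finset.mul_sum, ← Finset.mul_sum]
  have e1 : (-η) ^ 2 = η ^ 2 := by ring
  rw [e1] at m2
  have h1 : Real.exp (-(η ^ 2 * N)) * Real.exp (K * η ^ 2) ≤ Real.exp (-(η ^ 2 * N / 16)) := by
    rw [← Real.exp_add]
    apply Real.exp_le_exp.2
    have h2 : 0 < η ^ 2 := by positivity
    nlinarith
  have p1 := Real.exp_pos (-(η ^ 2 * N))
  have p2 : (0 : ℝ) ≤ 2 ^ Fintype.card ι := by positivity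
  calc Real.exp (-(η ^ 2 * N)) * ∑ b : ι → Bool, Real.exp (η * ((neg τ P b).card - K / 4)) +
        Real.exp (-(η ^ 2 * N)) * ∑ b : ι → Bool, Real.exp (-η * ((neg τ P b).card - K / 4))
      ≤ Real.exp (-(η ^ 2 * N)) * (2 ^ Fintype.card ι * Real.exp (K * η ^ 2)) +
        Real.exp (-(η ^ 2 * N)) * (2 ^ Fintype.card ι * Real.exp (K * η ^ 2)) :=
        add_le_add (mul_le_mul_of_nonneg_left m1 p1.le) (mul_le_mul_of_nonneg_left m2 p1.le)
    _ = 2 * 2 ^ Fintype.card ι * (Real.exp (-(η ^ 2 * N)) * Real.exp (K * η ^ 2)) := by ring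
    _ ≤ 2 * 2 ^ Fintype.card ι * Real.exp (-(η ^ 2 * N / 16)) :=
        mul_le_mul_of_nonneg_left h1 (by positivity)

end MP0775d3.Bf
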