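import Pool.Agent.Lib.MP_0775d3_lc.Kron.Mix

/-! Matrices indexed by bit strings. The positions `i : ι` of the bits are called slots. -/

set_option linter.unusedSectionVars false
set_option linter.unusedVariables false

namespace MP0775d3.Bf

open Matrix MP0775d3.Kron

variable {F : Type*} [Field F] {ι : Type*} [Fintype ι] [DecidableEq ι]

/-- `A` moves the slots by `σ` and acts on the slots `U` in an arbitrary way, controlled by all
slots: `A x y ≠ 0` only if `x i = y (σ⁻¹ i)` for all slots `i` outside `U`. -/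
def Act (σ : Equiv.Perm ι) (U : Finset ι) (A : Matrix (ι → Bool) (ι → Bool) F) : Prop :=
  ∀ x y, A x y ≠ 0 → ∀ i, i ∉ U → x i = y (σ.symm i)

/-- A permutation of the slots as a matrix. -/
def pm (σ : Equiv.Perm ι) : Matrix (ι → Bool) (ι → Bool) F :=
  fun x y => if ∀ i, x i = y (σ.symm i) then 1 else 0

/-- Only the pairs `{i, τ i}` which meet `T` are swapped. -/
def part (τ : Equiv.Perm ι) (T : Finset ι) (i : ι) : ι := if i ∈ T ∨ τ i ∈ T then τ i else i

theorem part_part {τ : Equiv.Perm ι} (h : ∀ i, τ (τ i) = i) (T : Finset ι) (i : ι) :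
    part τ T (part τ T i) = i := by
  unfold part
  by_cases h1 : i ∈ T ∨ τ i ∈ T
  · rw [if_pos h1, if_pos (by rw [h]; exact h1.symm), h]
  · rw [if_neg h1, if_neg h1]

/-- The permutation of the slots which swaps the pairs `{i, τ i}` meeting `T`. -/
def swp (τ : Equiv.Perm ι) (T : Finset ι) : Equiv.Perm ι :=
  if h : ∀ i, τ (τ i) = i then ⟨part τ T, part τ T, part_part h T, part_part h T⟩ else 1

/-- A system of disjoint pairs of slots `{g, τ g}`, `g ∈ P`. -/
structure Pairing (τ : Equiv.Perm ι) (P : Finset ι) : Prop where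
  inv : ∀ i, τ (τ i) = i
  disj : ∀ i ∈ P, τ i ∉ P
  fix : ∀ i, i ∉ P → τ i ∉ P → τ i = i

/-- The pairs in which the label `b` is `(true, false)` (the antisymmetric state). -/
def neg (τ : Equiv.Perm ι) (P : Finset ι) (b : ι → Bool) : Finset ι :=
  P.filter fun g => b g = true ∧ b (τ g) = false

end MP0775d3.Bf
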