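import Pool.Agent.Lib.MP_0775d3_lc.Kron.Calc

/-! Operator matrices of displacement structures. -/

set_option linter.unusedSectionVars false
set_option linter.unusedVariables false

namespace MP0775d3.Bf

open Matrix

/-- The `f`-circulant shift: ones below the diagonal and `f` in the upper right corner. -/
def fshift {F : Type*} [Field F] (n : ℕ) (f : F) : Matrix (Fin n) (Fin n) F :=
  fun i j => if i.val = j.val + 1 then 1 else if i.val = 0 ∧ j.val + 1 = n then f else 0

/-- Diagonal matrices, `f`-circulant shifts with `f ≠ 0`, and their transposes. -/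
def IsOper {F : Type*} [Field F] {n : ℕ} (M : Matrix (Fin n) (Fin n) F) : Prop :=
  (∃ d : Fin n → F, M = Matrix.diagonal d) ∨
    ∃ f : F, f ≠ 0 ∧ (M = fshift n f ∨ M = (fshift n f)ᵀ)

end MP0775d3.Bf
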