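import Pool.Agent.Lib.MP_0775d3_lc.Bf.CauchyLike
import Pool.Agent.Lib.MP_0775d3_lc.Bf.Oper

/-! The operator matrices are diagonalised by non-rigid matrices.

PROOF. Diagonal matrices: `U = U' = 1`. For `f ≠ 0` let `λ j` be the `n` distinct complex `n`-th
roots of `f` and `V j i = λ j ^ i`. Then `V * fshift n f = diagonal λ * V`, so
`fshift n f = V⁻¹ * diagonal λ * V`; `V⁻¹ m j` is the coefficient `m` of the Lagrange polynomial
`∏_{j' ≠ j} (X - λ j') / ∏_{j' ≠ j} (λ j - λ j')`, i.e. the product tree of `p j = X - C (λ j)` times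
a diagonal matrix. Transposes: transpose. -/

set_option linter.unusedSectionVars false
set_option linter.unusedVariables false

namespace MP0775d3.Bf

open Matrix MP0775d3.Kron Polynomial

/-- the `n` distinct roots of `X ^ n - f` -/
private theorem diag_roots (n : ℕ) (hn : 0 < n) (f : ℂ) (hf : f ≠ 0) :
    ∃ l : Fin n → ℂ, Function.Injective l ∧ ∀ j, l j ^ n = f := by
  obtain ⟨c, hc⟩ := IsAlgClosed.exists_pow_nat_eq f hn
  have hc0 : c ≠ 0 := by
    rintro rfl
    rw [zero_pow hn.ne'] at hc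
    exact hf hc.symm
  have hz := Complex.isPrimitiveRoot_exp n hn.ne'
  refine ⟨fun j => c * Complex.exp (2 * Real.pi * Complex.I / n) ^ j.val, ?_, ?_⟩
  · intro i j h
    have h1 := mul_left_cancel₀ hc0 h
    exact Fin.ext (hz.pow_inj i.2 j.2 h1)
  · intro j
    rw [mul_pow, hc, ← pow_mul, mul_comm j.val n, pow_mul, hz.pow_eq_one, one_pow, mul_one]

/-- the Vandermonde matrix -/
private noncomputable def diagV (n : ℕ) (l : Fin n → ℂ) : Matrix (Fin n) (Fin n) ℂ :=
  Matrix.of fun i j : Fin n => l i ^ j.val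

/-- the product tree -/
private noncomputable def diagT (n : ℕ) (l : Fin n → ℂ) : Matrix (Fin n) (Fin n) ℂ :=
  Matrix.of fun m j : Fin n => (∏ j' ∈ Finset.univ.erase j, (X - C (l j'))).coeff m.val

/-- its inverse -/
private noncomputable def diagW (n : ℕ) (l : Fin n → ℂ) : Matrix (Fin n) (Fin n) ℂ :=
  diagT n l * Matrix.diagonal fun j => (∏ j' ∈ Finset.univ.erase j, (l j - l j'))⁻¹

private theorem diag_VT (n : ℕ) (l : Fin n → ℂ) (i j : Fin n) :
    (diagV n l * diagT n l) i j = ∏ j' ∈ Finset.univ.erase j, (l i - l j') := by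
  rw [Matrix.mul_apply]
  have hdeg : (∏ j' ∈ Finset.univ.erase j, (X - C (l j'))).natDegree < n := by
    rw [natDegree_prod_of_monic _ _ fun k _ => monic_X_sub_C _]
    simp only [natDegree_X_sub_C, Finset.sum_const, smul_eq_mul, mul_one]
    rw [Finset.card_erase_of_mem (Finset.mem_univ j), Finset.card_univ, Fintype.card_fin]
    have := j.pos
    omega
  have h1 : ∏ j' ∈ Finset.univ.erase j, (l i - l j') =
      (∏ j' ∈ Finset.univ.erase j, (X - C (l j'))).eval (l i) := by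
    rw [eval_prod]
    simp
  have h2 := Fin.sum_univ_eq_sum_range
    (fun m : ℕ => (∏ j' ∈ Finset.univ.erase j, (X - C (l j'))).coeff m * l i ^ m) n
  rw [h1, eval_eq_sum_range' hdeg, ← h2]
  refine Finset.sum_congr rfl fun m _ => ?_
  simp only [diagV, diagT, Matrix.of_apply]
  exact mul_comm _ _

private theorem diag_VW (n : ℕ) (l : Fin n → ℂ) (hl : Function.Injective l) :
    diagV n l * diagW n l = 1 := by
  unfold diagW
  rw [← Matrix.mul_assoc]
  ext i j
  rw [Matrix.mul_diagonal, diag_VT, Matrix.one_apply]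
  by_cases h : i = j
  · subst h
    rw [if_pos rfl]
    refine mul_inv_cancel₀ (Finset.prod_ne_zero_iff.2 fun k hk => ?_)
    rw [sub_ne_zero]
    exact fun h => Finset.ne_of_mem_erase hk (hl h).symm
  · rw [if_neg h, Finset.prod_eq_zero (Finset.mem_erase.2 ⟨h, Finset.mem_univ i⟩) (sub_self _),
      zero_mul]

private theorem diag_Vf (n : ℕ) (f : ℂ) (l : Fin n → ℂ) (hl : ∀ j, l j ^ n = f) :
    diagV n l * fshift n f = Matrix.diagonal l * diagV n l := by
  ext i k
  rw [Matrix.mul_apply, Matrix.diagonal_mul]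
  simp only [diagV, Matrix.of_apply, fshift]
  have hk := k.2
  rw [← pow_succ']
  by_cases h : k.val + 1 = n
  · rw [Finset.sum_eq_single ⟨0, k.pos⟩]
    · rw [if_neg (by omega), if_pos ⟨rfl, h⟩, pow_zero, one_mul, h, hl]
    · intro m _ hm
      have hm0 : m.val ≠ 0 := fun h0 => hm (Fin.ext h0)
      have hm2 := m.2
      rw [if_neg (by omega), if_neg (fun t => hm0 t.1), mul_zero]
    · intro h0
      exact absurd (Finset.mem_univ _) h0
  · rw [Finset.sum_eq_single ⟨k.val + 1, by omega⟩]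
    · rw [if_pos rfl, mul_one]
    · intro m _ hm
      have hm0 : m.val ≠ k.val + 1 := fun h0 => hm (Fin.ext h0)
      rw [if_neg hm0, if_neg (fun t => h t.2), mul_zero]
    · intro h0
      exact absurd (Finset.mem_univ _) h0

private theorem diag_mono {n : ℕ} (w : Fin n → ℂ) : IsMono (Matrix.diagonal w) := by
  constructor
  · intro a b c hb hc
    have h1 : a = b := by
      by_contra h
      exact hb (Matrix.diagonal_apply_ne _ h)
    have h2 : a = c := by
      by_contra h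
      exact hc (Matrix.diagonal_apply_ne _ h)
    exact h1.symm.trans h2
  · intro a b c hb hc
    have h1 : b = a := by
      by_contra h
      exact hb (Matrix.diagonal_apply_ne _ h)
    have h2 : c = a := by
      by_contra h
      exact hc (Matrix.diagonal_apply_ne _ h)
    exact h1.trans h2.symm

theorem exists_diag (δ : ℝ) (hδ : 0 < δ) : ∃ γ : ℝ, 0 < γ ∧ ∃ n₀ : ℕ, ∀ n : ℕ, n₀ ≤ n →
    ∀ M : Matrix (Fin n) (Fin n) ℂ, IsOper M → ∃ (U U' : Matrix (Fin n) (Fin n) ℂ)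
      (x : Fin n → ℂ), U * U' = 1 ∧ M = U * Matrix.diagonal x * U' ∧
      Dec U ((n : ℝ) ^ (1 - γ)) ((n : ℝ) ^ δ) ∧ Dec U' ((n : ℝ) ^ (1 - γ)) ((n : ℝ) ^ δ) := by
  obtain ⟨γ₁, hγ₁, n₁, h₁⟩ := vand_dec δ hδ
  obtain ⟨γ₂, hγ₂, n₂, h₂⟩ := tree_dec δ hδ
  refine ⟨min γ₁ γ₂, lt_min hγ₁ hγ₂, max (max n₁ n₂) 1, fun n hn M hM => ?_⟩
  have hn1 : n₁ ≤ n := ((le_max_left _ _).trans (le_max_left _ _)).trans hn
  have hn2 : n₂ ≤ n := ((le_max_right _ _).trans (le_max_left _ _)).trans hn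
  have hn0 : 0 < n := Nat.lt_of_lt_of_le Nat.one_pos ((le_max_right _ _).trans hn)
  have hnR : (1 : ℝ) ≤ n := by exact_mod_cast hn0
  have hs0 : (0 : ℝ) ≤ (n : ℝ) ^ δ := Real.rpow_nonneg (by positivity) _
  have hr0 : (0 : ℝ) ≤ (n : ℝ) ^ (1 - min γ₁ γ₂) := Real.rpow_nonneg (by positivity) _
  have hs1 : (1 : ℝ) ≤ (n : ℝ) ^ δ := Real.one_le_rpow hnR hδ.le
  have hm1 : (n : ℝ) ^ (1 - γ₁) ≤ (n : ℝ) ^ (1 - min γ₁ γ₂) :=
    Real.rpow_le_rpow_of_exponent_le hnR (by linarith [min_le_left γ₁ γ₂])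
  have hm2 : (n : ℝ) ^ (1 - γ₂) ≤ (n : ℝ) ^ (1 - min γ₁ γ₂) :=
    Real.rpow_le_rpow_of_exponent_le hnR (by linarith [min_le_right γ₁ γ₂])
  rcases hM with ⟨d, rfl⟩ | ⟨f, hf, hM⟩
  · have h1 : Dec (1 : Matrix (Fin n) (Fin n) ℂ) ((n : ℝ) ^ (1 - min γ₁ γ₂)) ((n : ℝ) ^ δ) := by
      rw [← Matrix.diagonal_one]
      exact (diag_mono _).dec.mono hr0 hs1
    exact ⟨1, 1, d, Matrix.one_mul _, by rw [Matrix.one_mul, Matrix.mul_one], h1, h1⟩
  · obtain ⟨l, hl, hlf⟩ := diag_roots n hn0 f hf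
    have hV : Dec (diagV n l) ((n : ℝ) ^ (1 - min γ₁ γ₂)) ((n : ℝ) ^ δ) :=
      (h₁ n hn1 l).mono hm1 le_rfl
    have hT : Dec (diagT n l) ((n : ℝ) ^ (1 - min γ₁ γ₂)) ((n : ℝ) ^ δ) :=
      (h₂ n hn2 (fun j => X - C (l j)) fun j => (natDegree_X_sub_C _).le).mono hm2 le_rfl
    have hW : Dec (diagW n l) ((n : ℝ) ^ (1 - min γ₁ γ₂)) ((n : ℝ) ^ δ) := by
      have h3 := hT.mul hs0 zero_le_one
        (diag_mono fun j => (∏ j' ∈ Finset.univ.erase j, (l j - l j'))⁻¹).dec
      rw [add_zero, mul_one] at h3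
      exact h3
    have hVW := diag_VW n l hl
    have hWV : diagW n l * diagV n l = 1 := mul_eq_one_comm.1 hVW
    have hfs : fshift n f = diagW n l * Matrix.diagonal l * diagV n l := by
      rw [Matrix.mul_assoc, ← diag_Vf n f l hlf, ← Matrix.mul_assoc, hWV, Matrix.one_mul]
    rcases hM with rfl | rfl
    · exact ⟨diagW n l, diagV n l, l, hWV, hfs, hW, hV⟩
    · refine ⟨(diagV n l)ᵀ, (diagW n l)ᵀ, l, ?_, ?_, hV.transpose, hW.transpose⟩
      · rw [← Matrix.transpose_mul, hWV, Matrix.transpose_one]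
      · rw [hfs, Matrix.transpose_mul, Matrix.transpose_mul, Matrix.diagonal_transpose,
          Matrix.mul_assoc]

end MP0775d3.Bf
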