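import Pool.Agent.Lib.MP_0775d3_lc.Bf.Diag

/-! Matrices of small displacement rank over `ℂ`.

PROOF. `M = U D U'`, `N = W D' W'` with `D = diagonal x`, `D' = diagonal y` (`exists_diag` with
`δ / 3`). Coprime characteristic polynomials give `x i ≠ y j`. With `A' = U' * A * W` the matrix
`D * A' - A' * D' = U' * (M * A - A * N) * W` has rank at most `n ^ γ`, so `cauchyLike_dec` (with
`δ / 3`) applies to `A'`, and `A = U * A' * W'`. -/

set_option linter.unusedSectionVars false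
set_option linter.unusedVariables false

namespace MP0775d3.Bf

open Matrix MP0775d3.Kron Polynomial

private theorem disp_root {n : ℕ} {M U U' : Matrix (Fin n) (Fin n) ℂ} {x : Fin n → ℂ}
    (hU : U * U' = 1) (hM : M = U * Matrix.diagonal x * U') (i : Fin n) :
    M.charpoly.eval (x i) = 0 := by
  have hU' : U' * U = 1 := mul_eq_one_comm.1 hU
  have h1 := Matrix.charpoly_units_conj ⟨U, U', hU, hU'⟩ (Matrix.diagonal x)
  have h2 : M.charpoly = (Matrix.diagonal x).charpoly := by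
    rw [← h1, hM]
    show (U * Matrix.diagonal x * U').charpoly = (U * Matrix.diagonal x * U⁻¹).charpoly
    rw [Matrix.inv_eq_right_inv hU]
  rw [h2, Matrix.charpoly_diagonal, eval_prod]
  exact Finset.prod_eq_zero (Finset.mem_univ i) (by rw [eval_sub, eval_X, eval_C, sub_self])

private theorem disp_ne {n : ℕ} {M N U U' W W' : Matrix (Fin n) (Fin n) ℂ} {x y : Fin n → ℂ}
    (hU : U * U' = 1) (hM : M = U * Matrix.diagonal x * U')
    (hW : W * W' = 1) (hN : N = W * Matrix.diagonal y * W')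
    (h : IsCoprime M.charpoly N.charpoly) (i j : Fin n) : x i ≠ y j := by
  intro hxy
  obtain ⟨a, b, hab⟩ := h
  have h1 := congrArg (Polynomial.eval (x i)) hab
  have h2 := disp_root hU hM i
  have h3 := disp_root hW hN j
  rw [← hxy] at h3
  rw [eval_add, eval_mul, eval_mul, h2, h3, mul_zero, mul_zero, add_zero, eval_one] at h1
  exact zero_ne_one h1

private theorem disp_rank {n : ℕ} {M N A U U' W W' : Matrix (Fin n) (Fin n) ℂ} {x y : Fin n → ℂ}
    (hU : U * U' = 1) (hM : M = U * Matrix.diagonal x * U')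
    (hW : W * W' = 1) (hN : N = W * Matrix.diagonal y * W') :
    (Matrix.of fun i j : Fin n => (x i - y j) * (U' * A * W) i j).rank ≤
      (M * A - A * N).rank := by
  have hU' : U' * U = 1 := mul_eq_one_comm.1 hU
  have hW' : W' * W = 1 := mul_eq_one_comm.1 hW
  have e1 : U' * M = Matrix.diagonal x * U' := by
    rw [hM, Matrix.mul_assoc, ← Matrix.mul_assoc U' U, hU', Matrix.one_mul]
  have e2 : N * W = W * Matrix.diagonal y := by
    rw [hN, Matrix.mul_assoc, hW', Matrix.mul_one]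
  have e3 : (Matrix.of fun i j : Fin n => (x i - y j) * (U' * A * W) i j) =
      U' * (M * A - A * N) * W := by
    have e4 : U' * (M * A - A * N) * W =
        Matrix.diagonal x * (U' * A * W) - (U' * A * W) * Matrix.diagonal y := by
      rw [Matrix.mul_sub, Matrix.sub_mul, ← Matrix.mul_assoc U' M A, e1, Matrix.mul_assoc U' (A * N) W,
        Matrix.mul_assoc A N W, e2]
      simp only [Matrix.mul_assoc]
    rw [e4]
    ext i j
    rw [Matrix.of_apply, Matrix.sub_apply, Matrix.diagonal_mul, Matrix.mul_diagonal]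
    ring
  rw [e3]
  exact (Matrix.rank_mul_le_left _ _).trans (Matrix.rank_mul_le_right _ _)

theorem disp_dec (δ : ℝ) (hδ : 0 < δ) : ∃ γ : ℝ, 0 < γ ∧ ∃ n₀ : ℕ, ∀ n : ℕ, n₀ ≤ n →
    ∀ M N A : Matrix (Fin n) (Fin n) ℂ, IsOper M → IsOper N → IsCoprime M.charpoly N.charpoly →
      ((M * A - A * N).rank : ℝ) ≤ (n : ℝ) ^ γ →
      Dec A ((n : ℝ) ^ (1 - γ)) ((n : ℝ) ^ δ) := by
  obtain ⟨γ₁, hγ₁, n₁, h₁⟩ := exists_diag (δ / 3) (by positivity)
  obtain ⟨γ₂, hγ₂, n₂, h₂⟩ := cauchyLike_dec (δ / 3) (by positivity)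
  obtain ⟨γ, hγ, hγ1, hγ2⟩ : ∃ γ : ℝ, 0 < γ ∧ 2 * γ ≤ γ₁ ∧ 2 * γ ≤ γ₂ := by
    refine ⟨min γ₁ γ₂ / 2, by positivity, ?_, ?_⟩
    · have := min_le_left γ₁ γ₂
      linarith
    · have := min_le_right γ₁ γ₂
      linarith
  obtain ⟨n₃, hn₃⟩ : ∃ n₃ : ℕ, ∀ n : ℕ, n₃ ≤ n → (3 : ℝ) ≤ (n : ℝ) ^ γ := by
    have h := (tendsto_rpow_atTop hγ).comp tendsto_natCast_atTop_atTop
    obtain ⟨n₃, hn₃⟩ := Filter.eventually_atTop.1 (h.eventually_ge_atTop 3)
    exact ⟨n₃, hn₃⟩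
  refine ⟨γ, hγ, max (max n₁ n₂) (max n₃ 1), fun n hn M N A hM hN hc hr => ?_⟩
  have hn1 : n₁ ≤ n := (le_max_left _ _).trans ((le_max_left _ _).trans hn)
  have hn2 : n₂ ≤ n := (le_max_right _ _).trans ((le_max_left _ _).trans hn)
  have hn3 : n₃ ≤ n := (le_max_left _ _).trans ((le_max_right _ _).trans hn)
  have hn4 : 1 ≤ n := (le_max_right _ _).trans ((le_max_right _ _).trans hn)
  have hnR : (1 : ℝ) ≤ n := by exact_mod_cast hn4
  have hn0 : (0 : ℝ) < n := by linarith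
  obtain ⟨U, U', x, hU, hMU, hdU, -⟩ := h₁ n hn1 M hM
  obtain ⟨W, W', y, hW, hNW, -, hdW⟩ := h₁ n hn1 N hN
  have hU' : U' * U = 1 := mul_eq_one_comm.1 hU
  have hd : Dec (U' * A * W) ((n : ℝ) ^ (1 - γ₂)) ((n : ℝ) ^ (δ / 3)) := by
    refine h₂ n hn2 x y (disp_ne hU hMU hW hNW hc) _ ?_
    have h3 : ((Matrix.of fun i j : Fin n => (x i - y j) * (U' * A * W) i j).rank : ℝ) ≤
        ((M * A - A * N).rank : ℝ) := by exact_mod_cast disp_rank hU hMU hW hNW
    refine h3.trans (hr.trans ?_)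
    exact Real.rpow_le_rpow_of_exponent_le hnR (by linarith)
  have hA : A = U * (U' * A * W) * W' := by
    rw [Matrix.mul_assoc, Matrix.mul_assoc (U' * A), hW, Matrix.mul_one, ← Matrix.mul_assoc, hU,
      Matrix.one_mul]
  have hs : (0 : ℝ) ≤ (n : ℝ) ^ (δ / 3) := Real.rpow_nonneg hn0.le _
  have h4 := (hdU.mul hs hs hd).mul (mul_nonneg hs hs) hs hdW
  rw [← hA] at h4
  refine h4.mono ?_ (le_of_eq ?_)
  · have h5 : (n : ℝ) ^ (1 - γ₁) ≤ (n : ℝ) ^ (1 - 2 * γ) :=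
      Real.rpow_le_rpow_of_exponent_le hnR (by linarith)
    have h6 : (n : ℝ) ^ (1 - γ₂) ≤ (n : ℝ) ^ (1 - 2 * γ) :=
      Real.rpow_le_rpow_of_exponent_le hnR (by linarith)
    have h7 : (n : ℝ) ^ (1 - γ) = (n : ℝ) ^ γ * (n : ℝ) ^ (1 - 2 * γ) := by
      rw [← Real.rpow_add hn0]
      congr 1
      ring
    have h8 : 3 * (n : ℝ) ^ (1 - 2 * γ) ≤ (n : ℝ) ^ γ * (n : ℝ) ^ (1 - 2 * γ) :=
      mul_le_mul_of_nonneg_right (hn₃ n hn3) (Real.rpow_nonneg hn0.le _)
    rw [h7]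
    linarith
  · rw [← Real.rpow_add hn0, ← Real.rpow_add hn0]
    congr 1
    ring

end MP0775d3.Bf
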