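import Pool.Agent.Lib.MP_0775d3_lc.Bf.PackA

/-! Packing: the classes of the rows and of the columns with the same label go to the same cell. -/

set_option linter.unusedSectionVars false
set_option linter.unusedVariables false

namespace MP0775d3.Bf

private theorem pack_enc (w : ℕ) : ∃ e : Fin (2 ^ w) → (Fin w → Bool), Function.Injective e :=
  ⟨_, (Fintype.equivOfCardEq (by simp) : Fin (2 ^ w) ≃ (Fin w → Bool)).injective⟩

private theorem pack_one {n s w z : ℕ} (hs : 0 < s) (r c : Fin n → ℕ)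
    (hr : ∀ l, (Finset.univ.filter fun i => r i = l).card ≤ s)
    (hw : 2 * n / s < 2 ^ w) (hz : 2 * s ≤ 2 ^ z) (ew : Fin (2 ^ w) → (Fin w → Bool))
    (hew : Function.Injective ew) (ez : Fin (2 ^ z) → (Fin z → Bool)) (hez : Function.Injective ez) :
    ∃ φ : Fin n → (Fin w ⊕ Fin z → Bool), Function.Injective φ ∧
      ∀ i, ∃ h : before r c (r i) / s < 2 ^ w, ∀ k : Fin w,
        φ i (Sum.inl k) = ew ⟨before r c (r i) / s, h⟩ k := by
  have hc : ∀ i, before r c (r i) / s < 2 ^ w := fun i =>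
    lt_of_le_of_lt (Nat.div_le_div_right (before_le r c (r i))) hw
  have hp : ∀ i, before r c (r i) % s + within r i < 2 ^ z := by
    intro i
    have h1 := Nat.mod_lt (before r c (r i)) hs
    have h2 := within_lt r hr i
    omega
  refine ⟨fun i => Sum.elim (ew ⟨_, hc i⟩) (ez ⟨_, hp i⟩), ?_, fun i => ⟨hc i, fun k => rfl⟩⟩
  intro i i' h
  have h1 : ew ⟨_, hc i⟩ = ew ⟨_, hc i'⟩ := by
    funext k
    exact congrFun h (Sum.inl k)
  have h2 : ez ⟨_, hp i⟩ = ez ⟨_, hp i'⟩ := by
    funext k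
    exact congrFun h (Sum.inr k)
  have h3 : before r c (r i) / s = before r c (r i') / s := congrArg Fin.val (hew h1)
  have h4 : before r c (r i) % s + within r i = before r c (r i') % s + within r i' :=
    congrArg Fin.val (hez h2)
  refine before_inj r c ?_
  have h5 := Nat.div_add_mod (before r c (r i)) s
  have h6 := Nat.div_add_mod (before r c (r i')) s
  rw [h3] at h5
  omega

/-- PROOF. Row `i` goes to the cell `before (r i) / s` and the place `before (r i) % s + within r i < 2 s` in it;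
column `j` to the cell `before (c j) / s` and the place `before (c j) % s + within c j`
(`before r c = before c r`). Cells and places as bit strings: any injections
`Fin (2 ^ w) → (Fin w → Bool)`, `Fin (2 ^ z) → (Fin z → Bool)` (equal cardinalities). -/
theorem pack {n s w z : ℕ} (hs : 0 < s) (r c : Fin n → ℕ)
    (hr : ∀ l, (Finset.univ.filter fun i => r i = l).card ≤ s)
    (hc : ∀ l, (Finset.univ.filter fun j => c j = l).card ≤ s)
    (hw : 2 * n / s < 2 ^ w) (hz : 2 * s ≤ 2 ^ z) :
    ∃ φ ψ : Fin n → (Fin w ⊕ Fin z → Bool), Function.Injective φ ∧ Function.Injective ψ ∧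
      ∀ i j, r i = c j → ∀ k : Fin w, φ i (Sum.inl k) = ψ j (Sum.inl k) := by
  obtain ⟨ew, hew⟩ := pack_enc w
  obtain ⟨ez, hez⟩ := pack_enc z
  obtain ⟨φ, hφ, h1⟩ := pack_one hs r c hr hw hz ew hew ez hez
  obtain ⟨ψ, hψ, h2⟩ := pack_one hs c r hc hw hz ew hew ez hez
  refine ⟨φ, ψ, hφ, hψ, fun i j hij k => ?_⟩
  obtain ⟨h3, h4⟩ := h1 i
  obtain ⟨h5, h6⟩ := h2 j
  rw [h4, h6]
  have h7 : before r c (r i) = before c r (c j) := by
    rw [hij]
    unfold before
    exact Nat.add_comm _ _
  have h8 : (⟨before r c (r i) / s, h3⟩ : Fin (2 ^ w)) = ⟨before c r (c j) / s, h5⟩ :=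
    Fin.ext (congrArg (fun m => m / s) h7)
  rw [h8]

end MP0775d3.Bf
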