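import Pool.Agent.Lib.MP_0775d3_lc.Bf.EmbA
import Pool.Agent.Lib.MP_0775d3_lc.Bf.Pack
import Pool.Agent.Lib.MP_0775d3_lc.Kron.Nodes

/-! Block diagonal matrices up to permutations as corners of matrices acting on few slots. -/

set_option linter.unusedSectionVars false
set_option linter.unusedVariables false

namespace MP0775d3.Bf

open Matrix MP0775d3.Kron

/-- Up to permutations of the rows and of the columns, `M` is block diagonal with blocks of at most `s` rows and at
most `s` columns: nonzero entries join rows and columns with the same label. -/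
def IsBlock {F : Type*} [Field F] {n : ℕ} (s : ℝ) (M : Matrix (Fin n) (Fin n) F) : Prop :=
  ∃ r c : Fin n → ℕ, (∀ l, (({i | r i = l} : Set (Fin n)).ncard : ℝ) ≤ s) ∧
    (∀ l, (({j | c j = l} : Set (Fin n)).ncard : ℝ) ≤ s) ∧ ∀ i j, M i j ≠ 0 → r i = c j

variable {F : Type*} [Field F] {ι : Type*} [Fintype ι] [DecidableEq ι]

/-- `M` is a corner of a product of at most `T` matrices acting on few slots. -/
def Corner (ι : Type*) [Fintype ι] [DecidableEq ι] {n : ℕ} (z T : ℕ)
    (M : Matrix (Fin n) (Fin n) F) : Prop :=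
  ∃ (φ ψ : Fin n → (ι → Bool)) (A : Matrix (ι → Bool) (ι → Bool) F), Function.Injective φ ∧
    Function.Injective ψ ∧ Box z T A ∧ M = emb F φ * A * (emb F ψ)ᵀ

/-- PROOF. `pack`; `A = emb φᵀ * M * emb ψ` acts on the slots `inr`. -/
theorem corner_of_isBlock {n s w z : ℕ} (hs : 0 < s) (hw : 2 * n / s < 2 ^ w) (hz : 2 * s ≤ 2 ^ z)
    {M : Matrix (Fin n) (Fin n) F} (h : IsBlock (s : ℝ) M) : Corner (Fin w ⊕ Fin z) z 1 M := by
  classical
  obtain ⟨r, c, hr, hc, hM⟩ := h
  have hr' : ∀ l, (Finset.univ.filter fun i => r i = l).card ≤ s := by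
    intro l
    have h1 := hr l
    have h2 : ({i | r i = l} : Set (Fin n)) = ((Finset.univ.filter fun i => r i = l :
        Finset (Fin n)) : Set (Fin n)) := by
      ext i
      simp
    rw [h2, Set.ncard_coe_finset] at h1
    exact_mod_cast h1
  have hc' : ∀ l, (Finset.univ.filter fun i => c i = l).card ≤ s := by
    intro l
    have h1 := hc l
    have h2 : ({i | c i = l} : Set (Fin n)) = ((Finset.univ.filter fun i => c i = l :
        Finset (Fin n)) : Set (Fin n)) := by
      ext i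
      simp
    rw [h2, Set.ncard_coe_finset] at h1
    exact_mod_cast h1
  obtain ⟨φ, ψ, hφ, hψ, hp⟩ := pack hs r c hr' hc' hw hz
  refine ⟨φ, ψ, (emb F φ)ᵀ * M * emb F ψ, hφ, hψ, ?_, ?_⟩
  · refine box_of_act (Z := (Finset.univ : Finset (Fin z)).map ⟨Sum.inr, Sum.inr_injective⟩)
      (by rw [Finset.card_map, Finset.card_univ, Fintype.card_fin]) ?_
    intro x y hxy i hi
    rw [Matrix.mul_apply] at hxy
    obtain ⟨j, -, hj⟩ := Finset.exists_ne_zero_of_sum_ne_zero hxy
    have hj1 := left_ne_zero_of_mul hj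
    have hj2 := right_ne_zero_of_mul hj
    rw [Matrix.mul_apply] at hj1
    obtain ⟨k, -, hk⟩ := Finset.exists_ne_zero_of_sum_ne_zero hj1
    have hk1 := left_ne_zero_of_mul hk
    have hk2 := right_ne_zero_of_mul hk
    have e1 : ψ j = y := by
      by_contra hne
      exact hj2 (if_neg hne)
    have e2 : φ k = x := by
      by_contra hne
      exact hk1 (if_neg hne)
    rw [← e1, ← e2]
    rcases i with i | i
    · exact hp k j (hM k j hk2) i
    · exact absurd (Finset.mem_map.2 ⟨i, Finset.mem_univ i, rfl⟩) hi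
  · calc M = (emb F φ * (emb F φ)ᵀ) * M * (emb F ψ * (emb F ψ)ᵀ) := by
          rw [emb_mul_transpose hφ, emb_mul_transpose hψ, Matrix.one_mul, Matrix.mul_one]
      _ = emb F φ * ((emb F φ)ᵀ * M * emb F ψ) * (emb F ψ)ᵀ := by
          simp only [Matrix.mul_assoc]

/-- PROOF. `emb φ * A * emb ψᵀ * emb φ' * A' * emb ψ'ᵀ`, `box_link`. -/
theorem Corner.mul {n m z T T' : ℕ} (h : Fintype.card ι ≤ m * z) {M M' : Matrix (Fin n) (Fin n) F}
    (hM : Corner ι z T M) (hM' : Corner ι z T' M') :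
    Corner ι z (T + (1 + 2 * m) + T') (M * M') := by
  obtain ⟨φ, ψ, A, hφ, hψ, hA, rfl⟩ := hM
  obtain ⟨φ', ψ', A', hφ', hψ', hA', rfl⟩ := hM'
  refine ⟨φ, ψ', A * ((emb F ψ)ᵀ * emb F φ') * A', hφ, hψ', ?_, ?_⟩
  · exact (hA.mul (box_link h hφ' hψ)).mul hA'
  · simp only [Matrix.mul_assoc]

/-- `emb φ * A * emb ψᵀ` is the submatrix. PROOF. `Dec.submatrix_inj₂` of `Kron/Nodes.lean`. -/
theorem Corner.dec {n z T : ℕ} {M : Matrix (Fin n) (Fin n) F} (h : Corner ι z T M) {r s : ℝ}
    (H : ∀ A : Matrix (ι → Bool) (ι → Bool) F, Box z T A → Dec A r s) : Dec M r s := by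
  obtain ⟨φ, ψ, A, hφ, hψ, hA, rfl⟩ := h
  have h1 : emb F φ * A * (emb F ψ)ᵀ = A.submatrix φ ψ := by
    ext i j
    rw [Matrix.mul_apply, Finset.sum_eq_single (ψ j)]
    · rw [Matrix.mul_apply, Finset.sum_eq_single (φ i)]
      · simp [emb]
      · intro b _ hb
        simp [emb, Ne.symm hb]
      · intro hb
        exact absurd (Finset.mem_univ _) hb
    · intro b _ hb
      simp [emb, Ne.symm hb]
    · intro hb
      exact absurd (Finset.mem_univ _) hb
  rw [h1]
  exact (H A hA).submatrix_inj₂ φ ψ hφ hψ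

end MP0775d3.Bf
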