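import Pool.Agent.Lib.MP_0775d3_lc.Bf.BoxB

/-! The matrix of an injection into the bit strings. -/

set_option linter.unusedSectionVars false
set_option linter.unusedVariables false

namespace MP0775d3.Bf

open Matrix MP0775d3.Kron

variable {F : Type*} [Field F] {ι : Type*} [Fintype ι] [DecidableEq ι]

/-- The matrix of an injection. -/
def emb (F : Type*) [Field F] {n : ℕ} (φ : Fin n → (ι → Bool)) : Matrix (Fin n) (ι → Bool) F :=
  fun i x => if φ i = x then 1 else 0

theorem emb_mul_transpose {n : ℕ} {φ : Fin n → (ι → Bool)} (h : Function.Injective φ) :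
    emb F φ * (emb F φ)ᵀ = 1 := by
  ext i j
  rw [Matrix.mul_apply, Matrix.one_apply]
  have h1 : ∀ x : ι → Bool, emb F φ i x * (emb F φ)ᵀ x j =
      if φ i = x then (if φ j = x then (1 : F) else 0) else 0 := by
    intro x
    rw [Matrix.transpose_apply]
    unfold emb
    by_cases hx : φ i = x
    · rw [if_pos hx, if_pos hx, one_mul]
    · rw [if_neg hx, if_neg hx, zero_mul]
  rw [Finset.sum_congr rfl (fun x _ => h1 x), Finset.sum_ite_eq Finset.univ (φ i)
    (fun x => if φ j = x then (1 : F) else 0), if_pos (Finset.mem_univ _)]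
  by_cases hij : i = j
  · rw [if_pos hij, if_pos (by rw [hij])]
  · rw [if_neg hij, if_neg (fun h2 => hij (h h2).symm)]

private theorem embA_link {n : ℕ} {φ ψ : Fin n → (ι → Bool)}
    (hφ : Function.Injective φ) (hψ : Function.Injective ψ) (π : Equiv.Perm (ι → Bool))
    (hπ : ∀ i, π (φ i) = ψ i) (d : (ι → Bool) → F) (hd1 : ∀ i, d (ψ i) = 1)
    (hd0 : ∀ x, (∀ i, ψ i ≠ x) → d x = 0) :
    (emb F ψ)ᵀ * emb F φ = Matrix.diagonal d * pmx F π := by
  ext x y
  rw [Matrix.mul_apply, Matrix.diagonal_mul]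
  by_cases hx : ∃ i, ψ i = x
  · obtain ⟨i, rfl⟩ := hx
    rw [hd1 i, one_mul, Finset.sum_eq_single i]
    · rw [Matrix.transpose_apply]
      unfold emb pmx
      rw [if_pos rfl, one_mul]
      by_cases hy : φ i = y
      · rw [if_pos hy, if_pos (by rw [← hy, hπ i])]
      · rw [if_neg hy, if_neg]
        intro h2
        rw [← hπ i] at h2
        exact hy (π.injective h2)
    · intro j _ hj
      rw [Matrix.transpose_apply]
      unfold emb
      rw [if_neg (fun h2 => hj (hψ h2)), zero_mul]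
    · intro h2
      exact absurd (Finset.mem_univ i) h2
  · rw [hd0 x (fun i hi => hx ⟨i, hi⟩), zero_mul]
    apply Finset.sum_eq_zero
    intro j _
    rw [Matrix.transpose_apply]
    unfold emb
    rw [if_neg (fun h2 => hx ⟨j, h2⟩), zero_mul]

private theorem embA_ext {n : ℕ} {φ ψ : Fin n → (ι → Bool)}
    (hφ : Function.Injective φ) (hψ : Function.Injective ψ) :
    ∃ π : Equiv.Perm (ι → Bool), ∀ i, π (φ i) = ψ i := by
  classical
  let e : {x // x ∈ Set.range φ} ≃ {x // x ∈ Set.range ψ} :=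
    (Equiv.ofInjective φ hφ).symm.trans (Equiv.ofInjective ψ hψ)
  refine ⟨e.extendSubtype, fun i => ?_⟩
  have h1 : φ i ∈ Set.range φ := ⟨i, rfl⟩
  rw [Equiv.extendSubtype_apply_of_mem e (φ i) h1]
  have h2 : (Equiv.ofInjective φ hφ).symm ⟨φ i, h1⟩ = i := by
    rw [Equiv.symm_apply_eq]
    rfl
  show ((Equiv.ofInjective ψ hψ) ((Equiv.ofInjective φ hφ).symm ⟨φ i, h1⟩) : ι → Bool) = ψ i
  rw [h2]
  rfl

/-- PROOF. `emb ψᵀ * emb φ = diagonal (indicator of the range of ψ) * pmx π`, `π` an extension of `φ i ↦ ψ i` to a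
permutation (`Equiv.extendSubtype` of the bijection of the ranges); `box_diagonal`, `box_pmx`. -/
theorem box_link {n m z : ℕ} (h : Fintype.card ι ≤ m * z) {φ ψ : Fin n → (ι → Bool)}
    (hφ : Function.Injective φ) (hψ : Function.Injective ψ) :
    Box z (1 + 2 * m) ((emb F ψ)ᵀ * emb F φ) := by
  classical
  obtain ⟨π, hπ⟩ := embA_ext hφ hψ
  rw [embA_link hφ hψ π hπ (fun x => if ∃ i, ψ i = x then (1 : F) else 0)
    (fun i => if_pos ⟨i, rfl⟩) (fun x hx => if_neg (fun ⟨i, hi⟩ => hx i hi))]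
  exact (box_diagonal z _).mul (box_pmx h π)

end MP0775d3.Bf
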