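import Pool.Agent.Lib.MP_0775d3_lc.Bf.ValSum

/-! The Fourier transform on the `s` lowest digits, with digit reversal in the frequencies, is a
product of `s` matrices each acting on one digit (radix `B` fast Fourier transform).

PROOF of `dft_lay`. Let `Λ a x y = ee (σ * x a * lv (a + 1) y / B ^ (a + 1))` if `x` and `y` differ
at most in the digit `a` (and `x.2 = y.2`), else `0`. In the product `Λ 0 * Λ 1 * ... * Λ (s - 1)`
the only path from `x` to `y` is `x = z 0, z 1, ..., z s = y`, where `z a` has the digits of `y` in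
the positions `< a` and the digits of `x` in the positions `≥ a`. So the product is
`∏_{a < s} ee (σ * x a * lv (a + 1) y / B ^ (a + 1))` if `Hi s x y`; use `rv_mul_lv`. (Induction on
`s`: `dft σ (s + 1)`-like product `= (product for s) * Λ s`; it is convenient to prove by induction
the formula for the product with the real number `∑_{a<s} x a * lv (a+1) y / B^(a+1)`.) -/

set_option linter.unusedSectionVars false
set_option linter.unusedVariables false

namespace MP0775d3.Bf

open Matrix MP0775d3.Kron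

variable {K B : ℕ} {E : Type*} [Fintype E] [DecidableEq E]

/-- `exp (2 π i θ)`. -/
noncomputable def ee (θ : ℝ) : ℂ := Complex.exp (2 * Real.pi * Complex.I * θ)

theorem ee_zero : ee 0 = 1 := by
  simp [ee]
theorem ee_add (a b : ℝ) : ee (a + b) = ee a * ee b := by
  unfold ee
  rw [← Complex.exp_add]
  congr 1
  push_cast
  ring
theorem ee_int (z : ℤ) : ee z = 1 := by
  unfold ee
  have h := Complex.exp_int_mul_two_pi_mul_I z
  rw [← h]
  congr 1
  push_cast
  ring
theorem ee_ne_zero (a : ℝ) : ee a ≠ 0 := Complex.exp_ne_zero _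
theorem ee_half : ee (1 / 2) = -1 := by
  unfold ee
  rw [← Complex.exp_pi_mul_I]
  congr 1
  push_cast
  ring

private theorem fft_ee_nat_mul (n : ℕ) (a : ℝ) : ee (n * a) = ee a ^ n := by
  induction n with
  | zero => simp [ee_zero]
  | succ n ih =>
    rw [pow_succ, ← ih, ← ee_add]
    congr 1
    push_cast
    ring

private theorem fft_ee_eq_one {a : ℝ} (h : ee a = 1) : ∃ n : ℤ, a = n := by
  unfold ee at h
  rw [Complex.exp_eq_one_iff] at h
  obtain ⟨n, hn⟩ := h
  refine ⟨n, ?_⟩
  have h1 : (2 * Real.pi * Complex.I : ℂ) ≠ 0 := Complex.two_pi_I_ne_zero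
  have h2 : (2 * Real.pi * Complex.I : ℂ) * (a : ℂ) = (2 * Real.pi * Complex.I : ℂ) * (n : ℂ) := by
    rw [hn]
    ring
  have h3 := mul_left_cancel₀ h1 h2
  exact_mod_cast h3

theorem sum_ee (P : ℕ) (hP : 0 < P) (u : ℤ) :
    ∑ χ ∈ Finset.range P, ee ((χ : ℝ) * u / P) = if (P : ℤ) ∣ u then (P : ℂ) else 0 := by
  have hP' : (P : ℝ) ≠ 0 := by exact_mod_cast hP.ne'
  have h1 : ∀ χ ∈ Finset.range P, ee ((χ : ℝ) * u / P) = ee ((u : ℝ) / P) ^ χ := by
    intro χ _
    rw [← fft_ee_nat_mul, mul_div_assoc]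
  rw [Finset.sum_congr rfl h1]
  split_ifs with h
  · obtain ⟨v, hv⟩ := h
    have h2 : ee ((u : ℝ) / P) = 1 := by
      have : (u : ℝ) / P = (v : ℤ) := by
        rw [hv]
        push_cast
        field_simp
      rw [this, ee_int]
    rw [h2]
    simp
  · have h2 : ee ((u : ℝ) / P) ≠ 1 := by
      intro h3
      obtain ⟨n, hn⟩ := fft_ee_eq_one h3
      apply h
      refine ⟨n, ?_⟩
      rw [div_eq_iff hP'] at hn
      have h4 : u = n * P := by exact_mod_cast hn
      rw [h4, mul_comm]
    have h3 : ee ((u : ℝ) / P) ^ P = 1 := by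
      rw [← fft_ee_nat_mul]
      have : (P : ℝ) * ((u : ℝ) / P) = (u : ℤ) := by
        field_simp
      rw [this, ee_int]
    have h4 := geom_sum_mul (ee ((u : ℝ) / P)) P
    rw [h3, sub_self] at h4
    rcases mul_eq_zero.mp h4 with h5 | h5
    · exact h5
    · exact absurd (sub_eq_zero.mp h5) h2

/-- Fourier transform on the `s` lowest digits, digit reversed in the rows. -/
noncomputable def dft (σ : ℤ) (s : ℕ) : Matrix (Dg K B E) (Dg K B E) ℂ :=
  fun x y => if Hi s x.1 y.1 ∧ x.2 = y.2 then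
    ee ((σ : ℝ) * ((rv s x.1 : ℝ) * lv s y.1 / (B : ℝ) ^ s)) else 0

/-- The phase. -/
private noncomputable def fftS (s : ℕ) (x y : Fin K → Fin B) : ℝ :=
  ∑ a : Fin K, (if a.val < s then
    ((x a).val : ℝ) * lv (a.val + 1) y / (B : ℝ) ^ (a.val + 1) else 0)

private noncomputable def fftG (σ : ℤ) (s : ℕ) : Matrix (Dg K B E) (Dg K B E) ℂ :=
  fun x y => if Hi s x.1 y.1 ∧ x.2 = y.2 then ee ((σ : ℝ) * fftS s x.1 y.1) else 0

private noncomputable def fftL (σ : ℤ) (a : Fin K) : Matrix (Dg K B E) (Dg K B E) ℂ :=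
  fun x y => if (∀ i, i ≠ a → x.1 i = y.1 i) ∧ x.2 = y.2 then
    ee ((σ : ℝ) * (((x.1 a).val : ℝ) * lv (a.val + 1) y.1 / (B : ℝ) ^ (a.val + 1))) else 0

private theorem fftL_act (σ : ℤ) (a : Fin K) :
    ActD a (fftL σ a : Matrix (Dg K B E) (Dg K B E) ℂ) := by
  intro x y h
  by_contra hc
  apply h
  unfold fftL
  rw [if_neg]
  intro h1
  exact hc h1.1

private theorem fftS_zero (x y : Fin K → Fin B) : fftS 0 x y = 0 := by
  unfold fftS
  refine Finset.sum_eq_zero fun a _ => ?_
  rw [if_neg (Nat.not_lt_zero _)]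

private theorem fftS_succ (a : Fin K) (x y : Fin K → Fin B) :
    fftS (a.val + 1) x y = fftS a.val x y +
      ((x a).val : ℝ) * lv (a.val + 1) y / (B : ℝ) ^ (a.val + 1) := by
  unfold fftS
  rw [← Finset.add_sum_erase Finset.univ _ (Finset.mem_univ a),
    ← Finset.add_sum_erase Finset.univ (fun b : Fin K => if b.val < a.val then
    ((x b).val : ℝ) * lv (b.val + 1) y / (B : ℝ) ^ (b.val + 1) else 0) (Finset.mem_univ a)]
  rw [if_pos (Nat.lt_succ_self _), if_neg (lt_irrefl _), zero_add, add_comm]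
  congr 1
  refine Finset.sum_congr rfl fun b hb => ?_
  have hb1 : b ≠ a := (Finset.mem_erase.mp hb).1
  have hb2 : b.val ≠ a.val := fun h => hb1 (Fin.ext h)
  have h1 : (b.val < a.val + 1) ↔ (b.val < a.val) := by omega
  by_cases h2 : b.val < a.val
  · rw [if_pos h2, if_pos (h1.mpr h2)]
  · rw [if_neg h2, if_neg (fun h3 => h2 (h1.mp h3))]

private theorem fftS_congr {s : ℕ} (x : Fin K → Fin B) {y z : Fin K → Fin B}
    (h : ∀ i : Fin K, i.val < s → y i = z i) : fftS s x y = fftS s x z := by
  unfold fftS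
  refine Finset.sum_congr rfl fun a _ => ?_
  split_ifs with h1
  · rw [lv_congr (s := a.val + 1) (x := y) (y := z)]
    intro i hi
    exact h i (by omega)
  · rfl

private theorem fftG_zero (σ : ℤ) : (fftG σ 0 : Matrix (Dg K B E) (Dg K B E) ℂ) = 1 := by
  funext x y
  unfold fftG
  rw [Matrix.one_apply]
  by_cases h : x = y
  · rw [if_pos h, if_pos, fftS_zero, mul_zero, ee_zero]
    rw [h]
    exact ⟨Hi.refl _ _, rfl⟩
  · rw [if_neg h, if_neg]
    rintro ⟨h1, h2⟩
    exact h (Prod.ext (hi_zero.mp h1) h2)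

private theorem fftG_succ (σ : ℤ) (a : Fin K) :
    (fftG σ (a.val + 1) : Matrix (Dg K B E) (Dg K B E) ℂ) = fftG σ a.val * fftL σ a := by
  funext x y
  rw [Matrix.mul_apply]
  have key : ∀ z : Dg K B E, z ≠ (Function.update y.1 a (x.1 a), y.2) →
      fftG σ a.val x z * fftL σ a z y = 0 := by
    intro z hz
    unfold fftG fftL
    by_cases h1 : Hi a.val x.1 z.1 ∧ x.2 = z.2
    · by_cases h2 : (∀ i, i ≠ a → z.1 i = y.1 i) ∧ z.2 = y.2
      · exfalso
        apply hz
        refine Prod.ext ?_ h2.2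
        funext i
        by_cases hi : i = a
        · rw [hi]
          show z.1 a = Function.update y.1 a (x.1 a) a
          rw [Function.update_self]
          exact (h1.1 a le_rfl).symm
        · show z.1 i = Function.update y.1 a (x.1 a) i
          rw [Function.update_of_ne hi]
          exact h2.1 i hi
      · rw [if_neg h2, mul_zero]
    · rw [if_neg h1, zero_mul]
  rw [Finset.sum_eq_single (Function.update y.1 a (x.1 a), y.2)
    (fun z _ hz => key z hz) (fun h => absurd (Finset.mem_univ _) h)]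
  unfold fftG fftL
  have h3 : (∀ i, i ≠ a → (Function.update y.1 a (x.1 a)) i = y.1 i) ∧ y.2 = y.2 :=
    ⟨fun i hi => Function.update_of_ne hi _ _, rfl⟩
  dsimp only
  rw [if_pos h3]
  by_cases h : Hi (a.val + 1) x.1 y.1 ∧ x.2 = y.2
  · have h4 : Hi a.val x.1 (Function.update y.1 a (x.1 a)) ∧ x.2 = y.2 := by
      refine ⟨?_, h.2⟩
      intro i hi
      by_cases hia : i = a
      · rw [hia, Function.update_self]
      · rw [Function.update_of_ne hia]
        refine h.1 i ?_
        have : i.val ≠ a.val := fun h5 => hia (Fin.ext h5)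
        omega
    rw [if_pos h, if_pos h4, ← ee_add, Function.update_self, fftS_succ]
    have h5 : fftS a.val x.1 (Function.update y.1 a (x.1 a)) = fftS a.val x.1 y.1 := by
      refine fftS_congr _ fun i hi => ?_
      rw [Function.update_of_ne]
      intro h6
      rw [h6] at hi
      exact lt_irrefl _ hi
    rw [h5, mul_add]
  · have h4 : ¬ (Hi a.val x.1 (Function.update y.1 a (x.1 a)) ∧ x.2 = y.2) := by
      rintro ⟨h5, h6⟩
      apply h
      refine ⟨?_, h6⟩
      intro i hi
      have h7 := h5 i (by omega)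
      rw [Function.update_of_ne] at h7
      · exact h7
      · intro h8
        rw [h8] at hi
        omega
    rw [if_neg h, if_neg h4, zero_mul]

private theorem fftG_lay (σ : ℤ) {s : ℕ} (hs : s ≤ K) :
    Lay s 1 (fftG σ s : Matrix (Dg K B E) (Dg K B E) ℂ) := by
  induction s with
  | zero =>
    rw [fftG_zero]
    exact lay_one
  | succ s ih =>
    have h1 := ih (by omega)
    have h2 := fftG_succ (B := B) (E := E) σ (⟨s, by omega⟩ : Fin K)
    rw [h2]
    have h3 := h1.mul (fftL_act (B := B) (E := E) σ (⟨s, by omega⟩ : Fin K)).lay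
    rw [mul_one] at h3
    exact h3

theorem dft_lay (hB : 0 < B) (σ : ℤ) {s : ℕ} (hs : s ≤ K) :
    Lay s 1 (dft σ s : Matrix (Dg K B E) (Dg K B E) ℂ) := by
  have h : (dft σ s : Matrix (Dg K B E) (Dg K B E) ℂ) = fftG σ s := by
    funext x y
    unfold dft fftG
    by_cases h1 : Hi s x.1 y.1 ∧ x.2 = y.2
    · rw [if_pos h1, if_pos h1]
      obtain ⟨z, hz⟩ := rv_mul_lv hs hB x.1 y.1
      rw [hz, mul_add, ee_add]
      have h2 : ee ((σ : ℝ) * (z : ℝ)) = 1 := by
        have := ee_int (σ * z)
        push_cast at this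
        exact this
      rw [h2, mul_one]
      rfl
    · rw [if_neg h1, if_neg h1]
  rw [h]
  exact fftG_lay σ hs

end MP0775d3.Bf
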