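import Pool.Agent.Lib.MP_0775d3_lc.Bf.GPr

/-! The product tree for polynomial matrices. Index: digits of a number and a triple `(a, b, e)`,
`a, b : Fin w` matrix indices, `e : Fin d` the lowest part of the degree: the row `(x, (a, b, e))`
stands for the coefficient `e + d * lv K x` of the entry `(a, b)`.

PROOF of `gtree_eq`. By induction on `s ≤ K`: the product `glev (s - 1) * ... * glev 0 * gleaf o`
has in the column `(j, o)` the entries `((x, (a, b, e)), (j, o)) ↦` coefficient `e + d * lv s x` of
`(nd A A' Bm (lv K j - lv s j) (B ^ s) (lv K j)) a b` if `Hi s x j`, and `0` otherwise. Step: `nd_step`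
with `lo = lv K j - lv s j`, `len = B ^ s`, `lo' = lv K j - lv (s + 1) j`, `len' = B ^ (s + 1)`; the sum
over the low digits of `y` and over `e'` is a sum over all coefficients `e' + d * lv s y` in
`[0, d * B ^ s)`, and the entries of the node have degree `≤ D * B ^ s < d * B ^ s`. -/

set_option linter.unusedSectionVars false
set_option linter.unusedVariables false

namespace MP0775d3.Bf

open Matrix MP0775d3.Kron Polynomial

variable {F : Type*} [Field F] {K B w d : ℕ}

/-- Matrix indices and the lowest part of the degree. -/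
abbrev EG (w d : ℕ) := Fin w × Fin w × Fin d

/-- One level of the tree. The node of `x` of size `B ^ (s + 1)` starts at
`lv K x - lv (s + 1) x`. -/
noncomputable def glev (A A' : ℕ → Matrix (Fin w) (Fin w) F[X]) (s : Fin K) :
    Matrix (Dg K B (EG w d)) (Dg K B (EG w d)) F :=
  fun x y => if Hi (s.val + 1) x.1 y.1 ∧
      y.2.2.2.val + d * lv s.val y.1 ≤ x.2.2.2.val + d * lv (s.val + 1) x.1 then
    (pr A (lv K x.1 - lv (s.val + 1) x.1 + ((y.1 s).val + 1) * B ^ s.val)
        ((B - 1 - (y.1 s).val) * B ^ s.val) x.2.1 y.2.1 *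
      pr A' (lv K x.1 - lv (s.val + 1) x.1) ((y.1 s).val * B ^ s.val) y.2.2.1 x.2.2.1).coeff
      (x.2.2.2.val + d * lv (s.val + 1) x.1 - (y.2.2.2.val + d * lv s.val y.1)) else 0

/-- The leaves: the column `(y, o)` is mapped to the coefficients of `Bm y`. -/
noncomputable def gleaf (Bm : ℕ → Matrix (Fin w) (Fin w) F[X]) (o : EG w d) :
    Matrix (Dg K B (EG w d)) (Dg K B (EG w d)) F :=
  fun x y => if x.1 = y.1 ∧ y.2 = o then (Bm (lv K y.1) x.2.1 x.2.2.1).coeff x.2.2.2.val else 0

/-- The whole tree. -/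
noncomputable def gtreeM (A A' Bm : ℕ → Matrix (Fin w) (Fin w) F[X]) (o : EG w d) :
    Matrix (Dg K B (EG w d)) (Dg K B (EG w d)) F :=
  (List.ofFn fun s : Fin K =>
    (glev A A' s.rev : Matrix (Dg K B (EG w d)) (Dg K B (EG w d)) F)).prod * gleaf Bm o

private theorem gtree_coeff (R P : F[X]) (N n : ℕ) (hR : R.natDegree < N) :
    ∑ m ∈ Finset.range N, (if m ≤ n then P.coeff (n - m) else 0) * R.coeff m =
      (R * P).coeff n := by
  rw [Polynomial.coeff_mul, Finset.Nat.sum_antidiagonal_eq_sum_range_succ_mk]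
  have h1 : ∑ m ∈ Finset.range N, (if m ≤ n then P.coeff (n - m) else 0) * R.coeff m =
      ∑ m ∈ Finset.range (N + (n + 1)), (if m ≤ n then P.coeff (n - m) else 0) * R.coeff m := by
    refine Finset.sum_subset (Finset.range_subset_range.2 (Nat.le_add_right _ _)) ?_
    intro m _ hm
    rw [Finset.mem_range, not_lt] at hm
    rw [coeff_eq_zero_of_natDegree_lt (lt_of_lt_of_le hR hm), mul_zero]
  have h2 : ∑ m ∈ Finset.range (n + 1), R.coeff m * P.coeff (n - m) =
      ∑ m ∈ Finset.range (N + (n + 1)), (if m ≤ n then P.coeff (n - m) else 0) * R.coeff m := by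
    have h3 : ∑ m ∈ Finset.range (n + 1), R.coeff m * P.coeff (n - m) =
        ∑ m ∈ Finset.range (n + 1), (if m ≤ n then P.coeff (n - m) else 0) * R.coeff m := by
      refine Finset.sum_congr rfl fun m hm => ?_
      rw [Finset.mem_range] at hm
      rw [if_pos (Nat.lt_succ_iff.1 hm), mul_comm]
    rw [h3]
    refine Finset.sum_subset (Finset.range_subset_range.2 (Nat.le_add_left _ _)) ?_
    intro m _ hm
    rw [Finset.mem_range, not_lt] at hm
    rw [if_neg (by omega), zero_mul]
  rw [h1, ← h2]

private theorem gtree_high (t : ℕ) (x : Fin K → Fin B) :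
    lv K x - lv t x = ∑ a : Fin K, if t ≤ a.val then (x a).val * B ^ a.val else 0 := by
  have h : lv K x = lv t x + ∑ a : Fin K, if t ≤ a.val then (x a).val * B ^ a.val else 0 := by
    unfold lv
    rw [← Finset.sum_add_distrib]
    refine Finset.sum_congr rfl fun i _ => ?_
    rw [if_pos i.isLt]
    by_cases h1 : i.val < t
    · rw [if_pos h1, if_neg (not_le.2 h1), add_zero]
    · rw [if_neg h1, if_pos (not_lt.1 h1), zero_add]
  rw [h, Nat.add_sub_cancel_left]

private theorem gtree_high_congr {t : ℕ} {x y : Fin K → Fin B} (h : Hi t x y) :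
    lv K x - lv t x = lv K y - lv t y := by
  rw [gtree_high, gtree_high]
  refine Finset.sum_congr rfl fun i _ => ?_
  by_cases h1 : t ≤ i.val
  · rw [if_pos h1, if_pos h1, h i h1]
  · rw [if_neg h1, if_neg h1]

private theorem gtree_range {M : Type*} [AddCommMonoid M] (G : ℕ → M) (d N : ℕ) :
    ∑ m ∈ Finset.range N, ∑ e : Fin d, G (e.val + d * m) = ∑ t ∈ Finset.range (d * N), G t := by
  induction N with
  | zero => rw [mul_zero, Finset.sum_range_zero, Finset.sum_range_zero]
  | succ N ih =>
    rw [Finset.sum_range_succ, ih, Nat.mul_succ, Finset.sum_range_add]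
    congr 1
    rw [Finset.sum_range]
    refine Finset.sum_congr rfl fun e _ => ?_
    rw [Nat.add_comm]

private theorem gtree_step (A A' Bm : ℕ → Matrix (Fin w) (Fin w) F[X]) (D : ℕ) (hD : D < d)
    (hA : ∀ j a b, (A j a b).natDegree ≤ D) (hA' : ∀ j a b, (A' j a b).natDegree ≤ D)
    (hB : ∀ j a b, (Bm j a b).natDegree ≤ D) (o : EG w d) (s : Fin K)
    (T : Matrix (Dg K B (EG w d)) (Dg K B (EG w d)) F)
    (hT : ∀ (x j : Fin K → Fin B) (a b : Fin w) (e : Fin d),
      T (x, (a, b, e)) (j, o) = if Hi s.val x j then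
        (nd A A' Bm (lv K j - lv s.val j) (B ^ s.val) (lv K j) a b).coeff
          (e.val + d * lv s.val x) else 0)
    (x j : Fin K → Fin B) (a b : Fin w) (e : Fin d) :
    ((glev A A' s : Matrix (Dg K B (EG w d)) (Dg K B (EG w d)) F) * T) (x, (a, b, e)) (j, o) =
      if Hi (s.val + 1) x j then
        (nd A A' Bm (lv K j - lv (s.val + 1) j) (B ^ (s.val + 1)) (lv K j) a b).coeff
          (e.val + d * lv (s.val + 1) x) else 0 := by
  classical
  rw [Matrix.mul_apply, Fintype.sum_prod_type]
  by_cases hx : Hi (s.val + 1) x j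
  · rw [if_pos hx]
    set n := e.val + d * lv (s.val + 1) x with hn
    set lo := lv K j - lv (s.val + 1) j with hlo
    set k1 := (j s).val * B ^ s.val with hk1
    have hlv : lv (s.val + 1) j = lv s.val j + k1 := lv_succ s j
    have hle : lv (s.val + 1) j ≤ lv K j := by
      unfold lv
      refine Finset.sum_le_sum fun i _ => ?_
      rw [if_pos i.isLt]
      split_ifs
      · exact le_rfl
      · exact Nat.zero_le _
    have hlo2 : lv K j - lv s.val j = lo + k1 := by omega
    have hlt : lv s.val j < B ^ s.val := lv_lt (Nat.le_of_lt s.isLt) j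
    set N := nd A A' Bm (lo + k1) (B ^ s.val) (lv K j) with hN
    set PA := pr A (lo + ((j s).val + 1) * B ^ s.val) ((B - 1 - (j s).val) * B ^ s.val) with hPA
    set PA' := pr A' lo k1 with hPA'
    have hNd : ∀ a' b' : Fin w, (N a' b').natDegree < d * B ^ s.val := by
      intro a' b'
      have h1 := nd_degree A A' Bm D hA hA' hB (lo + k1) (B ^ s.val) (lv K j) (by omega)
        (by omega) a' b'
      have h2 : D * B ^ s.val < d * B ^ s.val := Nat.mul_lt_mul_of_pos_right hD (by omega)
      exact lt_of_le_of_lt h1 h2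
    have h1 : ∀ y : Fin K → Fin B,
        (∑ q : EG w d, glev A A' s (x, (a, b, e)) (y, q) * T (y, q) (j, o)) =
        if Hi s.val y j then (∑ a' : Fin w, ∑ b' : Fin w, ∑ e' : Fin d,
          (if e'.val + d * lv s.val y ≤ n then
            (PA a a' * PA' b' b).coeff (n - (e'.val + d * lv s.val y)) else 0) *
              (N a' b').coeff (e'.val + d * lv s.val y)) else 0 := by
      intro y
      by_cases hy : Hi s.val y j
      · rw [if_pos hy, Fintype.sum_prod_type]
        refine Finset.sum_congr rfl fun a' _ => ?_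
        rw [Fintype.sum_prod_type]
        refine Finset.sum_congr rfl fun b' _ => Finset.sum_congr rfl fun e' _ => ?_
        rw [hT, if_pos hy, hlo2]
        congr 1
        have hxy : Hi (s.val + 1) x y := hx.trans (hy.mono (Nat.le_succ _)).symm
        have hys : y s = j s := hy s le_rfl
        unfold glev
        simp only [hxy, true_and]
        rw [gtree_high_congr hx, hys]
      · rw [if_neg hy]
        refine Finset.sum_eq_zero fun q _ => ?_
        obtain ⟨a', b', e'⟩ := q
        rw [hT, if_neg hy, mul_zero]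
    rw [Finset.sum_congr rfl (fun y _ => h1 y), ← Finset.sum_filter,
      sum_lv (Nat.le_of_lt s.isLt) j (fun m => ∑ a' : Fin w, ∑ b' : Fin w, ∑ e' : Fin d,
          (if e'.val + d * m ≤ n then
            (PA a a' * PA' b' b).coeff (n - (e'.val + d * m)) else 0) *
              (N a' b').coeff (e'.val + d * m)), Finset.sum_comm]
    have h2 : ∀ a' : Fin w, ∑ m ∈ Finset.range (B ^ s.val), ∑ b' : Fin w, ∑ e' : Fin d,
          (if e'.val + d * m ≤ n then
            (PA a a' * PA' b' b).coeff (n - (e'.val + d * m)) else 0) *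
              (N a' b').coeff (e'.val + d * m) =
        ∑ b' : Fin w, (N a' b' * (PA a a' * PA' b' b)).coeff n := by
      intro a'
      rw [Finset.sum_comm]
      refine Finset.sum_congr rfl fun b' _ => ?_
      rw [gtree_range (fun t => (if t ≤ n then (PA a a' * PA' b' b).coeff (n - t) else 0) *
        (N a' b').coeff t)]
      exact gtree_coeff _ _ _ _ (hNd a' b')
    rw [Finset.sum_congr rfl (fun a' _ => h2 a')]
    have hjs : (j s).val < B := (j s).isLt
    have hpow : B ^ (s.val + 1) = B * B ^ s.val := pow_succ' B s.val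
    have hk2 : ((j s).val + 1) * B ^ s.val = k1 + B ^ s.val := by rw [hk1]; ring
    have hk3 : (B - 1 - (j s).val) * B ^ s.val + (k1 + B ^ s.val) = B * B ^ s.val := by
      rw [← hk2, ← Nat.add_mul]
      congr 1
      omega
    have h3 := nd_step A A' Bm (lo + k1) (B ^ s.val) lo (B ^ (s.val + 1)) (lv K j) (by omega)
      (by omega) (by omega) (by rw [hpow]; omega)
    have h4 : lo + k1 + B ^ s.val = lo + ((j s).val + 1) * B ^ s.val := by omega
    have h5 : lo + B ^ (s.val + 1) - (lo + k1 + B ^ s.val) =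
        (B - 1 - (j s).val) * B ^ s.val := by
      rw [hpow]
      omega
    rw [h5, h4, Nat.add_sub_cancel_left, ← hN, ← hPA, ← hPA'] at h3
    rw [h3, Matrix.mul_apply, finsetSum_coeff]
    simp only [Matrix.mul_apply, Finset.sum_mul, finsetSum_coeff]
    rw [Finset.sum_comm]
    refine Finset.sum_congr rfl fun b' _ => Finset.sum_congr rfl fun a' _ => ?_
    congr 1
    ring
  · rw [if_neg hx]
    refine Finset.sum_eq_zero fun y _ => Finset.sum_eq_zero fun q _ => ?_
    obtain ⟨a', b', e'⟩ := q
    rw [hT]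
    by_cases hy : Hi s.val y j
    · have hxy : ¬ Hi (s.val + 1) x y := fun h => hx (h.trans (hy.mono (Nat.le_succ _)))
      have h1 : glev A A' s (x, (a, b, e)) (y, (a', b', e')) = 0 := by
        unfold glev
        exact if_neg fun h => hxy h.1
      rw [h1, zero_mul]
    · rw [if_neg hy, mul_zero]

private theorem gtree_key (A A' Bm : ℕ → Matrix (Fin w) (Fin w) F[X]) (D : ℕ) (hD : D < d)
    (hA : ∀ j a b, (A j a b).natDegree ≤ D) (hA' : ∀ j a b, (A' j a b).natDegree ≤ D)
    (hB : ∀ j a b, (Bm j a b).natDegree ≤ D) (o : EG w d) (s : ℕ) : ∀ hs : s ≤ K,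
    ∀ (x j : Fin K → Fin B) (a b : Fin w) (e : Fin d),
      ((List.ofFn fun i : Fin s => (glev A A' (Fin.castLE hs i.rev) :
        Matrix (Dg K B (EG w d)) (Dg K B (EG w d)) F)).prod * gleaf Bm o :
          Matrix (Dg K B (EG w d)) (Dg K B (EG w d)) F)
          (x, (a, b, e)) (j, o) = if Hi s x j then
        (nd A A' Bm (lv K j - lv s j) (B ^ s) (lv K j) a b).coeff (e.val + d * lv s x) else 0 := by
  induction s with
  | zero =>
    intro hs x j a b e
    rw [List.ofFn_zero, List.prod_nil, lv_zero, lv_zero, Matrix.one_mul]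
    unfold gleaf
    by_cases hx : x = j
    · rw [if_pos (hi_zero.2 hx), if_pos ⟨hx, rfl⟩]
      unfold nd
      have h1 : lv K j - 0 + B ^ 0 - 1 - lv K j = 0 := by
        rw [pow_zero]
        omega
      have h2 : lv K j - (lv K j - 0) = 0 := by omega
      rw [h1, h2]
      change _ = ((1 * Bm (lv K j) * 1 : Matrix (Fin w) (Fin w) F[X]) a b).coeff _
      rw [Matrix.one_mul, Matrix.mul_one, mul_zero, add_zero]
    · rw [if_neg (fun h => hx (hi_zero.1 h)), if_neg (fun h => hx h.1)]
  | succ s ih =>
    intro hs x j a b e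
    rw [List.ofFn_succ, List.prod_cons, Matrix.mul_assoc]
    have h0 : Fin.castLE hs (Fin.rev (0 : Fin (s + 1))) = ⟨s, hs⟩ := by
      apply Fin.ext
      simp
    have h1 : ∀ i : Fin s, Fin.castLE hs (Fin.rev i.succ) =
        Fin.castLE (Nat.le_of_succ_le hs) i.rev := by
      intro i
      apply Fin.ext
      simp
    rw [h0]
    simp only [h1]
    exact gtree_step A A' Bm D hD hA hA' hB o ⟨s, hs⟩ _ (ih (Nat.le_of_succ_le hs)) x j a b e

theorem gtree_eq (A A' Bm : ℕ → Matrix (Fin w) (Fin w) F[X]) (D : ℕ) (hD : D < d)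
    (hA : ∀ j a b, (A j a b).natDegree ≤ D) (hA' : ∀ j a b, (A' j a b).natDegree ≤ D)
    (hB : ∀ j a b, (Bm j a b).natDegree ≤ D) (o : EG w d) (x j : Fin K → Fin B) (a b : Fin w)
    (e : Fin d) :
    gtreeM A A' Bm o (x, (a, b, e)) (j, o) =
      (nd A A' Bm 0 (B ^ K) (lv K j) a b).coeff (e.val + d * lv K x) := by
  have h := gtree_key A A' Bm D hD hA hA' hB o K le_rfl x j a b e
  rw [if_pos (hi_top x j), Nat.sub_self] at h
  exact h

end MP0775d3.Bf
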