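import Pool.Agent.Lib.MP_0775d3_lc.Bf.LayDec
import Pool.Agent.Lib.MP_0775d3_lc.Bf.Val

/-! Passage from `n' = 2 ^ (K b)` to arbitrary `n`.

PROOF of `exists_base`: for given `δ` take `K ≥ 4 / δ`, `ε = δ / 4`; for `n` take
`b = ⌈log₂ n / K⌉`, so `n ≤ 2 ^ (K b) ≤ 2 ^ K * n`, and the bounds of `lay_dec` (with `e ≤ 1`) are
at most `n ^ (1 - γ / 2)` and `n ^ δ` for large `n`. -/

set_option linter.unusedSectionVars false
set_option linter.unusedVariables false

namespace MP0775d3.Bf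

open Matrix MP0775d3.Kron

private theorem sub_rank {F : Type*} [Field F] {X Y : Type*} [Fintype X] [DecidableEq X]
    [Fintype Y] [DecidableEq Y] (A : Matrix Y Y F) (f g : X → Y) :
    (A.submatrix f g).rank ≤ A.rank := by
  have h1 : A.submatrix f g = (1 : Matrix Y Y F).submatrix f id * (A *
      (1 : Matrix Y Y F).submatrix id g) := by
    ext i j
    rw [Matrix.mul_apply, Finset.sum_eq_single (f i)]
    · rw [Matrix.submatrix_apply, Matrix.submatrix_apply, id, Matrix.one_apply_eq, one_mul,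
        Matrix.mul_apply, Finset.sum_eq_single (g j)]
      · rw [Matrix.submatrix_apply, id, Matrix.one_apply_eq, mul_one]
      · intro k _ hk
        rw [Matrix.submatrix_apply, id, Matrix.one_apply_ne hk, mul_zero]
      · intro h
        exact absurd (Finset.mem_univ _) h
    · intro k _ hk
      rw [Matrix.submatrix_apply, id, Matrix.one_apply_ne hk.symm, zero_mul]
    · intro h
      exact absurd (Finset.mem_univ _) h
  rw [h1]
  exact (Matrix.rank_mul_le_right _ _).trans (Matrix.rank_mul_le_left _ _)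

theorem Dec.sub {F : Type*} [Field F] {X Y : Type*} [Fintype X] [DecidableEq X] [Fintype Y]
    [DecidableEq Y] {A : Matrix Y Y F} {r s : ℝ} (h : Dec A r s) {f g : X → Y}
    (hf : Function.Injective f) (hg : Function.Injective g) : Dec (A.submatrix f g) r s := by
  obtain ⟨R, S, rfl, h2, h3⟩ := h
  refine ⟨R.submatrix f g, S.submatrix f g, rfl, ?_, ?_, ?_⟩
  · exact (Nat.cast_le.2 (sub_rank R f g)).trans h2
  · intro x
    refine le_trans (Nat.cast_le.2 ?_) (h3.1 (f x))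
    exact Set.ncard_le_ncard_of_injOn g (fun y hy => hy) (fun y _ z _ hyz => hg hyz)
      (Set.toFinite _)
  · intro y
    refine le_trans (Nat.cast_le.2 ?_) (h3.2 (g y))
    exact Set.ncard_le_ncard_of_injOn f (fun x hx => hx) (fun x _ z _ hxz => hf hxz)
      (Set.toFinite _)

/-- For `n ≥ n₀` a submatrix of size `n` of a suitable layered matrix is not rigid. The number
of layers and summands `t K`, `s K` may depend on `K`. -/
theorem exists_base (δ : ℝ) (hδ : 0 < δ) (t s : ℕ → ℕ) (e : ℕ) : ∃ K : ℕ, 0 < K ∧ ∃ γ : ℝ,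
    0 < γ ∧ ∃ n₀ : ℕ, ∀ n : ℕ, n₀ ≤ n → ∃ b : ℕ, n ≤ (2 ^ b) ^ K ∧
      ∀ (E : Type) [Fintype E] [DecidableEq E], Fintype.card E = 2 ^ e →
      ∀ (F : Type) [Field F], (2 : F) ≠ 0 →
      ∀ A : Matrix (Dg K (2 ^ b) E) (Dg K (2 ^ b) E) F, Lay (t K) (s K) A →
      ∀ f g : Fin n → Dg K (2 ^ b) E, Function.Injective f → Function.Injective g →
        Dec (A.submatrix f g) ((n : ℝ) ^ (1 - γ)) ((n : ℝ) ^ δ) := by
  obtain ⟨K, hK1, hKδ⟩ : ∃ K : ℕ, 0 < K ∧ 4 / δ ≤ K := by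
    obtain ⟨k, hk⟩ := exists_nat_ge (4 / δ)
    refine ⟨k + 1, Nat.succ_pos k, hk.trans ?_⟩
    exact_mod_cast Nat.le_succ k
  obtain ⟨γ₁, hγ₁, N₀, hlay⟩ := lay_dec (δ / 4) (by positivity) (t K) (s K) K hK1
  have hKr : (0 : ℝ) < K := by exact_mod_cast hK1
  set γ : ℝ := min γ₁ 1 with hγ
  have hγ0 : 0 < γ := lt_min hγ₁ one_pos
  have hγ1 : γ ≤ 1 := min_le_right _ _
  have hγle : γ ≤ γ₁ := min_le_left _ _
  obtain ⟨T, hT⟩ := exists_nat_ge (max (max (N₀ : ℝ) (2 * (K + e) / γ))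
    (max (2 / δ * (1 + e + δ / 4 * (K + e))) 1))
  have hT1 : (N₀ : ℝ) ≤ T := ((le_max_left _ _).trans (le_max_left _ _)).trans hT
  have hT2 : 2 * (K + e) / γ ≤ (T : ℝ) := ((le_max_right _ _).trans (le_max_left _ _)).trans hT
  have hT3 : 2 / δ * (1 + e + δ / 4 * (K + e)) ≤ (T : ℝ) :=
    ((le_max_left _ _).trans (le_max_right _ _)).trans hT
  have hT4 : (1 : ℝ) ≤ T := ((le_max_right _ _).trans (le_max_right _ _)).trans hT
  have hT5 : 1 ≤ T := by exact_mod_cast hT4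
  refine ⟨K, hK1, γ / 2, by positivity, 2 ^ T, fun n hn => ?_⟩
  have hex : ∃ b : ℕ, n ≤ (2 ^ b) ^ K := by
    refine ⟨n, (Nat.lt_two_pow_self).le.trans ?_⟩
    exact Nat.le_self_pow hK1.ne' _
  classical
  obtain ⟨b, hb, hmin⟩ : ∃ b : ℕ, n ≤ (2 ^ b) ^ K ∧ ∀ c < b, ¬ n ≤ (2 ^ c) ^ K :=
    ⟨Nat.find hex, Nat.find_spec hex, fun c hc => Nat.find_min hex hc⟩
  refine ⟨b, hb, ?_⟩
  have hn2 : 2 ≤ n := by
    calc 2 = 2 ^ 1 := rfl
      _ ≤ 2 ^ T := Nat.pow_le_pow_right (by norm_num) hT5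
      _ ≤ n := hn
  have hb1 : 1 ≤ b := by
    by_contra hb0
    have : b = 0 := by omega
    subst this
    rw [pow_zero, one_pow] at hb
    omega
  obtain ⟨c, rfl⟩ : ∃ c, b = c + 1 := ⟨b - 1, by omega⟩
  have hc := hmin c (Nat.lt_succ_self c)
  push Not at hc
  have hn0 : (0 : ℝ) < n := by exact_mod_cast (by omega : 0 < n)
  set Lg : ℝ := Real.logb 2 n with hL
  have h2L : (2 : ℝ) ^ Lg = n := Real.rpow_logb (by norm_num) (by norm_num) hn0
  have hTL : (T : ℝ) ≤ Lg := by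
    rw [hL, Real.le_logb_iff_rpow_le (by norm_num) hn0, Real.rpow_natCast]
    exact_mod_cast hn
  have hup : Lg ≤ K * (c + 1 : ℕ) := by
    rw [hL, Real.logb_le_iff_le_rpow (by norm_num) hn0]
    have h1 : (2 : ℝ) ^ ((K : ℝ) * (c + 1 : ℕ)) = (((2 ^ (c + 1)) ^ K : ℕ) : ℝ) := by
      rw [← pow_mul, ← Nat.cast_mul, Real.rpow_natCast, mul_comm K]
      push_cast
      rfl
    rw [h1]
    exact_mod_cast hb
  have hlow : (K : ℝ) * (c + 1 : ℕ) ≤ K + Lg := by
    have h1 : (K : ℝ) * c ≤ Lg := by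
      rw [hL, Real.le_logb_iff_rpow_le (by norm_num) hn0]
      have h1 : (2 : ℝ) ^ ((K : ℝ) * c) = (((2 ^ c) ^ K : ℕ) : ℝ) := by
        rw [← pow_mul, ← Nat.cast_mul, Real.rpow_natCast, mul_comm K]
        push_cast
        rfl
      rw [h1]
      exact_mod_cast hc.le
    push_cast
    linarith
  intro E _ _ hE F _ h2 A hA f g hf hg
  have hN : N₀ ≤ K * (c + 1) + e := by
    have h1 : (N₀ : ℝ) ≤ ((K * (c + 1) + e : ℕ) : ℝ) := by
      push_cast
      push_cast at hup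
      have : (0 : ℝ) ≤ e := Nat.cast_nonneg e
      linarith
    exact_mod_cast h1
  have key := Dec.sub (hlay (c + 1) e hN E hE F h2 A hA) hf hg
  have he0 : (0 : ℝ) ≤ e := Nat.cast_nonneg e
  have hL0 : 0 ≤ Lg := (by linarith : (0 : ℝ) ≤ T).trans hTL
  refine key.mono ?_ ?_
  · rw [← h2L, ← Real.rpow_mul (by norm_num)]
    refine Real.rpow_le_rpow_of_exponent_le (by norm_num) ?_
    rw [div_le_iff₀ hγ0] at hT2
    push_cast at hup hlow ⊢
    have hx : 0 ≤ (K : ℝ) * (c + 1) + e := by positivity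
    have h1 : (1 - γ₁) * ((K : ℝ) * (c + 1) + e) ≤ (1 - γ) * ((K : ℝ) * (c + 1) + e) :=
      mul_le_mul_of_nonneg_right (by linarith) hx
    have h3 : (1 - γ) * ((K : ℝ) * (c + 1) + e) ≤ (1 - γ) * (K + Lg + e) :=
      mul_le_mul_of_nonneg_left (by linarith) (by linarith)
    have h4 : (T : ℝ) * γ ≤ Lg * γ := mul_le_mul_of_nonneg_right hTL hγ0.le
    have h5 : 0 ≤ γ * (K + e) := by positivity
    nlinarith
  · rw [← h2L, ← Real.rpow_mul (by norm_num)]
    refine Real.rpow_le_rpow_of_exponent_le (by norm_num) ?_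
    push_cast at hup hlow ⊢
    have h1 : (c : ℝ) + 1 ≤ 1 + δ / 4 * Lg := by
      have h6 : (K : ℝ) * (c + 1) ≤ K * (1 + δ / 4 * Lg) := by
        have h7 : 1 ≤ K * (δ / 4) := by
          rw [div_le_iff₀ hδ] at hKδ
          linarith
        have h8 : Lg ≤ K * (δ / 4) * Lg := le_mul_of_one_le_left hL0 h7
        calc (K : ℝ) * (c + 1) ≤ K + Lg := hlow
          _ ≤ K + K * (δ / 4) * Lg := by linarith
          _ = K * (1 + δ / 4 * Lg) := by ring
      exact le_of_mul_le_mul_left h6 hKr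
    have h3 : δ / 4 * ((K : ℝ) * (c + 1) + e) ≤ δ / 4 * (K + Lg + e) :=
      mul_le_mul_of_nonneg_left (by linarith) (by positivity)
    have h9 : 1 + e + δ / 4 * (K + e) ≤ δ / 2 * Lg := by
      have h10 : 2 / δ * (1 + e + δ / 4 * (K + e)) ≤ Lg := hT3.trans hTL
      rw [div_mul_eq_mul_div, div_le_iff₀ hδ] at h10
      linarith
    nlinarith

/-- The injection `m ↦` digits of `m`. -/
theorem exists_digitsInj (K B n : ℕ) (h : n ≤ B ^ K) :
    ∃ f : Fin n → Fin K → Fin B, Function.Injective f ∧ ∀ m, lv K (f m) = m.val := by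
  have h1 : ∀ m : Fin n, lv K (finFunctionFinEquiv.symm (⟨m.val, m.2.trans_le h⟩ : Fin (B ^ K))) =
      m.val := by
    intro m
    have h2 := finFunctionFinEquiv_apply
      (finFunctionFinEquiv.symm (⟨m.val, m.2.trans_le h⟩ : Fin (B ^ K)))
    rw [Equiv.apply_symm_apply] at h2
    refine Eq.trans ?_ h2.symm
    unfold lv
    exact Finset.sum_congr rfl fun a _ => if_pos a.2
  refine ⟨fun m => finFunctionFinEquiv.symm (⟨m.val, m.2.trans_le h⟩ : Fin (B ^ K)), ?_, h1⟩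
  intro m m' hm
  have h2 := h1 m
  have h3 := h1 m'
  have hm' : finFunctionFinEquiv.symm (⟨m.val, m.2.trans_le h⟩ : Fin (B ^ K)) =
      finFunctionFinEquiv.symm (⟨m'.val, m'.2.trans_le h⟩ : Fin (B ^ K)) := hm
  rw [hm', h3] at h2
  exact Fin.ext h2.symm

end MP0775d3.Bf
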