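import Pool.Agent.Lib.MP_0775d3_lc.Bf.Vand
import Pool.Agent.Lib.MP_0775d3_lc.Bf.GTree
import Pool.Agent.Lib.MP_0775d3_lc.Bf.Sub

/-! Evaluation at arbitrary nodes, weighted by two vectors.

PROOF. Let `m = B ^ K * w ^ 2 * d` be the number of indices. For fixed `(a, b)` the matrix
`(i, (x, (a', b', e))) ↦ node i ^ (e + d * lv K x)` if `a' = a`, `b' = b`, and `0` otherwise, is the
`m × m` Vandermonde matrix times a partial permutation matrix (`IsMono`, `Dec 0 1`); multiply with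
the diagonal matrix `l i a * r i b` and add `w ^ 2` decompositions. `vand_dec` is applied in size
`m`, `n ≤ m ≤ n ^ (1 + 5 γ)`, so the bounds are `w ^ 2 * m ^ (1 - γ₁) ≤ n ^ (1 - γ)` and
`w ^ 2 * m ^ (δ / 4) ≤ n ^ δ` if `γ` is small compared with `γ₁` and `δ`. -/

set_option linter.unusedSectionVars false
set_option linter.unusedVariables false

namespace MP0775d3.Bf

open Matrix MP0775d3.Kron Polynomial

private theorem gvand_sum {F : Type*} [Field F] {X κ : Type*} [Fintype X] [DecidableEq X]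
    {r s : ℝ} (t : Finset κ) (M : κ → Matrix X X F) (h : ∀ a ∈ t, Dec (M a) r s) :
    Dec (∑ a ∈ t, M a) (t.card * r) (t.card * s) := by
  classical
  induction t using Finset.induction_on with
  | empty =>
    refine ⟨0, 0, by simp, by simp, fun x => ?_, fun y => ?_⟩ <;> simp
  | insert a t ha ih =>
    have h1 := Dec.add' (h a (Finset.mem_insert_self a t))
      (ih fun b hb => h b (Finset.mem_insert_of_mem hb))
    rw [Finset.sum_insert ha, Finset.card_insert_of_notMem ha]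
    refine h1.mono (le_of_eq ?_) (le_of_eq ?_) <;> (push_cast; ring)

private theorem gvand_diag {X : Type*} [Fintype X] [DecidableEq X] (d : X → ℂ) :
    IsMono (Matrix.diagonal d) := by
  have key : ∀ a b : X, (Matrix.diagonal d) a b ≠ 0 → a = b := by
    intro a b h
    by_contra hne
    exact h (Matrix.diagonal_apply_ne d hne)
  exact ⟨fun a b c h1 h2 => (key a b h1).symm.trans (key a c h2),
    fun a b c h1 h2 => (key b a h1).trans (key c a h2).symm⟩

private theorem gvand_num (δ : ℝ) (hδ : 0 < δ) (κ : ℝ) (hκ : 0 < κ) (γ₁ : ℝ) (hγ₁ : 0 < γ₁) :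
    ∃ γ : ℝ, 0 < γ ∧ ∃ n₂ : ℕ, 1 ≤ n₂ ∧ ∀ n : ℕ, n₂ ≤ n → ∀ w d m : ℝ, 0 < w → w ≤ (n : ℝ) ^ γ →
      0 < d → d ≤ (n : ℝ) ^ γ → (n : ℝ) ≤ m → m ≤ κ * n * (w ^ 2 * d) →
      w ^ 2 * m ^ (1 - γ₁) ≤ (n : ℝ) ^ (1 - γ) ∧ w ^ 2 * m ^ (δ / 4) ≤ (n : ℝ) ^ δ := by
  set g : ℝ := min γ₁ 1 with hg
  have hg0 : 0 < g := lt_min hγ₁ one_pos
  have hg1 : g ≤ 1 := min_le_right _ _
  have hgγ : g ≤ γ₁ := min_le_left _ _
  set γ : ℝ := min (g / 8) (δ / 4) with hγ
  have hγ0 : 0 < γ := lt_min (by positivity) (by positivity)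
  have hγg : γ ≤ g / 8 := min_le_left _ _
  have hγδ : γ ≤ δ / 4 := min_le_right _ _
  have ht := (tendsto_rpow_atTop (show 0 < g / 4 by positivity)).comp tendsto_natCast_atTop_atTop
  obtain ⟨N, hN⟩ := Filter.eventually_atTop.mp (ht.eventually_ge_atTop κ)
  refine ⟨γ, hγ0, max N 1, le_max_right _ _, fun n hn w d m hw hw' hd hd' hnm hm => ?_⟩
  have hn1 : (1 : ℝ) ≤ n := by exact_mod_cast (le_max_right N 1).trans hn
  have hn0 : (0 : ℝ) < n := by linarith
  have hκn : κ ≤ (n : ℝ) ^ (g / 4) := hN n ((le_max_left N 1).trans hn)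
  have hm1 : 1 ≤ m := hn1.trans hnm
  have hm0 : 0 < m := by linarith
  have hw2 : w ^ 2 ≤ (n : ℝ) ^ (2 * γ) := by
    have h1 : w ^ 2 ≤ ((n : ℝ) ^ γ) ^ 2 := pow_le_pow_left₀ hw.le hw' 2
    refine h1.trans (le_of_eq ?_)
    rw [← Real.rpow_natCast, ← Real.rpow_mul hn0.le]
    congr 1
    push_cast
    ring
  have hmn : m ≤ (n : ℝ) ^ (1 + 3 * γ + g / 4) := by
    refine hm.trans ?_
    have h1 : κ * n * (w ^ 2 * d) ≤ (n : ℝ) ^ (g / 4) * n * ((n : ℝ) ^ (2 * γ) * (n : ℝ) ^ γ) := by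
      gcongr
    refine h1.trans (le_of_eq ?_)
    rw [← Real.rpow_add hn0, ← Real.rpow_add_one hn0.ne', ← Real.rpow_add hn0]
    congr 1
    ring
  constructor
  · have h1 : m ^ (1 - γ₁) ≤ m ^ (1 - g) := Real.rpow_le_rpow_of_exponent_le hm1 (by linarith)
    have h2 : m ^ (1 - g) ≤ ((n : ℝ) ^ (1 + 3 * γ + g / 4)) ^ (1 - g) :=
      Real.rpow_le_rpow hm0.le hmn (by linarith)
    have h3 : w ^ 2 * m ^ (1 - γ₁) ≤ (n : ℝ) ^ (2 * γ) * ((n : ℝ) ^ (1 + 3 * γ + g / 4)) ^ (1 - g) :=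
      mul_le_mul hw2 (h1.trans h2) (Real.rpow_nonneg hm0.le _) (Real.rpow_nonneg hn0.le _)
    refine h3.trans ?_
    rw [← Real.rpow_mul hn0.le, ← Real.rpow_add hn0]
    refine Real.rpow_le_rpow_of_exponent_le hn1 ?_
    nlinarith [mul_pos hγ0 hg0, mul_pos hg0 hg0]
  · have h2 : m ^ (δ / 4) ≤ ((n : ℝ) ^ (1 + 3 * γ + g / 4)) ^ (δ / 4) :=
      Real.rpow_le_rpow hm0.le hmn (by positivity)
    have h3 : w ^ 2 * m ^ (δ / 4) ≤ (n : ℝ) ^ (2 * γ) * ((n : ℝ) ^ (1 + 3 * γ + g / 4)) ^ (δ / 4) :=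
      mul_le_mul hw2 h2 (Real.rpow_nonneg hm0.le _) (Real.rpow_nonneg hn0.le _)
    refine h3.trans ?_
    rw [← Real.rpow_mul hn0.le, ← Real.rpow_add hn0]
    refine Real.rpow_le_rpow_of_exponent_le hn1 ?_
    have h4 : (1 + 3 * γ + g / 4) * (δ / 4) ≤ 2 * (δ / 4) :=
      mul_le_mul_of_nonneg_right (by linarith) (by positivity)
    linarith

private theorem gvand_digit {a b p q d : ℕ} (hp : p < d) (hq : q < d) (h : p + d * a = q + d * b) :
    p = q ∧ a = b := by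
  have h1 : (p + d * a) / d = a := by
    rw [Nat.add_mul_div_left _ _ (by omega), Nat.div_eq_of_lt hp, zero_add]
  have h2 : (q + d * b) / d = b := by
    rw [Nat.add_mul_div_left _ _ (by omega), Nat.div_eq_of_lt hq, zero_add]
  have h3 : a = b := by rw [← h1, ← h2, h]
  rw [h3] at h
  exact ⟨Nat.add_right_cancel h, h3⟩

theorem gvand_dec (δ : ℝ) (hδ : 0 < δ) (κ : ℝ) (hκ : 0 < κ) : ∃ γ : ℝ, 0 < γ ∧ ∃ n₀ : ℕ,
    ∀ n : ℕ, n₀ ≤ n → ∀ K B w d : ℕ, (n : ℝ) ≤ (B ^ K : ℕ) → ((B ^ K : ℕ) : ℝ) ≤ κ * n →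
      0 < w → (w : ℝ) ≤ (n : ℝ) ^ γ → 0 < d → (d : ℝ) ≤ (n : ℝ) ^ γ →
      ∀ (l r : Dg K B (EG w d) → Fin w → ℂ) (z : Dg K B (EG w d) → ℂ),
      Dec (Matrix.of fun i c : Dg K B (EG w d) =>
          l i c.2.1 * r i c.2.2.1 * z i ^ (c.2.2.2.val + d * lv K c.1))
        ((n : ℝ) ^ (1 - γ)) ((n : ℝ) ^ δ) := by
  classical
  obtain ⟨γ₁, hγ₁, n₁, h1⟩ := vand_dec (δ / 4) (by positivity)
  obtain ⟨γ, hγ, n₂, hn₂, h2⟩ := gvand_num δ hδ κ hκ γ₁ hγ₁
  refine ⟨γ, hγ, max n₁ n₂, fun n hn K B w d hB hB' hw hw' hd hd' l r z => ?_⟩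
  have hnn₁ : n₁ ≤ n := (le_max_left _ _).trans hn
  have hnn₂ : n₂ ≤ n := (le_max_right _ _).trans hn
  have hn0 : (0 : ℝ) < n := by exact_mod_cast hn₂.trans hnn₂
  set m : ℕ := Fintype.card (Dg K B (EG w d)) with hm
  have hcard : m = B ^ K * (w * (w * d)) := by
    rw [hm]
    simp [Fintype.card_prod]
  have hwr : (0 : ℝ) < w := by exact_mod_cast hw
  have hdr : (0 : ℝ) < d := by exact_mod_cast hd
  have hw1 : (1 : ℝ) ≤ w := by exact_mod_cast hw
  have hd1 : (1 : ℝ) ≤ d := by exact_mod_cast hd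
  have hmr : (m : ℝ) = ((B ^ K : ℕ) : ℝ) * ((w : ℝ) ^ 2 * d) := by
    rw [hcard]
    push_cast
    ring
  have hwd : (1 : ℝ) ≤ (w : ℝ) ^ 2 * d := by nlinarith [mul_le_mul hw1 hw1 zero_le_one hwr.le]
  have hnm : (n : ℝ) ≤ m := by
    rw [hmr]
    have h3 : (0 : ℝ) ≤ ((B ^ K : ℕ) : ℝ) := Nat.cast_nonneg _
    nlinarith
  have hmn : (m : ℝ) ≤ κ * n * ((w : ℝ) ^ 2 * d) := by
    rw [hmr]
    exact mul_le_mul_of_nonneg_right hB' (by positivity)
  obtain ⟨hA, hS⟩ := h2 n hnn₂ w d m hwr hw' hdr hd' hnm hmn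
  have hn₁m : n₁ ≤ m := by
    have : (n₁ : ℝ) ≤ m := (by exact_mod_cast hnn₁ : (n₁ : ℝ) ≤ n).trans hnm
    exact_mod_cast this
  have hm0 : (0 : ℝ) < m := hn0.trans_le hnm
  let φ : Dg K B (EG w d) ≃ Fin m := Fintype.equivFin _
  have hV := Dec.sub (h1 m hn₁m (fun i => z (φ.symm i))) φ.injective φ.injective
  -- the partial permutations
  let P : Fin w × Fin w → Matrix (Dg K B (EG w d)) (Dg K B (EG w d)) ℂ := fun ab =>
    Matrix.of fun j c => if c.2.1 = ab.1 ∧ c.2.2.1 = ab.2 ∧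
      (φ j).val = c.2.2.2.val + d * lv K c.1 then 1 else 0
  have hPne : ∀ ab j c, P ab j c ≠ 0 → c.2.1 = ab.1 ∧ c.2.2.1 = ab.2 ∧
      (φ j).val = c.2.2.2.val + d * lv K c.1 := by
    intro ab j c h
    by_contra hne
    exact h (if_neg hne)
  have hP : ∀ ab, IsMono (P ab) := by
    intro ab
    constructor
    · intro j c c' hc hc'
      obtain ⟨e1, e2, e3⟩ := hPne ab j c hc
      obtain ⟨e1', e2', e3'⟩ := hPne ab j c' hc'
      obtain ⟨e4, e5⟩ := gvand_digit c.2.2.2.2 c'.2.2.2.2 (e3.symm.trans e3')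
      refine Prod.ext (lv_inj (hi_top _ _) e5) (Prod.ext (e1.trans e1'.symm)
        (Prod.ext (e2.trans e2'.symm) (Fin.ext e4)))
    · intro c j j' hj hj'
      obtain ⟨_, _, e3⟩ := hPne ab j c hj
      obtain ⟨_, _, e3'⟩ := hPne ab j' c hj'
      exact φ.injective (Fin.ext (e3.trans e3'.symm))
  have hlt : ∀ c : Dg K B (EG w d), c.2.2.2.val + d * lv K c.1 < m := by
    intro c
    have h3 := lv_lt (le_refl K) c.1
    have h4 := c.2.2.2.2
    have h5 : c.2.2.2.val + d * lv K c.1 < d * B ^ K := by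
      calc c.2.2.2.val + d * lv K c.1 < d + d * lv K c.1 := Nat.add_lt_add_right h4 _
        _ = d * (lv K c.1 + 1) := by ring
        _ ≤ d * B ^ K := Nat.mul_le_mul_left _ h3
    refine h5.trans_le ?_
    rw [hcard]
    calc d * B ^ K = B ^ K * (1 * (1 * d)) := by ring
      _ ≤ B ^ K * (w * (w * d)) := by gcongr <;> omega
  have hmat : (Matrix.of fun i c : Dg K B (EG w d) =>
      l i c.2.1 * r i c.2.2.1 * z i ^ (c.2.2.2.val + d * lv K c.1)) =
      ∑ ab : Fin w × Fin w, Matrix.diagonal (fun i => l i ab.1 * r i ab.2) *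
        (((Matrix.of fun i j : Fin m => z (φ.symm i) ^ j.val).submatrix φ φ) * P ab) := by
    ext i c
    rw [Matrix.sum_apply, Finset.sum_eq_single (c.2.1, c.2.2.1)]
    · rw [Matrix.diagonal_mul, Matrix.mul_apply,
        Finset.sum_eq_single (φ.symm ⟨c.2.2.2.val + d * lv K c.1, hlt c⟩)]
      · have hp1 : P (c.2.1, c.2.2.1) (φ.symm ⟨c.2.2.2.val + d * lv K c.1, hlt c⟩) c = 1 := by
          refine if_pos ⟨rfl, rfl, ?_⟩
          rw [Equiv.apply_symm_apply]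
        rw [hp1, Matrix.submatrix_apply, Matrix.of_apply, Matrix.of_apply, mul_one,
          Equiv.apply_symm_apply, Equiv.symm_apply_apply]
      · intro j _ hj
        have hp0 : P (c.2.1, c.2.2.1) j c = 0 := by
          by_contra hne
          obtain ⟨_, _, e3⟩ := hPne _ _ _ hne
          apply hj
          rw [Equiv.eq_symm_apply]
          exact Fin.ext e3
        rw [hp0, mul_zero]
      · intro h
        exact absurd (Finset.mem_univ _) h
    · intro ab _ hab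
      rw [Matrix.diagonal_mul, Matrix.mul_apply, Finset.sum_eq_zero, mul_zero]
      intro j _
      have hp0 : P ab j c = 0 := by
        by_contra hne
        obtain ⟨e1, e2, _⟩ := hPne _ _ _ hne
        exact hab (Prod.ext e1.symm e2.symm)
      rw [hp0, mul_zero]
    · intro h
      exact absurd (Finset.mem_univ _) h
  rw [hmat]
  have hs : 0 ≤ (m : ℝ) ^ (δ / 4) := Real.rpow_nonneg hm0.le _
  have hterm : ∀ ab ∈ (Finset.univ : Finset (Fin w × Fin w)),
      Dec (Matrix.diagonal (fun i => l i ab.1 * r i ab.2) *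
        (((Matrix.of fun i j : Fin m => z (φ.symm i) ^ j.val).submatrix φ φ) * P ab))
        ((m : ℝ) ^ (1 - γ₁)) ((m : ℝ) ^ (δ / 4)) := by
    intro ab _
    have h3 := Dec.mul zero_le_one (mul_nonneg hs zero_le_one) (gvand_diag (fun i => l i ab.1 * r i ab.2)).dec
      (Dec.mul hs zero_le_one hV (hP ab).dec)
    refine h3.mono (le_of_eq (by ring)) (le_of_eq (by ring))
  refine (gvand_sum _ _ hterm).mono ?_ ?_
  · rw [Finset.card_univ, Fintype.card_prod, Fintype.card_fin]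
    push_cast
    rw [← pow_two]
    exact hA
  · rw [Finset.card_univ, Fintype.card_prod, Fintype.card_fin]
    push_cast
    rw [← pow_two]
    exact hS

end MP0775d3.Bf
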