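import Pool.Agent.Lib.MP_0775d3_lc.Bf.GLay
import Pool.Agent.Lib.MP_0775d3_lc.Bf.GVand
import Pool.Agent.Lib.MP_0775d3_lc.Bf.Base2

/-! Evaluation of products of polynomial matrices at arbitrary nodes, over `ℂ`.

PROOF. Enlarge `w` and `D + 1` to powers of two `w'`, `d` (`≤ 2 (w + 1)`, `≤ 2 (D + 1)`): `A`, `A'`,
`Bm` are extended by zeros; for `j ≥ n` take `A j = A' j = 1` (on the old indices) and `Bm j = 0`. The
product of `gvand_dec` (rows `i < n`) and `gtreeM` (`gtree_lay`) with `exists_base2` has the entries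
`∑_{a,b} l i a * r i b * (nd A A' Bm 0 (B ^ K) j a b).eval (x i)` (`gtree_eq`: all coefficients below
`d * B ^ K` are seen and the degree is smaller), and `nd` for `B ^ K` is `nd` for `n`
(`nd_step`). `Dec.mul`, `Dec.sub`. -/

set_option linter.unusedSectionVars false
set_option linter.unusedVariables false

namespace MP0775d3.Bf

open Matrix MP0775d3.Kron Polynomial

/-- All coefficients below `d * B ^ K` are seen. -/
private theorem gdec_eval {K B d : ℕ} (hB : 0 < B) (p : ℂ[X]) (hp : p.natDegree < d * B ^ K)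
    (z : ℂ) :
    ∑ x : Fin K → Fin B, ∑ e : Fin d,
      z ^ (e.val + d * lv K x) * p.coeff (e.val + d * lv K x) = p.eval z := by
  rw [Polynomial.eval_eq_sum_range' hp z]
  have h1 : ∀ N : ℕ, ∀ g : ℕ → ℂ, ∑ i ∈ Finset.range (d * N), g i =
      ∑ m ∈ Finset.range N, ∑ e : Fin d, g (e.val + d * m) := by
    intro N g
    induction N with
    | zero => simp
    | succ N ih =>
      rw [Nat.mul_succ, Finset.sum_range_add, ih, Finset.sum_range_succ]
      congr 1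
      rw [Finset.sum_range]
      exact Finset.sum_congr rfl fun e _ => by rw [add_comm]
  rw [h1]
  have h2 := sum_lv (K := K) (B := B) le_rfl (fun _ => ⟨0, hB⟩)
    (fun m => ∑ e : Fin d, p.coeff (e.val + d * m) * z ^ (e.val + d * m))
  rw [← h2, Finset.filter_true_of_mem fun x _ => hi_top x _]
  exact Finset.sum_congr rfl fun x _ => Finset.sum_congr rfl fun e _ => mul_comm _ _

/-- `M'` has the upper left block `M` and zeros to the right of it. -/
private def GdExt {w w' : ℕ} (h : w ≤ w') (M' : Matrix (Fin w') (Fin w') ℂ[X])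
    (M : Matrix (Fin w) (Fin w) ℂ[X]) : Prop :=
  (∀ a b : Fin w, M' (Fin.castLE h a) (Fin.castLE h b) = M a b) ∧
    ∀ (a : Fin w) (b : Fin w'), w ≤ b.val → M' (Fin.castLE h a) b = 0

private theorem gdExt_mul {w w' : ℕ} (h : w ≤ w') {M' N' : Matrix (Fin w') (Fin w') ℂ[X]}
    {M N : Matrix (Fin w) (Fin w) ℂ[X]} (hM : GdExt h M' M) (hN : GdExt h N' N) :
    GdExt h (M' * N') (M * N) := by
  constructor
  · intro a b
    rw [Matrix.mul_apply, Matrix.mul_apply]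
    symm
    refine Fintype.sum_of_injective (Fin.castLE h) (Fin.castLE_injective h) _ _ ?_ ?_
    · intro i hi
      rw [hM.2 a i, zero_mul]
      by_contra hlt
      exact hi ⟨⟨i.val, not_le.1 hlt⟩, Fin.ext rfl⟩
    · intro i
      rw [hM.1, hN.1]
  · intro a b hb
    rw [Matrix.mul_apply]
    refine Finset.sum_eq_zero fun i _ => ?_
    by_cases hi : w ≤ i.val
    · rw [hM.2 a i hi, zero_mul]
    · have h1 : i = Fin.castLE h ⟨i.val, not_le.1 hi⟩ := Fin.ext rfl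
      rw [h1, hN.2 _ b hb, mul_zero]

private theorem gdExt_one {w w' : ℕ} (h : w ≤ w') :
    GdExt h (1 : Matrix (Fin w') (Fin w') ℂ[X]) 1 := by
  constructor
  · intro a b
    rw [Matrix.one_apply, Matrix.one_apply]
    by_cases hab : a = b
    · rw [if_pos hab, if_pos (by rw [hab])]
    · rw [if_neg hab, if_neg fun h1 => hab (Fin.castLE_injective h h1)]
  · intro a b hb
    refine Matrix.one_apply_ne ?_
    rintro rfl
    exact absurd hb (not_le.2 a.isLt)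

private theorem gdExt_pr {w w' : ℕ} (h : w ≤ w') {M' : ℕ → Matrix (Fin w') (Fin w') ℂ[X]}
    {M : ℕ → Matrix (Fin w) (Fin w) ℂ[X]} (hM : ∀ j, GdExt h (M' j) (M j)) (lo k : ℕ) :
    GdExt h (pr M' lo k) (pr M lo k) := by
  induction k with
  | zero => exact gdExt_one h
  | succ k ih => exact gdExt_mul h (hM _) ih

private theorem gdExt_nd {w w' : ℕ} (h : w ≤ w') {A₁ A₁' B₁ : ℕ → Matrix (Fin w') (Fin w') ℂ[X]}
    {A A' Bm : ℕ → Matrix (Fin w) (Fin w) ℂ[X]} (hA : ∀ j, GdExt h (A₁ j) (A j))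
    (hA' : ∀ j, GdExt h (A₁' j) (A' j)) (hB : ∀ j, GdExt h (B₁ j) (Bm j)) (lo len j : ℕ) :
    GdExt h (nd A₁ A₁' B₁ lo len j) (nd A A' Bm lo len j) :=
  gdExt_mul h (gdExt_mul h (gdExt_pr h hA _ _) (hB j)) (gdExt_pr h hA' _ _)

/-- Extension by zeros. -/
private noncomputable def gdEx {w : ℕ} (w' : ℕ) (M : Matrix (Fin w) (Fin w) ℂ[X]) :
    Matrix (Fin w') (Fin w') ℂ[X] :=
  fun a b => if h : a.val < w ∧ b.val < w then M ⟨a.val, h.1⟩ ⟨b.val, h.2⟩ else 0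

private theorem gdEx_ext {w w' : ℕ} (h : w ≤ w') (M : Matrix (Fin w) (Fin w) ℂ[X]) :
    GdExt h (gdEx w' M) M := by
  constructor
  · intro a b
    exact dif_pos ⟨a.isLt, b.isLt⟩
  · intro a b hb
    exact dif_neg fun h1 => absurd h1.2 (not_lt.2 hb)

private theorem gdEx_degree {w w' D : ℕ} {M : Matrix (Fin w) (Fin w) ℂ[X]}
    (hM : ∀ a b, (M a b).natDegree ≤ D) (a b : Fin w') : (gdEx w' M a b).natDegree ≤ D := by
  unfold gdEx
  split_ifs with h
  · exact hM _ _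
  · rw [Polynomial.natDegree_zero]
    exact Nat.zero_le _

/-- Cut off at `n` by the identity matrix. -/
private noncomputable def gdCut {w : ℕ} (n : ℕ) (A : ℕ → Matrix (Fin w) (Fin w) ℂ[X]) (j : ℕ) :
    Matrix (Fin w) (Fin w) ℂ[X] := if j < n then A j else 1

private theorem gdCut_degree {w n D : ℕ} {A : ℕ → Matrix (Fin w) (Fin w) ℂ[X]}
    (hA : ∀ j a b, (A j a b).natDegree ≤ D) (j : ℕ) (a b : Fin w) :
    (gdCut n A j a b).natDegree ≤ D := by
  unfold gdCut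
  split_ifs with h
  · exact hA _ _ _
  · rw [Matrix.one_apply]
    split_ifs
    · rw [Polynomial.natDegree_one]
      exact Nat.zero_le _
    · rw [Polynomial.natDegree_zero]
      exact Nat.zero_le _

private theorem gdCut_pr {w n : ℕ} (A : ℕ → Matrix (Fin w) (Fin w) ℂ[X]) (lo k : ℕ)
    (h : lo + k ≤ n) : pr (gdCut n A) lo k = pr A lo k := by
  induction k with
  | zero => rfl
  | succ k ih =>
    have h1 : gdCut n A (lo + k) = A (lo + k) := if_pos (by omega)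
    rw [pr, pr, ih (by omega), h1]

private theorem gdCut_pr_one {w n : ℕ} (A : ℕ → Matrix (Fin w) (Fin w) ℂ[X]) (k : ℕ) :
    pr (gdCut n A) n k = 1 := by
  induction k with
  | zero => rfl
  | succ k ih =>
    have h1 : gdCut n A (n + k) = 1 := if_neg (by omega)
    rw [pr, ih, h1, one_mul]

private theorem gdCut_nd {w n N : ℕ} (hnN : n ≤ N) (A A' Bm : ℕ → Matrix (Fin w) (Fin w) ℂ[X])
    (j : ℕ) (hj : j < n) :
    nd (gdCut n A) (gdCut n A') Bm 0 N j = nd A A' Bm 0 n j := by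
  rw [nd_step (gdCut n A) (gdCut n A') Bm 0 n 0 N j (Nat.zero_le _) (by omega) le_rfl (by omega)]
  rw [Nat.zero_add, gdCut_pr_one, one_mul, Nat.sub_zero]
  have h0 : pr (gdCut n A') 0 0 = 1 := rfl
  rw [h0, mul_one]
  unfold nd
  rw [gdCut_pr _ _ _ (by omega), gdCut_pr _ _ _ (by omega)]

/-- The assembly. -/
private theorem gdec_assembly {n K B w w' d D : ℕ} (hB : 0 < B) (hn : n ≤ B ^ K) (hw : w ≤ w')
    (hD : D < d) {r₁ s₁ r₂ s₂ : ℝ} (hs₁ : 0 ≤ s₁) (hs₂ : 0 ≤ s₂) (o : EG w' d)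
    (hV : ∀ (l r : Dg K B (EG w' d) → Fin w' → ℂ) (z : Dg K B (EG w' d) → ℂ),
      Dec (Matrix.of fun i c : Dg K B (EG w' d) =>
          l i c.2.1 * r i c.2.2.1 * z i ^ (c.2.2.2.val + d * lv K c.1)) r₁ s₁)
    (hG : ∀ A A' Bm : ℕ → Matrix (Fin w') (Fin w') ℂ[X],
      Dec (gtreeM A A' Bm o : Matrix (Dg K B (EG w' d)) (Dg K B (EG w' d)) ℂ) r₂ s₂)
    (A A' Bm : ℕ → Matrix (Fin w) (Fin w) ℂ[X])
    (hA : ∀ j a b, (A j a b).natDegree ≤ D) (hA' : ∀ j a b, (A' j a b).natDegree ≤ D)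
    (hBm : ∀ j a b, (Bm j a b).natDegree ≤ D)
    (l r : Fin n → Fin w → ℂ) (x : Fin n → ℂ) :
    Dec (Matrix.of fun i j : Fin n =>
        ∑ a, ∑ b, l i a * ((nd A A' Bm 0 n j.val) a b).eval (x i) * r i b)
      (r₁ + r₂) (s₁ * s₂) := by
  classical
  obtain ⟨g, hg, hgv⟩ := exists_digitsInj K B n hn
  let f : Fin n → Dg K B (EG w' d) := fun i => (g i, o)
  have hf : Function.Injective f := fun i i' h => hg (congrArg Prod.fst h)
  let ex : (Fin w → ℂ) → Fin w' → ℂ := fun v => Function.extend (Fin.castLE hw) v (fun _ => (0 : ℂ))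
  have hex1 : ∀ v a, ex v (Fin.castLE hw a) = v a := fun v a =>
    (Fin.castLE_injective hw).extend_apply v _ a
  have hex2 : ∀ v (a : Fin w'), (a ∉ Set.range (Fin.castLE hw)) → ex v a = 0 := by
    intro v a ha
    exact Function.extend_apply' v _ a ha
  let L : Dg K B (EG w' d) → Fin w' → ℂ := Function.extend f (fun i => ex (l i)) (fun _ _ => (0 : ℂ))
  let R : Dg K B (EG w' d) → Fin w' → ℂ := Function.extend f (fun i => ex (r i)) (fun _ _ => (0 : ℂ))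
  let Z : Dg K B (EG w' d) → ℂ := Function.extend f x (fun _ => (0 : ℂ))
  have hL : ∀ i, L (f i) = ex (l i) := fun i => hf.extend_apply _ _ i
  have hR : ∀ i, R (f i) = ex (r i) := fun i => hf.extend_apply _ _ i
  have hZ : ∀ i, Z (f i) = x i := fun i => hf.extend_apply _ _ i
  let A₁ : ℕ → Matrix (Fin w') (Fin w') ℂ[X] := fun j => gdEx w' (gdCut n A j)
  let A₁' : ℕ → Matrix (Fin w') (Fin w') ℂ[X] := fun j => gdEx w' (gdCut n A' j)
  let B₁ : ℕ → Matrix (Fin w') (Fin w') ℂ[X] := fun j => gdEx w' (Bm j)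
  have hA₁ : ∀ j a b, (A₁ j a b).natDegree ≤ D := fun j a b =>
    gdEx_degree (gdCut_degree hA j) a b
  have hA₁' : ∀ j a b, (A₁' j a b).natDegree ≤ D := fun j a b =>
    gdEx_degree (gdCut_degree hA' j) a b
  have hB₁ : ∀ j a b, (B₁ j a b).natDegree ≤ D := fun j a b => gdEx_degree (hBm j) a b
  have key := Dec.sub (Dec.mul hs₁ hs₂ (hV L R Z) (hG A₁ A₁' B₁)) hf hf
  have heq : (Matrix.of fun i j : Fin n =>
        ∑ a, ∑ b, l i a * ((nd A A' Bm 0 n j.val) a b).eval (x i) * r i b) =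
      ((Matrix.of fun i c : Dg K B (EG w' d) =>
          L i c.2.1 * R i c.2.2.1 * Z i ^ (c.2.2.2.val + d * lv K c.1)) *
        (gtreeM A₁ A₁' B₁ o : Matrix (Dg K B (EG w' d)) (Dg K B (EG w' d)) ℂ)).submatrix f f := by
    ext i j
    rw [Matrix.submatrix_apply, Matrix.mul_apply, Matrix.of_apply]
    simp only [Matrix.of_apply]
    rw [hL, hR, hZ]
    have hj : j.val < B ^ K := j.isLt.trans_le hn
    have h1 : ∀ c : Dg K B (EG w' d),
        ex (l i) c.2.1 * ex (r i) c.2.2.1 * x i ^ (c.2.2.2.val + d * lv K c.1) *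
          gtreeM A₁ A₁' B₁ o c (f j) =
        ex (l i) c.2.1 * ex (r i) c.2.2.1 * (x i ^ (c.2.2.2.val + d * lv K c.1) *
          (nd A₁ A₁' B₁ 0 (B ^ K) j.val c.2.1 c.2.2.1).coeff (c.2.2.2.val + d * lv K c.1)) := by
      rintro ⟨y, a, b, e⟩
      have h2 := gtree_eq A₁ A₁' B₁ D hD hA₁ hA₁' hB₁ o y (g j) a b e
      rw [hgv] at h2
      rw [mul_assoc]
      exact congrArg _ (congrArg _ h2)
    rw [Finset.sum_congr rfl fun c _ => h1 c, Fintype.sum_prod_type]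
    simp only [Fintype.sum_prod_type]
    conv_rhs => rw [Finset.sum_comm]
    have h3 : ∀ a b : Fin w', ∑ y : Fin K → Fin B, ∑ e : Fin d,
        ex (l i) a * ex (r i) b * (x i ^ (e.val + d * lv K y) *
          (nd A₁ A₁' B₁ 0 (B ^ K) j.val a b).coeff (e.val + d * lv K y)) =
        ex (l i) a * (nd A₁ A₁' B₁ 0 (B ^ K) j.val a b).eval (x i) * ex (r i) b := by
      intro a b
      simp only [← Finset.mul_sum]
      rw [gdec_eval hB]
      · ring
      · refine lt_of_le_of_lt (nd_degree A₁ A₁' B₁ D hA₁ hA₁' hB₁ 0 (B ^ K) j.val (Nat.zero_le _)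
          (by rw [Nat.zero_add]; exact hj) a b) ?_
        exact Nat.mul_lt_mul_of_pos_right hD (Nat.pow_pos hB)
    have hnd : GdExt hw (nd A₁ A₁' B₁ 0 (B ^ K) j.val) (nd A A' Bm 0 n j.val) := by
      rw [← gdCut_nd hn A A' Bm j.val j.isLt]
      exact gdExt_nd hw (fun k => gdEx_ext hw _) (fun k => gdEx_ext hw _)
        (fun k => gdEx_ext hw _) _ _ _
    refine Fintype.sum_of_injective (Fin.castLE hw) (Fin.castLE_injective hw) _ _ ?_ ?_
    · intro a ha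
      rw [Finset.sum_comm]
      refine Finset.sum_eq_zero fun b _ => ?_
      rw [h3, hex2 _ a ha, zero_mul, zero_mul]
    · intro a
      conv_rhs => rw [Finset.sum_comm]
      refine Fintype.sum_of_injective (Fin.castLE hw) (Fin.castLE_injective hw) _ _ ?_ ?_
      · intro b hb
        rw [h3, hex2 _ b hb, mul_zero]
      · intro b
        rw [h3, hex1, hex1, hnd.1]
  rw [heq]
  exact key

private theorem gdec_pow (w : ℕ) : ∃ p : ℕ, w < 2 ^ p ∧ 2 ^ p ≤ 2 * (w + 1) := by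
  refine ⟨Nat.log 2 (w + 1) + 1, ?_, ?_⟩
  · exact (Nat.lt_succ_self w).trans (Nat.lt_pow_succ_log_self (by norm_num) _)
  · rw [pow_succ, mul_comm]
    exact Nat.mul_le_mul_left 2 (Nat.pow_log_le_self 2 (Nat.succ_ne_zero w))

theorem g_dec (δ : ℝ) (hδ : 0 < δ) : ∃ γ : ℝ, 0 < γ ∧ ∃ n₀ : ℕ, ∀ n : ℕ, n₀ ≤ n →
    ∀ w : ℕ, (w : ℝ) ≤ (n : ℝ) ^ γ → ∀ A A' Bm : ℕ → Matrix (Fin w) (Fin w) ℂ[X],
      (∀ j a b, ((A j a b).natDegree : ℝ) ≤ (n : ℝ) ^ γ) →
      (∀ j a b, ((A' j a b).natDegree : ℝ) ≤ (n : ℝ) ^ γ) →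
      (∀ j a b, ((Bm j a b).natDegree : ℝ) ≤ (n : ℝ) ^ γ) →
      ∀ (l r : Fin n → Fin w → ℂ) (x : Fin n → ℂ),
      Dec (Matrix.of fun i j : Fin n =>
          ∑ a, ∑ b, l i a * ((nd A A' Bm 0 n j.val) a b).eval (x i) * r i b)
        ((n : ℝ) ^ (1 - γ)) ((n : ℝ) ^ δ) := by
  obtain ⟨K, hK, γ₂, hγ₂, n₂, hbase⟩ := exists_base2 (δ / 2) (by positivity)
    (fun K => K * (2 * K + 3) + 1) (fun K => 2 ^ K)
  obtain ⟨γ₁, hγ₁, n₁, hvand⟩ := gvand_dec (δ / 2) (by positivity) (2 ^ K) (by positivity)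
  set γ : ℝ := min γ₁ γ₂ / 4 with hγd
  have hm : 0 < min γ₁ γ₂ := lt_min hγ₁ hγ₂
  have hγ : 0 < γ := by positivity
  have h4γ₁ : 4 * γ ≤ γ₁ := by
    have := min_le_left γ₁ γ₂
    rw [hγd]
    linarith
  have h4γ₂ : 4 * γ ≤ γ₂ := by
    have := min_le_right γ₁ γ₂
    rw [hγd]
    linarith
  obtain ⟨n₃, hn₃⟩ := Filter.eventually_atTop.1
    (((tendsto_rpow_atTop hγ).comp tendsto_natCast_atTop_atTop).eventually_ge_atTop 64)
  refine ⟨γ, hγ, max (max n₁ n₂) (max n₃ 1), ?_⟩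
  intro n hn w hw A A' Bm hA hA' hBm l r x
  have hn1 : n₁ ≤ n := (le_max_left _ _).trans ((le_max_left _ _).trans hn)
  have hn2 : n₂ ≤ n := (le_max_right _ _).trans ((le_max_left _ _).trans hn)
  have hn3 : n₃ ≤ n := (le_max_left _ _).trans ((le_max_right _ _).trans hn)
  have hn4 : 1 ≤ n := (le_max_right _ _).trans ((le_max_right _ _).trans hn)
  have hN1 : (1 : ℝ) ≤ n := by exact_mod_cast hn4
  have hN0 : (0 : ℝ) < n := by linarith
  have hbig : (64 : ℝ) ≤ (n : ℝ) ^ γ := hn₃ n hn3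
  set t : ℝ := (n : ℝ) ^ γ with ht
  have ht4 : t ^ 4 = (n : ℝ) ^ (4 * γ) := by
    rw [ht, ← Real.rpow_natCast, ← Real.rpow_mul hN0.le]
    congr 1
    push_cast
    ring
  have ht₁ : t ^ 4 ≤ (n : ℝ) ^ γ₁ := by
    rw [ht4]
    exact Real.rpow_le_rpow_of_exponent_le hN1 h4γ₁
  have ht₂ : t ^ 4 ≤ (n : ℝ) ^ γ₂ := by
    rw [ht4]
    exact Real.rpow_le_rpow_of_exponent_le hN1 h4γ₂
  obtain ⟨b, hb1, hb2, hdec⟩ := hbase n hn2
  obtain ⟨p, hp1, hp2⟩ := gdec_pow w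
  obtain ⟨q, hq1, hq2⟩ := gdec_pow ⌊t⌋₊
  have hfl : ((⌊t⌋₊ : ℕ) : ℝ) ≤ t := Nat.floor_le (by linarith)
  have hp3 : ((2 ^ p : ℕ) : ℝ) ≤ 4 * t := by
    have h1 : ((2 ^ p : ℕ) : ℝ) ≤ 2 * (w + 1) := by exact_mod_cast hp2
    linarith
  have hq3 : ((2 ^ q : ℕ) : ℝ) ≤ 4 * t := by
    have h1 : ((2 ^ q : ℕ) : ℝ) ≤ 2 * ((⌊t⌋₊ : ℕ) + 1) := by exact_mod_cast hq2
    linarith
  have h4t : 4 * t ≤ t ^ 4 := by
    have h1 : (1 : ℝ) ≤ t := by linarith
    have h2 : (4 : ℝ) ≤ t ^ 3 := by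
      calc (4 : ℝ) ≤ t := by linarith
        _ = t ^ 1 := (pow_one t).symm
        _ ≤ t ^ 3 := pow_le_pow_right₀ h1 (by norm_num)
    calc 4 * t ≤ t ^ 3 * t := mul_le_mul_of_nonneg_right h2 (by linarith)
      _ = t ^ 4 := by ring
  have he : (2 : ℝ) ^ (p + (p + q)) ≤ (n : ℝ) ^ γ₂ := by
    refine le_trans ?_ ht₂
    have h1 : (2 : ℝ) ^ p ≤ 4 * t := by exact_mod_cast hp3
    have h2 : (2 : ℝ) ^ q ≤ 4 * t := by exact_mod_cast hq3
    have h0 : (0 : ℝ) ≤ 4 * t := by linarith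
    calc (2 : ℝ) ^ (p + (p + q)) = (2 : ℝ) ^ p * ((2 : ℝ) ^ p * (2 : ℝ) ^ q) := by
          rw [pow_add, pow_add]
      _ ≤ (4 * t) * ((4 * t) * (4 * t)) := by
          refine mul_le_mul h1 (mul_le_mul h1 h2 (by positivity) h0) (by positivity) h0
      _ = 64 * t ^ 3 := by ring
      _ ≤ t * t ^ 3 := mul_le_mul_of_nonneg_right hbig (by positivity)
      _ = t ^ 4 := by ring
  have hBpos : 0 < 2 ^ b := by positivity
  have hP : 0 < 2 ^ p := by positivity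
  have hQ : 0 < 2 ^ q := by positivity
  have hcard : Fintype.card (EG (2 ^ p) (2 ^ q)) = 2 ^ (p + (p + q)) := by
    rw [Fintype.card_prod, Fintype.card_prod, Fintype.card_fin, Fintype.card_fin, pow_add, pow_add]
  have hfin := gdec_assembly (D := ⌊t⌋₊) (K := K) hBpos hb1 hp1.le hq1
    (r₁ := (n : ℝ) ^ (1 - γ₁)) (s₁ := (n : ℝ) ^ (δ / 2))
    (r₂ := (n : ℝ) ^ (1 - γ₂)) (s₂ := (n : ℝ) ^ (δ / 2)) (by positivity) (by positivity)
    (⟨0, hP⟩, ⟨0, hP⟩, ⟨0, hQ⟩)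
    (fun L R Z => hvand n hn1 K (2 ^ b) (2 ^ p) (2 ^ q) (by exact_mod_cast hb1) hb2 hP
      (hp3.trans (h4t.trans ht₁)) hQ (hq3.trans (h4t.trans ht₁)) L R Z)
    (fun A₁ A₁' B₁ => hdec (p + (p + q)) he (EG (2 ^ p) (2 ^ q)) hcard ℂ (by norm_num) _
      (gtree_lay hK hBpos A₁ A₁' B₁ _))
    A A' Bm (fun j a b => Nat.le_floor (hA j a b)) (fun j a b => Nat.le_floor (hA' j a b))
    (fun j a b => Nat.le_floor (hBm j a b)) l r x
  refine hfin.mono ?_ ?_
  · have h1 : (n : ℝ) ^ (1 - γ₁) ≤ (n : ℝ) ^ (1 - 4 * γ) :=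
      Real.rpow_le_rpow_of_exponent_le hN1 (by linarith)
    have h2 : (n : ℝ) ^ (1 - γ₂) ≤ (n : ℝ) ^ (1 - 4 * γ) :=
      Real.rpow_le_rpow_of_exponent_le hN1 (by linarith)
    have h3 : (n : ℝ) ^ (1 - γ) = (n : ℝ) ^ (1 - 4 * γ) * t ^ 3 := by
      rw [ht, ← Real.rpow_natCast, ← Real.rpow_mul hN0.le, ← Real.rpow_add hN0]
      congr 1
      push_cast
      ring
    have h4 : (2 : ℝ) ≤ t ^ 3 := by
      calc (2 : ℝ) ≤ t := by linarith
        _ = t ^ 1 := (pow_one t).symm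
        _ ≤ t ^ 3 := pow_le_pow_right₀ (by linarith) (by norm_num)
    have h5 : (0 : ℝ) ≤ (n : ℝ) ^ (1 - 4 * γ) := by positivity
    rw [h3]
    nlinarith
  · rw [← Real.rpow_add hN0]
    exact le_of_eq (by ring_nf)

end MP0775d3.Bf
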