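import Pool.Agent.Lib.MP_0775d3_lc.Bf.Circ

/-! A matrix which is Toeplitz in the `s` lowest digits is circulant plus skew circulant.

PROOF. `P = B ^ s`, `C v = (T v + T (v - P)) / 2`, `S v = (T v - T (v - P)) / 2` for `0 ≤ v < P`.
For `u = lv s x - lv s y` in `(-P, P)`, `v = u mod P`: `T u = C v + (S v or - S v)` according to
`u ≥ 0` or `u < 0`. With the diagonal matrix `D x = ee (lv s x / (2 P))` the second matrix is
`D * (circulant with S v * ee (- v / (2 P))) * D⁻¹`. Use `circ_lay` twice, `lay_diagonal`,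
`Lay.mul`, `Lay.add`. -/

set_option linter.unusedSectionVars false
set_option linter.unusedVariables false

namespace MP0775d3.Bf

open Matrix MP0775d3.Kron

variable {K B : ℕ} {E : Type*} [Fintype E] [DecidableEq E]

private theorem toep_phase_pos (a b v : ℝ) (P : ℝ) (h : v = a - b) :
    ee (a / (2 * P)) * ee (-(v / (2 * P))) * ee (-(b / (2 * P))) = 1 := by
  rw [← ee_add, ← ee_add]
  have e : a / (2 * P) + -(v / (2 * P)) + -(b / (2 * P)) = 0 := by
    rw [h]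
    ring
  rw [e, ee_zero]

private theorem toep_phase_neg (a b v : ℝ) (P : ℝ) (hP : P ≠ 0) (h : v = a - b + P) :
    ee (a / (2 * P)) * ee (-(v / (2 * P))) * ee (-(b / (2 * P))) = -1 := by
  rw [← ee_add, ← ee_add]
  have e : a / (2 * P) + -(v / (2 * P)) + -(b / (2 * P)) = 1 / 2 + ((-1 : ℤ) : ℝ) := by
    rw [h]
    push_cast
    field_simp
    ring
  rw [e, ee_add, ee_half, ee_int, mul_one]

theorem toep_lay (hK : 0 < K) (hB : 0 < B) {s : ℕ} (hs : s ≤ K)
    (T : (Fin K → Fin B) → (Fin K → Fin B) → E → E → ℤ → ℂ)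
    (hT : ∀ x x' y y' e e' u, Hi s x x' → Hi s y y' → T x y e e' u = T x' y' e e' u)
    (hz : ∀ x y e e' u, T x y e e' u ≠ 0 → Hi (s + 1) x y) :
    Lay (2 * s + 3) 2 (fun x y => T x.1 y.1 x.2 y.2 ((lv s x.1 : ℤ) - lv s y.1) :
      Matrix (Dg K B E) (Dg K B E) ℂ) := by
  have hPpos : (0 : ℤ) < (B : ℤ) ^ s := by positivity
  let C : (Fin K → Fin B) → (Fin K → Fin B) → E → E → ℕ → ℂ := fun x y e e' v =>
    (T x y e e' (v : ℤ) + T x y e e' ((v : ℤ) - (B : ℤ) ^ s)) / 2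
  let S : (Fin K → Fin B) → (Fin K → Fin B) → E → E → ℕ → ℂ := fun x y e e' v =>
    (T x y e e' (v : ℤ) - T x y e e' ((v : ℤ) - (B : ℤ) ^ s)) / 2 *
      ee (-((v : ℝ) / (2 * (B : ℝ) ^ s)))
  have h1 := circ_lay hK hB hs C
    (fun x x' y y' e e' v hx hy => by
      simp only [C]
      rw [hT x x' y y' e e' _ hx hy, hT x x' y y' e e' _ hx hy])
    (fun x y e e' v h => by
      by_contra hc
      apply h
      simp only [C]
      rw [not_not.1 fun h' => hc (hz x y e e' _ h'), not_not.1 fun h' => hc (hz x y e e' _ h')]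
      simp)
  have h2 := circ_lay hK hB hs S
    (fun x x' y y' e e' v hx hy => by
      simp only [S]
      rw [hT x x' y y' e e' _ hx hy, hT x x' y y' e e' _ hx hy])
    (fun x y e e' v h => by
      by_contra hc
      apply h
      simp only [S]
      rw [not_not.1 fun h' => hc (hz x y e e' _ h'), not_not.1 fun h' => hc (hz x y e e' _ h')]
      simp)
  have h3 : Lay 1 1 (Matrix.diagonal (fun x : Dg K B E =>
      ee ((lv s x.1 : ℝ) / (2 * (B : ℝ) ^ s)))) := lay_diagonal hK _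
  have h4 : Lay 1 1 (Matrix.diagonal (fun x : Dg K B E =>
      ee (-((lv s x.1 : ℝ) / (2 * (B : ℝ) ^ s))))) := lay_diagonal hK _
  have h5 := (h3.mul h2).mul h4
  have h6 := (h1.mono (t' := 2 * s + 3) (s' := 1) (by omega) le_rfl).add
    (h5.mono (t' := 2 * s + 3) (s' := 1) (by omega) (by norm_num))
  refine Eq.mp (congrArg (Lay (2 * s + 3) 2) ?_) h6
  · ext x y
    rw [Matrix.add_apply, Matrix.mul_diagonal, Matrix.diagonal_mul]
    have hx : (lv s x.1 : ℤ) < (B : ℤ) ^ s := by exact_mod_cast lv_lt hs x.1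
    have hy : (lv s y.1 : ℤ) < (B : ℤ) ^ s := by exact_mod_cast lv_lt hs y.1
    have hP0 : ((B : ℝ) ^ s) ≠ 0 := by
      have : (0 : ℝ) < B := by exact_mod_cast hB
      positivity
    have hv0 : 0 ≤ ((lv s x.1 : ℤ) - lv s y.1) % (B : ℤ) ^ s := Int.emod_nonneg _ hPpos.ne'
    have hvc : (((((lv s x.1 : ℤ) - lv s y.1) % (B : ℤ) ^ s).toNat : ℕ) : ℤ) =
        ((lv s x.1 : ℤ) - lv s y.1) % (B : ℤ) ^ s := Int.toNat_of_nonneg hv0
    generalize (((lv s x.1 : ℤ) - lv s y.1) % (B : ℤ) ^ s).toNat = v at *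
    rcases le_or_gt (0 : ℤ) ((lv s x.1 : ℤ) - lv s y.1) with hu | hu
    · have hu2 : ((lv s x.1 : ℤ) - lv s y.1) % (B : ℤ) ^ s = (lv s x.1 : ℤ) - lv s y.1 :=
        Int.emod_eq_of_lt hu (by omega)
      rw [hu2] at hvc
      have hvr : (v : ℝ) = (lv s x.1 : ℝ) - lv s y.1 := by exact_mod_cast hvc
      have hph := toep_phase_pos (lv s x.1 : ℝ) (lv s y.1 : ℝ) (v : ℝ) ((B : ℝ) ^ s) hvr
      change _ = T x.1 y.1 x.2 y.2 ((lv s x.1 : ℤ) - lv s y.1)
      rw [← hvc]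
      simp only [C, S]
      linear_combination ((T x.1 y.1 x.2 y.2 (v : ℤ) -
        T x.1 y.1 x.2 y.2 ((v : ℤ) - (B : ℤ) ^ s)) / 2) * hph
    · have hu2 : ((lv s x.1 : ℤ) - lv s y.1) % (B : ℤ) ^ s =
          (lv s x.1 : ℤ) - lv s y.1 + (B : ℤ) ^ s := by
        rw [← Int.add_emod_right]
        exact Int.emod_eq_of_lt (by omega) (by omega)
      rw [hu2] at hvc
      have hvr : (v : ℝ) = (lv s x.1 : ℝ) - lv s y.1 + (B : ℝ) ^ s := by exact_mod_cast hvc
      have hph := toep_phase_neg (lv s x.1 : ℝ) (lv s y.1 : ℝ) (v : ℝ) ((B : ℝ) ^ s) hP0 hvr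
      have hvc2 : (lv s x.1 : ℤ) - lv s y.1 = (v : ℤ) - (B : ℤ) ^ s := by omega
      change _ = T x.1 y.1 x.2 y.2 ((lv s x.1 : ℤ) - lv s y.1)
      rw [hvc2]
      simp only [C, S]
      linear_combination ((T x.1 y.1 x.2 y.2 (v : ℤ) -
        T x.1 y.1 x.2 y.2 ((v : ℤ) - (B : ℤ) ^ s)) / 2) * hph

end MP0775d3.Bf
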