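import Pool.Agent.Lib.MP_0775d3_lc.Bf.GTree
import Pool.Agent.Lib.MP_0775d3_lc.Bf.Toep

/-! The tree of polynomial matrices is layered.

PROOF of `glev_lay`: `toep_lay` with `T x y (a, b, e) (a', b', e') u` = coefficient
`(e - e') + d * (x s * B ^ s + u)` (`0` if this integer is negative) of the product of the two
entries, if `Hi (s + 1) x y`, and `0` otherwise. `gleaf` acts on `E` only. -/

set_option linter.unusedSectionVars false
set_option linter.unusedVariables false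

namespace MP0775d3.Bf

open Matrix MP0775d3.Kron Polynomial

variable {K B w d : ℕ}

/-- The higher digits. -/
private theorem gLay_top {t : ℕ} (x : Fin K → Fin B) :
    lv K x = lv t x + ∑ a : Fin K, if t ≤ a.val then (x a).val * B ^ a.val else 0 := by
  unfold lv
  rw [← Finset.sum_add_distrib]
  refine Finset.sum_congr rfl fun a _ => ?_
  rw [if_pos a.isLt]
  by_cases h : a.val < t
  · rw [if_pos h, if_neg (not_le.2 h), add_zero]
  · rw [if_neg h, if_pos (not_lt.1 h), zero_add]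

private theorem gLay_hi {t : ℕ} {x x' : Fin K → Fin B} (h : Hi t x x') :
    lv K x - lv t x = lv K x' - lv t x' := by
  have h1 := gLay_top (t := t) x
  have h2 := gLay_top (t := t) x'
  have h3 : (∑ a : Fin K, if t ≤ a.val then (x a).val * B ^ a.val else 0) =
      ∑ a : Fin K, if t ≤ a.val then (x' a).val * B ^ a.val else 0 := by
    refine Finset.sum_congr rfl fun a _ => ?_
    by_cases h4 : t ≤ a.val
    · rw [if_pos h4, if_pos h4, h a h4]
    · rw [if_neg h4, if_neg h4]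
  omega

/-- The Toeplitz symbol. -/
private noncomputable def gLayT (A A' : ℕ → Matrix (Fin w) (Fin w) ℂ[X]) (s : Fin K)
    (x y : Fin K → Fin B) (e e' : EG w d) (u : ℤ) : ℂ :=
  if Hi (s.val + 1) x y ∧
      0 ≤ (e.2.2.val : ℤ) - e'.2.2.val + d * ((((x s).val * B ^ s.val : ℕ) : ℤ) + u) then
    (pr A (lv K x - lv (s.val + 1) x + ((y s).val + 1) * B ^ s.val)
        ((B - 1 - (y s).val) * B ^ s.val) e.1 e'.1 *
      pr A' (lv K x - lv (s.val + 1) x) ((y s).val * B ^ s.val) e'.2.1 e.2.1).coeff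
      ((e.2.2.val : ℤ) - e'.2.2.val + d * ((((x s).val * B ^ s.val : ℕ) : ℤ) + u)).toNat else 0

private theorem gLayT_congr (A A' : ℕ → Matrix (Fin w) (Fin w) ℂ[X]) (s : Fin K)
    (x x' y y' : Fin K → Fin B) (e e' : EG w d) (u : ℤ) (hx : Hi s.val x x')
    (hy : Hi s.val y y') : gLayT A A' s x y e e' u = gLayT A A' s x' y' e e' u := by
  have h1 : Hi (s.val + 1) x x' := hx.mono (Nat.le_succ _)
  have h2 : Hi (s.val + 1) y y' := hy.mono (Nat.le_succ _)
  have h3 : x s = x' s := hx s le_rfl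
  have h4 : y s = y' s := hy s le_rfl
  have h5 : Hi (s.val + 1) x y ↔ Hi (s.val + 1) x' y' :=
    ⟨fun h => h1.symm.trans (h.trans h2), fun h => h1.trans (h.trans h2.symm)⟩
  have h6 : lv K x - lv (s.val + 1) x = lv K x' - lv (s.val + 1) x' := gLay_hi h1
  unfold gLayT
  rw [h3, h4, h6]
  by_cases h7 : Hi (s.val + 1) x y ∧
      0 ≤ (e.2.2.val : ℤ) - e'.2.2.val + d * ((((x' s).val * B ^ s.val : ℕ) : ℤ) + u)
  · rw [if_pos h7, if_pos ⟨h5.1 h7.1, h7.2⟩]
  · rw [if_neg h7, if_neg fun h => h7 ⟨h5.2 h.1, h.2⟩]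

private theorem gLayT_eq (A A' : ℕ → Matrix (Fin w) (Fin w) ℂ[X]) (s : Fin K)
    (x y : Dg K B (EG w d)) :
    glev A A' s x y = gLayT A A' s x.1 y.1 x.2 y.2 ((lv s.val x.1 : ℤ) - lv s.val y.1) := by
  unfold glev gLayT
  have h1 : (x.2.2.2.val : ℤ) - y.2.2.2.val + d * ((((x.1 s).val * B ^ s.val : ℕ) : ℤ) +
      ((lv s.val x.1 : ℤ) - lv s.val y.1)) =
      ((x.2.2.2.val + d * lv (s.val + 1) x.1 : ℕ) : ℤ) -
        ((y.2.2.2.val + d * lv s.val y.1 : ℕ) : ℤ) := by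
    rw [lv_succ s x.1]
    push_cast
    ring
  rw [h1]
  by_cases h2 : y.2.2.2.val + d * lv s.val y.1 ≤ x.2.2.2.val + d * lv (s.val + 1) x.1
  · have h3 : (0 : ℤ) ≤ ((x.2.2.2.val + d * lv (s.val + 1) x.1 : ℕ) : ℤ) -
        ((y.2.2.2.val + d * lv s.val y.1 : ℕ) : ℤ) := by omega
    have h4 : (((x.2.2.2.val + d * lv (s.val + 1) x.1 : ℕ) : ℤ) -
        ((y.2.2.2.val + d * lv s.val y.1 : ℕ) : ℤ)).toNat =
        x.2.2.2.val + d * lv (s.val + 1) x.1 - (y.2.2.2.val + d * lv s.val y.1) := by omega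
    rw [h4]
    by_cases h5 : Hi (s.val + 1) x.1 y.1
    · rw [if_pos ⟨h5, h2⟩, if_pos ⟨h5, h3⟩]
    · rw [if_neg fun h => h5 h.1, if_neg fun h => h5 h.1]
  · have h3 : ¬ (0 : ℤ) ≤ ((x.2.2.2.val + d * lv (s.val + 1) x.1 : ℕ) : ℤ) -
        ((y.2.2.2.val + d * lv s.val y.1 : ℕ) : ℤ) := by omega
    rw [if_neg fun h => h2 h.2, if_neg fun h => h3 h.2]

theorem glev_lay (hB : 0 < B) (A A' : ℕ → Matrix (Fin w) (Fin w) ℂ[X]) (s : Fin K) :
    Lay (2 * K + 3) 2 (glev A A' s : Matrix (Dg K B (EG w d)) (Dg K B (EG w d)) ℂ) := by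
  have hK : 0 < K := lt_of_le_of_lt (Nat.zero_le _) s.isLt
  have h := toep_lay (E := EG w d) hK hB (s := s.val) s.isLt.le
    (fun x y e e' u => gLayT A A' s x y e e' u)
    (fun x x' y y' e e' u hx hy => gLayT_congr A A' s x x' y y' e e' u hx hy)
    (by
      intro x y e e' u hne
      by_contra hcon
      exact hne (if_neg fun h => hcon h.1))
  have he : (glev A A' s : Matrix (Dg K B (EG w d)) (Dg K B (EG w d)) ℂ) =
      fun x y => gLayT A A' s x.1 y.1 x.2 y.2 ((lv s.val x.1 : ℤ) - lv s.val y.1) := by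
    funext x y
    exact gLayT_eq A A' s x y
  rw [he]
  exact h.mono (by have := s.isLt; omega) le_rfl

theorem gtree_lay (hK : 0 < K) (hB : 0 < B) (A A' Bm : ℕ → Matrix (Fin w) (Fin w) ℂ[X])
    (o : EG w d) :
    Lay (K * (2 * K + 3) + 1) (2 ^ K)
      (gtreeM A A' Bm o : Matrix (Dg K B (EG w d)) (Dg K B (EG w d)) ℂ) := by
  have h := lay_list_prod (List.ofFn fun s : Fin K =>
    (glev A A' s.rev : Matrix (Dg K B (EG w d)) (Dg K B (EG w d)) ℂ)) (t := 2 * K + 3) (s := 2)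
    (by
      intro M hM
      rw [List.mem_ofFn] at hM
      obtain ⟨s, rfl⟩ := hM
      exact glev_lay hB A A' s.rev)
  rw [List.length_ofFn] at h
  have h2 : Lay 1 1 (gleaf Bm o : Matrix (Dg K B (EG w d)) (Dg K B (EG w d)) ℂ) := by
    refine ActD.lay (a := ⟨0, hK⟩) fun x y hxy i _ => ?_
    by_contra hne
    refine hxy (if_neg fun h => hne ?_)
    rw [h.1]
  have h3 := h.mul h2
  rw [mul_one] at h3
  exact h3

end MP0775d3.Bf
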