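import Pool.Agent.Lib.MP_0775d3_lc.Bf.ValSum

/-! Products of polynomial matrices over intervals. -/

set_option linter.unusedSectionVars false
set_option linter.unusedVariables false

namespace MP0775d3.Bf

open Matrix Polynomial

variable {F : Type*} [Field F] {w : ℕ}

/-- `pr A lo k = A (lo + k - 1) * ... * A lo`. -/
noncomputable def pr (A : ℕ → Matrix (Fin w) (Fin w) F[X]) (lo : ℕ) :
    ℕ → Matrix (Fin w) (Fin w) F[X]
  | 0 => 1
  | k + 1 => A (lo + k) * pr A lo k

theorem pr_add (A : ℕ → Matrix (Fin w) (Fin w) F[X]) (lo k k' : ℕ) :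
    pr A lo (k + k') = pr A (lo + k) k' * pr A lo k := by
  induction k' with
  | zero =>
    rw [Nat.add_zero]
    exact (Matrix.one_mul _).symm
  | succ k' ih =>
    have h1 : pr A lo (k + (k' + 1)) = A (lo + (k + k')) * pr A lo (k + k') := rfl
    have h2 : pr A (lo + k) (k' + 1) = A (lo + k + k') * pr A (lo + k) k' := rfl
    rw [h1, h2, ih, Matrix.mul_assoc, Nat.add_assoc]

private theorem gpr_mul_degree {M N : Matrix (Fin w) (Fin w) F[X]} {m n : ℕ}
    (hM : ∀ a b, (M a b).natDegree ≤ m) (hN : ∀ a b, (N a b).natDegree ≤ n) (a b : Fin w) :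
    ((M * N) a b).natDegree ≤ m + n := by
  rw [Matrix.mul_apply]
  refine natDegree_sum_le_of_forall_le _ _ fun c _ => ?_
  exact natDegree_mul_le.trans (add_le_add (hM a c) (hN c b))

theorem pr_degree (A : ℕ → Matrix (Fin w) (Fin w) F[X]) (D : ℕ)
    (hA : ∀ j a b, (A j a b).natDegree ≤ D) (lo k : ℕ) (a b : Fin w) :
    (pr A lo k a b).natDegree ≤ D * k := by
  induction k generalizing a b with
  | zero =>
    have h1 : pr A lo 0 = 1 := rfl
    rw [h1, Matrix.one_apply]
    split_ifs
    · rw [natDegree_one]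
      exact Nat.zero_le _
    · rw [natDegree_zero]
      exact Nat.zero_le _
  | succ k ih =>
    have h2 : pr A lo (k + 1) = A (lo + k) * pr A lo k := rfl
    rw [h2]
    refine (gpr_mul_degree (hA _) ih a b).trans (le_of_eq ?_)
    ring

/-- Entries of the product of a node: `A` to the right of the leaf `j`, `Bm j` at the leaf, `A'` to
the left of the leaf; the node is the interval `[lo, lo + len)`. -/
noncomputable def nd (A A' Bm : ℕ → Matrix (Fin w) (Fin w) F[X]) (lo len j : ℕ) :
    Matrix (Fin w) (Fin w) F[X] :=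
  pr A (j + 1) (lo + len - 1 - j) * Bm j * pr A' lo (j - lo)

theorem nd_degree (A A' Bm : ℕ → Matrix (Fin w) (Fin w) F[X]) (D : ℕ)
    (hA : ∀ j a b, (A j a b).natDegree ≤ D) (hA' : ∀ j a b, (A' j a b).natDegree ≤ D)
    (hB : ∀ j a b, (Bm j a b).natDegree ≤ D) (lo len j : ℕ) (h1 : lo ≤ j) (h2 : j < lo + len)
    (a b : Fin w) : (nd A A' Bm lo len j a b).natDegree ≤ D * len := by
  unfold nd
  refine (gpr_mul_degree (gpr_mul_degree (pr_degree A D hA _ _) (hB j))
    (pr_degree A' D hA' _ _) a b).trans (le_of_eq ?_)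
  have h3 : len = (lo + len - 1 - j) + 1 + (j - lo) := by omega
  conv_rhs => rw [h3]
  ring

/-- A node `[lo, lo + len)` inside `[lo', lo' + len')`. -/
theorem nd_step (A A' Bm : ℕ → Matrix (Fin w) (Fin w) F[X]) (lo len lo' len' j : ℕ)
    (h1 : lo ≤ j) (h2 : j < lo + len) (h3 : lo' ≤ lo) (h4 : lo + len ≤ lo' + len') :
    nd A A' Bm lo' len' j =
      pr A (lo + len) (lo' + len' - (lo + len)) * nd A A' Bm lo len j * pr A' lo' (lo - lo') := by
  have e1 : lo' + len' - 1 - j = (lo + len - 1 - j) + (lo' + len' - (lo + len)) := by omega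
  have e2 : j + 1 + (lo + len - 1 - j) = lo + len := by omega
  have e3 : j - lo' = (lo - lo') + (j - lo) := by omega
  have e4 : lo' + (lo - lo') = lo := by omega
  unfold nd
  rw [e1, e3, pr_add, pr_add, e2, e4]
  simp only [Matrix.mul_assoc]

end MP0775d3.Bf
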