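import Pool.Agent.Lib.MP_0775d3_lc.Bf.Defs

/-! Choice of the pairing: swap `A \ Y` with a part of `Y \ A`. -/

set_option linter.unusedSectionVars false
set_option linter.unusedVariables false

namespace MP0775d3.Bf

variable {ι : Type*} [Fintype ι] [DecidableEq ι]

private theorem involution_swap {U V : Finset ι} (hd : Disjoint U V) (hc : U.card = V.card) :
    ∃ τ : Equiv.Perm ι, (∀ i, τ (τ i) = i) ∧ (∀ i ∈ U, τ i ∈ V) ∧ (∀ i ∈ V, τ i ∈ U) ∧
      ∀ i, i ∉ U → i ∉ V → τ i = i := by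
  let e : U ≃ V := Finset.equivOfCardEq hc
  let f : ι → ι := fun i => if h : i ∈ U then (e ⟨i, h⟩ : ι) else
    if h : i ∈ V then (e.symm ⟨i, h⟩ : ι) else i
  have hU : ∀ i (h : i ∈ U), f i = (e ⟨i, h⟩ : ι) := fun i h => dif_pos h
  have hV : ∀ i (h : i ∈ V), f i = (e.symm ⟨i, h⟩ : ι) := fun i h => by
    have h1 : i ∉ U := fun h2 => Finset.disjoint_left.1 hd h2 h
    show (if h : i ∈ U then (e ⟨i, h⟩ : ι) else
      if h : i ∈ V then (e.symm ⟨i, h⟩ : ι) else i) = _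
    rw [dif_neg h1, dif_pos h]
  have hN : ∀ i, i ∉ U → i ∉ V → f i = i := fun i h1 h2 => by
    show (if h : i ∈ U then (e ⟨i, h⟩ : ι) else
      if h : i ∈ V then (e.symm ⟨i, h⟩ : ι) else i) = _
    rw [dif_neg h1, dif_neg h2]
  have hinv : ∀ i, f (f i) = i := by
    intro i
    by_cases h1 : i ∈ U
    · rw [hU i h1, hV _ (e ⟨i, h1⟩).2]
      simp
    · by_cases h2 : i ∈ V
      · rw [hV i h2, hU _ (e.symm ⟨i, h2⟩).2]
        simp
      · rw [hN i h1 h2, hN i h1 h2]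
  refine ⟨⟨f, f, hinv, hinv⟩, hinv, ?_, ?_, hN⟩
  · intro i hi
    show f i ∈ V
    rw [hU i hi]
    exact (e ⟨i, hi⟩).2
  · intro i hi
    show f i ∈ U
    rw [hV i hi]
    exact (e.symm ⟨i, hi⟩).2

theorem exists_pairing (A Y : Finset ι) (h : A.card ≤ Y.card) :
    ∃ (τ : Equiv.Perm ι) (P : Finset ι), Pairing τ P ∧ ∀ i ∈ A, τ i ∈ Y := by
  have h1 : (A \ Y).card ≤ (Y \ A).card := by
    have a1 := Finset.card_sdiff_add_card_inter A Y
    have a2 := Finset.card_sdiff_add_card_inter Y A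
    rw [Finset.inter_comm] at a2
    omega
  obtain ⟨V, hV, hVc⟩ := Finset.exists_subset_card_eq h1
  have hd : Disjoint (A \ Y) V := by
    rw [Finset.disjoint_left]
    intro i hi hi'
    exact (Finset.mem_sdiff.1 hi).2 (Finset.mem_sdiff.1 (hV hi')).1
  obtain ⟨τ, t1, t2, t3, t4⟩ := involution_swap hd hVc.symm
  refine ⟨τ, A \ Y, ⟨t1, ?_, ?_⟩, ?_⟩
  · intro i hi hc
    exact Finset.disjoint_left.1 hd hc (t2 i hi)
  · intro i hi hτ
    exact t4 i hi fun hc => hτ (t3 i hc)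
  · intro i hi
    by_cases hY : i ∈ Y
    · have h2 : i ∉ A \ Y := fun hc => (Finset.mem_sdiff.1 hc).2 hY
      have h3 : i ∉ V := fun hc => (Finset.mem_sdiff.1 (hV hc)).2 hi
      rw [t4 i h2 h3]
      exact hY
    · exact (Finset.mem_sdiff.1 (hV (t2 i (Finset.mem_sdiff.2 ⟨hi, hY⟩)))).1

end MP0775d3.Bf
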