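import Pool.Agent.Lib.MP_0775d3_lc.Bf.Defs

/-! Matrices indexed by `K` digits in base `B` and a further coordinate in `E`, and layered
matrices: sums of products of matrices which act on one digit only (and on `E`). -/

set_option linter.unusedSectionVars false
set_option linter.unusedVariables false

namespace MP0775d3.Bf

open Matrix MP0775d3.Kron

/-- `K` digits in base `B` and a further coordinate. -/
abbrev Dg (K B : ℕ) (E : Type*) := (Fin K → Fin B) × E

variable {F : Type*} [Field F] {K B : ℕ} {E : Type*} [Fintype E] [DecidableEq E]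

/-- `A` acts on the digit `a` and on the coordinate in `E`, controlled by the other digits. -/
def ActD (a : Fin K) (A : Matrix (Dg K B E) (Dg K B E) F) : Prop :=
  ∀ x y, A x y ≠ 0 → ∀ i, i ≠ a → x.1 i = y.1 i

/-- `A` is a sum of at most `s` products of at most `t` matrices each acting on one digit. -/
def Lay (t s : ℕ) (A : Matrix (Dg K B E) (Dg K B E) F) : Prop :=
  ∃ l : List (List (Matrix (Dg K B E) (Dg K B E) F)), l.length ≤ s ∧
    (∀ p ∈ l, p.length ≤ t ∧ ∀ M ∈ p, ∃ a : Fin K, ActD a M) ∧ A = (l.map List.prod).sum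

private theorem lay_length {X : Type*} (l l' : List (List X)) :
    (l.flatMap fun p => l'.map fun q => p ++ q).length = l.length * l'.length := by
  induction l with
  | nil => rw [List.flatMap_nil, List.length_nil, zero_mul]
  | cons p l ih =>
    rw [List.flatMap_cons, List.length_append, ih, List.length_map, List.length_cons]
    ring

private theorem lay_sum {R : Type*} [Ring R] (l l' : List (List R)) :
    ((l.flatMap fun p => l'.map fun q => p ++ q).map List.prod).sum =
      (l.map List.prod).sum * (l'.map List.prod).sum := by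
  induction l with
  | nil => rw [List.flatMap_nil, List.map_nil, List.sum_nil, zero_mul]
  | cons p l ih =>
    have h : ((l'.map fun q => p ++ q).map List.prod).sum = p.prod * (l'.map List.prod).sum := by
      rw [List.map_map, ← List.sum_map_mul_left]
      congr 1
      refine List.map_congr_left fun q _ => ?_
      exact List.prod_append
    rw [List.flatMap_cons, List.map_append, List.sum_append, ih, List.map_cons, List.sum_cons,
      add_mul, h]

/-- Multiplication of the first factor by `c`. -/
private def lay_g {X : Type*} [Fintype X] [DecidableEq X] (c : F) :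
    List (Matrix X X F) → List (Matrix X X F)
  | [] => [c • 1]
  | M :: p => (c • M) :: p

private theorem lay_g_prod {X : Type*} [Fintype X] [DecidableEq X] (c : F)
    (p : List (Matrix X X F)) : (lay_g c p).prod = c • p.prod := by
  cases p with
  | nil => rw [lay_g, List.prod_singleton, List.prod_nil]
  | cons M p => rw [lay_g, List.prod_cons, List.prod_cons, Matrix.smul_mul]

theorem Lay.mono {t s t' s' : ℕ} {A : Matrix (Dg K B E) (Dg K B E) F} (h : Lay t s A)
    (ht : t ≤ t') (hs : s ≤ s') : Lay t' s' A := by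
  obtain ⟨l, h1, h2, h3⟩ := h
  exact ⟨l, h1.trans hs, fun p hp => ⟨(h2 p hp).1.trans ht, (h2 p hp).2⟩, h3⟩

theorem Lay.mul {t s t' s' : ℕ} {A A' : Matrix (Dg K B E) (Dg K B E) F} (h : Lay t s A)
    (h' : Lay t' s' A') : Lay (t + t') (s * s') (A * A') := by
  obtain ⟨l, h1, h2, h3⟩ := h
  obtain ⟨l', h1', h2', h3'⟩ := h'
  refine ⟨l.flatMap fun p => l'.map fun q => p ++ q, ?_, ?_, ?_⟩
  · rw [lay_length]
    exact Nat.mul_le_mul h1 h1'
  · intro p hp
    obtain ⟨u, hu, hp⟩ := List.mem_flatMap.1 hp
    obtain ⟨v, hv, rfl⟩ := List.mem_map.1 hp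
    refine ⟨?_, fun M hM => ?_⟩
    · rw [List.length_append]
      exact add_le_add (h2 u hu).1 (h2' v hv).1
    · rcases List.mem_append.1 hM with h | h
      · exact (h2 u hu).2 M h
      · exact (h2' v hv).2 M h
  · rw [lay_sum, ← h3, ← h3']

theorem Lay.add {t s s' : ℕ} {A A' : Matrix (Dg K B E) (Dg K B E) F} (h : Lay t s A)
    (h' : Lay t s' A') : Lay t (s + s') (A + A') := by
  obtain ⟨l, h1, h2, h3⟩ := h
  obtain ⟨l', h1', h2', h3'⟩ := h'
  refine ⟨l ++ l', ?_, ?_, ?_⟩
  · rw [List.length_append]
    exact add_le_add h1 h1'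
  · intro p hp
    rcases List.mem_append.1 hp with h | h
    · exact h2 p h
    · exact h2' p h
  · rw [List.map_append, List.sum_append, ← h3, ← h3']

theorem lay_one : Lay 0 1 (1 : Matrix (Dg K B E) (Dg K B E) F) := by
  refine ⟨[[]], le_rfl, ?_, ?_⟩
  · intro p hp
    rw [List.mem_singleton] at hp
    subst hp
    exact ⟨le_rfl, fun M hM => absurd hM List.not_mem_nil⟩
  · rw [List.map_singleton, List.sum_singleton, List.prod_nil]

theorem ActD.lay {a : Fin K} {A : Matrix (Dg K B E) (Dg K B E) F} (h : ActD a A) :
    Lay 1 1 A := by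
  refine ⟨[[A]], le_rfl, ?_, ?_⟩
  · intro p hp
    rw [List.mem_singleton] at hp
    subst hp
    refine ⟨le_rfl, fun M hM => ?_⟩
    rw [List.mem_singleton] at hM
    subst hM
    exact ⟨a, h⟩
  · rw [List.map_singleton, List.sum_singleton, List.prod_singleton]

/-- A diagonal matrix acts on any digit. -/
theorem lay_diagonal (hK : 0 < K) (d : Dg K B E → F) : Lay 1 1 (Matrix.diagonal d) := by
  refine ActD.lay (a := ⟨0, hK⟩) fun x y hxy i _ => ?_
  have h : x = y := by
    by_contra hne
    exact hxy (Matrix.diagonal_apply_ne d hne)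
  rw [h]

theorem Lay.smul (hK : 0 < K) (c : F) {t s : ℕ} {A : Matrix (Dg K B E) (Dg K B E) F}
    (h : Lay t s A) (ht : 0 < t) : Lay t s (c • A) := by
  rcases Nat.eq_zero_or_pos K with hK0 | _
  · omega
  obtain ⟨l, h1, h2, h3⟩ := h
  refine ⟨l.map (lay_g c), by rw [List.length_map]; exact h1, ?_, ?_⟩
  · intro p hp
    obtain ⟨q, hq, rfl⟩ := List.mem_map.1 hp
    cases q with
    | nil =>
      refine ⟨ht, fun M hM => ?_⟩
      rw [lay_g, List.mem_singleton] at hM
      subst hM
      refine ⟨⟨0, hK⟩, fun x y hxy i _ => ?_⟩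
      have h : x = y := by
        by_contra hne
        apply hxy
        rw [Matrix.smul_apply, Matrix.one_apply_ne hne, smul_zero]
      rw [h]
    | cons M q =>
      refine ⟨(h2 _ hq).1, fun N hN => ?_⟩
      rw [lay_g] at hN
      rcases List.mem_cons.1 hN with h | h
      · subst h
        obtain ⟨a, ha⟩ := (h2 _ hq).2 M List.mem_cons_self
        refine ⟨a, fun x y hxy => ha x y ?_⟩
        rw [Matrix.smul_apply] at hxy
        exact right_ne_zero_of_mul hxy
      · exact (h2 _ hq).2 N (List.mem_cons_of_mem _ h)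
  · rw [h3, List.smul_sum, List.map_map, List.map_map]
    congr 1
    refine List.map_congr_left fun q _ => ?_
    exact (lay_g_prod c q).symm

theorem Lay.transpose {t s : ℕ} {A : Matrix (Dg K B E) (Dg K B E) F} (h : Lay t s A) :
    Lay t s Aᵀ := by
  obtain ⟨l, h1, h2, h3⟩ := h
  refine ⟨l.map fun p => (p.map Matrix.transpose).reverse,
    by rw [List.length_map]; exact h1, ?_, ?_⟩
  · intro p hp
    obtain ⟨q, hq, rfl⟩ := List.mem_map.1 hp
    refine ⟨by rw [List.length_reverse, List.length_map]; exact (h2 q hq).1, fun M hM => ?_⟩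
    rw [List.mem_reverse] at hM
    obtain ⟨N, hN, rfl⟩ := List.mem_map.1 hM
    obtain ⟨a, ha⟩ := (h2 q hq).2 N hN
    exact ⟨a, fun x y hxy i hi => (ha y x hxy i hi).symm⟩
  · rw [h3, Matrix.transpose_list_sum, List.map_map, List.map_map]
    congr 1
    refine List.map_congr_left fun q _ => ?_
    exact Matrix.transpose_list_prod q

theorem lay_list_prod {t s : ℕ} (l : List (Matrix (Dg K B E) (Dg K B E) F))
    (h : ∀ A ∈ l, Lay t s A) : Lay (l.length * t) (s ^ l.length) l.prod := by
  induction l with
  | nil =>
    rw [List.prod_nil]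
    exact lay_one.mono (Nat.zero_le _) (by rw [List.length_nil, pow_zero])
  | cons A l ih =>
    rw [List.prod_cons]
    refine ((h A List.mem_cons_self).mul
      (ih fun B hB => h B (List.mem_cons_of_mem _ hB))).mono ?_ ?_
    · rw [List.length_cons]
      exact (by ring : t + l.length * t = (l.length + 1) * t).le
    · rw [List.length_cons, pow_succ']

end MP0775d3.Bf
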