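import Mathlib

/-! Number of the almost full subsets.

PROOF. `#{T ⊆ P : |P \ T| ≤ ℓ} ≤ z^(-ℓ) * (1 + z)^|P|` for `0 < z ≤ 1`, which is at most
`exp (z N + (2 η N + 1) log (1/z))`; first choose `z`, then `η`, then `N₀`. -/

namespace MP0775d3.Bf

private theorem subsets_aux {ι : Type} [DecidableEq ι] (P : Finset ι) (ℓ : ℕ) {z : ℝ} (hz : 0 < z)
    (hz1 : z ≤ 1) :
    ((P.powerset.filter fun T => P.card ≤ T.card + ℓ).card : ℝ) * z ^ ℓ ≤ (1 + z) ^ P.card := by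
  rw [← Finset.sum_pow_mul_eq_add_pow, ← nsmul_eq_mul]
  refine (Finset.card_nsmul_le_sum _ (fun T => (1 : ℝ) ^ T.card * z ^ (P.card - T.card)) _ ?_).trans
    (Finset.sum_le_sum_of_subset_of_nonneg (Finset.filter_subset _ _) fun T _ _ => by positivity)
  intro T hT
  have h := (Finset.mem_filter.1 hT).2
  rw [one_pow, one_mul]
  exact pow_le_pow_of_le_one hz.le hz1 (by omega)

theorem few_subsets (ε : ℝ) (hε : 0 < ε) : ∃ η : ℝ, 0 < η ∧ η ≤ 1 ∧ ∃ N₀ : ℕ, ∀ (ι : Type)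
    [Fintype ι] [DecidableEq ι], N₀ ≤ Fintype.card ι → ∀ (P : Finset ι) (ℓ : ℕ),
    (ℓ : ℝ) ≤ 2 * η * Fintype.card ι + 1 →
    ((P.powerset.filter fun T => P.card ≤ T.card + ℓ).card : ℝ) ≤
      (2 : ℝ) ^ (ε * Fintype.card ι) := by
  have hlog : 0 < Real.log 2 := Real.log_pos (by norm_num)
  obtain ⟨c, hc⟩ : ∃ c, c = ε * Real.log 2 := ⟨_, rfl⟩
  have hc0 : 0 < c := hc ▸ mul_pos hε hlog
  obtain ⟨z, hzd⟩ : ∃ z, z = min 1 (c / 4) := ⟨_, rfl⟩
  have hz : 0 < z := hzd ▸ lt_min one_pos (by positivity)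
  have hz1 : z ≤ 1 := hzd ▸ min_le_left _ _
  have hz4 : z ≤ c / 4 := hzd ▸ min_le_right _ _
  obtain ⟨L, hL⟩ : ∃ L, L = -Real.log z := ⟨_, rfl⟩
  have hL0 : 0 ≤ L := by
    have := Real.log_nonpos hz.le hz1
    linarith
  obtain ⟨η, hη⟩ : ∃ η, η = min 1 (c / (8 * (L + 1))) := ⟨_, rfl⟩
  have hη0 : 0 < η := hη ▸ lt_min one_pos (by positivity)
  have hη1 : η ≤ 1 := hη ▸ min_le_left _ _
  have hη4 : 2 * η * L ≤ c / 4 := by
    have h1 : η ≤ c / (8 * (L + 1)) := hη ▸ min_le_right _ _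
    rw [le_div_iff₀ (by positivity)] at h1
    nlinarith
  refine ⟨η, hη0, hη1, ⌈4 * L / c⌉₊, ?_⟩
  intro ι _ _ hN P ℓ hℓ
  obtain ⟨N, hNd⟩ : ∃ N : ℕ, N = Fintype.card ι := ⟨_, rfl⟩
  rw [← hNd] at hN hℓ ⊢
  have hPN : P.card ≤ N := hNd ▸ Finset.card_le_univ P
  have hLN : L ≤ c / 4 * N := by
    have h1 := Nat.ceil_le.1 hN
    rw [div_le_iff₀ hc0] at h1
    linarith
  have h1 := subsets_aux P ℓ hz hz1
  have h2 : (1 + z) ^ P.card ≤ Real.exp (z * N) := by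
    calc (1 + z) ^ P.card ≤ (1 + z) ^ N := pow_le_pow_right₀ (by linarith) hPN
      _ ≤ Real.exp z ^ N := by
          refine pow_le_pow_left₀ (by linarith) ?_ _
          rw [add_comm]
          exact Real.add_one_le_exp z
      _ = Real.exp (z * N) := by rw [← Real.exp_nat_mul, mul_comm]
  have h3 : z ^ ℓ = Real.exp (-(L * ℓ)) := by
    have h4 : z = Real.exp (-L) := by rw [hL, neg_neg, Real.exp_log hz]
    conv_lhs => rw [h4]
    rw [← Real.exp_nat_mul]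
    congr 1
    ring
  rw [h3] at h1
  have h5 : ((P.powerset.filter fun T => P.card ≤ T.card + ℓ).card : ℝ) ≤
      Real.exp (z * N + L * ℓ) := by
    have h6 : ((P.powerset.filter fun T => P.card ≤ T.card + ℓ).card : ℝ) =
        ((P.powerset.filter fun T => P.card ≤ T.card + ℓ).card : ℝ) * Real.exp (-(L * ℓ)) *
          Real.exp (L * ℓ) := by
      rw [mul_assoc, ← Real.exp_add, neg_add_cancel, Real.exp_zero, mul_one]
    rw [h6, Real.exp_add]
    exact mul_le_mul_of_nonneg_right (h1.trans h2) (Real.exp_pos _).le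
  refine h5.trans ?_
  rw [Real.rpow_def_of_pos (by norm_num : (0 : ℝ) < 2)]
  refine Real.exp_le_exp.2 ?_
  have hN0 : (0 : ℝ) ≤ N := Nat.cast_nonneg N
  have h7 : Real.log 2 * (ε * N) = c * N := by rw [hc]; ring
  rw [h7]
  have h8 : z * N ≤ c / 4 * N := mul_le_mul_of_nonneg_right hz4 hN0
  have h9 : L * ℓ ≤ L * (2 * η * N + 1) := mul_le_mul_of_nonneg_left hℓ hL0
  have h10 : L * (2 * η * N + 1) = 2 * η * L * N + L := by ring
  have h11 : 2 * η * L * N ≤ c / 4 * N := mul_le_mul_of_nonneg_right hη4 hN0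
  have h12 : 0 ≤ c * N := by positivity
  linarith

end MP0775d3.Bf
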