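import Pool.Agent.Lib.MP_0775d3_lc.Bf.Steps
import Pool.Agent.Lib.MP_0775d3_lc.Bf.Subsets

/-! The merging theorem: a product of boundedly many matrices, each acting on at most `z` slots
(controlled by the others), is a matrix of small rank plus a matrix with `2 ^ (z + ε N)` nonzero
entries in each row and each column.

PROOF. `few_subsets` with `ε / (4 (t + 1))`, decrease `η` such that `4 η t^2 ≤ ε / 4` (the
statement of `few_subsets` is monotone in `η`), `ℓ = ⌈2 η N⌉₊`, `m' = ⌊2 ^ (..)⌋₊`, `steps` with a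
set `Y` of `min z N` slots, `State.dec`. -/

set_option linter.unusedSectionVars false
set_option linter.unusedVariables false

namespace MP0775d3.Bf

open Matrix MP0775d3.Kron

theorem merge (ε : ℝ) (hε : 0 < ε) (t : ℕ) : ∃ γ : ℝ, 0 < γ ∧ ∃ N₀ : ℕ, ∀ (ι : Type)
    [Fintype ι] [DecidableEq ι], N₀ ≤ Fintype.card ι → ∀ (F : Type) [Field F], (2 : F) ≠ 0 →
    ∀ (z : ℕ) (Z : Fin t → Finset ι) (M : Fin t → Matrix (ι → Bool) (ι → Bool) F),
      (∀ j, (Z j).card ≤ z) → (∀ j, Act 1 (Z j) (M j)) →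
      Dec (List.ofFn M).prod ((2 : ℝ) ^ ((1 - γ) * Fintype.card ι))
        ((2 : ℝ) ^ ((z : ℝ) + ε * Fintype.card ι)) := by
  have hlog : 0 < Real.log 2 := Real.log_pos (by norm_num)
  have hT0 : (0 : ℝ) ≤ t := Nat.cast_nonneg t
  obtain ⟨δ, hδd⟩ : ∃ δ, δ = ε / (4 * ((t : ℝ) + 1)) := ⟨_, rfl⟩
  have hδ : 0 < δ := hδd ▸ by positivity
  have hδt : δ * t ≤ ε / 4 := by
    rw [hδd, div_mul_eq_mul_div, div_le_div_iff₀ (by positivity) (by norm_num)]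
    nlinarith
  obtain ⟨η₁, hη₁, hη₁1, N₁, hfew⟩ := few_subsets δ hδ
  obtain ⟨η, hηd⟩ : ∃ η, η = min η₁ (ε / (16 * ((t : ℝ) ^ 2 + 1))) := ⟨_, rfl⟩
  have hη : 0 < η := hηd ▸ lt_min hη₁ (by positivity)
  have hηη₁ : η ≤ η₁ := hηd ▸ min_le_left _ _
  have hη1 : η ≤ 1 := hηη₁.trans hη₁1
  have hηt : 4 * η * (t : ℝ) ^ 2 ≤ ε / 4 := by
    have h1 : η ≤ ε / (16 * ((t : ℝ) ^ 2 + 1)) := hηd ▸ min_le_right _ _
    rw [le_div_iff₀ (by positivity)] at h1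
    nlinarith
  obtain ⟨γ, hγd⟩ : ∃ γ, γ = η ^ 2 / (32 * Real.log 2) := ⟨_, rfl⟩
  have hγ : 0 < γ := hγd ▸ by positivity
  have hγl : γ * Real.log 2 = η ^ 2 / 32 := by
    rw [hγd]
    field_simp
  refine ⟨γ, hγ, max N₁ (max ⌈64 * (t : ℝ) / η ^ 2⌉₊ ⌈4 * (t : ℝ) ^ 2 / ε⌉₊), ?_⟩
  intro ι _ _ hN F _ h2 z Z M hZ hM
  have hN₁ : N₁ ≤ Fintype.card ι := (le_max_left _ _).trans hN
  have hN₂ : 64 * (t : ℝ) / η ^ 2 ≤ Fintype.card ι :=
    Nat.ceil_le.1 ((le_max_left _ _).trans ((le_max_right _ _).trans hN))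
  have hN₃ : 4 * (t : ℝ) ^ 2 / ε ≤ Fintype.card ι :=
    Nat.ceil_le.1 ((le_max_right _ _).trans ((le_max_right _ _).trans hN))
  rw [div_le_iff₀ (by positivity)] at hN₂ hN₃
  obtain ⟨N, hNd⟩ : ∃ N : ℝ, N = Fintype.card ι := ⟨_, rfl⟩
  rw [← hNd] at hN₂ hN₃ ⊢
  have hN0 : 0 ≤ N := hNd ▸ Nat.cast_nonneg _
  obtain ⟨ℓ, hℓd⟩ : ∃ ℓ : ℕ, ℓ = ⌈2 * η * N⌉₊ := ⟨_, rfl⟩
  have hℓ : 2 * η * N ≤ ℓ := hℓd ▸ Nat.le_ceil _
  have hℓ' : (ℓ : ℝ) ≤ 2 * η * N + 1 := hℓd ▸ (Nat.ceil_lt_add_one (by positivity)).le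
  obtain ⟨m', hm'd⟩ : ∃ m' : ℕ, m' = ⌊(2 : ℝ) ^ (δ * N)⌋₊ := ⟨_, rfl⟩
  have hm' : (m' : ℝ) ≤ (2 : ℝ) ^ (δ * N) := hm'd ▸ Nat.floor_le (by positivity)
  have hcard : ∀ P : Finset ι, (P.powerset.filter fun T => P.card ≤ T.card + ℓ).card ≤ m' := by
    intro P
    rw [hm'd]
    refine Nat.le_floor ?_
    rw [hNd]
    refine hfew ι hN₁ P ℓ ?_
    rw [← hNd]
    refine hℓ'.trans ?_
    have h3 : η * N ≤ η₁ * N := mul_le_mul_of_nonneg_right hηη₁ hN0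
    nlinarith
  obtain ⟨Y, -, hY⟩ := Finset.exists_subset_card_eq
    (s := (Finset.univ : Finset ι)) (n := min z (Fintype.card ι)) (by
      rw [Finset.card_univ]
      exact min_le_right _ _)
  have hZY : ∀ j, (Z j).card ≤ Y.card := by
    intro j
    rw [hY]
    exact le_min (hZ j) (Finset.card_le_univ _)
  obtain ⟨ρ, hst⟩ := steps h2 Y η hη hη1 ℓ m' (by rw [← hNd]; exact hℓ) hcard t Z hZY M hM
  refine hst.dec.mono ?_ ?_
  · rw [← hNd]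
    have h3 : (2 : ℝ) * t ≤ Real.exp (η ^ 2 / 32 * N) := by
      refine le_trans ?_ (Real.add_one_le_exp _)
      nlinarith
    have h4 : (2 : ℝ) ^ ((1 - γ) * N) =
        (2 : ℝ) ^ Fintype.card ι * Real.exp (-(η ^ 2 / 32 * N)) := by
      rw [← Real.rpow_natCast, ← hNd, Real.rpow_def_of_pos (by norm_num : (0 : ℝ) < 2),
        Real.rpow_def_of_pos (by norm_num : (0 : ℝ) < 2), ← Real.exp_add]
      congr 1
      rw [← hγl]
      ring
    have h5 : Real.exp (-(η ^ 2 * N / 16)) =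
        Real.exp (-(η ^ 2 / 32 * N)) * Real.exp (-(η ^ 2 / 32 * N)) := by
      rw [← Real.exp_add]
      congr 1
      ring
    have h6 : Real.exp (η ^ 2 / 32 * N) * Real.exp (-(η ^ 2 / 32 * N)) = 1 := by
      rw [← Real.exp_add, add_neg_cancel, Real.exp_zero]
    rw [h4, h5]
    have h7 : (t : ℝ) * (2 * 2 ^ Fintype.card ι *
        (Real.exp (-(η ^ 2 / 32 * N)) * Real.exp (-(η ^ 2 / 32 * N)))) =
        (2 * t * Real.exp (-(η ^ 2 / 32 * N))) *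
          (2 ^ Fintype.card ι * Real.exp (-(η ^ 2 / 32 * N))) := by ring
    rw [h7]
    have h8 : 2 * (t : ℝ) * Real.exp (-(η ^ 2 / 32 * N)) ≤ 1 := by
      rw [← h6]
      exact mul_le_mul_of_nonneg_right h3 (Real.exp_pos _).le
    calc (2 * (t : ℝ) * Real.exp (-(η ^ 2 / 32 * N))) *
          (2 ^ Fintype.card ι * Real.exp (-(η ^ 2 / 32 * N)))
        ≤ 1 * (2 ^ Fintype.card ι * Real.exp (-(η ^ 2 / 32 * N))) :=
          mul_le_mul_of_nonneg_right h8 (by positivity)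
      _ = _ := one_mul _
  · have h3 : ((m' ^ t : ℕ) : ℝ) ≤ (2 : ℝ) ^ (δ * t * N) := by
      rw [Nat.cast_pow]
      refine (pow_le_pow_left₀ (Nat.cast_nonneg _) hm' t).trans (le_of_eq ?_)
      rw [← Real.rpow_natCast, ← Real.rpow_mul (by norm_num)]
      congr 1
      ring
    have h4 : (2 : ℝ) ^ (Y.card + 2 * ℓ * t ^ 2) ≤
        (2 : ℝ) ^ ((z : ℝ) + (ε / 4 * N + 2 * (t : ℝ) ^ 2)) := by
      rw [← Real.rpow_natCast]
      refine Real.rpow_le_rpow_of_exponent_le one_le_two ?_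
      push_cast
      have h5 : (Y.card : ℝ) ≤ z := by
        rw [hY]
        exact_mod_cast min_le_left _ _
      have h6 : 2 * (ℓ : ℝ) * (t : ℝ) ^ 2 ≤ 2 * (2 * η * N + 1) * (t : ℝ) ^ 2 := by
        refine mul_le_mul_of_nonneg_right ?_ (by positivity)
        linarith
      have h7 : 4 * η * (t : ℝ) ^ 2 * N ≤ ε / 4 * N := mul_le_mul_of_nonneg_right hηt hN0
      nlinarith
    calc ((m' ^ t : ℕ) : ℝ) * 2 ^ (Y.card + 2 * ℓ * t ^ 2)
        ≤ (2 : ℝ) ^ (δ * t * N) * (2 : ℝ) ^ ((z : ℝ) + (ε / 4 * N + 2 * (t : ℝ) ^ 2)) :=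
          mul_le_mul h3 h4 (by positivity) (by positivity)
      _ = (2 : ℝ) ^ (δ * t * N + ((z : ℝ) + (ε / 4 * N + 2 * (t : ℝ) ^ 2))) := by
          rw [← Real.rpow_add (by norm_num)]
      _ ≤ (2 : ℝ) ^ ((z : ℝ) + ε * N) := by
          refine Real.rpow_le_rpow_of_exponent_le one_le_two ?_
          have h5 : δ * t * N ≤ ε / 4 * N := mul_le_mul_of_nonneg_right hδt hN0
          nlinarith

end MP0775d3.Bf
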