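import Pool.Agent.Lib.MP_0775d3_lc.Bf.Lay
import Pool.Agent.Lib.MP_0775d3_lc.Bf.Merge

/-! Layered matrices are not rigid.

PROOF. Write a digit in base `2 ^ b` as `b` bits and the coordinate in `E`, `card E = 2 ^ e`, as `e`
bits: slots `ι = (Fin K × Fin b) ⊕ Fin e`, `N = K b + e` of them. A matrix acting on the digit `a`
acts on the `b + e` slots `(a, ·)` and `Fin e`. Pad every product with identity matrices to length
`t`, apply `merge` with `ε / 2`, and add at most `s` decompositions (`s` is absorbed for large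
`N`). -/

set_option linter.unusedSectionVars false
set_option linter.unusedVariables false

namespace MP0775d3.Bf

open Matrix MP0775d3.Kron

private theorem layDec_ncard {F : Type*} [Field F] {X : Type*} [Fintype X] {f g : X → F}
    {s s' : ℝ} (h : (({y | f y ≠ 0} : Set X).ncard : ℝ) ≤ s)
    (h' : (({y | g y ≠ 0} : Set X).ncard : ℝ) ≤ s') :
    (({y | f y + g y ≠ 0} : Set X).ncard : ℝ) ≤ s + s' := by
  have h1 : ({y | f y + g y ≠ 0} : Set X) ⊆ {y | f y ≠ 0} ∪ {y | g y ≠ 0} := by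
    intro y hy
    by_cases hf : f y = 0
    · right
      intro hg
      exact hy (by rw [hf, hg, add_zero])
    · left
      exact hf
  have h2 := (Set.ncard_le_ncard h1 (Set.toFinite _)).trans (Set.ncard_union_le _ _)
  have h3 : (({y | f y + g y ≠ 0} : Set X).ncard : ℝ) ≤
      ({y | f y ≠ 0} : Set X).ncard + ({y | g y ≠ 0} : Set X).ncard := by exact_mod_cast h2
  linarith

theorem Dec.add' {F : Type*} [Field F] {X : Type*} [Fintype X] [DecidableEq X]
    {A A' : Matrix X X F} {r s r' s' : ℝ} (h : Dec A r s) (h' : Dec A' r' s') :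
    Dec (A + A') (r + r') (s + s') := by
  obtain ⟨R, S, rfl, h2, h3⟩ := h
  obtain ⟨R', S', rfl, h2', h3'⟩ := h'
  refine ⟨R + R', S + S', by abel, ?_, fun x => layDec_ncard (h3.1 x) (h3'.1 x),
    fun y => layDec_ncard (h3.2 y) (h3'.2 y)⟩
  calc ((R + R').rank : ℝ) ≤ ((R.rank + R'.rank : ℕ) : ℝ) := by exact_mod_cast rank_add_le R R'
    _ = R.rank + R'.rank := by push_cast; rfl
    _ ≤ r + r' := add_le_add h2 h2'

private theorem layDec_sum {F : Type*} [Field F] {X : Type*} [Fintype X] [DecidableEq X]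
    {r s : ℝ} (l : List (Matrix X X F)) (h : ∀ M ∈ l, Dec M r s) :
    Dec l.sum (l.length * r) (l.length * s) := by
  induction l with
  | nil =>
    refine ⟨0, 0, by simp, by simp, fun x => ?_, fun y => ?_⟩ <;> simp
  | cons M l ih =>
    have h1 := Dec.add' (h M List.mem_cons_self) (ih fun M' hM' => h M' (List.mem_cons_of_mem _ hM'))
    rw [List.sum_cons]
    refine h1.mono (le_of_eq ?_) (le_of_eq ?_) <;> (rw [List.length_cons]; push_cast; ring)

/-- Digits and the coordinate in `E` as bits. -/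
private def layDecEq (K b e : ℕ) (E : Type) (β : Fin (2 ^ b) ≃ (Fin b → Bool))
    (g : E ≃ (Fin e → Bool)) : Dg K (2 ^ b) E ≃ ((Fin K × Fin b) ⊕ Fin e → Bool) where
  toFun x := Sum.elim (fun p => β (x.1 p.1) p.2) (fun j => g x.2 j)
  invFun w := (fun k => β.symm fun i => w (Sum.inl (k, i)), g.symm fun j => w (Sum.inr j))
  left_inv x := by
    refine Prod.ext (funext fun k => ?_) ?_
    · exact β.symm_apply_apply (x.1 k)
    · exact g.symm_apply_apply x.2
  right_inv w := by
    funext i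
    rcases i with ⟨k, i⟩ | j
    · exact congrFun (β.apply_symm_apply fun i => w (Sum.inl (k, i))) i
    · exact congrFun (g.apply_symm_apply fun j => w (Sum.inr j)) j

private theorem layDec_act {K b e : ℕ} {E F : Type} [Field F] (β : Fin (2 ^ b) ≃ (Fin b → Bool))
    (g : E ≃ (Fin e → Bool)) {A : Matrix (Dg K (2 ^ b) E) (Dg K (2 ^ b) E) F} {a : Fin K}
    (h : ActD a A) : ∃ U : Finset ((Fin K × Fin b) ⊕ Fin e), U.card ≤ b + e ∧
      Act 1 U (A.submatrix (layDecEq K b e E β g).symm (layDecEq K b e E β g).symm) := by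
  classical
  refine ⟨(Finset.univ.image fun i : Fin b => Sum.inl (a, i)) ∪
    Finset.univ.image fun j : Fin e => Sum.inr j, ?_, ?_⟩
  · refine (Finset.card_union_le _ _).trans (Nat.add_le_add ?_ ?_)
    · exact Finset.card_image_le.trans (by simp)
    · exact Finset.card_image_le.trans (by simp)
  · intro w v hwv i hi
    rw [Matrix.submatrix_apply] at hwv
    have h1 := h _ _ hwv
    rcases i with ⟨k, i⟩ | j
    · have hk : k ≠ a := by
        rintro rfl
        refine hi (Finset.mem_union_left _ (Finset.mem_image.2 ⟨i, Finset.mem_univ _, rfl⟩))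
      have h2 := h1 k hk
      change (β.symm fun i => w (Sum.inl (k, i))) = (β.symm fun i => v (Sum.inl (k, i))) at h2
      exact congrFun (β.symm.injective h2) i
    · exact absurd (Finset.mem_union_right _ (Finset.mem_image.2 ⟨j, Finset.mem_univ _, rfl⟩)) hi

private theorem layDec_num {s N : ℕ} {δ a b : ℝ} (hδ : 0 < δ) (h : s / δ ≤ (N : ℝ))
    (hab : a + δ * N = b) : (s : ℝ) * (2 : ℝ) ^ a ≤ (2 : ℝ) ^ b := by
  have h2 : (0 : ℝ) < 2 := by norm_num
  rw [← hab, Real.rpow_add h2, mul_comm]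
  refine mul_le_mul_of_nonneg_left ?_ (Real.rpow_nonneg h2.le _)
  rw [div_le_iff₀ hδ] at h
  have h3 : (s : ℝ) ≤ (2 : ℝ) ^ (s : ℝ) := by
    rw [Real.rpow_natCast]
    exact_mod_cast Nat.lt_two_pow_self.le
  refine h3.trans (Real.rpow_le_rpow_of_exponent_le (by norm_num) ?_)
  linarith

theorem lay_dec (ε : ℝ) (hε : 0 < ε) (t s K : ℕ) (hK : 0 < K) : ∃ γ : ℝ, 0 < γ ∧ ∃ N₀ : ℕ,
    ∀ b e : ℕ, N₀ ≤ K * b + e → ∀ (E : Type) [Fintype E] [DecidableEq E],
      Fintype.card E = 2 ^ e → ∀ (F : Type) [Field F], (2 : F) ≠ 0 →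
      ∀ A : Matrix (Dg K (2 ^ b) E) (Dg K (2 ^ b) E) F, Lay t s A →
        Dec A ((2 : ℝ) ^ ((1 - γ) * (K * b + e : ℕ)))
          ((2 : ℝ) ^ (((b + e : ℕ) : ℝ) + ε * (K * b + e : ℕ))) := by
  classical
  obtain ⟨γ, hγ, N₀, hm⟩ := merge (ε / 2) (by positivity) t
  refine ⟨γ / 2, by positivity, N₀ + ⌈s / (γ / 2)⌉₊ + ⌈s / (ε / 2)⌉₊, ?_⟩
  intro b e hN E _ _ hE F _ h2 A hA
  obtain ⟨N, hNd⟩ : ∃ N, N = K * b + e := ⟨_, rfl⟩
  rw [← hNd] at hN ⊢
  have hcard : Fintype.card ((Fin K × Fin b) ⊕ Fin e) = N := by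
    rw [Fintype.card_sum, Fintype.card_prod, Fintype.card_fin, Fintype.card_fin, Fintype.card_fin,
      hNd]
  have hN1 : s / (γ / 2) ≤ (N : ℝ) := Nat.ceil_le.1 (by omega)
  have hN2 : s / (ε / 2) ≤ (N : ℝ) := Nat.ceil_le.1 (by omega)
  let β : Fin (2 ^ b) ≃ (Fin b → Bool) := Fintype.equivOfCardEq (by simp)
  let g : E ≃ (Fin e → Bool) := Fintype.equivOfCardEq (by simp [hE])
  let φ := layDecEq K b e E β g
  have key : ∀ p : List (Matrix (Dg K (2 ^ b) E) (Dg K (2 ^ b) E) F), p.length ≤ t →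
      (∀ M ∈ p, ∃ a : Fin K, ActD a M) →
      Dec p.prod ((2 : ℝ) ^ ((1 - γ) * N)) ((2 : ℝ) ^ (((b + e : ℕ) : ℝ) + ε / 2 * N)) := by
    intro p hp hact
    let ρ := Matrix.reindexAlgEquiv F F φ
    let q := p.map ρ ++ List.replicate (t - p.length) 1
    have hq : q.length = t := by
      simp only [q, List.length_append, List.length_map, List.length_replicate]
      omega
    obtain ⟨M, hM⟩ : ∃ M : Fin t → Matrix ((Fin K × Fin b) ⊕ Fin e → Bool)
        ((Fin K × Fin b) ⊕ Fin e → Bool) F, List.ofFn M = q :=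
      hq ▸ ⟨q.get, List.ofFn_get q⟩
    have hU : ∀ j, ∃ U : Finset ((Fin K × Fin b) ⊕ Fin e), U.card ≤ b + e ∧ Act 1 U (M j) := by
      intro j
      have h1 : M j ∈ q := by
        rw [← hM, List.mem_ofFn]
        exact ⟨j, rfl⟩
      rcases List.mem_append.1 h1 with h3 | h3
      · obtain ⟨M', hM', h4⟩ := List.mem_map.1 h3
        obtain ⟨a, ha⟩ := hact M' hM'
        rw [← h4]
        exact layDec_act β g ha
      · rw [List.eq_of_mem_replicate h3]
        refine ⟨∅, by simp, fun w v hwv i _ => ?_⟩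
        have h4 : w = v := by
          by_contra hne
          exact hwv (Matrix.one_apply_ne hne)
        rw [h4]
        rfl
    choose Z hZ hZA using hU
    have h1 := hm ((Fin K × Fin b) ⊕ Fin e) (by rw [hcard]; omega) F h2 (b + e) Z M hZ hZA
    have h3 : (List.ofFn M).prod = ρ p.prod := by
      rw [hM, map_list_prod]
      simp only [q, List.prod_append, List.prod_replicate, one_pow, mul_one]
    rw [h3, hcard] at h1
    have h4 := h1.submatrix φ φ
    have h5 : (ρ p.prod).submatrix φ φ = p.prod := by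
      ext x y
      simp only [ρ, Matrix.coe_reindexAlgEquiv, Matrix.reindex_apply, Matrix.submatrix_apply,
        Equiv.symm_apply_apply]
    rw [h5] at h4
    exact h4
  obtain ⟨l, hl, hl2, rfl⟩ := hA
  have h3 := layDec_sum (l.map List.prod) (r := (2 : ℝ) ^ ((1 - γ) * N))
    (s := (2 : ℝ) ^ (((b + e : ℕ) : ℝ) + ε / 2 * N)) (by
      intro M hM
      obtain ⟨p, hp, rfl⟩ := List.mem_map.1 hM
      exact key p (hl2 p hp).1 (hl2 p hp).2)
  rw [List.length_map] at h3
  have hls : (l.length : ℝ) ≤ s := by exact_mod_cast hl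
  have h20 : (0 : ℝ) ≤ 2 := by norm_num
  refine h3.mono ?_ ?_
  · refine (mul_le_mul_of_nonneg_right hls (Real.rpow_nonneg h20 _)).trans ?_
    exact layDec_num (by positivity) hN1 (by ring)
  · refine (mul_le_mul_of_nonneg_right hls (Real.rpow_nonneg h20 _)).trans ?_
    exact layDec_num (by positivity) hN2 (by ring)

end MP0775d3.Bf
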