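import Pool.Agent.Lib.MP_0775d3_lc.Bf.Toep
import Pool.Agent.Lib.MP_0775d3_lc.Bf.Sub

/-! Toeplitz matrices over `ℂ`.

PROOF. `toep_lay` with `s = K`, `E = Unit`, and `exists_base` (`t K = 2 K + 3`, `s K = 2`), with
`f = g` from `exists_digitsInj`. -/

set_option linter.unusedSectionVars false
set_option linter.unusedVariables false

namespace MP0775d3.Bf

open Matrix MP0775d3.Kron

theorem toep_dec (δ : ℝ) (hδ : 0 < δ) : ∃ γ : ℝ, 0 < γ ∧ ∃ n₀ : ℕ, ∀ n : ℕ, n₀ ≤ n →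
    ∀ t : ℤ → ℂ, Dec (Matrix.of fun i j : Fin n => t ((i.val : ℤ) - j.val))
        ((n : ℝ) ^ (1 - γ)) ((n : ℝ) ^ δ) := by
  obtain ⟨K, hK, γ, hγ, n₀, h⟩ := exists_base δ hδ (fun K => 2 * K + 3) (fun _ => 2) 0
  refine ⟨γ, hγ, n₀, fun n hn t => ?_⟩
  obtain ⟨b, hb, hdec⟩ := h n hn
  obtain ⟨f, hf, hlv⟩ := exists_digitsInj K (2 ^ b) n hb
  have hlay := toep_lay (K := K) (B := 2 ^ b) (E := Unit) hK (by positivity) (le_refl K)
    (fun _ _ _ _ u => t u) (fun _ _ _ _ _ _ _ _ _ => rfl)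
    (fun x y _ _ _ _ i hi => absurd i.isLt (by omega))
  have hinj : Function.Injective (fun m : Fin n => ((f m, ()) : Dg K (2 ^ b) Unit)) :=
    fun m m' hm => hf (congrArg Prod.fst hm)
  have h1 := hdec Unit (by simp) ℂ two_ne_zero _ hlay _ _ hinj hinj
  have h2 : (Matrix.of fun i j : Fin n => t ((i.val : ℤ) - j.val)) =
      Matrix.submatrix (fun x y : Dg K (2 ^ b) Unit => t ((lv K x.1 : ℤ) - lv K y.1) :
        Matrix (Dg K (2 ^ b) Unit) (Dg K (2 ^ b) Unit) ℂ)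
        (fun m : Fin n => ((f m, ()) : Dg K (2 ^ b) Unit))
        (fun m : Fin n => ((f m, ()) : Dg K (2 ^ b) Unit)) := by
    ext i j
    change t ((i.val : ℤ) - j.val) = t ((lv K (f i) : ℤ) - lv K (f j))
    rw [hlv, hlv]
  rw [h2]
  exact h1

end MP0775d3.Bf
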