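import Pool.Agent.Lib.MP_0775d3_lc.Bf.TreeDec
import Pool.Agent.Lib.MP_0775d3_lc.Bf.ToepDec

/-! Vandermonde matrices over `ℂ` with arbitrary nodes.

PROOF. With `p j = 1 - C (x j) * X`, `D = ∏ p j` (constant coefficient `1`), the transposed
Vandermonde matrix is `T * Tree p`, `T` = the lower triangular Toeplitz matrix of the power series
`D⁻¹`: coefficient `m` of `(∏_{j' ≠ j} p j') * D⁻¹ = (1 - x j * X)⁻¹` is `x j ^ m`. Use `tree_dec`,
`toep_dec` with `δ / 2`, `Dec.mul`, `Dec.transpose`. -/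

set_option linter.unusedSectionVars false
set_option linter.unusedVariables false

namespace MP0775d3.Bf

open Matrix MP0775d3.Kron Polynomial

private theorem geo_mul (a : ℂ) :
    ((1 - Polynomial.C a * Polynomial.X : ℂ[X]) : PowerSeries ℂ) *
      PowerSeries.mk (fun m => a ^ m) = 1 := by
  rw [Polynomial.coe_sub, Polynomial.coe_one, Polynomial.coe_mul, Polynomial.coe_C,
    Polynomial.coe_X]
  ext n
  rw [sub_mul, one_mul, mul_assoc, map_sub, PowerSeries.coeff_C_mul, PowerSeries.coeff_one]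
  cases n with
  | zero => simp
  | succ n =>
    rw [PowerSeries.coeff_succ_X_mul, PowerSeries.coeff_mk, PowerSeries.coeff_mk, pow_succ,
      if_neg (Nat.succ_ne_zero n)]
    ring

private theorem coeff_tree {n : ℕ} (x : Fin n → ℂ) (Dinv : PowerSeries ℂ)
    (hD : ((∏ j' : Fin n, (1 - Polynomial.C (x j') * Polynomial.X) : ℂ[X]) : PowerSeries ℂ) *
      Dinv = 1) (j : Fin n) (i : ℕ) :
    ∑ k ∈ Finset.range (i + 1),
      (∏ j' ∈ Finset.univ.erase j, (1 - Polynomial.C (x j') * Polynomial.X : ℂ[X])).coeff k *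
        PowerSeries.coeff (i - k) Dinv = x j ^ i := by
  set Q : ℂ[X] := ∏ j' ∈ Finset.univ.erase j, (1 - Polynomial.C (x j') * Polynomial.X : ℂ[X])
    with hQ
  have h1 : (1 - Polynomial.C (x j) * Polynomial.X : ℂ[X]) * Q =
      ∏ j' : Fin n, (1 - Polynomial.C (x j') * Polynomial.X) :=
    Finset.mul_prod_erase Finset.univ
      (fun j' : Fin n => (1 - Polynomial.C (x j') * Polynomial.X : ℂ[X])) (Finset.mem_univ j)
  rw [← h1, Polynomial.coe_mul, mul_assoc] at hD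
  have h2 := geo_mul (x j)
  have h3 : ((1 - Polynomial.C (x j) * Polynomial.X : ℂ[X]) : PowerSeries ℂ) ≠ 0 := by
    intro h
    rw [h, zero_mul] at h2
    exact zero_ne_one h2
  have h4 : (Q : PowerSeries ℂ) * Dinv = PowerSeries.mk (fun m => x j ^ m) :=
    mul_left_cancel₀ h3 (hD.trans h2.symm)
  have h5 := congrArg (PowerSeries.coeff i) h4
  rw [PowerSeries.coeff_mk, PowerSeries.coeff_mul,
    Finset.Nat.sum_antidiagonal_eq_sum_range_succ
      (fun a b => PowerSeries.coeff a (Q : PowerSeries ℂ) * PowerSeries.coeff b Dinv)] at h5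
  rw [← h5]
  refine Finset.sum_congr rfl fun k _ => ?_
  rw [Polynomial.coeff_coe]

private theorem vand_eq {n : ℕ} (x : Fin n → ℂ) : ∃ t : ℤ → ℂ,
    (Matrix.of fun i j : Fin n => x i ^ j.val) =
      ((Matrix.of fun i j : Fin n => t ((i.val : ℤ) - j.val)) *
        (Matrix.of fun m j : Fin n => (∏ j' ∈ Finset.univ.erase j,
          (1 - Polynomial.C (x j') * Polynomial.X : ℂ[X])).coeff m.val))ᵀ := by
  set D : ℂ[X] := ∏ j' : Fin n, (1 - Polynomial.C (x j') * Polynomial.X) with hDdef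
  have hD0 : PowerSeries.constantCoeff (D : PowerSeries ℂ) ≠ 0 := by
    rw [← PowerSeries.coeff_zero_eq_constantCoeff_apply, Polynomial.coeff_coe, hDdef,
      Polynomial.coeff_zero_prod]
    rw [Finset.prod_ne_zero_iff]
    intro j _
    simp
  refine ⟨fun u => if 0 ≤ u then PowerSeries.coeff u.toNat (D : PowerSeries ℂ)⁻¹ else 0, ?_⟩
  have hD : (D : PowerSeries ℂ) * (D : PowerSeries ℂ)⁻¹ = 1 := PowerSeries.mul_inv_cancel _ hD0
  ext j i
  rw [Matrix.transpose_apply, Matrix.mul_apply, Matrix.of_apply]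
  simp only [Matrix.of_apply]
  rw [← coeff_tree x _ hD j i.val]
  rw [Fin.sum_univ_eq_sum_range (fun m : ℕ =>
    (if 0 ≤ ((i.val : ℤ) - (m : ℤ)) then
      PowerSeries.coeff ((i.val : ℤ) - (m : ℤ)).toNat (D : PowerSeries ℂ)⁻¹ else 0) *
    (∏ j' ∈ Finset.univ.erase j, (1 - Polynomial.C (x j') * Polynomial.X : ℂ[X])).coeff m) n]
  symm
  rw [← Finset.sum_subset (Finset.range_subset_range.2 (Nat.succ_le_of_lt i.isLt))]
  · refine Finset.sum_congr rfl fun k hk => ?_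
    have hk' : k ≤ i.val := Nat.lt_succ_iff.1 (Finset.mem_range.1 hk)
    have e : ((i.val : ℤ) - (k : ℤ)).toNat = i.val - k := by omega
    rw [if_pos (by omega), mul_comm, e]
  · intro k _ hk
    have hk' : ¬ k < i.val + 1 := fun h => hk (Finset.mem_range.2 h)
    rw [if_neg (by omega), zero_mul]

theorem vand_dec (δ : ℝ) (hδ : 0 < δ) : ∃ γ : ℝ, 0 < γ ∧ ∃ n₀ : ℕ, ∀ n : ℕ, n₀ ≤ n →
    ∀ x : Fin n → ℂ, Dec (Matrix.of fun i j : Fin n => x i ^ j.val)
      ((n : ℝ) ^ (1 - γ)) ((n : ℝ) ^ δ) := by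
  obtain ⟨g1, hg1, n1, h1⟩ := tree_dec (δ / 2) (by linarith)
  obtain ⟨g2, hg2, n2, h2⟩ := toep_dec (δ / 2) (by linarith)
  set g : ℝ := min g1 g2 with hg
  have hg0 : 0 < g := lt_min hg1 hg2
  obtain ⟨n3, h3⟩ : ∃ n3 : ℕ, ∀ n : ℕ, n3 ≤ n → (2 : ℝ) ≤ (n : ℝ) ^ (g / 2) := by
    have ht := (tendsto_rpow_atTop (show 0 < g / 2 by linarith)).comp
      (tendsto_natCast_atTop_atTop (R := ℝ))
    have := (ht.eventually_ge_atTop 2)
    rw [Filter.eventually_atTop] at this
    exact this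
  refine ⟨g / 2, by linarith, max (max n1 n2) (max n3 1), ?_⟩
  intro n hn x
  have hn1 : n1 ≤ n := le_trans (le_max_left _ _) (le_trans (le_max_left _ _) hn)
  have hn2 : n2 ≤ n := le_trans (le_max_right _ _) (le_trans (le_max_left _ _) hn)
  have hn3 : n3 ≤ n := le_trans (le_max_left _ _) (le_trans (le_max_right _ _) hn)
  have hn4 : 1 ≤ n := le_trans (le_max_right _ _) (le_trans (le_max_right _ _) hn)
  have hnR : (1 : ℝ) ≤ n := by exact_mod_cast hn4
  have hn0 : (0 : ℝ) < n := by linarith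
  obtain ⟨t, ht⟩ := vand_eq x
  rw [ht]
  have hd1 := h1 n hn1 (fun j => 1 - Polynomial.C (x j) * Polynomial.X) (by
    intro j
    refine le_trans (Polynomial.natDegree_sub_le _ _) ?_
    rw [Polynomial.natDegree_one, max_le_iff]
    exact ⟨Nat.zero_le _, (Polynomial.natDegree_C_mul_le _ _).trans Polynomial.natDegree_X_le⟩)
  have hd2 := h2 n hn2 t
  have hs : (0 : ℝ) ≤ (n : ℝ) ^ (δ / 2) := Real.rpow_nonneg hn0.le _
  refine ((Dec.mul hs hs hd2 hd1).transpose).mono ?_ ?_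
  · have e1 : (n : ℝ) ^ (1 - g2) ≤ (n : ℝ) ^ (1 - g) :=
      Real.rpow_le_rpow_of_exponent_le hnR (by linarith [min_le_right g1 g2])
    have e2 : (n : ℝ) ^ (1 - g1) ≤ (n : ℝ) ^ (1 - g) :=
      Real.rpow_le_rpow_of_exponent_le hnR (by linarith [min_le_left g1 g2])
    have e3 : (n : ℝ) ^ (1 - g / 2) = (n : ℝ) ^ (g / 2) * (n : ℝ) ^ (1 - g) := by
      rw [← Real.rpow_add hn0]
      congr 1
      ring
    have e4 : 2 * (n : ℝ) ^ (1 - g) ≤ (n : ℝ) ^ (g / 2) * (n : ℝ) ^ (1 - g) :=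
      mul_le_mul_of_nonneg_right (h3 n hn3) (Real.rpow_nonneg hn0.le _)
    rw [e3]
    linarith
  · rw [← Real.rpow_add hn0]
    apply le_of_eq
    congr 1
    ring

end MP0775d3.Bf
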