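import Pool.Agent.Lib.MP_0775d3_lc.Bf.Rec
import Pool.Agent.Lib.MP_0775d3_lc.Bf.Vand

/-! Polynomial Vandermonde matrices `(P j (x i))` for three-term recurrences, over `ℂ`.

PROOF of `rlev_lay`: `toep_lay` with `T x y e e' u` = coefficient `x s * B ^ s + u` (`0` if this is
negative) of `(tp (start) (y s * B ^ s)) e' e` if `Hi (s + 1) x y`; `start = lv K x - lv (s + 1) x`
depends on the digits of `x` in the positions `> s` only. `rec_dec`: `exists_base` with
`t K = K (2 K + 3)`, `s K = 2 ^ K`, `e = 1`, `E = Fin 2`, applied to the product of the `rlev`, with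
`f = g = (digits, 0)` (`exists_digitsInj`); this gives the matrix of coefficients of the `P j`;
multiply by the Vandermonde matrix of the nodes (`vand_dec`); all with `δ / 2`. -/

set_option linter.unusedSectionVars false
set_option linter.unusedVariables false

namespace MP0775d3.Bf

open Matrix MP0775d3.Kron Polynomial

/-- The start of a node depends on the high digits only. -/
private theorem recDec_start {K B s : ℕ} {x x' : Fin K → Fin B} (h : Hi s x x') :
    lv K x - lv s x = lv K x' - lv s x' := by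
  have key : ∀ z : Fin K → Fin B, lv K z =
      lv s z + ∑ a : Fin K, if s ≤ a.val then (z a).val * B ^ a.val else 0 := by
    intro z
    unfold lv
    rw [← Finset.sum_add_distrib]
    refine Finset.sum_congr rfl fun a _ => ?_
    rw [if_pos a.isLt]
    by_cases ha : a.val < s
    · rw [if_pos ha, if_neg (by omega), add_zero]
    · rw [if_neg ha, if_pos (by omega), zero_add]
  rw [key x, key x', Nat.add_sub_cancel_left, Nat.add_sub_cancel_left]
  refine Finset.sum_congr rfl fun a _ => ?_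
  by_cases ha : s ≤ a.val
  · rw [if_pos ha, if_pos ha, h a ha]
  · rw [if_neg ha, if_neg ha]

/-- The Toeplitz data of a level. -/
private noncomputable def recDec_T {K B : ℕ} (a b c : ℕ → ℂ) (s : Fin K)
    (x y : Fin K → Fin B) (e e' : Fin 2) (u : ℤ) : ℂ :=
  if Hi (s.val + 1) x y ∧ 0 ≤ (((x s).val * B ^ s.val : ℕ) : ℤ) + u then
    (tp a b c (lv K x - lv (s.val + 1) x) ((y s).val * B ^ s.val) e' e).coeff
      ((((x s).val * B ^ s.val : ℕ) : ℤ) + u).toNat else 0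

theorem rlev_lay {K B : ℕ} (hB : 0 < B) (a b c : ℕ → ℂ) (s : Fin K) :
    Lay (2 * K + 3) 2 (rlev a b c s : Matrix (Dg K B (Fin 2)) (Dg K B (Fin 2)) ℂ) := by
  have hK : 0 < K := s.pos
  have h1 := toep_lay (E := Fin 2) hK hB (s := s.val) s.isLt.le (recDec_T a b c s) (by
    intro x x' y y' e e' u hx hy
    have e1 : Hi (s.val + 1) x y ↔ Hi (s.val + 1) x' y' :=
      ⟨fun h => ((hx.mono (Nat.le_succ _)).symm.trans h).trans (hy.mono (Nat.le_succ _)),
        fun h => ((hx.mono (Nat.le_succ _)).trans h).trans (hy.mono (Nat.le_succ _)).symm⟩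
    have e2 : x s = x' s := hx s le_rfl
    have e3 : y s = y' s := hy s le_rfl
    have e4 : lv K x - lv (s.val + 1) x = lv K x' - lv (s.val + 1) x' :=
      recDec_start (hx.mono (Nat.le_succ _))
    unfold recDec_T
    rw [e2, e3, e4]
    exact if_congr (and_congr_left' e1) rfl rfl) (by
    intro x y e e' u h
    by_contra h'
    apply h
    unfold recDec_T
    rw [if_neg fun h2 => h' h2.1])
  have h2 : (fun x y : Dg K B (Fin 2) => recDec_T a b c s x.1 y.1 x.2 y.2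
      ((lv s.val x.1 : ℤ) - lv s.val y.1)) =
      (rlev a b c s : Matrix (Dg K B (Fin 2)) (Dg K B (Fin 2)) ℂ) := by
    funext x y
    unfold recDec_T rlev
    have e1 : (((x.1 s).val * B ^ s.val : ℕ) : ℤ) + ((lv s.val x.1 : ℤ) - lv s.val y.1) =
        (lv (s.val + 1) x.1 : ℤ) - lv s.val y.1 := by
      rw [lv_succ]
      push_cast
      ring
    rw [e1]
    by_cases h : Hi (s.val + 1) x.1 y.1 ∧ lv s.val y.1 ≤ lv (s.val + 1) x.1
    · rw [if_pos h, if_pos ⟨h.1, by omega⟩]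
      congr 1
      omega
    · rw [if_neg h, if_neg fun h' => h ⟨h'.1, by omega⟩]
  rw [h2] at h1
  exact h1.mono (by have := s.isLt; omega) le_rfl

/-- The entries of the product of the transfer matrices. -/
private theorem recDec_tp (a b c : ℕ → ℂ) (P : ℕ → ℂ[X]) (h0 : P 0 = 1)
    (h1 : P 1 = C (a 0) * X + C (b 0))
    (h2 : ∀ j, P (j + 2) = (C (a (j + 1)) * X + C (b (j + 1))) * P (j + 1) + C (c (j + 1)) * P j)
    (j : ℕ) : tp a b c 0 j 0 0 = P j := by
  have hs : ∀ k, tp a b c 0 (k + 1) = tm a b c k * tp a b c 0 k := by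
    intro k
    rw [tp, Nat.zero_add]
  have h00 : ∀ k, tp a b c 0 (k + 1) 0 0 =
      (C (a k) * X + C (b k)) * tp a b c 0 k 0 0 + C (c k) * tp a b c 0 k 1 0 := by
    intro k
    rw [hs, Matrix.mul_apply, Fin.sum_univ_two]
    rfl
  have h10 : ∀ k, tp a b c 0 (k + 1) 1 0 = tp a b c 0 k 0 0 := by
    intro k
    rw [hs, Matrix.mul_apply, Fin.sum_univ_two]
    change (1 : ℂ[X]) * _ + 0 * _ = _
    rw [one_mul, zero_mul, add_zero]
  have z00 : tp a b c 0 0 0 0 = 1 := rfl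
  have z10 : tp a b c 0 0 1 0 = 0 := rfl
  have key : ∀ k, tp a b c 0 k 0 0 = P k ∧ tp a b c 0 (k + 1) 0 0 = P (k + 1) := by
    intro k
    induction k with
    | zero =>
      refine ⟨z00.trans h0.symm, ?_⟩
      rw [h00, z00, z10, mul_one, mul_zero, add_zero, h1]
    | succ k ih =>
      refine ⟨ih.2, ?_⟩
      rw [h00, h10, ih.1, ih.2, h2]
  exact (key j).1

theorem rec_dec (δ : ℝ) (hδ : 0 < δ) : ∃ γ : ℝ, 0 < γ ∧ ∃ n₀ : ℕ, ∀ n : ℕ, n₀ ≤ n →
    ∀ (a b c : ℕ → ℂ) (P : ℕ → ℂ[X]), P 0 = 1 → P 1 = C (a 0) * X + C (b 0) →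
      (∀ j, P (j + 2) = (C (a (j + 1)) * X + C (b (j + 1))) * P (j + 1) + C (c (j + 1)) * P j) →
      ∀ x : Fin n → ℂ, Dec (Matrix.of fun i j : Fin n => (P j.val).eval (x i))
        ((n : ℝ) ^ (1 - γ)) ((n : ℝ) ^ δ) := by
  obtain ⟨K, hK, γ₁, hγ₁, n₁, hn₁⟩ := exists_base (δ / 2) (by positivity)
    (fun K => K * (2 * K + 3)) (fun K => 2 ^ K) 1
  obtain ⟨γ₂, hγ₂, n₂, hn₂⟩ := vand_dec (δ / 2) (by positivity)
  obtain ⟨μ, hμ⟩ : ∃ μ, μ = min γ₁ γ₂ := ⟨_, rfl⟩
  have hμ0 : 0 < μ := hμ ▸ lt_min hγ₁ hγ₂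
  obtain ⟨n₃, hn₃⟩ : ∃ n₃ : ℕ, ∀ n : ℕ, n₃ ≤ n → (2 : ℝ) ≤ (n : ℝ) ^ (μ / 2) := by
    have h := (tendsto_rpow_atTop (show 0 < μ / 2 by positivity)).comp
      tendsto_natCast_atTop_atTop
    obtain ⟨m, hm⟩ := Filter.eventually_atTop.1 (h.eventually_ge_atTop 2)
    exact ⟨m, fun n hn => hm n hn⟩
  refine ⟨μ / 2, by positivity, max (max n₁ n₂) (max n₃ 1), ?_⟩
  intro n hn a b c P h0 h1 h2 x
  have hnn₁ : n₁ ≤ n := (le_max_left _ _).trans ((le_max_left _ _).trans hn)
  have hnn₂ : n₂ ≤ n := (le_max_right _ _).trans ((le_max_left _ _).trans hn)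
  have hnn₃ : n₃ ≤ n := (le_max_left _ _).trans ((le_max_right _ _).trans hn)
  have hnn1 : 1 ≤ n := (le_max_right _ _).trans ((le_max_right _ _).trans hn)
  have hn1 : (1 : ℝ) ≤ n := by exact_mod_cast hnn1
  have hnpos : (0 : ℝ) < n := by linarith
  obtain ⟨d, hd, hbase⟩ := hn₁ n hnn₁
  obtain ⟨f, hf, hfv⟩ := exists_digitsInj K (2 ^ d) n hd
  have hB : 0 < 2 ^ d := by positivity
  have hlay : Lay (K * (2 * K + 3)) (2 ^ K)
      (List.ofFn fun s : Fin K => (rlev a b c s.rev :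
        Matrix (Dg K (2 ^ d) (Fin 2)) (Dg K (2 ^ d) (Fin 2)) ℂ)).prod := by
    have := lay_list_prod (t := 2 * K + 3) (s := 2) (List.ofFn fun s : Fin K => (rlev a b c s.rev :
        Matrix (Dg K (2 ^ d) (Fin 2)) (Dg K (2 ^ d) (Fin 2)) ℂ)) (by
      intro A hA
      obtain ⟨s, rfl⟩ := (List.mem_ofFn' _ _).1 hA
      exact rlev_lay hB a b c s.rev)
    rw [List.length_ofFn] at this
    exact this
  have hfi : Function.Injective fun i : Fin n => ((f i, 0) : Dg K (2 ^ d) (Fin 2)) :=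
    fun i i' h => hf (congrArg Prod.fst h)
  have hdec := hbase (Fin 2) (by rw [Fintype.card_fin, pow_one]) ℂ two_ne_zero _ hlay _ _ hfi hfi
  have hco : (List.ofFn fun s : Fin K => (rlev a b c s.rev :
        Matrix (Dg K (2 ^ d) (Fin 2)) (Dg K (2 ^ d) (Fin 2)) ℂ)).prod.submatrix
          (fun i : Fin n => ((f i, 0) : Dg K (2 ^ d) (Fin 2)))
          (fun i : Fin n => ((f i, 0) : Dg K (2 ^ d) (Fin 2))) =
      Matrix.of fun i j : Fin n => (P j.val).coeff i.val := by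
    ext i j
    rw [Matrix.submatrix_apply, rtree_eq, hfv, hfv, recDec_tp a b c P h0 h1 h2, Matrix.of_apply]
  rw [hco] at hdec
  have hdeg : ∀ j, (P j).natDegree ≤ j := by
    intro j
    rw [← recDec_tp a b c P h0 h1 h2 j]
    exact tp_degree a b c 0 j 0 0
  have hmul : (Matrix.of fun i j : Fin n => (P j.val).eval (x i)) =
      (Matrix.of fun i j : Fin n => x i ^ j.val) *
        Matrix.of fun i j : Fin n => (P j.val).coeff i.val := by
    ext i j
    rw [Matrix.mul_apply, Matrix.of_apply]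
    rw [Polynomial.eval_eq_sum_range' (lt_of_le_of_lt (hdeg j.val) j.isLt) (x i),
      ← Fin.sum_univ_eq_sum_range (fun m => (P j.val).coeff m * x i ^ m) n]
    refine Finset.sum_congr rfl fun m _ => ?_
    rw [Matrix.of_apply, Matrix.of_apply, mul_comm]
  rw [hmul]
  have hs0 : (0 : ℝ) ≤ (n : ℝ) ^ (δ / 2) := Real.rpow_nonneg hnpos.le _
  refine ((hn₂ n hnn₂ x).mul hs0 hs0 hdec).mono ?_ ?_
  · have e1 : (n : ℝ) ^ (1 - γ₂) ≤ (n : ℝ) ^ (1 - μ) :=
      Real.rpow_le_rpow_of_exponent_le hn1 (by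
        have : μ ≤ γ₂ := hμ ▸ min_le_right _ _
        linarith)
    have e2 : (n : ℝ) ^ (1 - γ₁) ≤ (n : ℝ) ^ (1 - μ) :=
      Real.rpow_le_rpow_of_exponent_le hn1 (by
        have : μ ≤ γ₁ := hμ ▸ min_le_left _ _
        linarith)
    have e3 : (n : ℝ) ^ (1 - μ / 2) = (n : ℝ) ^ (μ / 2) * (n : ℝ) ^ (1 - μ) := by
      rw [← Real.rpow_add hnpos]
      congr 1
      ring
    have e4 := hn₃ n hnn₃
    have e5 : (0 : ℝ) ≤ (n : ℝ) ^ (1 - μ) := Real.rpow_nonneg hnpos.le _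
    rw [e3]
    nlinarith
  · rw [← Real.rpow_add hnpos, add_halves]

end MP0775d3.Bf
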