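import Pool.Agent.Lib.MP_0775d3_lc.Bf.Disp
import Pool.Agent.Lib.MP_0775d3_lc.Bf.RecDec
import Pool.Agent.Lib.MP_0775d3_lc.Kron.Descend

/-! The final theorem for `F = ℝ` and `F = ℂ`.

PROOF. `ℂ`: the three theorems with a common `γ` and `n₀` (decrease `γ`). `ℝ`: map the matrices and
polynomials to `ℂ` and use `descend` (`finrank ℝ ℂ = 2`; the factor 2 is absorbed). -/

set_option linter.unusedSectionVars false
set_option linter.unusedVariables false

namespace MP0775d3.Bf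

open Matrix MP0775d3.Kron Polynomial

/-- The three statements for a field `F` and matrices of size `n`. -/
def Structured (F : Type) [Field F] (n : ℕ) (δ γ : ℝ) : Prop :=
  (∀ M N A : Matrix (Fin n) (Fin n) F, IsOper M → IsOper N → IsCoprime M.charpoly N.charpoly →
    ((M * A - A * N).rank : ℝ) ≤ (n : ℝ) ^ γ → Dec A ((n : ℝ) ^ (1 - γ)) ((n : ℝ) ^ δ)) ∧
  (∀ x y : Fin n → F, (∀ i j, x i ≠ y j) →
    Dec (Matrix.of fun i j : Fin n => 1 / (x i - y j)) ((n : ℝ) ^ (1 - γ)) ((n : ℝ) ^ δ)) ∧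
  (∀ (a b c : ℕ → F) (P : ℕ → F[X]), P 0 = 1 → P 1 = C (a 0) * X + C (b 0) →
    (∀ j, P (j + 2) = (C (a (j + 1)) * X + C (b (j + 1))) * P (j + 1) + C (c (j + 1)) * P j) →
    ∀ x : Fin n → F, Dec (Matrix.of fun i j : Fin n => (P j.val).eval (x i))
      ((n : ℝ) ^ (1 - γ)) ((n : ℝ) ^ δ))

private theorem main_rank {F E : Type*} [Field F] [Field E] (f : F →+* E) {X : Type*} [Fintype X]
    [DecidableEq X] (M : Matrix X X F) : (M.map f).rank = M.rank := by
  obtain ⟨P, Q, d, hP, hQ, h⟩ := exists_PDQ M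
  have h1 : (P.map f).det = 1 := by
    rw [← RingHom.mapMatrix_apply, ← RingHom.map_det, hP, map_one]
  have h2 : (Q.map f).det = 1 := by
    rw [← RingHom.mapMatrix_apply, ← RingHom.map_det, hQ, map_one]
  have h3 : M.map f = P.map f * Matrix.diagonal (fun z => f (d z)) * Q.map f := by
    rw [h, Matrix.map_mul, Matrix.map_mul, Matrix.diagonal_map (map_zero f)]
  rw [rank_PDQ hP hQ h, rank_PDQ h1 h2 h3]
  congr 1
  ext z
  simp only [Set.mem_ofPred_eq, ne_eq, map_eq_zero]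

private theorem main_shift {n : ℕ} (f : ℝ) :
    (fshift n f).map Complex.ofRealHom = fshift n (f : ℂ) := by
  ext i j
  rw [Matrix.map_apply]
  unfold fshift
  split_ifs
  · exact map_one _
  · rfl
  · exact map_zero _

private theorem main_oper {n : ℕ} {M : Matrix (Fin n) (Fin n) ℝ} (h : IsOper M) :
    IsOper (M.map Complex.ofRealHom) := by
  rcases h with ⟨d, rfl⟩ | ⟨f, hf, rfl | rfl⟩
  · left
    refine ⟨fun i => (d i : ℂ), ?_⟩
    rw [Matrix.diagonal_map (map_zero _)]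
    rfl
  · right
    exact ⟨(f : ℂ), Complex.ofReal_ne_zero.2 hf, Or.inl (main_shift f)⟩
  · right
    refine ⟨(f : ℂ), Complex.ofReal_ne_zero.2 hf, Or.inr ?_⟩
    rw [Matrix.transpose_map, main_shift]

private theorem main_descend {X : Type*} [Fintype X] [DecidableEq X] (M : Matrix X X ℝ) {r s : ℝ}
    (h : Dec (M.map Complex.ofRealHom) r s) : Dec M (2 * r) s := by
  have h1 := descend (F := ℝ) (E := ℂ) M (r := r) (s := s) h
  rw [Complex.finrank_real_complex] at h1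
  exact_mod_cast h1

theorem main (δ : ℝ) (hδ : 0 < δ) : ∃ γ : ℝ, 0 < γ ∧ ∃ n₀ : ℕ, ∀ n : ℕ, n₀ ≤ n →
    Structured ℝ n δ γ ∧ Structured ℂ n δ γ := by
  obtain ⟨γ₁, hγ₁, n₁, h₁⟩ := disp_dec δ hδ
  obtain ⟨γ₂, hγ₂, n₂, h₂⟩ := cauchy_dec δ hδ
  obtain ⟨γ₃, hγ₃, n₃, h₃⟩ := rec_dec δ hδ
  obtain ⟨γ, hγ, hγ1, hγ2, hγ3⟩ : ∃ γ : ℝ, 0 < γ ∧ 2 * γ ≤ γ₁ ∧ 2 * γ ≤ γ₂ ∧ 2 * γ ≤ γ₃ := by
    refine ⟨min γ₁ (min γ₂ γ₃) / 2, ?_, ?_, ?_, ?_⟩
    · have := lt_min hγ₁ (lt_min hγ₂ hγ₃)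
      linarith
    · have := min_le_left γ₁ (min γ₂ γ₃)
      linarith
    · have := (min_le_right γ₁ (min γ₂ γ₃)).trans (min_le_left γ₂ γ₃)
      linarith
    · have := (min_le_right γ₁ (min γ₂ γ₃)).trans (min_le_right γ₂ γ₃)
      linarith
  obtain ⟨N, hN⟩ : ∃ N : ℕ, ∀ n : ℕ, N ≤ n → (2 : ℝ) ≤ (n : ℝ) ^ γ := by
    have ht : Filter.Tendsto (fun n : ℕ => (n : ℝ) ^ γ) Filter.atTop Filter.atTop :=
      (tendsto_rpow_atTop hγ).comp tendsto_natCast_atTop_atTop
    exact Filter.eventually_atTop.1 (ht.eventually (Filter.eventually_ge_atTop 2))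
  refine ⟨γ, hγ, max (max n₁ n₂) (max n₃ (max N 1)), fun n hn => ?_⟩
  have hn₁ : n₁ ≤ n := ((le_max_left _ _).trans (le_max_left _ _)).trans hn
  have hn₂ : n₂ ≤ n := ((le_max_right _ _).trans (le_max_left _ _)).trans hn
  have hn₃ : n₃ ≤ n := ((le_max_left _ _).trans (le_max_right _ _)).trans hn
  have hnN : N ≤ n :=
    (((le_max_left _ _).trans (le_max_right _ _)).trans (le_max_right _ _)).trans hn
  have hn1 : 1 ≤ n :=
    (((le_max_right _ _).trans (le_max_right _ _)).trans (le_max_right _ _)).trans hn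
  have hn1' : (1 : ℝ) ≤ n := by exact_mod_cast hn1
  have hn0 : (0 : ℝ) < n := by linarith
  have two : ∀ g : ℝ, 2 * γ ≤ g → 2 * (n : ℝ) ^ (1 - g) ≤ (n : ℝ) ^ (1 - γ) := by
    intro g hg
    have e : (n : ℝ) ^ (1 - γ) = (n : ℝ) ^ γ * (n : ℝ) ^ (1 - 2 * γ) := by
      rw [← Real.rpow_add hn0]
      congr 1
      ring
    rw [e]
    exact mul_le_mul (hN n hnN) (Real.rpow_le_rpow_of_exponent_le hn1' (by linarith))
      (Real.rpow_nonneg hn0.le _) (Real.rpow_nonneg hn0.le _)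
  have one : ∀ g : ℝ, 2 * γ ≤ g → (n : ℝ) ^ (1 - g) ≤ (n : ℝ) ^ (1 - γ) := fun g hg =>
    Real.rpow_le_rpow_of_exponent_le hn1' (by linarith)
  have rk : (n : ℝ) ^ γ ≤ (n : ℝ) ^ γ₁ := Real.rpow_le_rpow_of_exponent_le hn1' (by linarith)
  refine ⟨⟨?_, ?_, ?_⟩, ?_, ?_, ?_⟩
  · intro M L A hM hL hc hr
    refine (main_descend A ?_).mono (two γ₁ hγ1) (le_refl _)
    refine h₁ n hn₁ _ _ _ (main_oper hM) (main_oper hL) ?_ ?_
    · rw [Matrix.charpoly_map, Matrix.charpoly_map]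
      exact hc.map (mapRingHom Complex.ofRealHom)
    · rw [← Matrix.map_mul, ← Matrix.map_mul, ← Matrix.map_sub _ (map_sub _), main_rank]
      exact hr.trans rk
  · intro x y hxy
    refine (main_descend _ ?_).mono (two γ₂ hγ2) (le_refl _)
    have h := h₂ n hn₂ (fun i => (x i : ℂ)) (fun j => (y j : ℂ))
      (fun i j h => hxy i j (Complex.ofReal_injective h))
    have e : (Matrix.of fun i j : Fin n => 1 / (x i - y j)).map Complex.ofRealHom =
        Matrix.of fun i j : Fin n => 1 / ((x i : ℂ) - (y j : ℂ)) := by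
      ext i j
      simp
    rw [e]
    exact h
  · intro a b c P hP0 hP1 hP x
    refine (main_descend _ ?_).mono (two γ₃ hγ3) (le_refl _)
    have h := h₃ n hn₃ (fun j => (a j : ℂ)) (fun j => (b j : ℂ)) (fun j => (c j : ℂ))
      (fun j => (P j).map Complex.ofRealHom) (by rw [hP0, Polynomial.map_one])
      (by rw [hP1]; simp) (fun j => by rw [hP j]; simp) (fun i => (x i : ℂ))
    have e : (Matrix.of fun i j : Fin n => (P j.val).eval (x i)).map Complex.ofRealHom =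
        Matrix.of fun i j : Fin n => ((P j.val).map Complex.ofRealHom).eval (x i : ℂ) := by
      ext i j
      rw [Matrix.map_apply, Matrix.of_apply, Matrix.of_apply, eval_map]
      exact (eval₂_at_apply Complex.ofRealHom (x i)).symm
    rw [e]
    exact h
  · intro M L A hM hL hc hr
    exact (h₁ n hn₁ M L A hM hL hc (hr.trans rk)).mono (one γ₁ hγ1) (le_refl _)
  · intro x y hxy
    exact (h₂ n hn₂ x y hxy).mono (one γ₂ hγ2) (le_refl _)
  · intro a b c P hP0 hP1 hP x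
    exact (h₃ n hn₃ a b c P hP0 hP1 hP x).mono (one γ₃ hγ3) (le_refl _)

end MP0775d3.Bf
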