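import Pool.Agent.Lib.MP_0775d3_lc.Bf.Disp
import Pool.Agent.Lib.MP_0775d3_lc.Bf.GDec
import Pool.Agent.Lib.MP_0775d3_lc.Kron.Descend

/-! The final theorem for `F = ℝ` and `F = ℂ`.

PROOF of `rat_dec`: `g_dec` with `w = 1`, `A j = A' j = q j`, `Bm j = p j`, `l i = 1 / ∏ j, (q j).eval
(x i)`, `r = 1`. `aut_dec`: `g_dec` with `A = 1`, `Bm = 1`. `main2`: `ℂ`: the three theorems with a
common `γ` and `n₀` (decrease `γ`). `ℝ`: map to `ℂ` and use `descend` (`finrank ℝ ℂ = 2`; the factor 2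
is absorbed). -/

set_option linter.unusedSectionVars false
set_option linter.unusedVariables false

namespace MP0775d3.Bf

open Matrix MP0775d3.Kron Polynomial

/-- `A (j - 1) * ... * A 0`. -/
noncomputable def mprod {F : Type*} [Field F] {w : ℕ} (A : ℕ → Matrix (Fin w) (Fin w) F[X]) :
    ℕ → Matrix (Fin w) (Fin w) F[X]
  | 0 => 1
  | j + 1 => A j * mprod A j

/-- The three statements for a field `F` and matrices of size `n`. -/
def Structured2 (F : Type) [Field F] (n : ℕ) (δ γ : ℝ) : Prop :=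
  (∀ M N A : Matrix (Fin n) (Fin n) F, IsOper M → IsOper N → IsCoprime M.charpoly N.charpoly →
    ((M * A - A * N).rank : ℝ) ≤ (n : ℝ) ^ γ → Dec A ((n : ℝ) ^ (1 - γ)) ((n : ℝ) ^ δ)) ∧
  (∀ p q : Fin n → F[X], (∀ j, ((p j).natDegree : ℝ) ≤ (n : ℝ) ^ γ) →
    (∀ j, ((q j).natDegree : ℝ) ≤ (n : ℝ) ^ γ) → ∀ x : Fin n → F,
    (∀ i j, (q j).eval (x i) ≠ 0) →
    Dec (Matrix.of fun i j : Fin n => (p j).eval (x i) / (q j).eval (x i))
      ((n : ℝ) ^ (1 - γ)) ((n : ℝ) ^ δ)) ∧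
  (∀ w : ℕ, (w : ℝ) ≤ (n : ℝ) ^ γ → ∀ A : ℕ → Matrix (Fin w) (Fin w) F[X],
    (∀ j a b, ((A j a b).natDegree : ℝ) ≤ (n : ℝ) ^ γ) →
    ∀ (l r : Fin n → Fin w → F) (x : Fin n → F),
    Dec (Matrix.of fun i j : Fin n =>
        ∑ a, ∑ b, l i a * ((mprod A j.val) a b).eval (x i) * r i b)
      ((n : ℝ) ^ (1 - γ)) ((n : ℝ) ^ δ))

private theorem main2_pr {F : Type*} [Field F] (q : ℕ → F[X]) (lo k : ℕ) (x : F) :
    (pr (fun j => (Matrix.of fun _ _ => q j : Matrix (Fin 1) (Fin 1) F[X])) lo k 0 0).eval x =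
      ∏ t ∈ Finset.range k, (q (lo + t)).eval x := by
  induction k with
  | zero =>
    rw [Finset.prod_range_zero]
    unfold pr
    rw [Matrix.one_apply_eq, eval_one]
  | succ k ih =>
    have e : pr (fun j => (Matrix.of fun _ _ => q j : Matrix (Fin 1) (Fin 1) F[X])) lo (k + 1) =
        (Matrix.of fun _ _ => q (lo + k) : Matrix (Fin 1) (Fin 1) F[X]) *
          pr (fun j => (Matrix.of fun _ _ => q j : Matrix (Fin 1) (Fin 1) F[X])) lo k := rfl
    rw [Finset.prod_range_succ, ← ih, e, Matrix.mul_apply, Fin.sum_univ_one, eval_mul,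
      Matrix.of_apply, mul_comm]

private theorem main2_nd {F : Type*} [Field F] (q p : ℕ → F[X]) (n j : ℕ) (hj : j < n) (x : F)
    (hq : (q j).eval x ≠ 0) :
    (nd (fun j => (Matrix.of fun _ _ => q j : Matrix (Fin 1) (Fin 1) F[X]))
      (fun j => Matrix.of fun _ _ => q j) (fun j => Matrix.of fun _ _ => p j) 0 n j 0 0).eval x =
      (p j).eval x / (q j).eval x * ∏ t ∈ Finset.range n, (q t).eval x := by
  obtain ⟨m, rfl⟩ : ∃ m, n = (j + 1) + m := ⟨n - (j + 1), by omega⟩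
  unfold nd
  have e1 : 0 + (j + 1 + m) - 1 - j = m := by omega
  rw [e1, Nat.sub_zero]
  change ((pr (fun j => (Matrix.of fun _ _ => q j : Matrix (Fin 1) (Fin 1) F[X])) (j + 1) m *
    (Matrix.of fun _ _ => p j : Matrix (Fin 1) (Fin 1) F[X]) *
    pr (fun j => (Matrix.of fun _ _ => q j : Matrix (Fin 1) (Fin 1) F[X])) 0 j) 0 0).eval x = _
  rw [Matrix.mul_apply, Fin.sum_univ_one, Matrix.mul_apply, Fin.sum_univ_one,
    eval_mul, eval_mul, main2_pr, main2_pr, Matrix.of_apply, Finset.prod_range_add,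
    Finset.prod_range_succ]
  have e2 : ∏ t ∈ Finset.range j, (q (0 + t)).eval x = ∏ t ∈ Finset.range j, (q t).eval x :=
    Finset.prod_congr rfl fun t _ => by rw [Nat.zero_add]
  rw [e2]
  field_simp

theorem rat_dec (δ : ℝ) (hδ : 0 < δ) : ∃ γ : ℝ, 0 < γ ∧ ∃ n₀ : ℕ, ∀ n : ℕ, n₀ ≤ n →
    ∀ p q : Fin n → ℂ[X], (∀ j, ((p j).natDegree : ℝ) ≤ (n : ℝ) ^ γ) →
    (∀ j, ((q j).natDegree : ℝ) ≤ (n : ℝ) ^ γ) → ∀ x : Fin n → ℂ,
    (∀ i j, (q j).eval (x i) ≠ 0) →
    Dec (Matrix.of fun i j : Fin n => (p j).eval (x i) / (q j).eval (x i))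
      ((n : ℝ) ^ (1 - γ)) ((n : ℝ) ^ δ) := by
  obtain ⟨γ, hγ, n₀, h⟩ := g_dec δ hδ
  refine ⟨γ, hγ, max n₀ 1, fun n hn p q hp hq x hx => ?_⟩
  have hn1 : (1 : ℝ) ≤ n := by exact_mod_cast (le_max_right _ _).trans hn
  have hpow : (1 : ℝ) ≤ (n : ℝ) ^ γ := Real.one_le_rpow hn1 hγ.le
  set q' : ℕ → ℂ[X] := fun j => if h : j < n then q ⟨j, h⟩ else 1 with hq'
  set p' : ℕ → ℂ[X] := fun j => if h : j < n then p ⟨j, h⟩ else 0 with hp'
  have eq' : ∀ j : Fin n, q' j.val = q j := fun j => dif_pos j.2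
  have ep' : ∀ j : Fin n, p' j.val = p j := fun j => dif_pos j.2
  have dq : ∀ j, ((q' j).natDegree : ℝ) ≤ (n : ℝ) ^ γ := by
    intro j
    by_cases hj : j < n
    · exact (eq' ⟨j, hj⟩) ▸ hq ⟨j, hj⟩
    · have e : q' j = 1 := dif_neg hj
      rw [e, natDegree_one, Nat.cast_zero]
      linarith
  have dp : ∀ j, ((p' j).natDegree : ℝ) ≤ (n : ℝ) ^ γ := by
    intro j
    by_cases hj : j < n
    · exact (ep' ⟨j, hj⟩) ▸ hp ⟨j, hj⟩
    · have e : p' j = 0 := dif_neg hj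
      rw [e, natDegree_zero, Nat.cast_zero]
      linarith
  have hprod : ∀ i, ∏ t ∈ Finset.range n, (q' t).eval (x i) ≠ 0 := by
    intro i
    rw [Finset.prod_ne_zero_iff]
    intro t ht
    have ht' := Finset.mem_range.1 ht
    rw [show q' t = q ⟨t, ht'⟩ from eq' ⟨t, ht'⟩]
    exact hx i ⟨t, ht'⟩
  have key := h n ((le_max_left _ _).trans hn) 1 (by rw [Nat.cast_one]; exact hpow)
    (fun j => Matrix.of fun _ _ => q' j) (fun j => Matrix.of fun _ _ => q' j)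
    (fun j => Matrix.of fun _ _ => p' j) (fun j _ _ => dq j) (fun j _ _ => dq j)
    (fun j _ _ => dp j) (fun i _ => (∏ t ∈ Finset.range n, (q' t).eval (x i))⁻¹)
    (fun _ _ => 1) x
  have e : (Matrix.of fun i j : Fin n => (p j).eval (x i) / (q j).eval (x i)) =
      Matrix.of fun i j : Fin n => ∑ a : Fin 1, ∑ b : Fin 1,
        (∏ t ∈ Finset.range n, (q' t).eval (x i))⁻¹ *
          ((nd (fun j => (Matrix.of fun _ _ => q' j : Matrix (Fin 1) (Fin 1) ℂ[X]))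
            (fun j => Matrix.of fun _ _ => q' j) (fun j => Matrix.of fun _ _ => p' j) 0 n
            j.val) a b).eval (x i) * 1 := by
    ext i j
    rw [Matrix.of_apply, Matrix.of_apply, Fin.sum_univ_one, Fin.sum_univ_one,
      main2_nd q' p' n j.val j.2 (x i) (by rw [eq' j]; exact hx i j), eq' j, ep' j, mul_one]
    rw [mul_comm, mul_assoc, mul_inv_cancel₀ (hprod i), mul_one]
  rw [e]
  exact key

private theorem main2_pr_one {F : Type*} [Field F] {w : ℕ} (lo k : ℕ) :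
    pr (fun _ => (1 : Matrix (Fin w) (Fin w) F[X])) lo k = 1 := by
  induction k with
  | zero => rfl
  | succ k ih =>
    unfold pr
    rw [ih, one_mul]

private theorem main2_pr_mprod {F : Type*} [Field F] {w : ℕ}
    (A : ℕ → Matrix (Fin w) (Fin w) F[X]) (k : ℕ) : pr A 0 k = mprod A k := by
  induction k with
  | zero => rfl
  | succ k ih =>
    unfold pr mprod
    rw [ih, Nat.zero_add]

private theorem main2_deg_one {F : Type*} [Field F] {w : ℕ} (a b : Fin w) :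
    ((1 : Matrix (Fin w) (Fin w) F[X]) a b).natDegree = 0 := by
  by_cases h : a = b
  · rw [h, Matrix.one_apply_eq, natDegree_one]
  · rw [Matrix.one_apply_ne h, natDegree_zero]

theorem aut_dec (δ : ℝ) (hδ : 0 < δ) : ∃ γ : ℝ, 0 < γ ∧ ∃ n₀ : ℕ, ∀ n : ℕ, n₀ ≤ n →
    ∀ w : ℕ, (w : ℝ) ≤ (n : ℝ) ^ γ → ∀ A : ℕ → Matrix (Fin w) (Fin w) ℂ[X],
    (∀ j a b, ((A j a b).natDegree : ℝ) ≤ (n : ℝ) ^ γ) →
    ∀ (l r : Fin n → Fin w → ℂ) (x : Fin n → ℂ),
    Dec (Matrix.of fun i j : Fin n =>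
        ∑ a, ∑ b, l i a * ((mprod A j.val) a b).eval (x i) * r i b)
      ((n : ℝ) ^ (1 - γ)) ((n : ℝ) ^ δ) := by
  obtain ⟨γ, hγ, n₀, h⟩ := g_dec δ hδ
  refine ⟨γ, hγ, n₀, fun n hn w hw A hA l r x => ?_⟩
  have hdeg : ∀ a b : Fin w,
      (((1 : Matrix (Fin w) (Fin w) ℂ[X]) a b).natDegree : ℝ) ≤ (n : ℝ) ^ γ := by
    intro a b
    rw [main2_deg_one, Nat.cast_zero]
    exact Real.rpow_nonneg (Nat.cast_nonneg n) _
  have key := h n hn w hw (fun _ => 1) A (fun _ => 1) (fun _ => hdeg) hA (fun _ => hdeg) l r x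
  have e : ∀ j : ℕ, nd (fun _ => (1 : Matrix (Fin w) (Fin w) ℂ[X])) A (fun _ => 1) 0 n j =
      mprod A j := by
    intro j
    unfold nd
    rw [main2_pr_one, one_mul, one_mul, Nat.sub_zero, main2_pr_mprod]
  have e2 : (Matrix.of fun i j : Fin n =>
      ∑ a, ∑ b, l i a * ((mprod A j.val) a b).eval (x i) * r i b) =
      Matrix.of fun i j : Fin n => ∑ a, ∑ b, l i a *
        ((nd (fun _ => (1 : Matrix (Fin w) (Fin w) ℂ[X])) A (fun _ => 1) 0 n j.val) a b).eval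
          (x i) * r i b := by
    ext i j
    rw [Matrix.of_apply, Matrix.of_apply, e]
  rw [e2]
  exact key

private theorem main2_rank {F E : Type*} [Field F] [Field E] (f : F →+* E) {X : Type*} [Fintype X]
    [DecidableEq X] (M : Matrix X X F) : (M.map f).rank = M.rank := by
  obtain ⟨P, Q, d, hP, hQ, h⟩ := exists_PDQ M
  have h1 : (P.map f).det = 1 := by
    rw [← RingHom.mapMatrix_apply, ← RingHom.map_det, hP, map_one]
  have h2 : (Q.map f).det = 1 := by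
    rw [← RingHom.mapMatrix_apply, ← RingHom.map_det, hQ, map_one]
  have h3 : M.map f = P.map f * Matrix.diagonal (fun z => f (d z)) * Q.map f := by
    rw [h, Matrix.map_mul, Matrix.map_mul, Matrix.diagonal_map (map_zero f)]
  rw [rank_PDQ hP hQ h, rank_PDQ h1 h2 h3]
  congr 1
  ext z
  simp only [Set.mem_ofPred_eq, ne_eq, map_eq_zero]

private theorem main2_shift {n : ℕ} (f : ℝ) :
    (fshift n f).map Complex.ofRealHom = fshift n (f : ℂ) := by
  ext i j
  rw [Matrix.map_apply]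
  unfold fshift
  split_ifs
  · exact map_one _
  · rfl
  · exact map_zero _

private theorem main2_oper {n : ℕ} {M : Matrix (Fin n) (Fin n) ℝ} (h : IsOper M) :
    IsOper (M.map Complex.ofRealHom) := by
  rcases h with ⟨d, rfl⟩ | ⟨f, hf, rfl | rfl⟩
  · left
    refine ⟨fun i => (d i : ℂ), ?_⟩
    rw [Matrix.diagonal_map (map_zero _)]
    rfl
  · right
    exact ⟨(f : ℂ), Complex.ofReal_ne_zero.2 hf, Or.inl (main2_shift f)⟩
  · right
    refine ⟨(f : ℂ), Complex.ofReal_ne_zero.2 hf, Or.inr ?_⟩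
    rw [Matrix.transpose_map, main2_shift]

private theorem main2_descend {X : Type*} [Fintype X] [DecidableEq X] (M : Matrix X X ℝ)
    {r s : ℝ} (h : Dec (M.map Complex.ofRealHom) r s) : Dec M (2 * r) s := by
  have h1 := descend (F := ℝ) (E := ℂ) M (r := r) (s := s) h
  rw [Complex.finrank_real_complex] at h1
  exact_mod_cast h1

private theorem main2_eval (q : ℝ[X]) (x : ℝ) :
    (q.map Complex.ofRealHom).eval (x : ℂ) = ((q.eval x : ℝ) : ℂ) := by
  rw [eval_map]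
  exact eval₂_at_apply Complex.ofRealHom x

private theorem main2_mprod {w : ℕ} (A : ℕ → Matrix (Fin w) (Fin w) ℝ[X]) (k : ℕ) :
    mprod (fun j => (A j).map (mapRingHom Complex.ofRealHom)) k =
      (mprod A k).map (mapRingHom Complex.ofRealHom) := by
  induction k with
  | zero =>
    unfold mprod
    rw [Matrix.map_one _ (map_zero _) (map_one _)]
  | succ k ih =>
    unfold mprod
    rw [ih, Matrix.map_mul]

theorem main2 (δ : ℝ) (hδ : 0 < δ) : ∃ γ : ℝ, 0 < γ ∧ ∃ n₀ : ℕ, ∀ n : ℕ, n₀ ≤ n →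
    Structured2 ℝ n δ γ ∧ Structured2 ℂ n δ γ := by
  obtain ⟨γ₁, hγ₁, n₁, h₁⟩ := disp_dec δ hδ
  obtain ⟨γ₂, hγ₂, n₂, h₂⟩ := rat_dec δ hδ
  obtain ⟨γ₃, hγ₃, n₃, h₃⟩ := aut_dec δ hδ
  obtain ⟨γ, hγ, hγ1, hγ2, hγ3⟩ : ∃ γ : ℝ, 0 < γ ∧ 2 * γ ≤ γ₁ ∧ 2 * γ ≤ γ₂ ∧ 2 * γ ≤ γ₃ := by
    refine ⟨min γ₁ (min γ₂ γ₃) / 2, ?_, ?_, ?_, ?_⟩
    · have := lt_min hγ₁ (lt_min hγ₂ hγ₃)
      linarith
    · have := min_le_left γ₁ (min γ₂ γ₃)
      linarith
    · have := (min_le_right γ₁ (min γ₂ γ₃)).trans (min_le_left γ₂ γ₃)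
      linarith
    · have := (min_le_right γ₁ (min γ₂ γ₃)).trans (min_le_right γ₂ γ₃)
      linarith
  obtain ⟨N, hN⟩ : ∃ N : ℕ, ∀ n : ℕ, N ≤ n → (2 : ℝ) ≤ (n : ℝ) ^ γ := by
    have ht : Filter.Tendsto (fun n : ℕ => (n : ℝ) ^ γ) Filter.atTop Filter.atTop :=
      (tendsto_rpow_atTop hγ).comp tendsto_natCast_atTop_atTop
    exact Filter.eventually_atTop.1 (ht.eventually (Filter.eventually_ge_atTop 2))
  refine ⟨γ, hγ, max (max n₁ n₂) (max n₃ (max N 1)), fun n hn => ?_⟩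
  have hn₁ : n₁ ≤ n := ((le_max_left _ _).trans (le_max_left _ _)).trans hn
  have hn₂ : n₂ ≤ n := ((le_max_right _ _).trans (le_max_left _ _)).trans hn
  have hn₃ : n₃ ≤ n := ((le_max_left _ _).trans (le_max_right _ _)).trans hn
  have hnN : N ≤ n :=
    (((le_max_left _ _).trans (le_max_right _ _)).trans (le_max_right _ _)).trans hn
  have hn1 : 1 ≤ n :=
    (((le_max_right _ _).trans (le_max_right _ _)).trans (le_max_right _ _)).trans hn
  have hn1' : (1 : ℝ) ≤ n := by exact_mod_cast hn1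
  have hn0 : (0 : ℝ) < n := by linarith
  have two : ∀ g : ℝ, 2 * γ ≤ g → 2 * (n : ℝ) ^ (1 - g) ≤ (n : ℝ) ^ (1 - γ) := by
    intro g hg
    have e : (n : ℝ) ^ (1 - γ) = (n : ℝ) ^ γ * (n : ℝ) ^ (1 - 2 * γ) := by
      rw [← Real.rpow_add hn0]
      congr 1
      ring
    rw [e]
    exact mul_le_mul (hN n hnN) (Real.rpow_le_rpow_of_exponent_le hn1' (by linarith))
      (Real.rpow_nonneg hn0.le _) (Real.rpow_nonneg hn0.le _)
  have one : ∀ g : ℝ, 2 * γ ≤ g → (n : ℝ) ^ (1 - g) ≤ (n : ℝ) ^ (1 - γ) := fun g hg =>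
    Real.rpow_le_rpow_of_exponent_le hn1' (by linarith)
  have rk : ∀ g : ℝ, 2 * γ ≤ g → (n : ℝ) ^ γ ≤ (n : ℝ) ^ g := fun g hg =>
    Real.rpow_le_rpow_of_exponent_le hn1' (by linarith)
  have dg : ∀ (q : ℝ[X]) (g : ℝ), 2 * γ ≤ g → (q.natDegree : ℝ) ≤ (n : ℝ) ^ γ →
      ((q.map Complex.ofRealHom).natDegree : ℝ) ≤ (n : ℝ) ^ g := by
    intro q g hg hq
    refine le_trans ?_ (hq.trans (rk g hg))
    exact_mod_cast natDegree_map_le
  refine ⟨⟨?_, ?_, ?_⟩, ?_, ?_, ?_⟩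
  · intro M L A hM hL hc hr
    refine (main2_descend A ?_).mono (two γ₁ hγ1) (le_refl _)
    refine h₁ n hn₁ _ _ _ (main2_oper hM) (main2_oper hL) ?_ ?_
    · rw [Matrix.charpoly_map, Matrix.charpoly_map]
      exact hc.map (mapRingHom Complex.ofRealHom)
    · rw [← Matrix.map_mul, ← Matrix.map_mul, ← Matrix.map_sub _ (map_sub _), main2_rank]
      exact hr.trans (rk γ₁ hγ1)
  · intro p q hp hq x hx
    refine (main2_descend _ ?_).mono (two γ₂ hγ2) (le_refl _)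
    have h := h₂ n hn₂ (fun j => (p j).map Complex.ofRealHom)
      (fun j => (q j).map Complex.ofRealHom) (fun j => dg _ γ₂ hγ2 (hp j))
      (fun j => dg _ γ₂ hγ2 (hq j)) (fun i => (x i : ℂ)) (fun i j => by
        rw [main2_eval]
        exact Complex.ofReal_ne_zero.2 (hx i j))
    have e : (Matrix.of fun i j : Fin n => (p j).eval (x i) / (q j).eval (x i)).map
        Complex.ofRealHom = Matrix.of fun i j : Fin n =>
          ((p j).map Complex.ofRealHom).eval (x i : ℂ) /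
            ((q j).map Complex.ofRealHom).eval (x i : ℂ) := by
      ext i j
      rw [Matrix.map_apply, Matrix.of_apply, Matrix.of_apply, main2_eval, main2_eval]
      exact Complex.ofReal_div _ _
    rw [e]
    exact h
  · intro w hw A hA l r x
    refine (main2_descend _ ?_).mono (two γ₃ hγ3) (le_refl _)
    have h := h₃ n hn₃ w (hw.trans (rk γ₃ hγ3))
      (fun j => (A j).map (mapRingHom Complex.ofRealHom))
      (fun j a b => dg _ γ₃ hγ3 (hA j a b)) (fun i a => (l i a : ℂ)) (fun i b => (r i b : ℂ))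
      (fun i => (x i : ℂ))
    have e : (Matrix.of fun i j : Fin n =>
        ∑ a, ∑ b, l i a * ((mprod A j.val) a b).eval (x i) * r i b).map Complex.ofRealHom =
        Matrix.of fun i j : Fin n => ∑ a, ∑ b, (l i a : ℂ) *
          ((mprod (fun j => (A j).map (mapRingHom Complex.ofRealHom)) j.val) a b).eval
            (x i : ℂ) * (r i b : ℂ) := by
      ext i j
      rw [Matrix.map_apply, Matrix.of_apply, Matrix.of_apply, map_sum]
      refine Finset.sum_congr rfl fun a _ => ?_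
      rw [map_sum]
      refine Finset.sum_congr rfl fun b _ => ?_
      rw [main2_mprod, Matrix.map_apply, coe_mapRingHom, main2_eval, map_mul, map_mul]
      rfl
    rw [e]
    exact h
  · intro M L A hM hL hc hr
    exact (h₁ n hn₁ M L A hM hL hc (hr.trans (rk γ₁ hγ1))).mono (one γ₁ hγ1) (le_refl _)
  · intro p q hp hq x hx
    exact (h₂ n hn₂ p q (fun j => (hp j).trans (rk γ₂ hγ2)) (fun j => (hq j).trans (rk γ₂ hγ2))
      x hx).mono (one γ₂ hγ2) (le_refl _)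
  · intro w hw A hA l r x
    exact (h₃ n hn₃ w (hw.trans (rk γ₃ hγ3)) A (fun j a b => (hA j a b).trans (rk γ₃ hγ3))
      l r x).mono (one γ₃ hγ3) (le_refl _)

end MP0775d3.Bf
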