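import Mathlib

/-! Packing: positions of the rows and columns. -/

set_option linter.unusedSectionVars false
set_option linter.unusedVariables false

namespace MP0775d3.Bf

/-- The number of rows and columns with a smaller label. -/
def before {n : ℕ} (r c : Fin n → ℕ) (l : ℕ) : ℕ :=
  (Finset.univ.filter fun i => r i < l).card + (Finset.univ.filter fun j => c j < l).card

/-- The number of the rows with the same label and smaller index. -/
def within {n : ℕ} (r : Fin n → ℕ) (i : Fin n) : ℕ :=
  (Finset.univ.filter fun i' => r i' = r i ∧ i' < i).card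

theorem before_le {n : ℕ} (r c : Fin n → ℕ) (l : ℕ) : before r c l ≤ 2 * n := by
  unfold before
  have h1 := Finset.card_le_univ (Finset.univ.filter fun i : Fin n => r i < l)
  have h2 := Finset.card_le_univ (Finset.univ.filter fun j : Fin n => c j < l)
  rw [Fintype.card_fin] at h1 h2
  omega

theorem within_lt {n s : ℕ} (r : Fin n → ℕ)
    (h : ∀ l, (Finset.univ.filter fun i => r i = l).card ≤ s) (i : Fin n) : within r i < s := by
  refine lt_of_lt_of_le ?_ (h (r i))
  unfold within
  refine Finset.card_lt_card ?_
  rw [Finset.ssubset_iff_of_subset]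
  · refine ⟨i, ?_, ?_⟩
    · rw [Finset.mem_filter]
      exact ⟨Finset.mem_univ i, rfl⟩
    · rw [Finset.mem_filter]
      rintro ⟨-, -, h1⟩
      exact lt_irrefl _ h1
  · intro i' hi'
    rw [Finset.mem_filter] at hi' ⊢
    exact ⟨hi'.1, hi'.2.1⟩

private theorem within_lt_class_PackA {n : ℕ} (r : Fin n → ℕ) (i : Fin n) :
    within r i < (Finset.univ.filter fun i' => r i' = r i).card := by
  unfold within
  refine Finset.card_lt_card ?_
  rw [Finset.ssubset_iff_of_subset]
  · refine ⟨i, ?_, ?_⟩
    · rw [Finset.mem_filter]
      exact ⟨Finset.mem_univ i, rfl⟩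
    · rw [Finset.mem_filter]
      rintro ⟨-, -, h1⟩
      exact lt_irrefl _ h1
  · intro i' hi'
    rw [Finset.mem_filter] at hi' ⊢
    exact ⟨hi'.1, hi'.2.1⟩

private theorem before_add_PackA {n : ℕ} (r c : Fin n → ℕ) {i i' : Fin n} (h : r i < r i') :
    before r c (r i) + within r i < before r c (r i') := by
  have h1 := within_lt_class_PackA r i
  have h2 : (Finset.univ.filter fun j : Fin n => r j < r i).card +
      (Finset.univ.filter fun j : Fin n => r j = r i).card ≤
      (Finset.univ.filter fun j : Fin n => r j < r i').card := by
    rw [← Finset.card_union_of_disjoint]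
    · refine Finset.card_le_card ?_
      intro j hj
      rw [Finset.mem_union, Finset.mem_filter, Finset.mem_filter] at hj
      rw [Finset.mem_filter]
      refine ⟨Finset.mem_univ j, ?_⟩
      rcases hj with hj | hj
      · exact hj.2.trans h
      · rw [hj.2]
        exact h
    · rw [Finset.disjoint_left]
      intro j hj hj'
      rw [Finset.mem_filter] at hj hj'
      exact absurd hj'.2 (ne_of_lt hj.2)
  have h3 : (Finset.univ.filter fun j : Fin n => c j < r i).card ≤
      (Finset.univ.filter fun j : Fin n => c j < r i').card := by
    refine Finset.card_le_card ?_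
    intro j hj
    rw [Finset.mem_filter] at hj ⊢
    exact ⟨hj.1, hj.2.trans h⟩
  unfold before
  omega

private theorem within_mono_PackA {n : ℕ} (r : Fin n → ℕ) {i i' : Fin n} (h : r i = r i')
    (hlt : i < i') : within r i < within r i' := by
  unfold within
  refine Finset.card_lt_card ?_
  rw [Finset.ssubset_iff_of_subset]
  · refine ⟨i, ?_, ?_⟩
    · rw [Finset.mem_filter]
      exact ⟨Finset.mem_univ i, h, hlt⟩
    · rw [Finset.mem_filter]
      rintro ⟨-, -, h1⟩
      exact lt_irrefl _ h1
  · intro j hj
    rw [Finset.mem_filter] at hj ⊢
    exact ⟨hj.1, hj.2.1.trans h, hj.2.2.trans hlt⟩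

/-- PROOF. If `r i < r i'` then `before (r i) + within i < before (r i')` (`within i` is smaller than the size of the
class of `i`, whose elements are counted in `before (r i')` and not in `before (r i)`). So the labels are equal, and
`within` is injective on a class. -/
theorem before_inj {n : ℕ} (r c : Fin n → ℕ) {i i' : Fin n}
    (h : before r c (r i) + within r i = before r c (r i') + within r i') : i = i' := by
  rcases lt_trichotomy (r i) (r i') with h1 | h1 | h1
  · have h2 := before_add_PackA r c h1
    omega
  · rcases lt_trichotomy i i' with h2 | h2 | h2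
    · have h3 := within_mono_PackA r h1 h2
      rw [h1] at h
      omega
    · exact h2
    · have h3 := within_mono_PackA r h1.symm h2
      rw [h1] at h
      omega
  · have h2 := before_add_PackA r c h1
    omega

end MP0775d3.Bf
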