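import Pool.Agent.Lib.MP_0775d3_lc.Bf.Act

/-! Joint diagonalisation of the partial swaps.

PROOF. For each pair `(g, τ g)`, `g ∈ P`, use the basis `e00, e11, e01 + e10, e01 - e10` of the
functions of the two bits (labels `(false, false), (true, true), (false, true), (true, false)`).
The product basis gives an invertible matrix `G` with
`pm (swp τ T) * G = G * diagonal (fun b => (-1) ^ (T ∩ neg τ P b).card)` for all `T ⊆ P`
(inverse: the same with `1/2` in the two mixed states). Hence
`1 - ∑ c T • pm (swp τ T) = G * diagonal e * G⁻¹` and the rank is at most the number of `b` with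
`e b ≠ 0`. -/

set_option linter.unusedSectionVars false
set_option linter.unusedVariables false

namespace MP0775d3.Bf

open Matrix MP0775d3.Kron

variable {F : Type*} [Field F] {ι : Type*} [Fintype ι] [DecidableEq ι]

private theorem pm_mul (σ : Equiv.Perm ι) (M : Matrix (ι → Bool) (ι → Bool) F)
    (x b : ι → Bool) : ((pm σ : Matrix (ι → Bool) (ι → Bool) F) * M) x b =
      M (fun i => x (σ i)) b := by
  rw [Matrix.mul_apply, Finset.sum_eq_single (fun i => x (σ i))]
  · unfold pm
    rw [if_pos fun i => (congrArg x (Equiv.apply_symm_apply σ i)).symm, one_mul]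
  · intro y _ hy
    unfold pm
    rw [if_neg, zero_mul]
    intro h
    exact hy (funext fun i => by rw [h (σ i), Equiv.symm_apply_apply])
  · intro h
    exact absurd (Finset.mem_univ _) h

private theorem pm_eq (σ : Equiv.Perm ι) (x b : ι → Bool) :
    (pm σ : Matrix (ι → Bool) (ι → Bool) F) x b = if (fun i => x (σ i)) = b then 1 else 0 := by
  have h := pm_mul σ (1 : Matrix (ι → Bool) (ι → Bool) F) x b
  rw [mul_one, Matrix.one_apply] at h
  exact h

private theorem pm_pm (σ ρ : Equiv.Perm ι) :
    (pm σ * pm ρ : Matrix (ι → Bool) (ι → Bool) F) = pm (σ * ρ) := by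
  ext x b
  rw [pm_mul, pm_eq, pm_eq]
  rfl

private theorem pm_diag (σ : Equiv.Perm ι) (d : (ι → Bool) → F)
    (hd : ∀ x, d (fun i => x (σ i)) = d x) :
    pm σ * Matrix.diagonal d = Matrix.diagonal d * pm σ := by
  ext x b
  rw [Matrix.mul_diagonal, Matrix.diagonal_mul, pm_eq]
  by_cases h : (fun i => x (σ i)) = b
  · rw [if_pos h, ← h, hd, mul_comm]
  · rw [if_neg h, zero_mul, mul_zero]

private theorem swp_ap {τ : Equiv.Perm ι} (h : ∀ i, τ (τ i) = i) (T : Finset ι) (i : ι) :
    swp τ T i = part τ T i := by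
  unfold swp
  rw [dif_pos h]
  rfl

private theorem swp_insert {τ : Equiv.Perm ι} (h : ∀ i, τ (τ i) = i) {T : Finset ι} {g : ι}
    (hg : g ∉ T) (hg' : τ g ∉ T) : swp τ (insert g T) = swp τ {g} * swp τ T := by
  ext i
  rw [Equiv.Perm.mul_apply, swp_ap h, swp_ap h, swp_ap h]
  unfold part
  by_cases h1 : i = g
  · subst h1
    have h2 : ¬ (i ∈ T ∨ τ i ∈ T) := by tauto
    rw [if_neg h2, if_pos (Or.inl (Finset.mem_insert_self _ _)),
      if_pos (Or.inl (Finset.mem_singleton_self _))]
  · by_cases h3 : τ i = g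
    · have h2 : i = τ g := by rw [← h3, h]
      have h4 : ¬ (i ∈ T ∨ τ i ∈ T) := by
        rw [h3, h2]
        tauto
      rw [if_neg h4, if_pos (Or.inr (by rw [h3]; exact Finset.mem_insert_self _ _)),
        if_pos (Or.inr (by rw [h3]; exact Finset.mem_singleton_self _))]
    · have h5 : (i ∈ insert g T ∨ τ i ∈ insert g T) ↔ (i ∈ T ∨ τ i ∈ T) := by
        rw [Finset.mem_insert, Finset.mem_insert]
        tauto
      by_cases h6 : i ∈ T ∨ τ i ∈ T
      · rw [if_pos h6, if_pos (h5.2 h6), if_neg]
        rw [Finset.mem_singleton, Finset.mem_singleton, h]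
        tauto
      · rw [if_neg h6, if_neg (fun h' => h6 (h5.1 h')), if_neg]
        rw [Finset.mem_singleton, Finset.mem_singleton]
        tauto

private theorem swp_comm {τ : Equiv.Perm ι} {P : Finset ι} (hP : Pairing τ P) {g g' : ι}
    (hg : g ∈ P) (hg' : g' ∈ P) (hne : g ≠ g') :
    swp τ {g} * swp τ {g'} = swp τ {g'} * swp τ {g} := by
  rw [← swp_insert hP.inv, ← swp_insert hP.inv, Finset.pair_comm]
  · rw [Finset.mem_singleton]; exact hne.symm
  · rw [Finset.mem_singleton]; exact fun h => hP.disj g' hg' (h ▸ hg)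
  · rw [Finset.mem_singleton]; exact hne
  · rw [Finset.mem_singleton]; exact fun h => hP.disj g hg (h ▸ hg')

/-- The sign of a label. -/
private def sg (τ : Equiv.Perm ι) (P T : Finset ι) (b : ι → Bool) : F :=
  (-1 : F) ^ (T ∩ neg τ P b).card

private def d2 (τ : Equiv.Perm ι) (g : ι) (x : ι → Bool) : F := if x g = x (τ g) then 0 else 1

private theorem sg_one {τ : Equiv.Perm ι} {P : Finset ι} {g : ι} (hg : g ∈ P) (x : ι → Bool) :
    (sg τ P {g} x : F) = if x g = true ∧ x (τ g) = false then -1 else 1 := by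
  unfold sg neg
  by_cases h : x g = true ∧ x (τ g) = false
  · rw [if_pos h]
    have h1 : ({g} : Finset ι) ∩ P.filter (fun g => x g = true ∧ x (τ g) = false) = {g} := by
      rw [Finset.inter_eq_left, Finset.singleton_subset_iff, Finset.mem_filter]
      exact ⟨hg, h⟩
    rw [h1, Finset.card_singleton, pow_one]
  · rw [if_neg h]
    have h1 : ({g} : Finset ι) ∩ P.filter (fun g => x g = true ∧ x (τ g) = false) = ∅ := by
      rw [Finset.singleton_inter_of_notMem]
      rw [Finset.mem_filter]
      exact fun h' => h h'.2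
    rw [h1, Finset.card_empty, pow_zero]

private theorem sg_insert {τ : Equiv.Perm ι} {P T : Finset ι} {g : ι} (hg : g ∉ T)
    (x : ι → Bool) : (sg τ P (insert g T) x : F) = sg τ P {g} x * sg τ P T x := by
  unfold sg
  rw [← pow_add, ← Finset.card_union_of_disjoint, ← Finset.union_inter_distrib_right,
    Finset.insert_eq]
  rw [Finset.disjoint_left]
  intro a ha ha'
  rw [Finset.mem_inter, Finset.mem_singleton] at ha
  rw [Finset.mem_inter] at ha'
  exact hg (ha.1 ▸ ha'.1)

/-- The bits of the other pairs are not changed. -/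
private theorem swp_other {τ : Equiv.Perm ι} {P : Finset ι} (hP : Pairing τ P) {g g' : ι}
    (hg : g ∈ P) (hg' : g' ∈ P) (hne : g' ≠ g) :
    swp τ {g} g' = g' ∧ swp τ {g} (τ g') = τ g' := by
  have h1 : τ g' ≠ g := fun h => hP.disj g' hg' (h ▸ hg)
  rw [swp_ap hP.inv, swp_ap hP.inv]
  unfold part
  constructor
  · rw [if_neg]
    rw [Finset.mem_singleton, Finset.mem_singleton]
    tauto
  · rw [if_neg]
    rw [Finset.mem_singleton, Finset.mem_singleton, hP.inv]
    tauto

private theorem swp_self {τ : Equiv.Perm ι} (h : ∀ i, τ (τ i) = i) (g : ι) :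
    swp τ {g} g = τ g ∧ swp τ {g} (τ g) = g := by
  rw [swp_ap h, swp_ap h]
  unfold part
  constructor
  · rw [if_pos (Or.inl (Finset.mem_singleton_self _))]
  · rw [if_pos (Or.inr (by rw [h]; exact Finset.mem_singleton_self _)), h]

private theorem swp_swp {τ : Equiv.Perm ι} (h : ∀ i, τ (τ i) = i) (T : Finset ι) (i : ι) :
    swp τ T (swp τ T i) = i := by
  rw [swp_ap h, swp_ap h]
  exact part_part h T i

/-- If the two bits agree the swap does nothing. -/
private theorem swp_id {τ : Equiv.Perm ι} (h : ∀ i, τ (τ i) = i) {g : ι} {x : ι → Bool}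
    (hx : x g = x (τ g)) : (fun i => x (swp τ {g} i)) = x := by
  funext i
  rw [swp_ap h]
  unfold part
  by_cases h1 : i ∈ ({g} : Finset ι) ∨ τ i ∈ ({g} : Finset ι)
  · rw [if_pos h1]
    rw [Finset.mem_singleton, Finset.mem_singleton] at h1
    rcases h1 with rfl | h1
    · exact hx.symm
    · have h2 : i = τ g := by rw [← h1, h]
      rw [h1, h2, hx]
  · rw [if_neg h1]

private theorem sg_inv {τ : Equiv.Perm ι} {P T : Finset ι} (hP : Pairing τ P) {g : ι}
    (hg : g ∈ P) (hT : T ⊆ P) (hgT : g ∉ T) (x : ι → Bool) :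
    (sg τ P T (fun i => x (swp τ {g} i)) : F) = sg τ P T x := by
  unfold sg
  congr 2
  ext a
  unfold neg
  rw [Finset.mem_inter, Finset.mem_inter, Finset.mem_filter, Finset.mem_filter]
  refine and_congr_right fun ha => and_congr_right fun haP => ?_
  have hne : a ≠ g := fun h => hgT (h ▸ ha)
  have h1 := swp_other hP hg haP hne
  beta_reduce
  rw [h1.1, h1.2]

private theorem d2_inv {τ : Equiv.Perm ι} {P : Finset ι} (hP : Pairing τ P) {g g' : ι}
    (hg : g ∈ P) (hg' : g' ∈ P) (x : ι → Bool) :
    (d2 τ g' (fun i => x (swp τ {g} i)) : F) = d2 τ g' x := by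
  unfold d2
  by_cases h : g' = g
  · subst h
    have h1 := swp_self hP.inv g'
    beta_reduce
    rw [h1.1, h1.2]
    by_cases h2 : x g' = x (τ g')
    · rw [if_pos h2, if_pos h2.symm]
    · rw [if_neg h2, if_neg (Ne.symm h2)]
  · have h1 := swp_other hP hg hg' h
    beta_reduce
    rw [h1.1, h1.2]

/-- The change of basis in the pair of `g`. -/
private def hh (τ : Equiv.Perm ι) (P : Finset ι) (g : ι) : Matrix (ι → Bool) (ι → Bool) F :=
  Matrix.diagonal (sg τ P {g}) + Matrix.diagonal (d2 τ g) * pm (swp τ {g})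

private theorem hh_mul (τ : Equiv.Perm ι) (P : Finset ι) (g : ι)
    (M : Matrix (ι → Bool) (ι → Bool) F) (x b : ι → Bool) :
    ((hh τ P g : Matrix (ι → Bool) (ι → Bool) F) * M) x b =
      sg τ P {g} x * M x b + d2 τ g x * M (fun i => x (swp τ {g} i)) b := by
  unfold hh
  rw [add_mul, Matrix.add_apply, Matrix.diagonal_mul, mul_assoc, Matrix.diagonal_mul, pm_mul]

private theorem hh_apply (τ : Equiv.Perm ι) (P : Finset ι) (g : ι) (x b : ι → Bool) :
    (hh τ P g : Matrix (ι → Bool) (ι → Bool) F) x b =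
      sg τ P {g} x * (if x = b then 1 else 0) +
        d2 τ g x * (if (fun i => x (swp τ {g} i)) = b then 1 else 0) := by
  have h := hh_mul τ P g (1 : Matrix (ι → Bool) (ι → Bool) F) x b
  rw [mul_one, Matrix.one_apply, Matrix.one_apply] at h
  exact h

private theorem hh_hh {τ : Equiv.Perm ι} {P : Finset ι} (hP : Pairing τ P) {g : ι} (hg : g ∈ P) :
    (hh τ P g * hh τ P g : Matrix (ι → Bool) (ι → Bool) F) =
      Matrix.diagonal fun x => 1 + d2 τ g x := by
  ext x b
  have hs : (fun i => (fun j => x (swp τ {g} j)) (swp τ {g} i)) = x :=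
    funext fun i => congrArg x (swp_swp hP.inv _ i)
  rw [hh_mul, hh_apply, hh_apply, hs, d2_inv hP hg hg, Matrix.diagonal_apply]
  by_cases h : x g = x (τ g)
  · have h1 : (d2 τ g x : F) = 0 := if_pos h
    have h2 : (sg τ P {g} x : F) = 1 := by
      rw [sg_one hg, if_neg]
      rw [h]
      intro h'
      exact absurd (h'.1.symm.trans h'.2) (by decide)
    rw [h1, h2]
    by_cases h3 : x = b
    · rw [if_pos h3, if_pos h3]; ring
    · rw [if_neg h3, if_neg h3]; ring
  · have h1 : (d2 τ g x : F) = 1 := if_neg h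
    have h2 : (sg τ P {g} (fun i => x (swp τ {g} i)) : F) = - sg τ P {g} x := by
      rw [sg_one hg, sg_one hg, (swp_self hP.inv g).1, (swp_self hP.inv g).2]
      rcases hx : x g <;> rcases hy : x (τ g) <;> simp_all
    have h4 : (sg τ P {g} x : F) * sg τ P {g} x = 1 := by
      rw [sg_one hg]
      split_ifs <;> ring
    rw [h1, h2]
    by_cases h3 : x = b
    · rw [if_pos h3, if_pos h3]
      linear_combination h4
    · rw [if_neg h3, if_neg h3]; ring

private theorem pm_hh {τ : Equiv.Perm ι} {P : Finset ι} (hP : Pairing τ P) {g : ι} (hg : g ∈ P) :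
    (pm (swp τ {g}) * hh τ P g : Matrix (ι → Bool) (ι → Bool) F) =
      hh τ P g * Matrix.diagonal (sg τ P {g}) := by
  ext x b
  have hs : (fun i => (fun j => x (swp τ {g} j)) (swp τ {g} i)) = x :=
    funext fun i => congrArg x (swp_swp hP.inv _ i)
  rw [pm_mul, hh_apply, hs, Matrix.mul_diagonal, hh_apply, d2_inv hP hg hg]
  by_cases h : x g = x (τ g)
  · have h1 : (d2 τ g x : F) = 0 := if_pos h
    have h2 : (sg τ P {g} x : F) = 1 := by
      rw [sg_one hg, if_neg]
      rw [h]
      intro h'
      exact absurd (h'.1.symm.trans h'.2) (by decide)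
    rw [h1, swp_id hP.inv h]
    by_cases h3 : x = b
    · rw [← h3, if_pos rfl, h2]; ring
    · rw [if_neg h3]; ring
  · have h1 : (d2 τ g x : F) = 1 := if_neg h
    have h4 : (sg τ P {g} x : F) * sg τ P {g} x = 1 := by
      rw [sg_one hg]
      split_ifs <;> ring
    rw [h1]
    by_cases h3 : x = b
    · rw [if_pos h3, ← h3]
      by_cases h5 : (fun i => x (swp τ {g} i)) = x
      · rw [if_pos h5, h5]
        linear_combination -h4
      · rw [if_neg h5]
        linear_combination -h4
    · rw [if_neg h3]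
      by_cases h5 : (fun i => x (swp τ {g} i)) = b
      · rw [if_pos h5, h5]; ring
      · rw [if_neg h5]; ring

/-- `hh g` commutes with the operators of the other pairs. -/
private theorem hh_diag {τ : Equiv.Perm ι} {P : Finset ι} (g : ι) (d : (ι → Bool) → F)
    (hd : ∀ x, d (fun i => x (swp τ {g} i)) = d x) :
    Matrix.diagonal d * hh τ P g = hh τ P g * Matrix.diagonal d := by
  unfold hh
  rw [mul_add, add_mul, Matrix.diagonal_mul_diagonal, Matrix.diagonal_mul_diagonal, mul_assoc,
    pm_diag _ d hd, ← mul_assoc, ← mul_assoc, Matrix.diagonal_mul_diagonal,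
    Matrix.diagonal_mul_diagonal]
  congr 2
  · exact funext fun x => mul_comm _ _
  · congr 1
    exact funext fun x => mul_comm _ _

private theorem hh_pm {τ : Equiv.Perm ι} {P : Finset ι} (hP : Pairing τ P) {g g' : ι}
    (hg : g ∈ P) (hg' : g' ∈ P) (hne : g' ≠ g) :
    (pm (swp τ {g'}) * hh τ P g : Matrix (ι → Bool) (ι → Bool) F) =
      hh τ P g * pm (swp τ {g'}) := by
  unfold hh
  rw [mul_add, add_mul, pm_diag, ← mul_assoc, pm_diag, mul_assoc, mul_assoc, pm_pm, pm_pm,
    swp_comm hP hg' hg hne]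
  · exact fun x => d2_inv hP hg' hg x
  · exact fun x => sg_inv hP hg' (Finset.singleton_subset_iff.2 hg)
      (by rw [Finset.mem_singleton]; exact hne) x

theorem exists_eigenbasis (h2 : (2 : F) ≠ 0) {τ : Equiv.Perm ι} {P : Finset ι}
    (hP : Pairing τ P) :
    ∃ G G' : Matrix (ι → Bool) (ι → Bool) F, G * G' = 1 ∧ ∀ T, T ⊆ P →
      pm (swp τ T) * G =
        G * Matrix.diagonal (fun b => (-1 : F) ^ (T ∩ neg τ P b).card) := by
  have main : ∀ Q : Finset ι, Q ⊆ P → ∃ G G' : Matrix (ι → Bool) (ι → Bool) F, G * G' = 1 ∧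
      (∀ T, T ⊆ Q → pm (swp τ T) * G = G * Matrix.diagonal (sg τ P T)) ∧
      ∀ g ∈ P, g ∉ Q → pm (swp τ {g}) * G = G * pm (swp τ {g}) := by
    intro Q
    induction Q using Finset.induction_on with
    | empty =>
      intro _
      refine ⟨1, 1, one_mul 1, ?_, fun g _ _ => by rw [one_mul, mul_one]⟩
      intro T hT
      rw [Finset.subset_empty.1 hT, one_mul, mul_one]
      ext x b
      have h1 : (fun i => x (swp τ ∅ i)) = x := by
        funext i
        rw [swp_ap hP.inv]
        unfold part
        rw [if_neg (by simp)]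
      rw [pm_eq, h1, Matrix.diagonal_apply]
      unfold sg
      rw [Finset.empty_inter, Finset.card_empty, pow_zero]
    | insert g Q hg ih =>
      intro hQ
      have hgP : g ∈ P := hQ (Finset.mem_insert_self _ _)
      have hQP : Q ⊆ P := fun a ha => hQ (Finset.mem_insert_of_mem ha)
      obtain ⟨G, G', h1, h3, h4⟩ := ih hQP
      refine ⟨G * hh τ P g, hh τ P g * Matrix.diagonal (fun x => (1 + d2 τ g x)⁻¹) * G', ?_,
        ?_, ?_⟩
      · have h5 : (hh τ P g : Matrix (ι → Bool) (ι → Bool) F) *
            (hh τ P g * Matrix.diagonal (fun x => (1 + d2 τ g x)⁻¹)) = 1 := by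
          rw [← mul_assoc, hh_hh hP hgP, Matrix.diagonal_mul_diagonal, ← Matrix.diagonal_one]
          congr 1
          funext x
          apply mul_inv_cancel₀
          unfold d2
          split_ifs
          · rw [add_zero]; exact one_ne_zero
          · rw [one_add_one_eq_two]; exact h2
        rw [mul_assoc, ← mul_assoc (hh τ P g), h5, one_mul, h1]
      · intro T hT
        by_cases hgT : g ∈ T
        · have hTe : T.erase g ⊆ Q := by
            intro a ha
            rw [Finset.mem_erase] at ha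
            exact (Finset.mem_insert.1 (hT ha.2)).resolve_left ha.1
          have hgn : g ∉ T.erase g := Finset.notMem_erase g T
          have hgn' : τ g ∉ T.erase g := fun h => hP.disj g hgP (hQP (hTe h))
          rw [← Finset.insert_erase hgT, swp_insert hP.inv hgn hgn', ← pm_pm, mul_assoc,
            ← mul_assoc (pm (swp τ (T.erase g))), h3 _ hTe, mul_assoc G, hh_diag g _
            (fun x => sg_inv hP hgP (hTe.trans hQP) hgn x), ← mul_assoc, h4 g hgP hg,
            mul_assoc G, ← mul_assoc (pm (swp τ {g})), pm_hh hP hgP, mul_assoc (hh τ P g),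
            Matrix.diagonal_mul_diagonal, ← mul_assoc]
          congr 2
          exact funext fun x => (sg_insert hgn x).symm
        · have hTQ : T ⊆ Q := fun a ha =>
            (Finset.mem_insert.1 (hT ha)).resolve_left fun h => hgT (h ▸ ha)
          rw [← mul_assoc, h3 T hTQ, mul_assoc, hh_diag g _
            (fun x => sg_inv hP hgP (hTQ.trans hQP) hgT x), mul_assoc]
      · intro g' hg' hgQ
        rw [Finset.mem_insert, not_or] at hgQ
        rw [← mul_assoc, h4 g' hg' hgQ.2, mul_assoc, hh_pm hP hgP hg' hgQ.1, mul_assoc]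
  obtain ⟨G, G', h1, h3, -⟩ := main P (Finset.Subset.refl P)
  exact ⟨G, G', h1, h3⟩

theorem rank_le (h2 : (2 : F) ≠ 0) {τ : Equiv.Perm ι} {P : Finset ι} (hP : Pairing τ P)
    (c : Finset ι → F) :
    (1 - ∑ T ∈ P.powerset, c T • (pm (swp τ T) : Matrix (ι → Bool) (ι → Bool) F)).rank ≤
      ({b | ∑ T ∈ P.powerset, c T * (-1) ^ (T ∩ neg τ P b).card ≠ 1} : Set (ι → Bool)).ncard := by
  classical
  obtain ⟨G, G', h1, h3⟩ := exists_eigenbasis (F := F) h2 hP
  have h4 : (1 - ∑ T ∈ P.powerset, c T • (pm (swp τ T) : Matrix (ι → Bool) (ι → Bool) F)) =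
      G * Matrix.diagonal (fun b => 1 - ∑ T ∈ P.powerset, c T * (-1) ^ (T ∩ neg τ P b).card) *
        G' := by
    have h5 : (Matrix.diagonal
        (fun b => 1 - ∑ T ∈ P.powerset, c T * (-1) ^ (T ∩ neg τ P b).card) :
          Matrix (ι → Bool) (ι → Bool) F) = 1 - ∑ T ∈ P.powerset,
          c T • Matrix.diagonal (fun b => (-1 : F) ^ (T ∩ neg τ P b).card) := by
      ext x b
      rw [Matrix.sub_apply, Matrix.sum_apply, Matrix.diagonal_apply, Matrix.one_apply]
      by_cases h : x = b
      · rw [if_pos h, if_pos h]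
        congr 1
        refine Finset.sum_congr rfl fun T _ => ?_
        rw [Matrix.smul_apply, Matrix.diagonal_apply, if_pos h, smul_eq_mul]
      · rw [if_neg h, if_neg h, Finset.sum_eq_zero, sub_zero]
        intro T _
        rw [Matrix.smul_apply, Matrix.diagonal_apply, if_neg h, smul_zero]
    rw [h5, mul_sub, sub_mul, mul_one, h1, Finset.mul_sum, Finset.sum_mul]
    congr 1
    refine Finset.sum_congr rfl fun T hT => ?_
    rw [Matrix.mul_smul, Matrix.smul_mul, ← h3 T (Finset.mem_powerset.1 hT), mul_assoc, h1,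
      mul_one]
  rw [h4]
  refine (Matrix.rank_mul_le_left _ _).trans ((Matrix.rank_mul_le_right _ _).trans ?_)
  rw [Matrix.rank_diagonal, ← Nat.card_coe_set_eq, Nat.card_eq_fintype_card]
  apply le_of_eq
  refine Fintype.card_congr (Equiv.subtypeEquivRight fun b => ?_)
  rw [Set.mem_ofPred_eq, sub_ne_zero]
  exact ne_comm

end MP0775d3.Bf
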