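import Pool.Agent.Lib.MP_0775d3_lc.Bf.ValSum

/-! The product tree of a three-term recurrence
`P (j + 1) = (a j * X + b j) * P j + c j * P (j - 1)`, `P 0 = 1`, `P (-1) = 0`.

With the transfer matrices `tm j = !![a j X + b j, c j; 1, 0]` and
`tp lo k = tm (lo + k - 1) * ... * tm lo` one has `P j = (tp 0 j) 0 0`.

PROOF of `rtree_eq`. By induction on `s ≤ K` the matrix `rlev (s - 1) * ... * rlev 0` has the entries
`((x, e), (j, 0)) ↦` coefficient `lv s x` of `(tp (B ^ s * q) (lv K j - B ^ s * q)) 0 e`, where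
`B ^ s * q = lv K j - lv s j` is the number with the digits of `j` in the positions `≥ s` and `0`
below, if `Hi s x j`, and `0` otherwise (`e : Fin 2`). Step: `tp lo (k + k') = tp (lo + k) k' * tp lo k`
and a product of polynomials, coefficient by coefficient (`sum_lv`, the entries of `tp lo k` have
degree at most `k`; for `k < B ^ s` all coefficients are seen). -/

set_option linter.unusedSectionVars false
set_option linter.unusedVariables false

namespace MP0775d3.Bf

open Matrix MP0775d3.Kron Polynomial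

variable {F : Type*} [Field F] {K B : ℕ}

/-- Transfer matrix of the recurrence. -/
noncomputable def tm (a b c : ℕ → F) (j : ℕ) : Matrix (Fin 2) (Fin 2) F[X] :=
  !![C (a j) * X + C (b j), C (c j); 1, 0]

/-- `tp lo k = tm (lo + k - 1) * ... * tm lo`. -/
noncomputable def tp (a b c : ℕ → F) (lo : ℕ) : ℕ → Matrix (Fin 2) (Fin 2) F[X]
  | 0 => 1
  | k + 1 => tm a b c (lo + k) * tp a b c lo k

theorem tp_add (a b c : ℕ → F) (lo k k' : ℕ) :
    tp a b c lo (k + k') = tp a b c (lo + k) k' * tp a b c lo k := by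
  induction k' with
  | zero =>
    change tp a b c lo k = 1 * tp a b c lo k
    rw [Matrix.one_mul]
  | succ k' ih =>
    change tm a b c (lo + (k + k')) * tp a b c lo (k + k') =
      (tm a b c (lo + k + k') * tp a b c (lo + k) k') * tp a b c lo k
    rw [ih, ← Nat.add_assoc lo k k', Matrix.mul_assoc]

private theorem rec_tm_degree (a b c : ℕ → F) (j : ℕ) (e e' : Fin 2) :
    (tm a b c j e e').natDegree ≤ 1 := by
  have h1 : (C (a j) * X + C (b j) : F[X]).natDegree ≤ 1 := natDegree_linear_le
  have h2 : (C (c j) : F[X]).natDegree ≤ 1 := by rw [natDegree_C]; exact Nat.zero_le 1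
  have h3 : (1 : F[X]).natDegree ≤ 1 := by rw [natDegree_one]; exact Nat.zero_le 1
  have h4 : (0 : F[X]).natDegree ≤ 1 := by rw [natDegree_zero]; exact Nat.zero_le 1
  fin_cases e <;> fin_cases e'
  · exact h1
  · exact h2
  · exact h3
  · exact h4

theorem tp_degree (a b c : ℕ → F) (lo k : ℕ) (e e' : Fin 2) :
    (tp a b c lo k e e').natDegree ≤ k := by
  induction k generalizing e e' with
  | zero =>
    change ((1 : Matrix (Fin 2) (Fin 2) F[X]) e e').natDegree ≤ 0
    rw [Matrix.one_apply]
    split_ifs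
    · rw [natDegree_one]
    · rw [natDegree_zero]
  | succ k ih =>
    change ((tm a b c (lo + k) * tp a b c lo k) e e').natDegree ≤ k + 1
    rw [Matrix.mul_apply]
    refine natDegree_sum_le_of_forall_le _ _ fun i _ => ?_
    refine natDegree_mul_le.trans ?_
    have h1 := rec_tm_degree a b c (lo + k) e i
    have h2 := ih i e'
    omega

private theorem rec_coeff (R P : F[X]) (N n : ℕ) (hR : R.natDegree < N) :
    ∑ m ∈ Finset.range N, (if m ≤ n then P.coeff (n - m) else 0) * R.coeff m =
      (R * P).coeff n := by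
  rw [Polynomial.coeff_mul, Finset.Nat.sum_antidiagonal_eq_sum_range_succ_mk]
  have h1 : ∑ m ∈ Finset.range N, (if m ≤ n then P.coeff (n - m) else 0) * R.coeff m =
      ∑ m ∈ Finset.range (N + (n + 1)), (if m ≤ n then P.coeff (n - m) else 0) * R.coeff m := by
    refine Finset.sum_subset (Finset.range_subset_range.2 (Nat.le_add_right _ _)) ?_
    intro m _ hm
    rw [Finset.mem_range, not_lt] at hm
    rw [coeff_eq_zero_of_natDegree_lt (lt_of_lt_of_le hR hm), mul_zero]
  have h2 : ∑ m ∈ Finset.range (n + 1), R.coeff m * P.coeff (n - m) =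
      ∑ m ∈ Finset.range (N + (n + 1)), (if m ≤ n then P.coeff (n - m) else 0) * R.coeff m := by
    have h3 : ∑ m ∈ Finset.range (n + 1), R.coeff m * P.coeff (n - m) =
        ∑ m ∈ Finset.range (n + 1), (if m ≤ n then P.coeff (n - m) else 0) * R.coeff m := by
      refine Finset.sum_congr rfl fun m hm => ?_
      rw [Finset.mem_range] at hm
      rw [if_pos (Nat.lt_succ_iff.1 hm), mul_comm]
    rw [h3]
    refine Finset.sum_subset (Finset.range_subset_range.2 (Nat.le_add_left _ _)) ?_
    intro m _ hm
    rw [Finset.mem_range, not_lt] at hm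
    rw [if_neg (by omega), zero_mul]
  rw [h1, ← h2]

private theorem rec_high (t : ℕ) (x : Fin K → Fin B) :
    lv K x - lv t x = ∑ a : Fin K, if t ≤ a.val then (x a).val * B ^ a.val else 0 := by
  have h : lv K x = lv t x + ∑ a : Fin K, if t ≤ a.val then (x a).val * B ^ a.val else 0 := by
    unfold lv
    rw [← Finset.sum_add_distrib]
    refine Finset.sum_congr rfl fun i _ => ?_
    rw [if_pos i.isLt]
    by_cases h1 : i.val < t
    · rw [if_pos h1, if_neg (not_le.2 h1), add_zero]
    · rw [if_neg h1, if_pos (not_lt.1 h1), zero_add]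
  rw [h, Nat.add_sub_cancel_left]

private theorem rec_high_congr {t : ℕ} {x y : Fin K → Fin B} (h : Hi t x y) :
    lv K x - lv t x = lv K y - lv t y := by
  rw [rec_high, rec_high]
  refine Finset.sum_congr rfl fun i _ => ?_
  by_cases h1 : t ≤ i.val
  · rw [if_pos h1, if_pos h1, h i h1]
  · rw [if_neg h1, if_neg h1]

/-- One level: rows `(x, e)`, columns `(y, e')`. The node of `x` of size `B ^ (s + 1)` starts at
`lv K x - lv (s + 1) x`, its child of `y` starts `y s * B ^ s` later. -/
noncomputable def rlev (a b c : ℕ → F) (s : Fin K) :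
    Matrix (Dg K B (Fin 2)) (Dg K B (Fin 2)) F :=
  fun x y => if Hi (s.val + 1) x.1 y.1 ∧ lv s.val y.1 ≤ lv (s.val + 1) x.1 then
    (tp a b c (lv K x.1 - lv (s.val + 1) x.1) ((y.1 s).val * B ^ s.val) y.2 x.2).coeff
      (lv (s.val + 1) x.1 - lv s.val y.1) else 0

private theorem rec_step (a b c : ℕ → F) (s : Fin K)
    (A : Matrix (Dg K B (Fin 2)) (Dg K B (Fin 2)) F)
    (hA : ∀ (x j : Fin K → Fin B) (e : Fin 2), A (x, e) (j, 0) = if Hi s.val x j then
      (tp a b c (lv K j - lv s.val j) (lv s.val j) 0 e).coeff (lv s.val x) else 0)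
    (x j : Fin K → Fin B) (e : Fin 2) :
    ((rlev a b c s : Matrix (Dg K B (Fin 2)) (Dg K B (Fin 2)) F) * A) (x, e) (j, 0) =
      if Hi (s.val + 1) x j then
      (tp a b c (lv K j - lv (s.val + 1) j) (lv (s.val + 1) j) 0 e).coeff
        (lv (s.val + 1) x) else 0 := by
  classical
  rw [Matrix.mul_apply, Fintype.sum_prod_type]
  by_cases hx : Hi (s.val + 1) x j
  · rw [if_pos hx]
    set n := lv (s.val + 1) x with hn
    set lo := lv K j - lv (s.val + 1) j with hlo
    set k1 := (j s).val * B ^ s.val with hk1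
    have hlv : lv (s.val + 1) j = lv s.val j + k1 := lv_succ s j
    have hle : lv (s.val + 1) j ≤ lv K j := by
      have h1 := rec_high (s.val + 1) j
      unfold lv
      refine Finset.sum_le_sum fun i _ => ?_
      rw [if_pos i.isLt]
      split_ifs
      · exact le_rfl
      · exact Nat.zero_le _
    have hlo2 : lv K j - lv s.val j = lo + k1 := by omega
    have h1 : ∀ y : Fin K → Fin B, (∑ e' : Fin 2, rlev a b c s (x, e) (y, e') * A (y, e') (j, 0)) =
        if Hi s.val y j then (∑ e' : Fin 2, (if lv s.val y ≤ n then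
          (tp a b c lo k1 e' e).coeff (n - lv s.val y) else 0) *
            (tp a b c (lo + k1) (lv s.val j) 0 e').coeff (lv s.val y)) else 0 := by
      intro y
      by_cases hy : Hi s.val y j
      · rw [if_pos hy]
        refine Finset.sum_congr rfl fun e' _ => ?_
        rw [hA, if_pos hy, hlo2]
        congr 1
        have hxy : Hi (s.val + 1) x y := hx.trans (hy.mono (Nat.le_succ _)).symm
        have hys : y s = j s := hy s le_rfl
        unfold rlev
        simp only [hxy, true_and]
        rw [rec_high_congr hx, hys]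
      · rw [if_neg hy]
        refine Finset.sum_eq_zero fun e' _ => ?_
        rw [hA, if_neg hy, mul_zero]
    rw [Finset.sum_congr rfl (fun y _ => h1 y), ← Finset.sum_filter,
      sum_lv (Nat.le_of_lt s.isLt) j (fun m => ∑ e' : Fin 2, (if m ≤ n then
          (tp a b c lo k1 e' e).coeff (n - m) else 0) *
            (tp a b c (lo + k1) (lv s.val j) 0 e').coeff m), Finset.sum_comm]
    have h2 : ∀ e' : Fin 2, ∑ m ∈ Finset.range (B ^ s.val), (if m ≤ n then
        (tp a b c lo k1 e' e).coeff (n - m) else 0) *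
          (tp a b c (lo + k1) (lv s.val j) 0 e').coeff m =
        (tp a b c (lo + k1) (lv s.val j) 0 e' * tp a b c lo k1 e' e).coeff n := by
      intro e'
      refine rec_coeff _ _ _ _ ?_
      exact lt_of_le_of_lt (tp_degree a b c _ _ _ _) (lv_lt (Nat.le_of_lt s.isLt) j)
    rw [Finset.sum_congr rfl (fun e' _ => h2 e'), ← finsetSum_coeff, ← Matrix.mul_apply, ← tp_add,
      hlv, Nat.add_comm k1]
  · rw [if_neg hx]
    refine Finset.sum_eq_zero fun y _ => Finset.sum_eq_zero fun e' _ => ?_
    rw [hA]
    by_cases hy : Hi s.val y j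
    · have hxy : ¬ Hi (s.val + 1) x y := fun h => hx (h.trans (hy.mono (Nat.le_succ _)))
      have h1 : rlev a b c s (x, e) (y, e') = 0 := by
        unfold rlev
        exact if_neg fun h => hxy h.1
      rw [h1, zero_mul]
    · rw [if_neg hy, mul_zero]

private theorem rec_key (a b c : ℕ → F) (s : ℕ) : ∀ hs : s ≤ K, ∀ (x j : Fin K → Fin B)
    (e : Fin 2), (List.ofFn fun i : Fin s => (rlev a b c (Fin.castLE hs i.rev) :
      Matrix (Dg K B (Fin 2)) _ F)).prod (x, e) (j, 0) = if Hi s x j then
        (tp a b c (lv K j - lv s j) (lv s j) 0 e).coeff (lv s x) else 0 := by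
  induction s with
  | zero =>
    intro hs x j e
    rw [List.ofFn_zero, List.prod_nil, lv_zero, lv_zero]
    change _ = if Hi 0 x j then ((1 : Matrix (Fin 2) (Fin 2) F[X]) 0 e).coeff 0 else 0
    rw [Matrix.one_apply, Matrix.one_apply]
    by_cases hx : x = j
    · rw [if_pos (hi_zero.2 hx)]
      by_cases he : e = 0
      · rw [if_pos (by rw [hx, he]), if_pos he.symm, coeff_one_zero]
      · rw [if_neg (fun h => he (congrArg Prod.snd h)), if_neg (fun h => he h.symm), coeff_zero]
    · rw [if_neg (fun h => hx (hi_zero.1 h)), if_neg (fun h => hx (congrArg Prod.fst h))]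
  | succ s ih =>
    intro hs x j e
    rw [List.ofFn_succ, List.prod_cons]
    have h0 : Fin.castLE hs (Fin.rev (0 : Fin (s + 1))) = ⟨s, hs⟩ := by
      apply Fin.ext
      simp
    have h1 : ∀ i : Fin s, Fin.castLE hs (Fin.rev i.succ) =
        Fin.castLE (Nat.le_of_succ_le hs) i.rev := by
      intro i
      apply Fin.ext
      simp
    rw [h0]
    simp only [h1]
    exact rec_step a b c ⟨s, hs⟩ _ (ih (Nat.le_of_succ_le hs)) x j e

theorem rtree_eq (a b c : ℕ → F) (x j : Fin K → Fin B) :
    (List.ofFn fun s : Fin K => (rlev a b c s.rev : Matrix (Dg K B (Fin 2)) _ F)).prod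
      (x, 0) (j, 0) = (tp a b c 0 (lv K j) 0 0).coeff (lv K x) := by
  have h := rec_key a b c K le_rfl x j 0
  rw [if_pos (hi_top x j), Nat.sub_self] at h
  exact h

end MP0775d3.Bf
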