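import Pool.Agent.Lib.MP_0775d3_lc.Bf.Coeff
import Pool.Agent.Lib.MP_0775d3_lc.Bf.Rank
import Pool.Agent.Lib.MP_0775d3_lc.Bf.Count

/-! Resolution of the identity: up to a matrix of small rank the identity is a combination of
slot permutations which swap almost all pairs.

PROOF. `exists_coeff` with `w = ⌈K/4 - η N⌉₊`, `L = ⌊2 η N⌋₊ + 1`, `rank_le`, `count_le`. -/

set_option linter.unusedSectionVars false
set_option linter.unusedVariables false

namespace MP0775d3.Bf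

open Matrix MP0775d3.Kron

variable {F : Type*} [Field F] {ι : Type*} [Fintype ι] [DecidableEq ι]

theorem resolution (h2 : (2 : F) ≠ 0) {τ : Equiv.Perm ι} {P : Finset ι} (hP : Pairing τ P)
    (η : ℝ) (hη : 0 < η) (hη1 : η ≤ 1) :
    ∃ c : Finset ι → F,
      (∀ T, c T ≠ 0 → T ⊆ P ∧ (P.card : ℝ) ≤ T.card + 2 * η * Fintype.card ι) ∧
      ((1 - ∑ T ∈ P.powerset,
        c T • (pm (swp τ T) : Matrix (ι → Bool) (ι → Bool) F)).rank : ℝ) ≤
        2 * 2 ^ Fintype.card ι * Real.exp (-(η ^ 2 * Fintype.card ι / 16)) := by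
  obtain ⟨c, hc, hB⟩ := exists_coeff (F := F) h2 P
    ⌈(P.card : ℝ) / 4 - η * Fintype.card ι⌉₊ (⌊2 * η * Fintype.card ι⌋₊ + 1)
  have h0 : (0 : ℝ) ≤ 2 * η * Fintype.card ι := by positivity
  refine ⟨c, fun T hT => ?_, ?_⟩
  · obtain ⟨h1, h3⟩ := hc T hT
    refine ⟨h1, ?_⟩
    have h4 : P.card ≤ T.card + ⌊2 * η * Fintype.card ι⌋₊ := by omega
    have h5 : (P.card : ℝ) ≤ T.card + (⌊2 * η * Fintype.card ι⌋₊ : ℝ) := by exact_mod_cast h4
    have h6 := Nat.floor_le h0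
    linarith
  · refine le_trans ?_ (count_le hP η hη hη1)
    refine Nat.cast_le.2 ((rank_le h2 hP c).trans (Set.ncard_le_ncard ?_ (Set.toFinite _)))
    intro b hb h
    refine hb (hB (neg τ P b) (Finset.filter_subset _ _) (Nat.ceil_le.2 h.1) ?_)
    have h3 := Nat.le_ceil ((P.card : ℝ) / 4 - η * Fintype.card ι)
    have h4 := Nat.lt_floor_add_one (2 * η * Fintype.card ι)
    have h5 : ((neg τ P b).card : ℝ) < (⌈(P.card : ℝ) / 4 - η * Fintype.card ι⌉₊ : ℝ) +
        ((⌊2 * η * Fintype.card ι⌋₊ : ℝ) + 1) := by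
      have h6 := h.2
      linarith
    exact_mod_cast h5

end MP0775d3.Bf
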