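import Pool.Agent.Lib.MP_0775d3_lc.Bf.Resolution
import Pool.Agent.Lib.MP_0775d3_lc.Bf.Involution

/-! One step of the merging argument.

PROOF of `step`. Let `A = R + ∑ B`, `B ∈ l`. Choose by `exists_pairing` an involution `τ` with
`τ (Z) ⊆ ρ⁻¹ (Y)`, i.e. `ρ (τ i) ∈ Y` for `i ∈ Z`. `resolution`: `1 = E + ∑ c T • pm (swp τ T)`.
`A * M = R * M + (∑ B) * E * M + ∑_B ∑_T c T • B * pm (swp τ T) * M`. With `Act σ U B` the last
terms satisfy `Act (σ * swp τ T) (U ∪ Z.image (σ * swp τ T))`; `σ * swp τ T` and `ρ' = ρ * τ` differ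
on at most `e + 2 ℓ` slots, and a slot of `Z.image (σ * swp τ T)` outside `Y` is the image of a slot
where they differ. -/

set_option linter.unusedSectionVars false
set_option linter.unusedVariables false

namespace MP0775d3.Bf

open Matrix MP0775d3.Kron

variable {F : Type*} [Field F] {ι : Type*} [Fintype ι] [DecidableEq ι]

/-- `A` acts essentially on the slots `Y`, after a slot permutation which is essentially `ρ`. -/
def Good (ρ : Equiv.Perm ι) (Y : Finset ι) (e f : ℕ) (A : Matrix (ι → Bool) (ι → Bool) F) :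
    Prop :=
  ∃ (σ : Equiv.Perm ι) (U : Finset ι), Act σ U A ∧
    (Finset.univ.filter fun i => σ i ≠ ρ i).card ≤ e ∧ (U \ Y).card ≤ f

/-- `A` is a matrix of rank at most `r` plus a sum of at most `m` good matrices. -/
def State (ρ : Equiv.Perm ι) (Y : Finset ι) (e f m : ℕ) (r : ℝ)
    (A : Matrix (ι → Bool) (ι → Bool) F) : Prop :=
  ∃ (R : Matrix (ι → Bool) (ι → Bool) F) (l : List (Matrix (ι → Bool) (ι → Bool) F)),
    A = R + l.sum ∧ (R.rank : ℝ) ≤ r ∧ l.length ≤ m ∧ ∀ B ∈ l, Good ρ Y e f B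

theorem state_one (Y : Finset ι) :
    State (1 : Equiv.Perm ι) Y 0 0 1 0 (1 : Matrix (ι → Bool) (ι → Bool) F) := by
  refine ⟨0, [1], by simp, by simp, by simp, ?_⟩
  intro B hB
  rw [List.mem_singleton] at hB
  rw [hB]
  exact ⟨1, ∅, act_one, by simp, by simp⟩

private theorem step_list (l : List (Matrix (ι → Bool) (ι → Bool) F))
    (S : Finset (Finset ι)) (g : Finset ι → Matrix (ι → Bool) (ι → Bool) F)
    (M : Matrix (ι → Bool) (ι → Bool) F) :
    ∃ l' : List (Matrix (ι → Bool) (ι → Bool) F), l'.sum = l.sum * (∑ T ∈ S, g T) * M ∧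
      l'.length = l.length * S.card ∧ ∀ B' ∈ l', ∃ B ∈ l, ∃ T ∈ S, B' = B * g T * M := by
  induction l with
  | nil => exact ⟨[], by simp, by simp, by simp⟩
  | cons B l ih =>
    obtain ⟨l', h1, h2, h3⟩ := ih
    refine ⟨S.toList.map (fun T => B * g T * M) ++ l', ?_, ?_, ?_⟩
    · rw [List.sum_append, h1, Finset.sum_map_toList, List.sum_cons, add_mul, add_mul,
        Finset.mul_sum S g B, Finset.sum_mul]
    · rw [List.length_append, List.length_map, Finset.length_toList, h2, List.length_cons,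
        add_mul, one_mul, add_comm]
    · intro B' hB'
      rw [List.mem_append, List.mem_map] at hB'
      rcases hB' with ⟨T, hT, rfl⟩ | hB'
      · exact ⟨B, List.mem_cons_self, T, Finset.mem_toList.1 hT, rfl⟩
      · obtain ⟨B₀, hB₀, T, hT, e⟩ := h3 B' hB'
        exact ⟨B₀, List.mem_cons_of_mem _ hB₀, T, hT, e⟩

private theorem step_good {ρ τ : Equiv.Perm ι} {P Y Z : Finset ι} (hP : Pairing τ P)
    (hτ : ∀ i ∈ Z, ρ (τ i) ∈ Y) {e f ℓ : ℕ} {B M : Matrix (ι → Bool) (ι → Bool) F}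
    (hB : Good ρ Y e f B) (hM : Act 1 Z M) {T : Finset ι} (hT : T ⊆ P)
    (hTl : P.card ≤ T.card + ℓ) (c : F) :
    Good (ρ * τ) Y (e + 2 * ℓ) (f + (e + 2 * ℓ)) (B * (c • pm (swp τ T)) * M) := by
  classical
  obtain ⟨σ, U, hA, hσ, hU⟩ := hB
  have h1 := act_mul (act_mul hA ((act_pm (F := F) (swp τ T)).smul c)) hM
  rw [Finset.image_empty, Finset.union_empty, mul_one] at h1
  have hcard : (Finset.univ.filter fun i => (σ * swp τ T) i ≠ (ρ * τ) i).card ≤ e + 2 * ℓ := by
    have h2 : (Finset.univ.filter fun i => (σ * swp τ T) i ≠ (ρ * τ) i) ⊆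
        (Finset.univ.filter fun i => σ (τ i) ≠ ρ (τ i)) ∪
        (Finset.univ.filter fun i => swp τ T i ≠ τ i) := by
      intro i hi
      rw [Finset.mem_filter] at hi
      rw [Finset.mem_union, Finset.mem_filter, Finset.mem_filter]
      by_contra hcon
      push Not at hcon
      have h3 := hcon.2 (Finset.mem_univ i)
      have h4 := hcon.1 (Finset.mem_univ i)
      apply hi.2
      rw [Equiv.Perm.mul_apply, Equiv.Perm.mul_apply, h3, h4]
    have h3 : (Finset.univ.filter fun i => σ (τ i) ≠ ρ (τ i)).card ≤ e := by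
      refine le_trans (Finset.card_le_card_of_injOn τ ?_ τ.injective.injOn) hσ
      intro i hi
      rw [Finset.mem_coe, Finset.mem_filter] at hi ⊢
      exact ⟨Finset.mem_univ _, hi.2⟩
    have h4 := swp_ne_card hP hT
    have h5 := Finset.card_le_card h2
    have h6 := Finset.card_union_le (Finset.univ.filter fun i => σ (τ i) ≠ ρ (τ i))
      (Finset.univ.filter fun i => swp τ T i ≠ τ i)
    omega
  refine ⟨σ * swp τ T, U ∪ Z.image (σ * swp τ T), h1, hcard, ?_⟩
  have h2 : (U ∪ Z.image (σ * swp τ T)) \ Y ⊆ (U \ Y) ∪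
      (Finset.univ.filter fun i => (σ * swp τ T) i ≠ (ρ * τ) i).image (σ * swp τ T) := by
    intro x hx
    rw [Finset.mem_sdiff, Finset.mem_union] at hx
    rw [Finset.mem_union, Finset.mem_sdiff]
    rcases hx.1 with h3 | h3
    · exact Or.inl ⟨h3, hx.2⟩
    · right
      obtain ⟨i, hi, rfl⟩ := Finset.mem_image.1 h3
      refine Finset.mem_image_of_mem _ (Finset.mem_filter.2 ⟨Finset.mem_univ _, ?_⟩)
      intro h4
      apply hx.2
      rw [h4]
      exact hτ i hi
  have h3 := Finset.card_le_card h2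
  have h4 := Finset.card_union_le (U \ Y)
    ((Finset.univ.filter fun i => (σ * swp τ T) i ≠ (ρ * τ) i).image (σ * swp τ T))
  have h5 := Finset.card_image_le (f := (σ * swp τ T))
    (s := Finset.univ.filter fun i => (σ * swp τ T) i ≠ (ρ * τ) i)
  omega

theorem step (h2 : (2 : F) ≠ 0) (Y Z : Finset ι) (hZ : Z.card ≤ Y.card)
    (M : Matrix (ι → Bool) (ι → Bool) F) (hM : Act 1 Z M) (η : ℝ) (hη : 0 < η) (hη1 : η ≤ 1)
    (ℓ m' : ℕ) (hℓ : 2 * η * Fintype.card ι ≤ ℓ)
    (hm : ∀ P : Finset ι, (P.powerset.filter fun T => P.card ≤ T.card + ℓ).card ≤ m')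
    {ρ : Equiv.Perm ι} {e f m : ℕ} {r : ℝ} {A : Matrix (ι → Bool) (ι → Bool) F}
    (h : State ρ Y e f m r A) :
    ∃ ρ' : Equiv.Perm ι, State ρ' Y (e + 2 * ℓ) (f + (e + 2 * ℓ)) (m * m')
      (r + 2 * 2 ^ Fintype.card ι * Real.exp (-(η ^ 2 * Fintype.card ι / 16))) (A * M) := by
  classical
  obtain ⟨R, l, hA, hR, hl, hgood⟩ := h
  obtain ⟨τ, P, hP, hτ⟩ := exists_pairing Z (Y.image ρ.symm) (by
    rw [Finset.card_image_of_injective _ ρ.symm.injective]
    exact hZ)
  have hτ' : ∀ i ∈ Z, ρ (τ i) ∈ Y := by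
    intro i hi
    obtain ⟨y, hy, e1⟩ := Finset.mem_image.1 (hτ i hi)
    rw [← e1, Equiv.apply_symm_apply]
    exact hy
  obtain ⟨c, hc, hrank⟩ := resolution h2 hP η hη hη1
  set g : Finset ι → Matrix (ι → Bool) (ι → Bool) F := fun T => c T • pm (swp τ T) with hg
  set S : Finset (Finset ι) := P.powerset.filter fun T => c T ≠ 0 with hS
  have hsum : ∑ T ∈ P.powerset, g T = ∑ T ∈ S, g T := by
    rw [hS, Finset.sum_filter]
    refine Finset.sum_congr rfl fun T _ => ?_
    by_cases h0 : c T = 0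
    · rw [if_neg (not_not.2 h0), hg]
      simp only [h0, zero_smul]
    · rw [if_pos h0]
  have hSl : ∀ T ∈ S, T ⊆ P ∧ P.card ≤ T.card + ℓ := by
    intro T hT
    have h1 := hc T (Finset.mem_filter.1 hT).2
    refine ⟨h1.1, ?_⟩
    have h3 : (P.card : ℝ) ≤ ((T.card + ℓ : ℕ) : ℝ) := by
      push_cast
      linarith [h1.2]
    exact_mod_cast h3
  have hScard : S.card ≤ m' := by
    refine le_trans (Finset.card_le_card ?_) (hm P)
    intro T hT
    rw [Finset.mem_filter, Finset.mem_powerset]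
    exact hSl T hT
  obtain ⟨l', h1, h3, h4⟩ := step_list l S g M
  refine ⟨ρ * τ, R * M + l.sum * (1 - ∑ T ∈ P.powerset, g T) * M, l', ?_, ?_, ?_, ?_⟩
  · rw [h1, hA, ← hsum, mul_sub, mul_one, sub_mul, add_mul]
    abel
  · have h5 : (R * M + l.sum * (1 - ∑ T ∈ P.powerset, g T) * M).rank ≤
        R.rank + (1 - ∑ T ∈ P.powerset, g T).rank := by
      refine le_trans (MP0775d3.Kron.rank_add_le _ _) (add_le_add (Matrix.rank_mul_le_left _ _) ?_)
      exact le_trans (Matrix.rank_mul_le_left _ _) (Matrix.rank_mul_le_right _ _)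
    have h6 : ((R * M + l.sum * (1 - ∑ T ∈ P.powerset, g T) * M).rank : ℝ) ≤
        (R.rank : ℝ) + ((1 - ∑ T ∈ P.powerset, g T).rank : ℝ) := by
      exact_mod_cast h5
    refine le_trans h6 (add_le_add hR hrank)
  · rw [h3]
    exact Nat.mul_le_mul hl hScard
  · intro B' hB'
    obtain ⟨B, hB, T, hT, rfl⟩ := h4 B' hB'
    exact step_good hP hτ' (hgood B hB) hM (hSl T hT).1 (hSl T hT).2 (c T)

end MP0775d3.Bf
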