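import Pool.Agent.Lib.MP_0775d3_lc.Bf.Step

/-! Iteration of the merging step, and the final sparse count. -/

set_option linter.unusedSectionVars false
set_option linter.unusedVariables false

namespace MP0775d3.Bf

open Matrix MP0775d3.Kron

variable {F : Type*} [Field F] {ι : Type*} [Fintype ι] [DecidableEq ι]

private theorem State.mono' {ρ : Equiv.Perm ι} {Y : Finset ι} {e f m e' f' m' : ℕ} {r r' : ℝ}
    {A : Matrix (ι → Bool) (ι → Bool) F} (h : State ρ Y e f m r A) (he : e ≤ e') (hf : f ≤ f')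
    (hm : m ≤ m') (hr : r ≤ r') : State ρ Y e' f' m' r' A := by
  obtain ⟨R, l, h1, h2, h3, h4⟩ := h
  refine ⟨R, l, h1, h2.trans hr, h3.trans hm, fun B hB => ?_⟩
  obtain ⟨σ, U, h5, h6, h7⟩ := h4 B hB
  exact ⟨σ, U, h5, h6.trans he, h7.trans hf⟩

theorem steps (h2 : (2 : F) ≠ 0) (Y : Finset ι) (η : ℝ) (hη : 0 < η) (hη1 : η ≤ 1)
    (ℓ m' : ℕ) (hℓ : 2 * η * Fintype.card ι ≤ ℓ)
    (hm : ∀ P : Finset ι, (P.powerset.filter fun T => P.card ≤ T.card + ℓ).card ≤ m')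
    (t : ℕ) (Z : Fin t → Finset ι) (hZ : ∀ j, (Z j).card ≤ Y.card)
    (M : Fin t → Matrix (ι → Bool) (ι → Bool) F) (hM : ∀ j, Act 1 (Z j) (M j)) :
    ∃ ρ : Equiv.Perm ι, State ρ Y (2 * ℓ * t) (2 * ℓ * t ^ 2) (m' ^ t)
      (t * (2 * 2 ^ Fintype.card ι * Real.exp (-(η ^ 2 * Fintype.card ι / 16))))
      (List.ofFn M).prod := by
  induction t with
  | zero =>
    refine ⟨1, ?_⟩
    rw [List.ofFn_zero, List.prod_nil]
    exact (state_one Y).mono' (Nat.zero_le _) (Nat.zero_le _) (by rw [pow_zero])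
      (by rw [Nat.cast_zero, zero_mul])
  | succ t ih =>
    obtain ⟨ρ, h⟩ := ih (fun j => Z j.castSucc) (fun j => hZ _) (fun j => M j.castSucc)
      (fun j => hM _)
    obtain ⟨ρ', h'⟩ := step h2 Y (Z (Fin.last t)) (hZ _) (M (Fin.last t)) (hM _) η hη hη1 ℓ m' hℓ
      hm h
    refine ⟨ρ', ?_⟩
    rw [List.ofFn_succ', List.concat_eq_append, List.prod_append, List.prod_singleton]
    refine h'.mono' (le_of_eq (by ring)) ?_ (le_of_eq (pow_succ _ _).symm) (le_of_eq ?_)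
    · have e1 : 2 * ℓ * (t + 1) ^ 2 = 2 * ℓ * t ^ 2 + (2 * ℓ * t + 2 * ℓ) + 2 * ℓ * t := by ring
      rw [e1]
      exact Nat.le_add_right _ _
    · push_cast
      ring

theorem State.dec {ρ : Equiv.Perm ι} {Y : Finset ι} {e f m : ℕ} {r : ℝ}
    {A : Matrix (ι → Bool) (ι → Bool) F} (h : State ρ Y e f m r A) :
    Dec A r (m * 2 ^ (Y.card + f)) := by
  obtain ⟨R, l, h1, h2, h3, h4⟩ := h
  refine ⟨R, l.sum, h1, h2, ?_⟩
  have h5 : ∀ B ∈ l, Sparse B ((2 : ℝ) ^ (Y.card + f)) := by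
    intro B hB
    obtain ⟨σ, U, h6, -, h7⟩ := h4 B hB
    refine h6.sparse.mono ?_
    refine pow_le_pow_right₀ one_le_two ?_
    have h8 : U.card ≤ (U \ Y).card + Y.card := by
      have h9 : U ⊆ (U \ Y) ∪ Y := by
        intro x hx
        by_cases hxY : x ∈ Y
        · exact Finset.mem_union_right _ hxY
        · exact Finset.mem_union_left _ (Finset.mem_sdiff.2 ⟨hx, hxY⟩)
      exact (Finset.card_le_card h9).trans (Finset.card_union_le _ _)
    omega
  refine (sparse_list_sum l _ h5).mono ?_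
  exact mul_le_mul_of_nonneg_right (by exact_mod_cast h3) (by positivity)

end MP0775d3.Bf
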