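import Pool.Agent.Lib.MP_0775d3_lc.Bf.ValSum

/-! The product tree: `c ↦ ∑ j, c j * ∏_{j' ≠ j} p j'` (coefficients) is a product of `K` levels.

PROOF of `tr_eq`. By induction on `s ≤ K` the product `lev (s - 1) * ... * lev 0` is the matrix
`(x, j) ↦` coefficient `lv s x` of `∏_{j' ≠ j, Hi s j' j} p j'` if `Hi s x j`, and `0` otherwise.
Step: `(lev s * this) (x, j)` is a sum over `y` with `Hi (s + 1) x y`, `Hi s y j`, i.e. over the low
digits of `y`, so by `sum_lv` it is `∑_{m < B^s} Q.coeff (lv (s+1) x - m) * R.coeff m`,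
`Q = ∏_{Hi (s+1) j' j, j' s ≠ j s} p j'`, `R = ∏_{j' ≠ j, Hi s j' j} p j'`; `R` has degree
`≤ B ^ s - 1` (number of factors), and `Q * R = ∏_{j' ≠ j, Hi (s+1) j' j} p j'`. -/

set_option linter.unusedSectionVars false
set_option linter.unusedVariables false

namespace MP0775d3.Bf

open Matrix MP0775d3.Kron Polynomial

variable {F : Type*} [Field F] {K B : ℕ}

/-- Coefficient `lv K x` of `∏_{j' ≠ j} p j'`. -/
noncomputable def tr (p : (Fin K → Fin B) → F[X]) :
    Matrix (Fin K → Fin B) (Fin K → Fin B) F :=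
  fun x j => (∏ j' ∈ Finset.univ.erase j, p j').coeff (lv K x)

/-- One level of the tree: from blocks of `s` low digits to blocks of `s + 1` low digits. -/
noncomputable def lev (p : (Fin K → Fin B) → F[X]) (s : Fin K) :
    Matrix (Fin K → Fin B) (Fin K → Fin B) F :=
  fun x y => if Hi (s.val + 1) x y ∧ lv s.val y ≤ lv (s.val + 1) x then
    (∏ j' ∈ Finset.univ.filter (fun j' : Fin K → Fin B => Hi (s.val + 1) j' x ∧ j' s ≠ y s),
      p j').coeff (lv (s.val + 1) x - lv s.val y) else 0

/-- The partial product of the levels. -/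
private noncomputable def trP (p : (Fin K → Fin B) → F[X]) (s : ℕ) :
    Matrix (Fin K → Fin B) (Fin K → Fin B) F :=
  fun x j => if Hi s x j then
    (∏ j' ∈ Finset.univ.filter (fun j' : Fin K → Fin B => Hi s j' j ∧ j' ≠ j), p j').coeff
      (lv s x) else 0

private theorem tree_zero (p : (Fin K → Fin B) → F[X]) : trP p 0 = 1 := by
  ext x j
  unfold trP
  rw [Matrix.one_apply]
  by_cases h : x = j
  · rw [if_pos (hi_zero.2 h), if_pos h, lv_zero]
    have h1 : Finset.univ.filter (fun j' : Fin K → Fin B => Hi 0 j' j ∧ j' ≠ j) = ∅ := by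
      refine Finset.filter_eq_empty_iff.2 fun j' _ hj => ?_
      exact hj.2 (hi_zero.1 hj.1)
    rw [h1, Finset.prod_empty, Polynomial.coeff_one_zero]
  · rw [if_neg (fun h' => h (hi_zero.1 h')), if_neg h]

private theorem tree_top (p : (Fin K → Fin B) → F[X]) : trP p K = tr p := by
  ext x j
  unfold trP tr
  rw [if_pos (hi_top x j)]
  have h1 : Finset.univ.filter (fun j' : Fin K → Fin B => Hi K j' j ∧ j' ≠ j) =
      Finset.univ.erase j := by
    ext j'
    rw [Finset.mem_filter, Finset.mem_erase]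
    constructor
    · rintro ⟨h2, h3, h4⟩
      exact ⟨h4, h2⟩
    · rintro ⟨h2, h3⟩
      exact ⟨h3, hi_top j' j, h2⟩
  rw [h1]

private theorem tree_card {s : ℕ} (hs : s ≤ K) (j : Fin K → Fin B) :
    (Finset.univ.filter (fun j' : Fin K → Fin B => Hi s j' j ∧ j' ≠ j)).card < B ^ s := by
  have h1 := sum_lv hs j (fun _ => (1 : ℕ))
  rw [Finset.sum_const, Finset.sum_const, Finset.card_range, smul_eq_mul, smul_eq_mul, mul_one,
    mul_one] at h1
  rw [← h1]
  refine Finset.card_lt_card ⟨fun j' hj => ?_, fun h => ?_⟩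
  · rw [Finset.mem_filter] at hj ⊢
    exact ⟨hj.1, hj.2.1⟩
  · have h2 := h (Finset.mem_filter.2 ⟨Finset.mem_univ j, Hi.refl s j⟩)
    rw [Finset.mem_filter] at h2
    exact h2.2.2 rfl

private theorem tree_deg (p : (Fin K → Fin B) → F[X]) (hp : ∀ j, (p j).natDegree ≤ 1) {s : ℕ}
    (hs : s ≤ K) (j : Fin K → Fin B) {m : ℕ} (hm : B ^ s ≤ m) :
    (∏ j' ∈ Finset.univ.filter (fun j' : Fin K → Fin B => Hi s j' j ∧ j' ≠ j), p j').coeff m =
      0 := by
  refine Polynomial.coeff_eq_zero_of_natDegree_lt ?_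
  refine lt_of_le_of_lt (Polynomial.natDegree_prod_le _ _) ?_
  refine lt_of_le_of_lt (Finset.sum_le_sum fun j' _ => hp j') ?_
  rw [Finset.sum_const, smul_eq_mul, mul_one]
  exact (tree_card hs j).trans_le hm

private theorem tree_coeff (Q R : F[X]) (n N : ℕ) (hR : ∀ m, N ≤ m → R.coeff m = 0) :
    ∑ m ∈ Finset.range N, (if m ≤ n then Q.coeff (n - m) * R.coeff m else 0) =
      (Q * R).coeff n := by
  rw [mul_comm Q R, Polynomial.coeff_mul,
    Finset.Nat.sum_antidiagonal_eq_sum_range_succ_mk (fun ij => R.coeff ij.1 * Q.coeff ij.2) n]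
  have h1 : ∑ m ∈ Finset.range N, (if m ≤ n then Q.coeff (n - m) * R.coeff m else 0) =
      ∑ m ∈ Finset.range (N + n.succ), (if m ≤ n then Q.coeff (n - m) * R.coeff m else 0) := by
    refine Finset.sum_subset (Finset.range_mono (Nat.le_add_right _ _)) fun m _ hm => ?_
    rw [Finset.mem_range, not_lt] at hm
    rw [hR m hm, mul_zero, ite_self]
  have h2 : ∑ m ∈ Finset.range n.succ, (if m ≤ n then Q.coeff (n - m) * R.coeff m else 0) =
      ∑ m ∈ Finset.range (N + n.succ), (if m ≤ n then Q.coeff (n - m) * R.coeff m else 0) := by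
    refine Finset.sum_subset (Finset.range_mono (Nat.le_add_left _ _)) fun m _ hm => ?_
    rw [Finset.mem_range, not_lt] at hm
    rw [if_neg (by omega)]
  rw [h1, ← h2]
  refine Finset.sum_congr rfl fun m hm => ?_
  rw [Finset.mem_range] at hm
  rw [if_pos (by omega), mul_comm]

private theorem tree_step (p : (Fin K → Fin B) → F[X]) (hp : ∀ j, (p j).natDegree ≤ 1)
    (s : Fin K) : lev p s * trP p s.val = trP p (s.val + 1) := by
  ext x j
  rw [Matrix.mul_apply]
  by_cases hx : Hi (s.val + 1) x j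
  swap
  · have h1 : trP p (s.val + 1) x j = 0 := by
      unfold trP
      rw [if_neg hx]
    rw [h1]
    refine Finset.sum_eq_zero fun y _ => ?_
    unfold lev trP
    by_cases h2 : Hi (s.val + 1) x y ∧ lv s.val y ≤ lv (s.val + 1) x
    · by_cases h3 : Hi s.val y j
      · exact absurd (h2.1.trans (h3.mono (Nat.le_succ _))) hx
      · rw [if_neg h3, mul_zero]
    · rw [if_neg h2, zero_mul]
  obtain ⟨Q, hQ⟩ : ∃ Q : F[X], Q = ∏ j' ∈ Finset.univ.filter
      (fun j' : Fin K → Fin B => Hi (s.val + 1) j' j ∧ j' s ≠ j s), p j' := ⟨_, rfl⟩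
  obtain ⟨R, hR⟩ : ∃ R : F[X], R = ∏ j' ∈ Finset.univ.filter
      (fun j' : Fin K → Fin B => Hi s.val j' j ∧ j' ≠ j), p j' := ⟨_, rfl⟩
  obtain ⟨n, hn⟩ : ∃ n, n = lv (s.val + 1) x := ⟨_, rfl⟩
  have key : ∀ y : Fin K → Fin B, lev p s x y * trP p s.val y j =
      if Hi s.val y j then (if lv s.val y ≤ n then Q.coeff (n - lv s.val y) *
        R.coeff (lv s.val y) else 0) else 0 := by
    intro y
    unfold lev trP
    by_cases h3 : Hi s.val y j
    · rw [if_pos h3, if_pos h3, ← hR, ← hn]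
      have h4 : Hi (s.val + 1) x y := hx.trans ((h3.mono (Nat.le_succ _)).symm)
      have h5 : y s = j s := h3 s le_rfl
      have h6 : Finset.univ.filter (fun j' : Fin K → Fin B =>
          Hi (s.val + 1) j' x ∧ j' s ≠ y s) = Finset.univ.filter
          (fun j' : Fin K → Fin B => Hi (s.val + 1) j' j ∧ j' s ≠ j s) := by
        refine Finset.filter_congr fun j' _ => ?_
        rw [h5]
        exact and_congr_left' ⟨fun h => h.trans hx, fun h => h.trans hx.symm⟩
      by_cases h7 : lv s.val y ≤ n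
      · rw [if_pos ⟨h4, h7⟩, if_pos h7, h6, ← hQ]
      · rw [if_neg (fun h => h7 h.2), if_neg h7, zero_mul]
    · rw [if_neg h3, if_neg h3, mul_zero]
  rw [Finset.sum_congr rfl fun y _ => key y, ← Finset.sum_filter,
    sum_lv (le_of_lt s.isLt) j
      (fun m => if m ≤ n then Q.coeff (n - m) * R.coeff m else 0),
    tree_coeff Q R n (B ^ s.val) (fun m hm => by
      rw [hR]
      exact tree_deg p hp (le_of_lt s.isLt) j hm)]
  unfold trP
  rw [if_pos hx, ← hn, hQ, hR, ← Finset.prod_union]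
  · congr 1
    refine Finset.prod_congr ?_ fun _ _ => rfl
    ext j'
    rw [Finset.mem_union, Finset.mem_filter, Finset.mem_filter, Finset.mem_filter]
    constructor
    · rintro (⟨h1, h2, h3⟩ | ⟨h1, h2, h3⟩)
      · refine ⟨h1, h2, ?_⟩
        rintro rfl
        exact h3 rfl
      · exact ⟨h1, h2.mono (Nat.le_succ _), h3⟩
    · rintro ⟨h1, h2, h3⟩
      by_cases h4 : j' s = j s
      · exact Or.inr ⟨h1, (hi_step s j' j).2 ⟨h2, h4⟩, h3⟩
      · exact Or.inl ⟨h1, h2, h4⟩
  · rw [Finset.disjoint_left]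
    intro j' h1 h2
    rw [Finset.mem_filter] at h1 h2
    exact h1.2.2 (h2.2.1 s le_rfl)

open Classical in
private theorem tree_list (p : (Fin K → Fin B) → F[X]) (hp : ∀ j, (p j).natDegree ≤ 1) (t : ℕ)
    (ht : t ≤ K) : (List.ofFn fun s : Fin t =>
      if h : t - 1 - s.val < K then lev p ⟨t - 1 - s.val, h⟩ else 1).prod = trP p t := by
  induction t with
  | zero => rw [List.ofFn_zero, List.prod_nil, tree_zero]
  | succ t ih =>
    rw [List.ofFn_succ, List.prod_cons]
    have h1 : (List.ofFn fun i : Fin t => if h : t + 1 - 1 - i.succ.val < K then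
        lev p ⟨t + 1 - 1 - i.succ.val, h⟩ else 1) = List.ofFn fun s : Fin t =>
        if h : t - 1 - s.val < K then lev p ⟨t - 1 - s.val, h⟩ else 1 := by
      refine congrArg List.ofFn (funext fun i => ?_)
      have h2 : t + 1 - 1 - i.succ.val = t - 1 - i.val := by
        rw [Fin.val_succ]
        omega
      simp only [h2]
    rw [h1, ih (by omega)]
    have h3 : t + 1 - 1 - (0 : Fin (t + 1)).val = t := by
      rw [Fin.val_zero]
      omega
    simp only [h3]
    rw [dif_pos (by omega)]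
    exact tree_step p hp ⟨t, by omega⟩

theorem tr_eq (p : (Fin K → Fin B) → F[X]) (hp : ∀ j, (p j).natDegree ≤ 1) :
    tr p = (List.ofFn fun s : Fin K => lev p s.rev).prod := by
  classical
  rw [← tree_top, ← tree_list p hp K le_rfl]
  congr 2
  funext s
  have h : K - 1 - s.val < K := by
    have := s.isLt
    omega
  rw [dif_pos h]
  congr 1
  apply Fin.ext
  rw [Fin.val_rev]
  change K - 1 - s.val = _
  omega

end MP0775d3.Bf
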