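import Pool.Agent.Lib.MP_0775d3_lc.Bf.TreeLay
import Pool.Agent.Lib.MP_0775d3_lc.Bf.Sub

/-! Product tree of arbitrary size `n` over `ℂ`.

PROOF. `exists_base` with `t K = K (2 K + 3)`, `s K = 2 ^ K`, `e = 0`, `E = Unit`; pad `p` by the
constant polynomial `1` outside the image of `exists_digitsInj`. -/

set_option linter.unusedSectionVars false
set_option linter.unusedVariables false

namespace MP0775d3.Bf

open Matrix MP0775d3.Kron Polynomial

private theorem treeDec_prod {Y : Type*} [Fintype Y] [DecidableEq Y] {n : ℕ} (d : Fin n → Y)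
    (hd : Function.Injective d) (p : Fin n → ℂ[X]) (j : Fin n) :
    ∏ x ∈ Finset.univ.erase (d j), Function.extend d p (fun _ => 1) x =
      ∏ j' ∈ Finset.univ.erase j, p j' := by
  have h1 : (Finset.univ.erase j).image d ⊆ Finset.univ.erase (d j) := by
    intro x hx
    obtain ⟨i, hi, rfl⟩ := Finset.mem_image.1 hx
    rw [Finset.mem_erase] at hi ⊢
    exact ⟨fun h => hi.1 (hd h), Finset.mem_univ _⟩
  rw [← Finset.prod_subset h1, Finset.prod_image (fun a _ b _ h => hd h)]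
  · exact Finset.prod_congr rfl fun i _ => hd.extend_apply _ _ _
  · intro x hx hx2
    apply Function.extend_apply'
    rintro ⟨i, rfl⟩
    apply hx2
    rw [Finset.mem_image]
    refine ⟨i, ?_, rfl⟩
    rw [Finset.mem_erase] at hx ⊢
    exact ⟨fun h => hx.1 (by rw [h]), Finset.mem_univ _⟩

theorem tree_dec (δ : ℝ) (hδ : 0 < δ) : ∃ γ : ℝ, 0 < γ ∧ ∃ n₀ : ℕ, ∀ n : ℕ, n₀ ≤ n →
    ∀ p : Fin n → ℂ[X], (∀ j, (p j).natDegree ≤ 1) →
      Dec (Matrix.of fun m j : Fin n => (∏ j' ∈ Finset.univ.erase j, p j').coeff m.val)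
        ((n : ℝ) ^ (1 - γ)) ((n : ℝ) ^ δ) := by
  obtain ⟨K, hK, γ, hγ, n₀, hn₀⟩ := exists_base δ hδ (fun K => K * (2 * K + 3)) (fun K => 2 ^ K) 0
  refine ⟨γ, hγ, n₀, fun n hn p hp => ?_⟩
  obtain ⟨b, hb, key⟩ := hn₀ n hn
  obtain ⟨d, hd, hd2⟩ := exists_digitsInj K (2 ^ b) n hb
  have hP : ∀ x, (Function.extend d p (fun _ => (1 : ℂ[X])) x).natDegree ≤ 1 := by
    intro x
    by_cases hx : ∃ a, d a = x
    · obtain ⟨a, rfl⟩ := hx
      rw [hd.extend_apply]
      exact hp a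
    · rw [Function.extend_apply' _ _ _ hx]
      simp
  have hl := tree_lay (K := K) (B := 2 ^ b) (Nat.pos_of_ne_zero (by positivity))
    (Function.extend d p (fun _ => (1 : ℂ[X]))) hP
  have h := key Unit (by simp) ℂ two_ne_zero _ hl (fun m => (d m, ())) (fun m => (d m, ()))
    (fun x y h => hd (Prod.ext_iff.1 h).1) (fun x y h => hd (Prod.ext_iff.1 h).1)
  have he : (Matrix.of fun m j : Fin n => (∏ j' ∈ Finset.univ.erase j, p j').coeff m.val) =
      Matrix.submatrix (fun x y => tr (Function.extend d p (fun _ => (1 : ℂ[X]))) x.1 y.1 :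
        Matrix (Dg K (2 ^ b) Unit) (Dg K (2 ^ b) Unit) ℂ) (fun m : Fin n => (d m, ()))
        (fun m : Fin n => (d m, ())) := by
    ext m j
    simp only [Matrix.of_apply, Matrix.submatrix_apply, tr]
    rw [hd2, treeDec_prod d hd p j]
  rw [he]
  exact h

end MP0775d3.Bf
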