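import Pool.Agent.Lib.MP_0775d3_lc.Bf.Tree
import Pool.Agent.Lib.MP_0775d3_lc.Bf.Toep

/-! The product tree is layered. -/

set_option linter.unusedSectionVars false
set_option linter.unusedVariables false

namespace MP0775d3.Bf

open Matrix MP0775d3.Kron Polynomial

variable {K B : ℕ}

/-- A level is Toeplitz in the lower digits: `toep_lay` with
`T x y _ _ u = coeff (x s * B ^ s + u)`. -/
theorem lev_lay (hB : 0 < B) (p : (Fin K → Fin B) → ℂ[X]) (s : Fin K) :
    Lay (2 * K + 3) 2 (fun x y => lev p s x.1 y.1 :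
      Matrix (Dg K B Unit) (Dg K B Unit) ℂ) := by
  classical
  have hK : 0 < K := lt_of_le_of_lt (Nat.zero_le _) s.isLt
  have h := toep_lay (E := Unit) hK hB (s := s.val) s.isLt.le
    (fun x y _ _ u => if Hi (s.val + 1) x y ∧ 0 ≤ (((x s).val * B ^ s.val : ℕ) : ℤ) + u then
      (∏ j' ∈ Finset.univ.filter (fun j' : Fin K → Fin B => Hi (s.val + 1) j' x ∧ j' s ≠ y s),
        p j').coeff ((((x s).val * B ^ s.val : ℕ) : ℤ) + u).toNat else 0)
    (by
      intro x x' y y' e e' u hx hy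
      have h1 : Hi (s.val + 1) x x' := hx.mono (Nat.le_succ _)
      have h2 : Hi (s.val + 1) y y' := hy.mono (Nat.le_succ _)
      have h3 : x s = x' s := hx s le_rfl
      have h4 : y s = y' s := hy s le_rfl
      have h5 : Hi (s.val + 1) x y ↔ Hi (s.val + 1) x' y' :=
        ⟨fun h => h1.symm.trans (h.trans h2), fun h => h1.trans (h.trans h2.symm)⟩
      have h6 : ∀ j' : Fin K → Fin B, Hi (s.val + 1) j' x ↔ Hi (s.val + 1) j' x' := fun j' =>
        ⟨fun h => h.trans h1, fun h => h.trans h1.symm⟩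
      simp only [h3, h4, h5, h6])
    (by
      intro x y e e' u hne
      by_contra hcon
      exact hne (if_neg fun h => hcon h.1))
  have he : (fun x y => lev p s x.1 y.1 : Matrix (Dg K B Unit) (Dg K B Unit) ℂ) =
      (fun x y => (fun (x y : Fin K → Fin B) (_ _ : Unit) (u : ℤ) =>
        if Hi (s.val + 1) x y ∧ 0 ≤ (((x s).val * B ^ s.val : ℕ) : ℤ) + u then
      (∏ j' ∈ Finset.univ.filter (fun j' : Fin K → Fin B => Hi (s.val + 1) j' x ∧ j' s ≠ y s),
        p j').coeff ((((x s).val * B ^ s.val : ℕ) : ℤ) + u).toNat else 0) x.1 y.1 x.2 y.2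
          ((lv s.val x.1 : ℤ) - lv s.val y.1)) := by
    funext x y
    simp only [lev]
    have h1 : (((x.1 s).val * B ^ s.val : ℕ) : ℤ) + ((lv s.val x.1 : ℤ) - lv s.val y.1) =
        (lv (s.val + 1) x.1 : ℤ) - lv s.val y.1 := by
      rw [lv_succ s x.1]
      push_cast
      ring
    rw [h1]
    by_cases h2 : lv s.val y.1 ≤ lv (s.val + 1) x.1
    · have h3 : (0 : ℤ) ≤ (lv (s.val + 1) x.1 : ℤ) - lv s.val y.1 := by
        have : (lv s.val y.1 : ℤ) ≤ lv (s.val + 1) x.1 := by exact_mod_cast h2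
        linarith
      have h4 : ((lv (s.val + 1) x.1 : ℤ) - lv s.val y.1).toNat =
          lv (s.val + 1) x.1 - lv s.val y.1 := by omega
      rw [h4]
      simp only [h2, h3, and_true]
    · have h3 : ¬ (0 : ℤ) ≤ (lv (s.val + 1) x.1 : ℤ) - lv s.val y.1 := by
        have : (lv (s.val + 1) x.1 : ℤ) < lv s.val y.1 := by exact_mod_cast not_le.1 h2
        linarith
      rw [if_neg (fun h => h2 h.2), if_neg (fun h => h3 h.2)]
  rw [he]
  exact h.mono (by have := s.isLt; omega) le_rfl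

theorem tree_lay (hB : 0 < B) (p : (Fin K → Fin B) → ℂ[X]) (hp : ∀ j, (p j).natDegree ≤ 1) :
    Lay (K * (2 * K + 3)) (2 ^ K) (fun x y => tr p x.1 y.1 :
      Matrix (Dg K B Unit) (Dg K B Unit) ℂ) := by
  classical
  obtain ⟨L, hL⟩ : ∃ L : Fin K → Matrix (Dg K B Unit) (Dg K B Unit) ℂ,
      L = fun s x y => lev p s.rev x.1 y.1 := ⟨_, rfl⟩
  have h := lay_list_prod (List.ofFn L) (t := 2 * K + 3) (s := 2) (by
      intro A hA
      rw [List.mem_ofFn] at hA
      obtain ⟨s, rfl⟩ := hA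
      rw [hL]
      exact lev_lay hB p s.rev)
  rw [List.length_ofFn] at h
  have he : (fun x y => tr p x.1 y.1 : Matrix (Dg K B Unit) (Dg K B Unit) ℂ) =
      (List.ofFn L).prod := by
    have h1 := congrArg
      (Matrix.reindexAlgEquiv ℂ ℂ (Equiv.prodPUnit.{0, 0} (Fin K → Fin B)).symm) (tr_eq p hp)
    rw [map_list_prod, List.map_ofFn] at h1
    have h2 : (⇑(Matrix.reindexAlgEquiv ℂ ℂ (Equiv.prodPUnit.{0, 0} (Fin K → Fin B)).symm) ∘
        fun s => lev p s.rev) = L := by
      rw [hL]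
      rfl
    rw [h2] at h1
    exact h1
  rw [he]
  exact h

end MP0775d3.Bf
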