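import Pool.Agent.Lib.MP_0775d3_lc.Bf.Val

/-! Sums over the low digits, and the phase of the digit reversed Fourier transform. -/

set_option linter.unusedSectionVars false
set_option linter.unusedVariables false

namespace MP0775d3.Bf

variable {K B : ℕ}

private theorem valSum_aux {M : Type*} [AddCommMonoid M] {s : ℕ} (hs : s ≤ K)
    (z : Fin K → Fin B) (f : ℕ → M) (v : (Fin K → Fin B) → ℕ) (hlt : ∀ x, v x < B ^ s)
    (hinj : ∀ x y, Hi s x y → v x = v y → x = y) :
    ∑ x ∈ Finset.univ.filter (fun x : Fin K → Fin B => Hi s x z), f (v x) =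
      ∑ m ∈ Finset.range (B ^ s), f m := by
  classical
  have hinj' : Set.InjOn v (Finset.univ.filter (fun x : Fin K → Fin B => Hi s x z) :
      Finset (Fin K → Fin B)) := by
    intro x hx y hy h
    simp only [Finset.coe_filter, Finset.mem_univ, true_and, Set.mem_ofPred_eq] at hx hy
    exact hinj x y (hx.trans hy.symm) h
  have hcard : B ^ s ≤ (Finset.univ.filter (fun x : Fin K → Fin B => Hi s x z)).card := by
    have h1 : (Finset.univ : Finset (Fin s → Fin B)).card = B ^ s := by
      rw [Finset.card_univ, Fintype.card_fun, Fintype.card_fin, Fintype.card_fin]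
    rw [← h1]
    refine Finset.card_le_card_of_injOn
      (fun g : Fin s → Fin B => fun i : Fin K => if h : i.val < s then g ⟨i.val, h⟩ else z i) ?_ ?_
    · intro g _
      simp only [Finset.coe_filter, Finset.mem_univ, true_and, Set.mem_ofPred_eq]
      intro i hi
      exact dif_neg (by omega)
    · intro g _ g' _ h
      funext i
      have h2 := congrFun h ⟨i.val, lt_of_lt_of_le i.isLt hs⟩
      simp only [i.isLt, dif_pos] at h2
      exact h2
  have himg : (Finset.univ.filter (fun x : Fin K → Fin B => Hi s x z)).image v =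
      Finset.range (B ^ s) := by
    refine Finset.eq_of_subset_of_card_le ?_ ?_
    · intro m hm
      obtain ⟨x, _, rfl⟩ := Finset.mem_image.1 hm
      exact Finset.mem_range.2 (hlt x)
    · rw [Finset.card_range, Finset.card_image_of_injOn hinj']
      exact hcard
  rw [← himg, Finset.sum_image hinj']

/-- Sum over the strings with fixed high digits as a sum over the value. -/
theorem sum_lv {M : Type*} [AddCommMonoid M] {s : ℕ} (hs : s ≤ K) (z : Fin K → Fin B)
    (f : ℕ → M) :
    ∑ x ∈ Finset.univ.filter (fun x : Fin K → Fin B => Hi s x z), f (lv s x) =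
      ∑ m ∈ Finset.range (B ^ s), f m :=
  valSum_aux hs z f (lv s) (fun x => lv_lt hs x) (fun x y h h' => lv_inj h h')
theorem sum_rv {M : Type*} [AddCommMonoid M] {s : ℕ} (hs : s ≤ K) (z : Fin K → Fin B)
    (f : ℕ → M) :
    ∑ x ∈ Finset.univ.filter (fun x : Fin K → Fin B => Hi s x z), f (rv s x) =
      ∑ m ∈ Finset.range (B ^ s), f m :=
  valSum_aux hs z f (rv s) (fun x => rv_lt hs x) (fun x y h h' => rv_inj hs h h')

private theorem valSum_split {s : ℕ} (a : ℕ) (ha : a < s) (y : Fin K → Fin B) :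
    lv s y = lv (a + 1) y + B ^ (a + 1) *
      ∑ b : Fin K, if a < b.val ∧ b.val < s then (y b).val * B ^ (b.val - (a + 1)) else 0 := by
  unfold lv
  rw [Finset.mul_sum, ← Finset.sum_add_distrib]
  refine Finset.sum_congr rfl fun b _ => ?_
  by_cases h1 : b.val < a + 1
  · rw [if_pos (by omega), if_pos h1, if_neg (by omega), Nat.mul_zero, Nat.add_zero]
  · rw [if_neg h1, Nat.zero_add]
    by_cases h2 : b.val < s
    · rw [if_pos h2, if_pos ⟨by omega, h2⟩]
      have h3 : B ^ b.val = B ^ (a + 1) * B ^ (b.val - (a + 1)) := by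
        rw [← pow_add]
        congr 1
        omega
      rw [h3]
      ring
    · rw [if_neg h2, if_neg (fun h => h2 h.2), Nat.mul_zero]

/-- `rv s x * lv s y / B ^ s` is `∑_{a < s} x a * lv (a + 1) y / B ^ (a + 1)` modulo 1. -/
theorem rv_mul_lv {s : ℕ} (hs : s ≤ K) (hB : 0 < B) (x y : Fin K → Fin B) :
    ∃ z : ℤ, ((rv s x : ℝ) * lv s y) / (B : ℝ) ^ s =
      ∑ a : Fin K, (if a.val < s then
        ((x a).val : ℝ) * lv (a.val + 1) y / (B : ℝ) ^ (a.val + 1) else 0) + z := by
  refine ⟨∑ a : Fin K, if a.val < s then ((x a).val : ℤ) *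
    ((∑ b : Fin K, if a.val < b.val ∧ b.val < s then
      (y b).val * B ^ (b.val - (a.val + 1)) else 0 : ℕ) : ℤ) else 0, ?_⟩
  have hB0 : (B : ℝ) ≠ 0 := by
    have : (0 : ℝ) < B := by exact_mod_cast hB
    exact this.ne'
  rw [Int.cast_sum, ← Finset.sum_add_distrib]
  have h1 : (rv s x : ℝ) = ∑ a : Fin K,
      (if a.val < s then ((x a).val : ℝ) * (B : ℝ) ^ (s - 1 - a.val) else 0) := by
    unfold rv
    rw [Nat.cast_sum]
    refine Finset.sum_congr rfl fun a _ => ?_
    split_ifs
    · push_cast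
      rfl
    · exact Nat.cast_zero
  rw [h1, Finset.sum_mul, Finset.sum_div]
  refine Finset.sum_congr rfl fun a _ => ?_
  by_cases ha : a.val < s
  · rw [if_pos ha, if_pos ha, if_pos ha]
    have h2 := valSum_split (K := K) (B := B) (s := s) a.val ha y
    obtain ⟨q, hq⟩ : ∃ q : ℕ, q = ∑ b : Fin K, if a.val < b.val ∧ b.val < s then
      (y b).val * B ^ (b.val - (a.val + 1)) else 0 := ⟨_, rfl⟩
    rw [← hq] at h2
    rw [← hq, h2]
    have h3 : (B : ℝ) ^ s = (B : ℝ) ^ (s - 1 - a.val) * (B : ℝ) ^ (a.val + 1) := by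
      rw [← pow_add]
      congr 1
      omega
    rw [h3]
    push_cast
    have h4 : (B : ℝ) ^ (s - 1 - a.val) ≠ 0 := pow_ne_zero _ hB0
    have h5 : (B : ℝ) ^ (a.val + 1) ≠ 0 := pow_ne_zero _ hB0
    field_simp
  · rw [if_neg ha, if_neg ha, if_neg ha]
    simp

end MP0775d3.Bf
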