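import Pool.Agent.Lib.MP_0775d3_lc.Bf.Block
import Pool.Agent.Lib.MP_0775d3_lc.Bf.Sub

/-! Box circuits with width up to `n ^ (1 + γ)` (ancillas).

PROOF. `block` in size `m` with `δ`, `ε / 2` (if `m < n` there is no injection). `n ≤ m ≤ n ^ (1 + γ)`:
`n ^ δ ≤ m ^ δ` (so `IsBlock` is monotone), `m ^ (1 - γ₁) ≤ n ^ ((1 + γ) (1 - γ₁)) ≤ n ^ (1 - γ)` for
`γ ≤ γ₁ / 2`, and `m ^ (δ + ε / 2) ≤ n ^ (δ + ε)` for `γ (δ + ε / 2) ≤ ε / 2`. `Dec.sub`. -/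

set_option linter.unusedSectionVars false
set_option linter.unusedVariables false

namespace MP0775d3.Bf

open Matrix MP0775d3.Kron

private theorem width_mono {F : Type*} [Field F] {n : ℕ} {s s' : ℝ}
    {M : Matrix (Fin n) (Fin n) F} (h : IsBlock s M) (hs : s ≤ s') : IsBlock s' M := by
  obtain ⟨r, c, h1, h2, h3⟩ := h
  exact ⟨r, c, fun l => (h1 l).trans hs, fun l => (h2 l).trans hs, h3⟩

theorem width (δ ε : ℝ) (hδ : 0 < δ) (hε : 0 < ε) (t : ℕ) : ∃ γ : ℝ, 0 < γ ∧ ∃ n₀ : ℕ,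
    ∀ n : ℕ, n₀ ≤ n → ∀ m : ℕ, (m : ℝ) ≤ (n : ℝ) ^ (1 + γ) → ∀ (F : Type) [Field F],
      (2 : F) ≠ 0 → ∀ M : Fin t → Matrix (Fin m) (Fin m) F,
      (∀ j, IsBlock ((n : ℝ) ^ δ) (M j)) →
      ∀ f g : Fin n → Fin m, Function.Injective f → Function.Injective g →
        Dec ((List.ofFn M).prod.submatrix f g) ((n : ℝ) ^ (1 - γ)) ((n : ℝ) ^ (δ + ε)) := by
  obtain ⟨g, hg, N, h⟩ := block δ (ε / 2) hδ (half_pos hε) t
  have hde : 0 < δ + ε := add_pos hδ hε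
  set γ : ℝ := min (min (g / 2) (1 / 2)) (ε / (2 * (δ + ε))) with hγ
  have hγ0 : 0 < γ := lt_min (lt_min (half_pos hg) (by norm_num)) (by positivity)
  have hγg : γ ≤ g / 2 := (min_le_left _ _).trans (min_le_left _ _)
  have hγ1 : γ ≤ 1 / 2 := (min_le_left _ _).trans (min_le_right _ _)
  have hγe : γ * (δ + ε) ≤ ε / 2 := by
    have h1 : γ ≤ ε / (2 * (δ + ε)) := min_le_right _ _
    calc γ * (δ + ε) ≤ ε / (2 * (δ + ε)) * (δ + ε) := mul_le_mul_of_nonneg_right h1 hde.le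
      _ = ε / 2 := by field_simp
  refine ⟨γ, hγ0, max N 1, ?_⟩
  intro n hn m hm F _ h2 M hM f k hf hk
  have hnm : n ≤ m := by
    have := Fintype.card_le_of_injective f hf
    simpa using this
  have hn1 : 1 ≤ n := (le_max_right _ _).trans hn
  have hnR : (1 : ℝ) ≤ n := by exact_mod_cast hn1
  have hn0 : (0 : ℝ) < n := by linarith
  have hmR : (1 : ℝ) ≤ m := by exact_mod_cast hn1.trans hnm
  have hm0 : (0 : ℝ) ≤ m := by linarith
  have hnmR : (n : ℝ) ≤ m := by exact_mod_cast hnm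
  have hM' : ∀ j, IsBlock ((m : ℝ) ^ δ) (M j) := fun j =>
    width_mono (hM j) (Real.rpow_le_rpow hn0.le hnmR hδ.le)
  have hd := h m (((le_max_left _ _).trans hn).trans hnm) F h2 M hM'
  refine (Dec.sub hd hf hk).mono ?_ ?_
  · by_cases hg1 : g ≤ 1
    · calc (m : ℝ) ^ (1 - g) ≤ ((n : ℝ) ^ (1 + γ)) ^ (1 - g) :=
            Real.rpow_le_rpow hm0 hm (by linarith)
        _ = (n : ℝ) ^ ((1 + γ) * (1 - g)) := (Real.rpow_mul hn0.le _ _).symm
        _ ≤ (n : ℝ) ^ (1 - γ) := by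
            apply Real.rpow_le_rpow_of_exponent_le hnR
            nlinarith [mul_pos hγ0 hg]
    · have h1 : (m : ℝ) ^ (1 - g) ≤ 1 := Real.rpow_le_one_of_one_le_of_nonpos hmR (by linarith)
      exact h1.trans (Real.one_le_rpow hnR (by linarith))
  · calc (m : ℝ) ^ (δ + ε / 2) ≤ ((n : ℝ) ^ (1 + γ)) ^ (δ + ε / 2) :=
          Real.rpow_le_rpow hm0 hm (by positivity)
      _ = (n : ℝ) ^ ((1 + γ) * (δ + ε / 2)) := (Real.rpow_mul hn0.le _ _).symm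
      _ ≤ (n : ℝ) ^ (δ + ε) := by
          apply Real.rpow_le_rpow_of_exponent_le hnR
          nlinarith [mul_pos hγ0 hε]

end MP0775d3.Bf
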